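import Mathlib

/-!
# Tropical polynomials (helper17, MP_160e9b_an)

A *tropical polynomial* is a sequence `g : ℕ → ℝ` of nonnegative reals, zero from some point on and
not identically zero.  Its value at `t > 0` is `tv g t = max_i g i * t ^ i`; `lo g t` and `hi g t`
are the least and the greatest index at which the maximum is attained (the left and right
logarithmic derivatives of `tv g`).
-/

namespace Pool.Agent.Helper17.Berk

/-- `g` is a tropical polynomial. -/
structure TP (g : ℕ → ℝ) : Prop where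
  nonneg : ∀ i, 0 ≤ g i
  bdd : ∃ N, ∀ i, N < i → g i = 0
  pos : ∃ i, 0 < g i

/-- the value `max_i g i * t ^ i`. -/
noncomputable def tv (g : ℕ → ℝ) (t : ℝ) : ℝ := ⨆ i, g i * t ^ i

/-- least index attaining the maximum. -/
noncomputable def lo (g : ℕ → ℝ) (t : ℝ) : ℕ := sInf {i | g i * t ^ i = tv g t}

/-- greatest index attaining the maximum. -/
noncomputable def hi (g : ℕ → ℝ) (t : ℝ) : ℕ := sSup {i | g i * t ^ i = tv g t}

variable {g h : ℕ → ℝ} {s t t' : ℝ} {i j k : ℕ}

theorem bddAbove_tv (hg : TP g) (t : ℝ) : BddAbove (Set.range fun i => g i * t ^ i) := by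
  obtain ⟨N, hN⟩ := hg.bdd
  refine ((Set.finite_le_nat N).image (fun i => g i * t ^ i)|>.union
    (Set.finite_singleton 0)).bddAbove.mono ?_
  rintro _ ⟨i, rfl⟩
  by_cases hi : i ≤ N
  · exact Or.inl ⟨i, hi, rfl⟩
  · right; simp [hN i (by omega)]

theorem le_tv (hg : TP g) (t : ℝ) (i : ℕ) : g i * t ^ i ≤ tv g t :=
  le_ciSup (bddAbove_tv hg t) i

theorem tv_pos (hg : TP g) (ht : 0 < t) : 0 < tv g t := by
  obtain ⟨i, hi⟩ := hg.pos
  exact lt_of_lt_of_le (by positivity) (le_tv hg t i)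

theorem exists_eq_tv (hg : TP g) (t : ℝ) (ht : 0 ≤ t) : ∃ i, g i * t ^ i = tv g t := by
  obtain ⟨N, hN⟩ := hg.bdd
  obtain ⟨i, hi, hmax⟩ := Finset.exists_max_image (Finset.range (N + 1)) (fun i => g i * t ^ i)
    ⟨0, by simp⟩
  refine ⟨i, le_antisymm (le_tv hg t i) (ciSup_le fun j => ?_)⟩
  by_cases hj : j ≤ N
  · exact hmax j (by simp; omega)
  · rw [hN j (by omega), zero_mul]
    have := hg.nonneg i
    positivity

theorem lo_spec (hg : TP g) (ht : 0 ≤ t) : g (lo g t) * t ^ (lo g t) = tv g t :=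
  Nat.sInf_mem (s := {i | g i * t ^ i = tv g t}) (exists_eq_tv hg t ht)

theorem bddAbove_hi (hg : TP g) (ht : 0 < t) : BddAbove {i | g i * t ^ i = tv g t} := by
  obtain ⟨N, hN⟩ := hg.bdd
  refine ⟨N, fun i hi => ?_⟩
  by_contra hlt
  rw [Set.mem_ofPred_eq, hN i (by omega), zero_mul] at hi
  exact absurd hi.symm (tv_pos hg ht).ne'

theorem hi_spec (hg : TP g) (ht : 0 < t) : g (hi g t) * t ^ (hi g t) = tv g t :=
  Nat.sSup_mem (s := {i | g i * t ^ i = tv g t}) (exists_eq_tv hg t ht.le) (bddAbove_hi hg ht)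

theorem lo_le (h : g i * t ^ i = tv g t) : lo g t ≤ i := Nat.sInf_le h

theorem le_hi (hg : TP g) (ht : 0 < t) (h : g i * t ^ i = tv g t) : i ≤ hi g t :=
  le_csSup (bddAbove_hi hg ht) h

theorem lo_le_hi (hg : TP g) (ht : 0 < t) : lo g t ≤ hi g t := le_hi hg ht (lo_spec hg ht.le)

theorem lt_tv_of_lt_lo (hg : TP g) (hi : i < lo g t) : g i * t ^ i < tv g t :=
  lt_of_le_of_ne (le_tv hg t i) fun h => absurd (lo_le h) (by omega)

theorem lt_tv_of_hi_lt (hg : TP g) (ht : 0 < t) (hi' : hi g t < i) : g i * t ^ i < tv g t :=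
  lt_of_le_of_ne (le_tv hg t i) fun h => absurd (le_hi hg ht h) (by omega)

theorem lo_eq_of (h1 : g k * t ^ k = tv g t) (h2 : ∀ i < k, g i * t ^ i < tv g t) :
    lo g t = k := by
  refine le_antisymm (lo_le h1) ?_
  by_contra hlt
  push Not at hlt
  have : g (lo g t) * t ^ (lo g t) = tv g t :=
    Nat.sInf_mem (s := {i | g i * t ^ i = tv g t}) ⟨k, h1⟩
  exact absurd this (h2 _ hlt).ne

theorem hi_eq_of (hg : TP g) (ht : 0 < t) (h1 : g k * t ^ k = tv g t)
    (h2 : ∀ i, k < i → g i * t ^ i < tv g t) : hi g t = k := by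
  refine le_antisymm ?_ (le_hi hg ht h1)
  by_contra hlt
  push Not at hlt
  exact absurd (hi_spec hg ht) (h2 _ hlt).ne

theorem tv_eq_of (hg : TP g) (h : ∀ i, g i * t ^ i ≤ g k * t ^ k) : tv g t = g k * t ^ k :=
  le_antisymm (ciSup_le h) (le_tv hg t k)

theorem tv_growth_hi (hg : TP g) (ht : 0 < t) : tv g t * (t' / t) ^ (hi g t) ≤ tv g t' := by
  have h := hi_spec hg ht
  rw [← h]
  calc g (hi g t) * t ^ (hi g t) * (t' / t) ^ (hi g t)
      = g (hi g t) * t' ^ (hi g t) := by
        rw [mul_assoc, ← mul_pow, mul_div_cancel₀ _ ht.ne']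
    _ ≤ tv g t' := le_tv hg t' _

theorem tv_growth_lo' (hg : TP g) (ht : 0 < t) : tv g t * (t' / t) ^ (lo g t) ≤ tv g t' := by
  have h := lo_spec hg ht.le
  rw [← h]
  calc g (lo g t) * t ^ (lo g t) * (t' / t) ^ (lo g t)
      = g (lo g t) * t' ^ (lo g t) := by
        rw [mul_assoc, ← mul_pow, mul_div_cancel₀ _ ht.ne']
    _ ≤ tv g t' := le_tv hg t' _

/-- going up, the growth is at most the exponent `lo` at the top. -/
theorem tv_growth_lo (hg : TP g) (ht : 0 < t) (htt : t ≤ t') :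
    tv g t' ≤ tv g t * (t' / t) ^ (lo g t') := by
  have ht' : 0 < t' := lt_of_lt_of_le ht htt
  have h := tv_growth_lo' (t := t') (t' := t) hg ht'
  have h1 : (t / t') ^ (lo g t') * (t' / t) ^ (lo g t') = 1 := by
    rw [← mul_pow, div_mul_div_cancel₀ ht'.ne', div_self ht.ne', one_pow]
  calc tv g t' = tv g t' * (t / t') ^ (lo g t') * (t' / t) ^ (lo g t') := by
        rw [mul_assoc, h1, mul_one]
    _ ≤ tv g t * (t' / t) ^ (lo g t') := by
        apply mul_le_mul_of_nonneg_right h; positivity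

theorem le_lo_of_growth (hg : TP g) (ht : 0 < t) (htt : t < t')
    (h : tv g t * (t' / t) ^ k ≤ tv g t') : k ≤ lo g t' := by
  have h1 := h.trans (tv_growth_lo hg ht htt.le)
  have h2 : (t' / t) ^ k ≤ (t' / t) ^ (lo g t') := le_of_mul_le_mul_left h1 (tv_pos hg ht)
  exact (pow_le_pow_iff_right₀ ((one_lt_div ht).2 htt)).1 h2

theorem lt_lo_of_growth (hg : TP g) (ht : 0 < t) (htt : t < t')
    (h : tv g t * (t' / t) ^ k < tv g t') : k < lo g t' := by
  have h1 := h.trans_le (tv_growth_lo hg ht htt.le)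
  have h2 : (t' / t) ^ k < (t' / t) ^ (lo g t') := lt_of_mul_lt_mul_left h1 (tv_pos hg ht).le
  exact (pow_lt_pow_iff_right₀ ((one_lt_div ht).2 htt)).1 h2

theorem hi_le_of_growth (hg : TP g) (ht : 0 < t) (htt : t < t')
    (h : tv g t' ≤ tv g t * (t' / t) ^ k) : hi g t ≤ k := by
  have h1 := (tv_growth_hi (t' := t') hg ht).trans h
  have h2 : (t' / t) ^ (hi g t) ≤ (t' / t) ^ k := le_of_mul_le_mul_left h1 (tv_pos hg ht)
  exact (pow_le_pow_iff_right₀ ((one_lt_div ht).2 htt)).1 h2

theorem hi_lt_of_growth (hg : TP g) (ht : 0 < t) (htt : t < t')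
    (h : tv g t' < tv g t * (t' / t) ^ k) : hi g t < k := by
  have h1 := (tv_growth_hi (t' := t') hg ht).trans_lt h
  have h2 : (t' / t) ^ (hi g t) < (t' / t) ^ k := lt_of_mul_lt_mul_left h1 (tv_pos hg ht).le
  exact (pow_lt_pow_iff_right₀ ((one_lt_div ht).2 htt)).1 h2

theorem hi_le_lo (hg : TP g) (ht : 0 < t) (htt : t < t') : hi g t ≤ lo g t' :=
  le_lo_of_growth hg ht htt (tv_growth_hi hg ht)

/-- if `hi g t = lo g t'` then `tv g` is a monomial between. -/
theorem tv_eq_of_hi_eq_lo (hg : TP g) (ht : 0 < t) (htt : t ≤ t') (h : hi g t = lo g t') :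
    tv g t' = tv g t * (t' / t) ^ (hi g t) :=
  le_antisymm (h ▸ tv_growth_lo hg ht htt) (tv_growth_hi hg ht)

theorem tv_mono (hg : TP g) (ht : 0 ≤ t) (htt : t ≤ t') : tv g t ≤ tv g t' := by
  refine ciSup_le fun i => le_trans ?_ (le_tv hg t' i)
  have := hg.nonneg i
  gcongr

theorem tv_zero (hg : TP g) : tv g 0 = g 0 := by
  refine le_antisymm (ciSup_le fun i => ?_) ?_
  · rcases Nat.eq_zero_or_pos i with rfl | hi
    · simp
    · rw [zero_pow hi.ne', mul_zero]; exact hg.nonneg 0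
  · have := le_tv hg 0 0
    simpa using this

/-- a unique dominating monomial. -/
theorem uniq_of (hg : TP g) (ht : 0 < t) (h : ∀ i, i ≠ k → g i * t ^ i < g k * t ^ k) :
    tv g t = g k * t ^ k ∧ lo g t = k ∧ hi g t = k := by
  have e : tv g t = g k * t ^ k := tv_eq_of hg fun i => by
    rcases eq_or_ne i k with rfl | hik
    · exact le_rfl
    · exact (h i hik).le
  refine ⟨e, lo_eq_of e.symm fun i hi => ?_, hi_eq_of hg ht e.symm fun i hi => ?_⟩
  · rw [e]; exact h i hi.ne
  · rw [e]; exact h i hi.ne'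

/-- just below `t` the exponent is `lo g t`. -/
theorem exists_below (hg : TP g) (ht : 0 < t) :
    ∃ t₀, 0 < t₀ ∧ t₀ < t ∧ ∀ t', t₀ < t' → t' < t → lo g t' = lo g t ∧ hi g t' = lo g t := by
  have hk := lo_spec hg ht.le
  have hpos := tv_pos hg ht
  have hkpos : 0 < g (lo g t) * t ^ lo g t := by rw [hk]; exact hpos
  have hev : ∀ᶠ t' in nhds t, ∀ i ∈ Finset.range (lo g t), g i * t' ^ i < g (lo g t) * t' ^ (lo g t) := by
    refine (Filter.eventually_all_finset _).2 fun i hi => ?_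
    have h1 : Filter.Tendsto (fun t' : ℝ => g i * t' ^ i) (nhds t) (nhds (g i * t ^ i)) :=
      (continuous_const.mul (continuous_pow i)).continuousAt
    have h2 : Filter.Tendsto (fun t' : ℝ => g (lo g t) * t' ^ (lo g t)) (nhds t)
        (nhds (g (lo g t) * t ^ (lo g t))) :=
      (continuous_const.mul (continuous_pow _)).continuousAt
    exact h1.eventually_lt h2 (by rw [hk]; exact lt_tv_of_lt_lo hg (Finset.mem_range.1 hi))
  obtain ⟨ε, hε, hball⟩ := Metric.eventually_nhds_iff.1 hev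
  refine ⟨max (t / 2) (t - ε), lt_max_of_lt_left (by positivity), max_lt (by linarith) (by linarith),
    fun t' h1 h2 => ?_⟩
  have ht'2 : t / 2 < t' := (le_max_left _ _).trans_lt h1
  have ht' : 0 < t' := by linarith
  have h3 : t - ε < t' := (le_max_right _ _).trans_lt h1
  have hd : dist t' t < ε := by rw [Real.dist_eq, abs_lt]; constructor <;> linarith
  have := uniq_of (k := lo g t) hg ht' fun i hik => ?_
  · exact this.2
  rcases lt_or_gt_of_ne hik with hlt | hgt
  · exact hball hd i (Finset.mem_range.2 hlt)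
  · have hle : g i * t ^ i ≤ g (lo g t) * t ^ lo g t := by rw [hk]; exact le_tv hg t i
    have hq : (t' / t) < 1 := (div_lt_one ht).2 h2
    have hq0 : 0 < t' / t := by positivity
    have e1 : g i * t' ^ i = g i * t ^ i * (t' / t) ^ i := by
      rw [mul_assoc, ← mul_pow, mul_div_cancel₀ _ ht.ne']
    have e2 : g (lo g t) * t' ^ lo g t = g (lo g t) * t ^ lo g t * (t' / t) ^ lo g t := by
      rw [mul_assoc, ← mul_pow, mul_div_cancel₀ _ ht.ne']
    rw [e1, e2]
    calc g i * t ^ i * (t' / t) ^ i ≤ g (lo g t) * t ^ lo g t * (t' / t) ^ i := by gcongr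
      _ < g (lo g t) * t ^ lo g t * (t' / t) ^ lo g t :=
        mul_lt_mul_of_pos_left (pow_lt_pow_right_of_lt_one₀ hq0 hq hgt) hkpos

/-- just above `t` the exponent is `hi g t`. -/
theorem exists_above (hg : TP g) (ht : 0 < t) :
    ∃ t₀, t < t₀ ∧ ∀ t', t < t' → t' < t₀ → lo g t' = hi g t ∧ hi g t' = hi g t := by
  have hk := hi_spec hg ht
  have hpos := tv_pos hg ht
  have hkpos : 0 < g (hi g t) * t ^ hi g t := by rw [hk]; exact hpos
  have hgk : 0 < g (hi g t) := by
    rcases (hg.nonneg (hi g t)).lt_or_eq with h | h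
    · exact h
    · rw [← h, zero_mul] at hkpos; exact absurd hkpos (lt_irrefl _)
  obtain ⟨N, hN⟩ := hg.bdd
  have hev : ∀ᶠ t' in nhds t, ∀ i ∈ Finset.range (N + 1), hi g t < i →
      g i * t' ^ i < g (hi g t) * t' ^ (hi g t) := by
    refine (Filter.eventually_all_finset _).2 fun i _ => ?_
    by_cases hi' : hi g t < i
    · have h1 : Filter.Tendsto (fun t' : ℝ => g i * t' ^ i) (nhds t) (nhds (g i * t ^ i)) :=
        (continuous_const.mul (continuous_pow i)).continuousAt
      have h2 : Filter.Tendsto (fun t' : ℝ => g (hi g t) * t' ^ (hi g t)) (nhds t)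
          (nhds (g (hi g t) * t ^ (hi g t))) :=
        (continuous_const.mul (continuous_pow _)).continuousAt
      filter_upwards [h1.eventually_lt h2 (by rw [hk]; exact lt_tv_of_hi_lt hg ht hi')] with t' h _
      exact h
    · exact Filter.Eventually.of_forall fun _ h => absurd h hi'
  obtain ⟨ε, hε, hball⟩ := Metric.eventually_nhds_iff.1 hev
  refine ⟨t + ε, by linarith, fun t' h1 h2 => ?_⟩
  have ht' : 0 < t' := by linarith
  have hd : dist t' t < ε := by rw [Real.dist_eq, abs_lt]; constructor <;> linarith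
  have := uniq_of (k := hi g t) hg ht' fun i hik => ?_
  · exact this.2
  rcases lt_or_gt_of_ne hik with hlt | hgt
  · have hle : g i * t ^ i ≤ g (hi g t) * t ^ hi g t := by rw [hk]; exact le_tv hg t i
    have hq : 1 < (t' / t) := (one_lt_div ht).2 h1
    have e1 : g i * t' ^ i = g i * t ^ i * (t' / t) ^ i := by
      rw [mul_assoc, ← mul_pow, mul_div_cancel₀ _ ht.ne']
    have e2 : g (hi g t) * t' ^ hi g t = g (hi g t) * t ^ hi g t * (t' / t) ^ hi g t := by
      rw [mul_assoc, ← mul_pow, mul_div_cancel₀ _ ht.ne']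
    rw [e1, e2]
    calc g i * t ^ i * (t' / t) ^ i ≤ g (hi g t) * t ^ hi g t * (t' / t) ^ i := by gcongr
      _ < g (hi g t) * t ^ hi g t * (t' / t) ^ hi g t :=
        mul_lt_mul_of_pos_left (pow_lt_pow_right₀ hq hlt) hkpos
  · by_cases hiN : i ≤ N
    · exact hball hd i (Finset.mem_range.2 (by omega)) hgt
    · rw [hN i (by omega), zero_mul]; positivity

theorem continuousOn_tv (hg : TP g) : ContinuousOn (tv g) (Set.Ici 0) := by
  obtain ⟨N, hN⟩ := hg.bdd
  have hne : (Finset.range (N + 1)).Nonempty := ⟨0, by simp⟩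
  have hcont : Continuous fun t : ℝ => (Finset.range (N + 1)).sup' hne (fun i => g i * t ^ i) :=
    Continuous.finset_sup'_apply hne fun i _ => continuous_const.mul (continuous_pow i)
  refine hcont.continuousOn.congr fun t ht => ?_
  have ht0 : (0 : ℝ) ≤ t := ht
  apply le_antisymm
  · refine ciSup_le fun i => ?_
    by_cases hi : i ≤ N
    · exact Finset.le_sup' (fun i => g i * t ^ i) (Finset.mem_range.2 (by omega))
    · rw [hN i (by omega), zero_mul]
      refine le_trans ?_ (Finset.le_sup' (fun i => g i * t ^ i) (Finset.mem_range.2 (Nat.succ_pos N)))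
      have := hg.nonneg 0
      simpa using this
  · exact Finset.sup'_le _ _ fun i _ => le_tv hg t i

/-- near `0` the exponent is `lo g 0`, i.e. the order of vanishing. -/
theorem exists_near_zero (hg : TP g) :
    ∃ t₀, 0 < t₀ ∧ ∀ t', 0 < t' → t' < t₀ →
      (∀ i < lo g t', g i = 0) ∧ 0 < g (lo g t') ∧ hi g t' = lo g t' := by
  classical
  obtain ⟨N, hN⟩ := hg.bdd
  set k := Nat.find hg.pos with hkdef
  have hk : 0 < g k := Nat.find_spec hg.pos
  have hmin : ∀ i < k, g i = 0 := fun i hi =>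
    le_antisymm (not_lt.1 (Nat.find_min hg.pos hi)) (hg.nonneg i)
  have hev : ∀ᶠ t' in nhds (0 : ℝ), ∀ i ∈ Finset.range (N + 1), k < i → g i * t' ^ (i - k) < g k := by
    refine (Filter.eventually_all_finset _).2 fun i _ => ?_
    by_cases hi' : k < i
    · have h1 : Filter.Tendsto (fun t' : ℝ => g i * t' ^ (i - k)) (nhds 0)
          (nhds (g i * 0 ^ (i - k))) :=
        (continuous_const.mul (continuous_pow _)).continuousAt
      rw [zero_pow (by omega), mul_zero] at h1
      filter_upwards [h1.eventually_lt_const hk] with t' h _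
      exact h
    · exact Filter.Eventually.of_forall fun _ h => absurd h hi'
  obtain ⟨ε, hε, hball⟩ := Metric.eventually_nhds_iff.1 hev
  refine ⟨ε, hε, fun t' h1 h2 => ?_⟩
  have hd : dist t' 0 < ε := by rw [Real.dist_eq, sub_zero, abs_of_pos h1]; exact h2
  have key := uniq_of (k := k) hg h1 fun i hik => ?_
  · obtain ⟨_, hlo, hhi⟩ := key
    rw [hlo, hhi]
    exact ⟨hmin, hk, rfl⟩
  rcases lt_or_gt_of_ne hik with hlt | hgt
  · rw [hmin i hlt, zero_mul]; positivity
  · by_cases hiN : i ≤ N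
    · have h3 := hball hd i (Finset.mem_range.2 (by omega)) hgt
      have e1 : g i * t' ^ i = g i * t' ^ (i - k) * t' ^ k := by
        rw [mul_assoc, ← pow_add, Nat.sub_add_cancel hgt.le]
      rw [e1]
      exact mul_lt_mul_of_pos_right h3 (by positivity)
    · rw [hN i (by omega), zero_mul]; positivity

/-- near infinity the exponent is the degree. -/
theorem exists_near_top (hg : TP g) :
    ∃ t₀, 0 < t₀ ∧ ∀ t', t₀ < t' →
      (∀ i, hi g t' < i → g i = 0) ∧ 0 < g (hi g t') ∧ hi g t' = lo g t' := by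
  classical
  obtain ⟨N, hN⟩ := hg.bdd
  obtain ⟨i₀, hi₀⟩ := hg.pos
  have hi₀N : i₀ ≤ N := by
    by_contra h
    rw [hN i₀ (by omega)] at hi₀
    exact lt_irrefl _ hi₀
  obtain ⟨k, hkm, hkmax⟩ := Finset.exists_max_image ((Finset.range (N + 1)).filter fun i => 0 < g i)
    (fun i => i) ⟨i₀, by simp; exact ⟨by omega, hi₀⟩⟩
  rw [Finset.mem_filter, Finset.mem_range] at hkm
  have hk : 0 < g k := hkm.2
  have hmax : ∀ i, k < i → g i = 0 := fun i hi => by
    by_cases hiN : i ≤ N
    · by_contra h0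
      have hp : 0 < g i := lt_of_le_of_ne (hg.nonneg i) (Ne.symm h0)
      have h9 : i ≤ k := hkmax i (Finset.mem_filter.2 ⟨Finset.mem_range.2 (by omega), hp⟩)
      omega
    · exact hN i (by omega)
  have hsum : 0 ≤ ∑ i ∈ Finset.range (N + 1), g i / g k :=
    Finset.sum_nonneg fun i _ => div_nonneg (hg.nonneg i) hk.le
  refine ⟨1 + ∑ i ∈ Finset.range (N + 1), g i / g k, by linarith, fun t' ht' => ?_⟩
  have h1 : 1 < t' := by linarith
  have h0 : 0 < t' := by linarith
  have key := uniq_of (k := k) hg h0 fun i hik => ?_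
  · obtain ⟨_, hlo, hhi⟩ := key
    rw [hlo, hhi]
    exact ⟨hmax, hk, rfl⟩
  rcases lt_or_gt_of_ne hik with hlt | hgt
  · have h2 : g i / g k ≤ ∑ i ∈ Finset.range (N + 1), g i / g k :=
      Finset.single_le_sum (f := fun i => g i / g k)
        (fun i _ => div_nonneg (hg.nonneg i) hk.le) (Finset.mem_range.2 (by omega))
    have h3 : g i / g k < t' := by linarith
    have h4 : t' ≤ t' ^ (k - i) := le_self_pow₀ h1.le (by omega)
    have h5 : g i < g k * t' ^ (k - i) := by
      have := (div_lt_iff₀ hk).1 (h3.trans_le h4)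
      linarith
    have e1 : g k * t' ^ k = g k * t' ^ (k - i) * t' ^ i := by
      rw [mul_assoc, ← pow_add, Nat.sub_add_cancel hlt.le]
    rw [e1]
    exact mul_lt_mul_of_pos_right h5 (by positivity)
  · rw [hmax i hgt, zero_mul]; positivity

/-- pointwise maximum of `g` and `s • h`. -/
noncomputable def tmax (s : ℝ) (g h : ℕ → ℝ) : ℕ → ℝ := fun i => max (g i) (s * h i)

theorem TP.tmax (hg : TP g) (hh : TP h) (hs : 0 ≤ s) : TP (tmax s g h) := by
  obtain ⟨N, hN⟩ := hg.bdd
  obtain ⟨M, hM⟩ := hh.bdd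
  obtain ⟨i, hi⟩ := hg.pos
  refine ⟨fun i => (hg.nonneg i).trans (le_max_left _ _), ⟨max N M, fun i hi => ?_⟩,
    ⟨i, hi.trans_le (le_max_left _ _)⟩⟩
  simp [Berk.tmax, hN i (by omega), hM i (by omega)]

theorem tv_tmax (hg : TP g) (hh : TP h) (hs : 0 ≤ s) (ht : 0 ≤ t) :
    tv (tmax s g h) t = max (tv g t) (s * tv h t) := by
  apply le_antisymm
  · refine ciSup_le fun i => ?_
    rw [Berk.tmax, max_mul_of_nonneg _ _ (by positivity)]
    refine max_le_max (le_tv hg t i) ?_
    rw [mul_assoc]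
    exact mul_le_mul_of_nonneg_left (le_tv hh t i) hs
  · refine max_le ?_ ?_
    · rw [← lo_spec hg ht]
      refine le_trans ?_ (le_tv (hg.tmax hh hs) t (lo g t))
      gcongr
      exact le_max_left _ _
    · rw [← lo_spec hh ht, ← mul_assoc]
      refine le_trans ?_ (le_tv (hg.tmax hh hs) t (lo h t))
      gcongr
      exact le_max_right _ _

theorem lo_tmax_of_lt (hg : TP g) (hh : TP h) (hs : 0 ≤ s) (ht : 0 < t)
    (h1 : s * tv h t < tv g t) : lo (tmax s g h) t = lo g t := by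
  have e : tv (tmax s g h) t = tv g t := by rw [tv_tmax hg hh hs ht.le, max_eq_left h1.le]
  refine lo_eq_of ?_ fun i hi => ?_
  · rw [e]
    refine le_antisymm (e ▸ le_tv (hg.tmax hh hs) t _) ?_
    rw [← lo_spec hg ht.le]
    gcongr
    exact le_max_left _ _
  · rw [e, Berk.tmax, max_mul_of_nonneg _ _ (by positivity)]
    refine max_lt (lt_tv_of_lt_lo hg hi) (lt_of_le_of_lt ?_ h1)
    rw [mul_assoc]
    exact mul_le_mul_of_nonneg_left (le_tv hh t i) hs

theorem hi_tmax_of_lt (hg : TP g) (hh : TP h) (hs : 0 ≤ s) (ht : 0 < t)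
    (h1 : s * tv h t < tv g t) : hi (tmax s g h) t = hi g t := by
  have e : tv (tmax s g h) t = tv g t := by rw [tv_tmax hg hh hs ht.le, max_eq_left h1.le]
  refine hi_eq_of (hg.tmax hh hs) ht ?_ fun i hi' => ?_
  · rw [e]
    refine le_antisymm (e ▸ le_tv (hg.tmax hh hs) t _) ?_
    rw [← hi_spec hg ht]
    gcongr
    exact le_max_left _ _
  · rw [e, Berk.tmax, max_mul_of_nonneg _ _ (by positivity)]
    refine max_lt (lt_tv_of_hi_lt hg ht hi') (lt_of_le_of_lt ?_ h1)
    rw [mul_assoc]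
    exact mul_le_mul_of_nonneg_left (le_tv hh t i) hs

theorem lo_tmax_of_gt (hg : TP g) (hh : TP h) (hs : 0 < s) (ht : 0 < t)
    (h1 : tv g t < s * tv h t) : lo (tmax s g h) t = lo h t := by
  have e : tv (tmax s g h) t = s * tv h t := by rw [tv_tmax hg hh hs.le ht.le, max_eq_right h1.le]
  refine lo_eq_of ?_ fun i hi => ?_
  · rw [e]
    refine le_antisymm (e ▸ le_tv (hg.tmax hh hs.le) t _) ?_
    rw [← lo_spec hh ht.le, ← mul_assoc]
    gcongr
    exact le_max_right _ _
  · rw [e, Berk.tmax, max_mul_of_nonneg _ _ (by positivity)]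
    refine max_lt (lt_of_le_of_lt (le_tv hg t i) h1) ?_
    rw [mul_assoc]
    exact mul_lt_mul_of_pos_left (lt_tv_of_lt_lo hh hi) hs

theorem hi_tmax_of_gt (hg : TP g) (hh : TP h) (hs : 0 < s) (ht : 0 < t)
    (h1 : tv g t < s * tv h t) : hi (tmax s g h) t = hi h t := by
  have e : tv (tmax s g h) t = s * tv h t := by rw [tv_tmax hg hh hs.le ht.le, max_eq_right h1.le]
  refine hi_eq_of (hg.tmax hh hs.le) ht ?_ fun i hi' => ?_
  · rw [e]
    refine le_antisymm (e ▸ le_tv (hg.tmax hh hs.le) t _) ?_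
    rw [← hi_spec hh ht, ← mul_assoc]
    gcongr
    exact le_max_right _ _
  · rw [e, Berk.tmax, max_mul_of_nonneg _ _ (by positivity)]
    refine max_lt (lt_of_le_of_lt (le_tv hg t i) h1) ?_
    rw [mul_assoc]
    exact mul_lt_mul_of_pos_left (lt_tv_of_hi_lt hh ht hi') hs

theorem lo_tmax_of_eq (hg : TP g) (hh : TP h) (hs : 0 < s) (ht : 0 < t)
    (h1 : tv g t = s * tv h t) : lo (tmax s g h) t = min (lo g t) (lo h t) := by
  have e : tv (tmax s g h) t = tv g t := by rw [tv_tmax hg hh hs.le ht.le, ← h1, max_self]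
  refine lo_eq_of ?_ fun i hi => ?_
  · rw [e]
    refine le_antisymm (e ▸ le_tv (hg.tmax hh hs.le) t _) ?_
    rcases le_total (lo g t) (lo h t) with hle | hle
    · rw [min_eq_left hle, ← lo_spec hg ht.le]
      gcongr
      exact le_max_left _ _
    · rw [min_eq_right hle, h1, ← lo_spec hh ht.le, ← mul_assoc]
      gcongr
      exact le_max_right _ _
  · have hi1 : i < lo g t := lt_of_lt_of_le hi (min_le_left _ _)
    have hi2 : i < lo h t := lt_of_lt_of_le hi (min_le_right _ _)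
    rw [e, Berk.tmax, max_mul_of_nonneg _ _ (by positivity)]
    refine max_lt (lt_tv_of_lt_lo hg hi1) ?_
    rw [h1, mul_assoc]
    exact mul_lt_mul_of_pos_left (lt_tv_of_lt_lo hh hi2) hs

theorem hi_tmax_of_eq (hg : TP g) (hh : TP h) (hs : 0 < s) (ht : 0 < t)
    (h1 : tv g t = s * tv h t) : hi (tmax s g h) t = max (hi g t) (hi h t) := by
  have e : tv (tmax s g h) t = tv g t := by rw [tv_tmax hg hh hs.le ht.le, ← h1, max_self]
  refine hi_eq_of (hg.tmax hh hs.le) ht ?_ fun i hi' => ?_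
  · rw [e]
    refine le_antisymm (e ▸ le_tv (hg.tmax hh hs.le) t _) ?_
    rcases le_total (hi g t) (hi h t) with hle | hle
    · rw [max_eq_right hle, h1, ← hi_spec hh ht, ← mul_assoc]
      gcongr
      exact le_max_right _ _
    · rw [max_eq_left hle, ← hi_spec hg ht]
      gcongr
      exact le_max_left _ _
  · have hi1 : hi g t < i := lt_of_le_of_lt (le_max_left _ _) hi'
    have hi2 : hi h t < i := lt_of_le_of_lt (le_max_right _ _) hi'
    rw [e, Berk.tmax, max_mul_of_nonneg _ _ (by positivity)]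
    refine max_lt (lt_tv_of_hi_lt hg ht hi1) ?_
    rw [h1, mul_assoc]
    exact mul_lt_mul_of_pos_left (lt_tv_of_hi_lt hh ht hi2) hs

end Pool.Agent.Helper17.Berk
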