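import Mathlib

/-!
# The Berkovich projective line and the action of rational functions (MP_160e9b_an)

All the definitions used in the statement of the equidistribution theorem (with the few proofs
needed to make them).  `K` is a field with a nontrivial ultrametric absolute value; from
`RatMap.comp` on it is algebraically closed.
-/

open Polynomial Topology MeasureTheory

namespace Pool.Agent.Helper17.Berk

universe u

set_option linter.dupNamespace false

/-- A point of the Berkovich affine line over `K`: a multiplicative (ultrametric) seminorm on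
`K[X]` extending the absolute value of `K`. -/
structure Berk (K : Type u) [NontriviallyNormedField K] : Type u where
  toFun : K[X] → ℝ
  nonneg' : ∀ F, 0 ≤ toFun F
  mul' : ∀ F G, toFun (F * G) = toFun F * toFun G
  add' : ∀ F G, toFun (F + G) ≤ max (toFun F) (toFun G)
  C' : ∀ c : K, toFun (C c) = ‖c‖

namespace Berk

variable {K : Type u} [NontriviallyNormedField K]

instance : CoeFun (Berk K) (fun _ => K[X] → ℝ) := ⟨Berk.toFun⟩

@[ext] theorem ext {x y : Berk K} (h : ∀ F, x F = y F) : x = y := by
  cases x; cases y; congr; exact funext h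

theorem nonneg (x : Berk K) (F : K[X]) : 0 ≤ x F := x.nonneg' F
@[simp] theorem map_mul (x : Berk K) (F G : K[X]) : x (F * G) = x F * x G := x.mul' F G
theorem map_add_le (x : Berk K) (F G : K[X]) : x (F + G) ≤ max (x F) (x G) := x.add' F G
@[simp] theorem map_C (x : Berk K) (c : K) : x (C c) = ‖c‖ := x.C' c

@[simp] theorem map_zero (x : Berk K) : x 0 = 0 := by
  have := x.map_C 0; simpa using this

@[simp] theorem map_one (x : Berk K) : x 1 = 1 := by
  have := x.map_C 1; simpa using this

@[simp] theorem map_pow (x : Berk K) (F : K[X]) (n : ℕ) : x (F ^ n) = x F ^ n := by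
  induction n with
  | zero => simp
  | succ n ih => rw [pow_succ, map_mul, ih, pow_succ]

@[simp] theorem map_neg (x : Berk K) (F : K[X]) : x (-F) = x F := by
  have h : -F = C (-1) * F := by simp
  rw [h, map_mul, map_C]; simp

theorem map_sub_le (x : Berk K) (F G : K[X]) : x (F - G) ≤ max (x F) (x G) := by
  have := x.map_add_le F (-G)
  rwa [← sub_eq_add_neg, map_neg] at this

/-- The Berkovich topology: pointwise convergence on polynomials. -/
instance : TopologicalSpace (Berk K) :=
  TopologicalSpace.induced (fun (x : Berk K) (F : K[X]) => x F) inferInstance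

theorem continuous_eval (F : K[X]) : Continuous (fun x : Berk K => x F) :=
  (continuous_apply F).comp continuous_induced_dom

end Berk

/-- The Berkovich projective line: the one-point compactification of the affine line. -/
abbrev P1 (K : Type u) [NontriviallyNormedField K] : Type u := OnePoint (Berk K)

noncomputable instance (K : Type u) [NontriviallyNormedField K] : MeasurableSpace (P1 K) := borel _

instance (K : Type u) [NontriviallyNormedField K] : BorelSpace (P1 K) := ⟨rfl⟩

variable {K : Type u} [NontriviallyNormedField K] [IsUltrametricDist K]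

/-- The classical point `a` of the affine line. -/
noncomputable def pt (a : K) : Berk K where
  toFun F := ‖F.eval a‖
  nonneg' F := norm_nonneg _
  mul' F G := by simp
  add' F G := by simpa using IsUltrametricDist.norm_add_le_max (F.eval a) (G.eval a)
  C' c := by simp

/-- Embedding of the classical projective line into the Berkovich one. -/
noncomputable def emb : OnePoint K → P1 K := OnePoint.map pt

@[simp] theorem emb_infty : emb (OnePoint.infty : OnePoint K) = OnePoint.infty := rfl
@[simp] theorem emb_coe (a : K) : emb (a : OnePoint K) = ((pt a : Berk K) : P1 K) := rfl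

/-- The homogenisation of `F` in degree `n`, evaluated at `(U, V)`:
`homg n F U V = ∑_{i ≤ n} F_i U^i V^(n-i)`. -/
noncomputable def homg (n : ℕ) (F U V : K[X]) : K[X] :=
  ∑ i ∈ Finset.range (n + 1), C (F.coeff i) * U ^ i * V ^ (n - i)

omit [IsUltrametricDist K] in
theorem homg_eq (n : ℕ) (F U V : K[X]) :
    homg n F U V = MvPolynomial.aeval ![U, V] (F.homogenize n) := by
  rw [homogenize, map_sum, Finset.Nat.sum_antidiagonal_eq_sum_range_succ_mk, homg]
  refine Finset.sum_congr rfl fun i _ => ?_
  rw [MvPolynomial.aeval_monomial, Finsupp.prod_fintype _ _ (by simp)]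
  simp [Fin.prod_univ_two, mul_assoc]

omit [IsUltrametricDist K] in
theorem homg_mul {n m : ℕ} (F G U V : K[X]) (hn : F.natDegree ≤ n) (hm : G.natDegree ≤ m) :
    homg (n + m) (F * G) U V = homg n F U V * homg m G U V := by
  rw [homg_eq, homg_eq, homg_eq, homogenize_mul _ _ hn hm, map_mul]

omit [IsUltrametricDist K] in
theorem homg_add {n : ℕ} (F G U V : K[X]) :
    homg n (F + G) U V = homg n F U V + homg n G U V := by
  rw [homg_eq, homg_eq, homg_eq, homogenize_add, map_add]

omit [IsUltrametricDist K] in
theorem homg_C (n : ℕ) (c : K) (U V : K[X]) : homg n (C c) U V = C c * V ^ n := by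
  rw [homg_eq, homogenize_C]; simp

omit [IsUltrametricDist K] in
theorem homg_of_le {n m : ℕ} (F U V : K[X]) (hn : F.natDegree ≤ n) (hnm : n ≤ m) :
    homg m F U V = homg n F U V * V ^ (m - n) := by
  have h := homg_mul (n := n) (m := m - n) F 1 U V hn (by simp)
  rw [Nat.add_sub_cancel' hnm, mul_one] at h
  rw [h, ← C_1, homg_C]; simp

/-- A rational function `P / Q` over `K`, given by coprime polynomials (so `Q = 0` is allowed, for
the constant `∞`). -/
structure RatMap (K : Type u) [NontriviallyNormedField K] : Type u where
  P : K[X]
  Q : K[X]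
  cop : IsCoprime P Q

namespace RatMap

/-- The degree of a rational function. -/
noncomputable def deg (f : RatMap K) : ℕ := max f.P.natDegree f.Q.natDegree

open Classical in
/-- The action of a rational function on the classical projective line. -/
noncomputable def actK (f : RatMap K) : OnePoint K → OnePoint K
  | OnePoint.infty => if f.Q.coeff f.deg = 0 then OnePoint.infty
      else ((f.P.coeff f.deg / f.Q.coeff f.deg : K) : OnePoint K)
  | OnePoint.some a => if f.Q.eval a = 0 then OnePoint.infty
      else ((f.P.eval a / f.Q.eval a : K) : OnePoint K)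

/-- The image of a point `x` of the Berkovich affine line which is not a pole:
`|F|_{f(x)} = |F ∘ f|_x`. -/
noncomputable def actB (f : RatMap K) (x : Berk K) (h : x f.Q ≠ 0) : Berk K where
  toFun F := x (homg F.natDegree F f.P f.Q) / x f.Q ^ F.natDegree
  nonneg' F := div_nonneg (x.nonneg _) (pow_nonneg (x.nonneg _) _)
  mul' F G := by
    by_cases hF : F = 0
    · subst hF; simp [homg]
    by_cases hG : G = 0
    · subst hG; simp [homg]
    rw [natDegree_mul hF hG, homg_mul _ _ _ _ le_rfl le_rfl, Berk.map_mul, pow_add,
      div_mul_div_comm]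
  add' F G := by
    have key : ∀ (H : K[X]) (m : ℕ), H.natDegree ≤ m →
        x (homg H.natDegree H f.P f.Q) / x f.Q ^ H.natDegree =
          x (homg m H f.P f.Q) / x f.Q ^ m := by
      intro H m hm
      rw [homg_of_le H _ _ le_rfl hm, Berk.map_mul, Berk.map_pow]
      have h1 : x f.Q ^ m = x f.Q ^ H.natDegree * x f.Q ^ (m - H.natDegree) := by
        rw [← pow_add, Nat.add_sub_cancel' hm]
      rw [h1, mul_div_mul_right _ _ (pow_ne_zero _ h)]
    set m := max F.natDegree G.natDegree with hm
    rw [key F m (le_max_left _ _), key G m (le_max_right _ _),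
      key (F + G) m (natDegree_add_le F G), homg_add]
    have hpos : 0 < x f.Q ^ m := pow_pos (lt_of_le_of_ne (x.nonneg _) (Ne.symm h)) _
    rw [max_div_div_right hpos.le]
    exact div_le_div_of_nonneg_right (x.map_add_le _ _) hpos.le
  C' c := by
    simp [homg_C]

open Classical in
/-- The action of a rational function on the Berkovich projective line. -/
noncomputable def act (f : RatMap K) : P1 K → P1 K
  | OnePoint.infty => emb (f.actK OnePoint.infty)
  | OnePoint.some x => if h : x f.Q = 0 then OnePoint.infty else ((f.actB x h : Berk K) : P1 K)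

open Classical in
/-- The fibre of `f` over a classical point, as a multiset with multiplicities. -/
noncomputable def fib (f : RatMap K) : OnePoint K → Multiset (OnePoint K)
  | OnePoint.infty => f.Q.roots.map OnePoint.some +
      Multiset.replicate (f.deg - f.Q.natDegree) OnePoint.infty
  | OnePoint.some w => (f.P - C w * f.Q).roots.map OnePoint.some +
      Multiset.replicate (f.deg - (f.P - C w * f.Q).natDegree) OnePoint.infty

open Classical in
/-- The number of points of the fibre over the classical point `w` in the set `V`. -/
noncomputable def N (f : RatMap K) (w : OnePoint K) (V : Set (P1 K)) : ℕ :=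
  ((f.fib w).filter (fun z => emb z ∈ V)).card

/-- The local degree of `f` at `x`: the least `k` such that, for suitable open neighbourhoods `V`
of `x` and `W` of `f x`, every classical point of `W` has at most `k` preimages in `V`, counted with
multiplicity. -/
noncomputable def locDeg (f : RatMap K) (x : P1 K) : ℕ :=
  sInf {k | ∃ V : Set (P1 K), IsOpen V ∧ x ∈ V ∧ ∃ W : Set (P1 K), IsOpen W ∧ f.act x ∈ W ∧
    ∀ w : OnePoint K, emb w ∈ W → f.N w V ≤ k}

/-- The multiplier of `f` at a classical point (meaningful at a fixed point): the derivative of `f`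
in the coordinate `T`, or in the coordinate `1/T` at infinity. -/
noncomputable def mult (f : RatMap K) : OnePoint K → K
  | OnePoint.infty => f.Q.coeff (f.deg - 1) / f.P.coeff f.deg
  | OnePoint.some a =>
      (f.P.derivative.eval a * f.Q.eval a - f.P.eval a * f.Q.derivative.eval a) / f.Q.eval a ^ 2

/-- The set of repelling fixed points of `f` on the Berkovich projective line. -/
def RFix (f : RatMap K) : Set (P1 K) :=
  {x | f.act x = x ∧ ((x ∉ Set.range (emb (K := K)) ∧ 2 ≤ f.locDeg x) ∨
    ∃ z : OnePoint K, x = emb z ∧ 1 < ‖f.mult z‖)}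

/-- The Julia set: the points all of whose neighbourhoods have an orbit omitting only finitely many
points. -/
def julia (f : RatMap K) : Set (P1 K) :=
  {x | ∀ U : Set (P1 K), IsOpen U → x ∈ U → ((⋃ n : ℕ, (f.act^[n]) '' U)ᶜ).Finite}

/-- `ρ` is supported on the Julia set and `f^* ρ = deg f · ρ`, where `f^*` is the dual of
`f_* φ (y) = ∑_{f(x) = y} φ(x)` (continuous extension from the classical points). -/
structure IsEquilibrium (f : RatMap K) (ρ : Measure (P1 K)) : Prop where
  supp : ρ (f.julia)ᶜ = 0
  pull : ∀ φ ψ : C(P1 K, ℝ),
    (∀ w : OnePoint K, ψ (emb w) = ((f.fib w).map (fun z => φ (emb z))).sum) →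
      ∫ x, ψ x ∂ρ = f.deg * ∫ x, φ x ∂ρ

/-- The identity. -/
noncomputable def id (K : Type u) [NontriviallyNormedField K] : RatMap K where
  P := X
  Q := 1
  cop := isCoprime_one_right

end RatMap

section AlgClosed

variable [IsAlgClosed K]

omit [IsUltrametricDist K] [IsAlgClosed K] in
theorem eval_homg (n : ℕ) (F U V : K[X]) (z : K) :
    (homg n F U V).eval z =
      ∑ i ∈ Finset.range (n + 1), F.coeff i * U.eval z ^ i * V.eval z ^ (n - i) := by
  simp [homg, eval_finsetSum]

omit [IsUltrametricDist K] [IsAlgClosed K] in
theorem homg_sum_ne {n : ℕ} {F : K[X]} (hn : F.natDegree ≤ n) (u v : K) (hv : v ≠ 0) :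
    ∑ i ∈ Finset.range (n + 1), F.coeff i * u ^ i * v ^ (n - i) = F.eval (u / v) * v ^ n := by
  rw [eval_eq_sum_range' (Nat.lt_succ_of_le hn), Finset.sum_mul]
  refine Finset.sum_congr rfl fun i hi => ?_
  have hi' : i ≤ n := by simpa [Nat.lt_succ_iff] using hi
  rw [div_pow, pow_sub₀ v hv hi']
  field_simp

omit [IsUltrametricDist K] in
theorem isCoprime_iff_root {F G : K[X]} :
    IsCoprime F G ↔ ∀ z, ¬ (F.eval z = 0 ∧ G.eval z = 0) := by
  rw [isCoprime_iff_aeval_ne_zero_of_isAlgClosed K K F G]
  simp only [coe_aeval_eq_eval, not_and_or, ne_eq]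

namespace RatMap

/-- Composition `f ∘ g` of rational functions. -/
noncomputable def comp (f g : RatMap K) : RatMap K where
  P := homg f.deg f.P g.P g.Q
  Q := homg f.deg f.Q g.P g.Q
  cop := by
    rw [isCoprime_iff_root]
    rintro z ⟨h1, h2⟩
    rw [eval_homg] at h1 h2
    have hg := isCoprime_iff_root.1 g.cop z
    have hf := isCoprime_iff_root.1 f.cop
    by_cases hv : g.Q.eval z = 0
    · have hu : g.P.eval z ≠ 0 := fun hu => hg ⟨hu, hv⟩
      have key : ∀ F : K[X], ∑ i ∈ Finset.range (f.deg + 1),
          F.coeff i * g.P.eval z ^ i * g.Q.eval z ^ (f.deg - i) =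
            F.coeff f.deg * g.P.eval z ^ f.deg := by
        intro F
        rw [Finset.sum_eq_single f.deg]
        · simp
        · intro i hi hne
          have : i < f.deg := by
            have := Finset.mem_range.1 hi
            omega
          rw [hv, zero_pow (by omega), mul_zero]
        · simp
      rw [key] at h1 h2
      have hP : f.P.coeff f.deg = 0 := by simpa [hu] using h1
      have hQ : f.Q.coeff f.deg = 0 := by simpa [hu] using h2
      rcases le_total f.P.natDegree f.Q.natDegree with hle | hle
      · have hd : f.deg = f.Q.natDegree := max_eq_right hle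
        rw [hd, coeff_natDegree, leadingCoeff_eq_zero] at hQ
        rw [hQ] at hle hd
        have hP0 : f.P.natDegree = 0 := by simpa using hle
        rw [hd] at hP
        have : f.P = 0 := by
          rw [eq_C_of_natDegree_eq_zero hP0] at hP ⊢
          simp at hP
          simp [hP]
        exact hf 0 (by simp [this, hQ])
      · have hd : f.deg = f.P.natDegree := max_eq_left hle
        rw [hd, coeff_natDegree, leadingCoeff_eq_zero] at hP
        rw [hP] at hle hd
        have hQ0 : f.Q.natDegree = 0 := by simpa using hle
        rw [hd] at hQ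
        have : f.Q = 0 := by
          rw [eq_C_of_natDegree_eq_zero hQ0] at hQ ⊢
          simp at hQ
          simp [hQ]
        exact hf 0 (by simp [this, hP])
    · rw [homg_sum_ne (show f.P.natDegree ≤ f.deg from le_max_left _ _) _ _ hv] at h1
      rw [homg_sum_ne (show f.Q.natDegree ≤ f.deg from le_max_right _ _) _ _ hv] at h2
      have hvn : g.Q.eval z ^ f.deg ≠ 0 := pow_ne_zero _ hv
      exact hf (g.P.eval z / g.Q.eval z) ⟨by simpa [hvn] using h1, by simpa [hvn] using h2⟩

/-- Iterates. -/
noncomputable def iter (f : RatMap K) : ℕ → RatMap K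
  | 0 => RatMap.id K
  | n + 1 => f.comp (iter f n)

end RatMap

end AlgClosed

end Pool.Agent.Helper17.Berk
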