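import Mathlib
import Pool.Agent.Helper17.Berk.Trop

/-!
# Gauss norms of polynomials on discs (helper17, MP_160e9b_an)
-/

open Polynomial

namespace Pool.Agent.Helper17.Berk

variable {K : Type*} [NontriviallyNormedField K] [IsUltrametricDist K]

/-- absolute values of the Taylor coefficients of `F` at `a`. -/
noncomputable def co (F : K[X]) (a : K) : ℕ → ℝ := fun i => ‖(taylor a F).coeff i‖

omit [IsUltrametricDist K] in
theorem TP_co {F : K[X]} (hF : F ≠ 0) (a : K) : TP (co F a) := by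
  refine ⟨fun i => norm_nonneg _, ⟨F.natDegree, fun i hi => ?_⟩, ?_⟩
  · simp only [co, norm_eq_zero]
    apply coeff_eq_zero_of_natDegree_lt
    rwa [natDegree_taylor]
  · have h : taylor a F ≠ 0 := by
      intro h
      exact hF (taylor_injective a (by simpa using h))
    obtain ⟨i, hi⟩ : ∃ i, (taylor a F).coeff i ≠ 0 := by
      by_contra hcon
      push Not at hcon
      exact h (Polynomial.ext fun i => by simp [hcon i])
    exact ⟨i, norm_pos_iff.2 hi⟩

/-- Gauss norm of `F` on the disc of centre `a` and radius `t`. -/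
noncomputable def gn (F : K[X]) (a : K) (t : ℝ) : ℝ := tv (co F a) t

/-- the norm as an absolute value -/
noncomputable def nav (K : Type*) [NontriviallyNormedField K] : AbsoluteValue K ℝ :=
  NormedField.toAbsoluteValue K

omit [IsUltrametricDist K] in
@[simp] theorem nav_apply (x : K) : nav K x = ‖x‖ := rfl

theorem nav_na : IsNonarchimedean (nav K : K → ℝ) := fun x y =>
  IsUltrametricDist.norm_add_le_max x y

omit [IsUltrametricDist K] in
theorem gn_eq_gaussNorm (F : K[X]) (a : K) {t : ℝ} (ht : 0 ≤ t) :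
    gn F a t = (taylor a F).gaussNorm (nav K) t := by
  by_cases hF : F = 0
  · subst hF
    simp [gn, tv, co]
  apply le_antisymm
  · exact ciSup_le fun i => le_gaussNorm (nav K) (taylor a F) ht i
  · obtain ⟨i, hi⟩ := exists_eq_gaussNorm (nav K) t (taylor a F)
    rw [hi]
    exact le_tv (TP_co hF a) t i

theorem gn_mul (F G : K[X]) (a : K) {t : ℝ} (ht : 0 < t) :
    gn (F * G) a t = gn F a t * gn G a t := by
  rw [gn_eq_gaussNorm _ _ ht.le, gn_eq_gaussNorm _ _ ht.le, gn_eq_gaussNorm _ _ ht.le, taylor_mul,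
    gaussNorm_mul nav_na ht]

theorem gn_add_le (F G : K[X]) (a : K) {t : ℝ} (ht : 0 ≤ t) :
    gn (F + G) a t ≤ max (gn F a t) (gn G a t) := by
  rw [gn_eq_gaussNorm _ _ ht, gn_eq_gaussNorm _ _ ht, gn_eq_gaussNorm _ _ ht, map_add]
  exact isNonarchimedean_gaussNorm (nav K) nav_na ht _ _

omit [IsUltrametricDist K] in
theorem gn_C (c : K) (a : K) {t : ℝ} (ht : 0 ≤ t) : gn (C c) a t = ‖c‖ := by
  rw [gn_eq_gaussNorm _ _ ht, taylor_C, gaussNorm_C]
  rfl

omit [IsUltrametricDist K] in
theorem gn_zero_radius (F : K[X]) (a : K) : gn F a 0 = ‖F.eval a‖ := by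
  rw [gn_eq_gaussNorm _ _ le_rfl, gaussNorm_zero_right, taylor_coeff_zero]
  rfl

omit [IsUltrametricDist K] in
theorem gn_nonneg (F : K[X]) (a : K) {t : ℝ} (ht : 0 ≤ t) : 0 ≤ gn F a t := by
  rw [gn_eq_gaussNorm _ _ ht]
  exact gaussNorm_nonneg _ _ ht

theorem gn_mul' (F G : K[X]) (a : K) {t : ℝ} (ht : 0 ≤ t) :
    gn (F * G) a t = gn F a t * gn G a t := by
  rcases ht.eq_or_lt with rfl | ht
  · simp [gn_zero_radius]
  · exact gn_mul F G a ht

end Pool.Agent.Helper17.Berk
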