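import Mathlib
import Pool.Agent.Helper17.Berk.Core
import Pool.Agent.Helper17.Berk.Gauss

/-!
# The points `ζ(a, r)` (helper17, MP_160e9b_an)

The definitions used in the statement of the theorem are in `Core.lean`.
-/

open Polynomial Topology MeasureTheory

namespace Pool.Agent.Helper17.Berk

universe u

set_option linter.dupNamespace false

variable {K : Type u} [NontriviallyNormedField K] [IsUltrametricDist K]

/-- The point `ζ(a, r)`: the Gauss norm of the disc of centre `a` and radius `r` (for negative `r`,
by convention, the classical point `a`). -/
noncomputable def zeta (a : K) (r : ℝ) : Berk K where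
  toFun F := gn F a (max r 0)
  nonneg' F := gn_nonneg F a (le_max_right _ _)
  mul' F G := gn_mul' F G a (le_max_right _ _)
  add' F G := gn_add_le F G a (le_max_right _ _)
  C' c := gn_C c a (le_max_right _ _)

theorem zeta_apply {a : K} {r : ℝ} (hr : 0 ≤ r) (F : K[X]) : zeta a r F = gn F a r := by
  change gn F a (max r 0) = _
  rw [max_eq_left hr]

end Pool.Agent.Helper17.Berk
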