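import Mathlib
import Pool.Agent.Helper17.Berk.Defs

/-!
# Gauss norms and seminorms (module B1, second half, MP_160e9b_an)
-/

open Polynomial

namespace Pool.Agent.Helper17.Berk

universe u

variable {K : Type u} [NontriviallyNormedField K] [IsUltrametricDist K]

omit [IsUltrametricDist K] in
theorem Berk.sum_le_rb (x : Berk K) {ι : Type*} (s : Finset ι) (f : ι → K[X]) {c : ℝ} (hc : 0 ≤ c)
    (h : ∀ i ∈ s, x (f i) ≤ c) : x (∑ i ∈ s, f i) ≤ c := by
  classical
  induction s using Finset.induction_on with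
  | empty => simpa using hc
  | insert i s hi ih =>
    rw [Finset.sum_insert hi]
    exact (x.map_add_le _ _).trans (max_le (h i (by simp))
      (ih fun j hj => h j (Finset.mem_insert_of_mem hj)))

omit [IsUltrametricDist K] in
theorem Berk.sum_lt_rb (x : Berk K) {ι : Type*} (s : Finset ι) (f : ι → K[X]) {c : ℝ} (hc : 0 < c)
    (h : ∀ i ∈ s, x (f i) < c) : x (∑ i ∈ s, f i) < c := by
  classical
  induction s using Finset.induction_on with
  | empty => simpa using hc
  | insert i s hi ih =>
    rw [Finset.sum_insert hi]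
    exact (x.map_add_le _ _).trans_lt (max_lt (h i (by simp))
      (ih fun j hj => h j (Finset.mem_insert_of_mem hj)))

omit [IsUltrametricDist K] in
theorem Berk.eq_of_sub_lt (x : Berk K) {F G : K[X]} (h : x (F - G) < x G) : x F = x G := by
  apply le_antisymm
  · have := x.map_add_le (F - G) G
    rw [sub_add_cancel, max_eq_right h.le] at this
    exact this
  · by_contra hlt
    push Not at hlt
    have := x.map_sub_le F (F - G)
    rw [sub_sub_cancel] at this
    exact absurd this (not_le.2 (max_lt hlt h))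

omit [IsUltrametricDist K] in
theorem eq_sum_taylor (F : K[X]) (a : K) :
    F = ∑ i ∈ Finset.range (F.natDegree + 1), C ((taylor a F).coeff i) * (X - C a) ^ i := by
  have h := sum_taylor_eq F a
  rw [sum_over_range' _ (by simp) (F.natDegree + 1)
    (by rw [natDegree_taylor]; exact Nat.lt_succ_self _)] at h
  exact h.symm

omit [IsUltrametricDist K] in
/-- a Berkovich point `x` of the closed disc `(a, t)` is bounded by the Gauss norm. -/
theorem Berk.le_gn (x : Berk K) (F : K[X]) {a : K} {t : ℝ} (h : x (X - C a) ≤ t) :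
    x F ≤ gn F a t := by
  have ht : 0 ≤ t := (x.nonneg _).trans h
  by_cases hF : F = 0
  · subst hF
    rw [x.map_zero]
    exact gn_nonneg _ _ ht
  have h1 : x F = x (∑ i ∈ Finset.range (F.natDegree + 1),
      C ((taylor a F).coeff i) * (X - C a) ^ i) := by rw [← eq_sum_taylor]
  rw [h1]
  refine x.sum_le_rb _ _ (gn_nonneg _ _ ht) fun i _ => ?_
  rw [x.map_mul, x.map_pow, x.map_C]
  refine le_trans ?_ (le_tv (TP_co hF a) t i)
  exact mul_le_mul_of_nonneg_left (pow_le_pow_left₀ (x.nonneg _) h i) (norm_nonneg _)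

omit [IsUltrametricDist K] in
theorem Berk.eq_of_dominant (x : Berk K) {F : K[X]} (a : K) (k : ℕ)
    (h : ∀ i, i ≠ k → co F a i * x (X - C a) ^ i < co F a k * x (X - C a) ^ k) :
    x F = co F a k * x (X - C a) ^ k := by
  have hpos : 0 < co F a k * x (X - C a) ^ k := by
    refine lt_of_le_of_lt ?_ (h (k + 1) (by omega))
    exact mul_nonneg (norm_nonneg _) (pow_nonneg (x.nonneg _) _)
  have hk : k ∈ Finset.range (F.natDegree + 1) := by
    rw [Finset.mem_range]
    by_contra hlt
    have : co F a k = 0 := by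
      simp only [co, norm_eq_zero]
      apply coeff_eq_zero_of_natDegree_lt
      rw [natDegree_taylor]
      omega
    rw [this, zero_mul] at hpos
    exact absurd hpos (lt_irrefl _)
  have hG : x (C ((taylor a F).coeff k) * (X - C a) ^ k) = co F a k * x (X - C a) ^ k := by
    rw [x.map_mul, x.map_pow, x.map_C]; rfl
  rw [← hG]
  apply x.eq_of_sub_lt
  have h1 : F - C ((taylor a F).coeff k) * (X - C a) ^ k =
      ∑ i ∈ (Finset.range (F.natDegree + 1)).erase k,
        C ((taylor a F).coeff i) * (X - C a) ^ i := by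
    rw [sub_eq_iff_eq_add, Finset.sum_erase_add _ _ hk]
    exact eq_sum_taylor F a
  rw [h1, hG]
  refine x.sum_lt_rb _ _ hpos fun i hi => ?_
  have hne : i ≠ k := (Finset.mem_erase.1 hi).1
  have := h i hne
  rwa [x.map_mul, x.map_pow, x.map_C]

omit [IsUltrametricDist K] in
/-- no zeros in the open disc: constant absolute value on it. -/
theorem Berk.eq_gn (x : Berk K) {F : K[X]} (hF : F ≠ 0) {a : K} {t : ℝ} (h : x (X - C a) < t)
    (h0 : lo (co F a) t = 0) : x F = gn F a t := by
  have hs : 0 ≤ x (X - C a) := x.nonneg _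
  have ht : 0 < t := hs.trans_lt h
  have h1 : co F a 0 = tv (co F a) t := by
    have := lo_spec (TP_co hF a) ht.le
    rw [h0] at this
    simpa using this
  have h2 : x F = co F a 0 * x (X - C a) ^ 0 := by
    refine x.eq_of_dominant a 0 fun i hi => ?_
    rw [pow_zero, mul_one, h1]
    by_cases hc : co F a i = 0
    · rw [hc, zero_mul]
      exact tv_pos (TP_co hF a) ht
    · refine lt_of_lt_of_le ?_ (le_tv (TP_co hF a) t i)
      have hc' : 0 < co F a i := lt_of_le_of_ne (norm_nonneg _) (Ne.symm hc)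
      exact mul_lt_mul_of_pos_left (pow_lt_pow_left₀ h hs hi) hc'
  rw [h2, pow_zero, mul_one, h1]
  rfl

omit [IsUltrametricDist K] in
/-- above all zeros: `|F|_x = |coefficient| |T - a|^k` if `k` is the only dominating index at
`t = |T - a|_x`. -/
theorem Berk.eq_gn_of_lo_eq_hi (x : Berk K) {F : K[X]} (hF : F ≠ 0) {a : K} {t : ℝ} (ht : 0 < t)
    (h : x (X - C a) = t) (h0 : lo (co F a) t = hi (co F a) t) : x F = gn F a t := by
  have h1 := lo_spec (TP_co hF a) ht.le
  have h2 : x F = co F a (lo (co F a) t) * x (X - C a) ^ (lo (co F a) t) := by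
    refine x.eq_of_dominant a _ fun i hi' => ?_
    rw [h, h1]
    rcases lt_or_gt_of_ne hi' with hlt | hlt
    · exact lt_tv_of_lt_lo (TP_co hF a) hlt
    · exact lt_tv_of_hi_lt (TP_co hF a) ht (h0 ▸ hlt)
  rw [h2, h, h1]
  rfl

theorem norm_eval_le_gn (F : K[X]) {a z : K} {t : ℝ} (h : ‖z - a‖ ≤ t) :
    ‖F.eval z‖ ≤ gn F a t := by
  refine (pt z).le_gn F (a := a) (t := t) ?_
  change ‖(X - C a).eval z‖ ≤ t
  simpa using h

theorem norm_eval_eq_gn {F : K[X]} (hF : F ≠ 0) {a z : K} {t : ℝ} (h : ‖z - a‖ < t)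
    (h0 : lo (co F a) t = 0) : ‖F.eval z‖ = gn F a t := by
  refine (pt z).eq_gn hF (a := a) (t := t) ?_ h0
  change ‖(X - C a).eval z‖ < t
  simpa using h

theorem gn_center_le (F : K[X]) {a b : K} {t : ℝ} (h : ‖a - b‖ ≤ t) : gn F a t ≤ gn F b t := by
  have ht : 0 ≤ t := (norm_nonneg _).trans h
  rw [← zeta_apply ht]
  refine (zeta a t).le_gn F ?_
  have h1 : (X - C b : K[X]) = (X - C a) + C (a - b) := by
    rw [C_sub]; ring
  rw [h1]
  refine ((zeta a t).map_add_le _ _).trans (max_le ?_ ?_)
  · rw [zeta_apply ht]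
    refine ciSup_le fun i => ?_
    have : co (X - C a) a i = if i = 1 then 1 else 0 := by
      simp only [co]
      have : taylor a (X - C a) = X := by simp
      rw [this, coeff_X]
      by_cases hi : i = 1
      · simp [hi]
      · simp [hi, Ne.symm hi]
    rw [this]
    split_ifs with hi
    · simp [hi]
    · simpa using ht
  · rw [Berk.map_C]
    exact h

/-- change of centre. -/
theorem gn_center (F : K[X]) {a b : K} {t : ℝ} (h : ‖a - b‖ ≤ t) : gn F a t = gn F b t :=
  le_antisymm (gn_center_le F h) (gn_center_le F (by rwa [norm_sub_rev]))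

theorem lo_center {F : K[X]} (hF : F ≠ 0) {a b : K} {t : ℝ} (h : ‖a - b‖ < t) :
    lo (co F a) t = lo (co F b) t := by
  have ht : 0 < t := (norm_nonneg _).trans_lt h
  obtain ⟨u, hu0, hut, hu⟩ := exists_below (TP_co hF a) ht
  obtain ⟨v, hv0, hvt, hv⟩ := exists_below (TP_co hF b) ht
  obtain ⟨t', h1, h2⟩ := exists_between (max_lt h (max_lt hut hvt))
  have h3 : ‖a - b‖ < t' := (le_max_left _ _).trans_lt h1
  have h4 : u < t' := ((le_max_left _ _).trans (le_max_right _ _)).trans_lt h1
  have h5 : v < t' := ((le_max_right _ _).trans (le_max_right _ _)).trans_lt h1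
  have ht' : 0 < t' := hu0.trans h4
  obtain ⟨e1, e2⟩ := hu t' h4 h2
  obtain ⟨e3, e4⟩ := hv t' h5 h2
  have g1 := tv_eq_of_hi_eq_lo (TP_co hF a) ht' h2.le e2
  have g2 := tv_eq_of_hi_eq_lo (TP_co hF b) ht' h2.le e4
  have g3 : tv (co F a) t = tv (co F b) t := gn_center F h.le
  have g4 : tv (co F a) t' = tv (co F b) t' := gn_center F h3.le
  rw [g1, g2, g4, e2, e4] at g3
  have g5 := mul_left_cancel₀ (tv_pos (TP_co hF b) ht').ne' g3
  exact (pow_right_injective₀ (div_pos ht ht') ((one_lt_div ht').2 h2).ne') g5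

theorem hi_center {F : K[X]} (hF : F ≠ 0) {a b : K} {t : ℝ} (ht : 0 < t) (h : ‖a - b‖ ≤ t) :
    hi (co F a) t = hi (co F b) t := by
  obtain ⟨u, hut, hu⟩ := exists_above (TP_co hF a) ht
  obtain ⟨v, hvt, hv⟩ := exists_above (TP_co hF b) ht
  obtain ⟨t', h1, h2⟩ := exists_between (lt_min hut hvt)
  have h4 : t' < u := h2.trans_le (min_le_left _ _)
  have h5 : t' < v := h2.trans_le (min_le_right _ _)
  obtain ⟨e1, e2⟩ := hu t' h1 h4
  obtain ⟨e3, e4⟩ := hv t' h1 h5
  have g1 := tv_eq_of_hi_eq_lo (TP_co hF a) ht h1.le e1.symm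
  have g2 := tv_eq_of_hi_eq_lo (TP_co hF b) ht h1.le e3.symm
  have g3 : tv (co F a) t' = tv (co F b) t' := gn_center F (h.trans h1.le)
  have g4 : tv (co F a) t = tv (co F b) t := gn_center F h
  rw [g1, g2, g4] at g3
  have g5 := mul_left_cancel₀ (tv_pos (TP_co hF b) ht).ne' g3
  exact (pow_right_injective₀ (div_pos (ht.trans h1) ht) ((one_lt_div ht).2 h1).ne') g5

omit [IsUltrametricDist K] in
theorem Berk.map_multiset_prod (x : Berk K) (s : Multiset K) (f : K → K[X]) :
    x (s.map f).prod = (s.map (fun z => x (f z))).prod := by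
  induction s using Multiset.induction_on with
  | empty => simp
  | cons a s ih => simp [ih]

omit [IsUltrametricDist K] in
/-- a seminorm is the product of its values on linear factors. -/
theorem Berk.eq_prod [IsAlgClosed K] (x : Berk K) (F : K[X]) :
    x F = ‖F.leadingCoeff‖ * (F.roots.map (fun z => x (X - C z))).prod := by
  have h : C F.leadingCoeff * (F.roots.map (fun z => X - C z)).prod = F :=
    (IsAlgClosed.splits F).eq_prod_roots.symm
  conv_lhs => rw [← h]
  rw [x.map_mul, x.map_C, x.map_multiset_prod]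

omit [IsUltrametricDist K] in
theorem hi_le_natDegree {F : K[X]} (hF : F ≠ 0) (a : K) {t : ℝ} (ht : 0 < t) :
    hi (co F a) t ≤ F.natDegree := by
  by_contra hlt
  push Not at hlt
  have h0 : co F a (hi (co F a) t) = 0 := by
    simp only [co, norm_eq_zero]
    apply coeff_eq_zero_of_natDegree_lt
    rw [natDegree_taylor]
    exact hlt
  have := hi_spec (TP_co hF a) ht
  rw [h0, zero_mul] at this
  exact absurd this (tv_pos (TP_co hF a) ht).ne

omit [IsUltrametricDist K] in
/-- for a large radius, `lo = hi = natDegree`. -/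
theorem exists_lo_eq_natDegree {F : K[X]} (hF : F ≠ 0) (a : K) :
    ∃ t₀ : ℝ, 0 < t₀ ∧ ∀ t, t₀ < t → lo (co F a) t = F.natDegree ∧ hi (co F a) t = F.natDegree := by
  obtain ⟨t₀, h0, h⟩ := exists_near_top (TP_co hF a)
  refine ⟨t₀, h0, fun t ht => ?_⟩
  obtain ⟨h1, h2, h3⟩ := h t ht
  have h4 : hi (co F a) t = F.natDegree := by
    refine le_antisymm (hi_le_natDegree hF a (h0.trans ht)) ?_
    by_contra hlt
    push Not at hlt
    have := h1 _ hlt
    simp only [co, norm_eq_zero] at this
    rw [← natDegree_taylor F a, coeff_natDegree, leadingCoeff_eq_zero] at this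
    exact hF (taylor_injective a (by simpa using this))
  exact ⟨h3 ▸ h4, h4⟩

end Pool.Agent.Helper17.Berk
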