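import Mathlib
import Pool.Agent.Helper17.Berk.RootsB

/-!
# Root counting: slopes of Gauss norms (module B1, MP_160e9b_an)
-/

open Polynomial

namespace Pool.Agent.Helper17.Berk

universe u

set_option linter.dupNamespace false

variable {K : Type u} [NontriviallyNormedField K] [IsUltrametricDist K]

open Classical in
/-- number of roots of `F` in the open disc. -/
noncomputable def nlt (F : K[X]) (a : K) (t : ℝ) : ℕ :=
  (F.roots.filter (fun z => ‖z - a‖ < t)).card

open Classical in
/-- number of roots of `F` in the closed disc. -/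
noncomputable def nle (F : K[X]) (a : K) (t : ℝ) : ℕ :=
  (F.roots.filter (fun z => ‖z - a‖ ≤ t)).card

theorem norm_sum_lt {ι : Type*} (s : Finset ι) (f : ι → K) {B : ℝ} (hB : 0 < B)
    (h : ∀ i ∈ s, ‖f i‖ < B) : ‖∑ i ∈ s, f i‖ < B := by
  refine Finset.sum_induction f (fun x => ‖x‖ < B) (fun x y hx hy => ?_) (by simpa using hB) h
  exact (IsUltrametricDist.norm_add_le_max x y).trans_lt (max_lt hx hy)

theorem tv_mul {F G : K[X]} (a : K) {t : ℝ} (ht : 0 < t) :
    tv (co (F * G) a) t = tv (co F a) t * tv (co G a) t := gn_mul F G a ht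

theorem co_mul_lt {F G : K[X]} (hF : F ≠ 0) (hG : G ≠ 0) (a : K) {t : ℝ} (ht : 0 < t) (k : ℕ)
    (h : ∀ i j, i + j = k → co F a i * t ^ i < tv (co F a) t ∨ co G a j * t ^ j < tv (co G a) t) :
    co (F * G) a k * t ^ k < tv (co (F * G) a) t := by
  have hF' := TP_co hF a
  have hG' := TP_co hG a
  have hpF := tv_pos hF' ht
  have hpG := tv_pos hG' ht
  rw [tv_mul a ht]
  have htk : 0 < t ^ k := by positivity
  rw [← lt_div_iff₀ htk]
  unfold co
  rw [taylor_mul, coeff_mul]
  refine norm_sum_lt _ _ (by positivity) fun p hp => ?_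
  have hp' : p.1 + p.2 = k := Finset.HasAntidiagonal.mem_antidiagonal.1 hp
  rw [lt_div_iff₀ htk, norm_mul, ← hp', pow_add]
  have h1 : co F a p.1 * t ^ p.1 ≤ tv (co F a) t := le_tv hF' t _
  have h2 : co G a p.2 * t ^ p.2 ≤ tv (co G a) t := le_tv hG' t _
  have h0 : 0 ≤ co F a p.1 * t ^ p.1 := mul_nonneg (norm_nonneg _) (by positivity)
  have h0' : 0 ≤ co G a p.2 * t ^ p.2 := mul_nonneg (norm_nonneg _) (by positivity)
  have e : ‖((taylor a) F).coeff p.1‖ * ‖((taylor a) G).coeff p.2‖ * (t ^ p.1 * t ^ p.2)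
      = (co F a p.1 * t ^ p.1) * (co G a p.2 * t ^ p.2) := by
    unfold co; ring
  rw [e]
  rcases h p.1 p.2 hp' with h3 | h3
  · exact mul_lt_mul_of_lt_of_le_of_nonneg_of_pos h3 h2 h0 hpG
  · exact mul_lt_mul' h1 h3 h0' hpF

theorem co_mul_eq {F G : K[X]} (hF : F ≠ 0) (hG : G ≠ 0) (a : K) {t : ℝ} (ht : 0 < t) (m n : ℕ)
    (hm : co F a m * t ^ m = tv (co F a) t) (hn : co G a n * t ^ n = tv (co G a) t)
    (h : ∀ i j, i + j = m + n → (i, j) ≠ (m, n) →
      co F a i * t ^ i < tv (co F a) t ∨ co G a j * t ^ j < tv (co G a) t) :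
    co (F * G) a (m + n) * t ^ (m + n) = tv (co (F * G) a) t := by
  have hF' := TP_co hF a
  have hG' := TP_co hG a
  have hpF := tv_pos hF' ht
  have hpG := tv_pos hG' ht
  have htk : 0 < t ^ (m + n) := by positivity
  have hmem : (m, n) ∈ Finset.HasAntidiagonal.antidiagonal (m + n) := Finset.HasAntidiagonal.mem_antidiagonal.2 rfl
  have hB : ‖((taylor a) F).coeff m * ((taylor a) G).coeff n‖
      = tv (co F a) t * tv (co G a) t / t ^ (m + n) := by
    rw [eq_div_iff htk.ne', norm_mul, ← hm, ← hn, pow_add]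
    unfold co; ring
  have hrest : ‖∑ p ∈ (Finset.HasAntidiagonal.antidiagonal (m + n)).erase (m, n),
      ((taylor a) F).coeff p.1 * ((taylor a) G).coeff p.2‖
      < tv (co F a) t * tv (co G a) t / t ^ (m + n) := by
    refine norm_sum_lt _ _ (by positivity) fun p hp => ?_
    have hp1 := Finset.mem_of_mem_erase hp
    have hp' : p.1 + p.2 = m + n := Finset.HasAntidiagonal.mem_antidiagonal.1 hp1
    have hpne : (p.1, p.2) ≠ (m, n) := Finset.ne_of_mem_erase hp
    rw [lt_div_iff₀ htk, norm_mul, ← hp', pow_add]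
    have h1 : co F a p.1 * t ^ p.1 ≤ tv (co F a) t := le_tv hF' t _
    have h2 : co G a p.2 * t ^ p.2 ≤ tv (co G a) t := le_tv hG' t _
    have h0 : 0 ≤ co F a p.1 * t ^ p.1 := mul_nonneg (norm_nonneg _) (by positivity)
    have h0' : 0 ≤ co G a p.2 * t ^ p.2 := mul_nonneg (norm_nonneg _) (by positivity)
    have e : ‖((taylor a) F).coeff p.1‖ * ‖((taylor a) G).coeff p.2‖ * (t ^ p.1 * t ^ p.2)
        = (co F a p.1 * t ^ p.1) * (co G a p.2 * t ^ p.2) := by
      unfold co; ring
    rw [e]
    rcases h p.1 p.2 hp' hpne with h3 | h3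
    · exact mul_lt_mul_of_lt_of_le_of_nonneg_of_pos h3 h2 h0 hpG
    · exact mul_lt_mul' h1 h3 h0' hpF
  rw [tv_mul a ht]
  have hsum : (taylor a (F * G)).coeff (m + n) = ((taylor a) F).coeff m * ((taylor a) G).coeff n +
      ∑ p ∈ (Finset.HasAntidiagonal.antidiagonal (m + n)).erase (m, n),
      ((taylor a) F).coeff p.1 * ((taylor a) G).coeff p.2 := by
    rw [taylor_mul, coeff_mul, ← Finset.add_sum_erase _ _ hmem]
  have hne : ‖((taylor a) F).coeff m * ((taylor a) G).coeff n‖ ≠
      ‖∑ p ∈ (Finset.HasAntidiagonal.antidiagonal (m + n)).erase (m, n),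
      ((taylor a) F).coeff p.1 * ((taylor a) G).coeff p.2‖ := by
    rw [hB]; exact hrest.ne'
  have : co (F * G) a (m + n) = tv (co F a) t * tv (co G a) t / t ^ (m + n) := by
    unfold co
    rw [hsum, IsUltrametricDist.norm_add_eq_max_of_norm_ne_norm hne, hB,
      max_eq_left hrest.le]
    rfl
  rw [this, div_mul_cancel₀ _ htk.ne']

theorem lo_mul {F G : K[X]} (hF : F ≠ 0) (hG : G ≠ 0) (a : K) {t : ℝ} (ht : 0 < t) :
    lo (co (F * G) a) t = lo (co F a) t + lo (co G a) t := by
  have hF' := TP_co hF a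
  have hG' := TP_co hG a
  refine lo_eq_of (co_mul_eq hF hG a ht _ _ (lo_spec hF' ht.le) (lo_spec hG' ht.le) ?_) ?_
  · intro i j hij hne
    rcases lt_or_ge i (lo (co F a) t) with h | h
    · exact Or.inl (lt_tv_of_lt_lo hF' h)
    · right
      apply lt_tv_of_lt_lo hG'
      by_contra hcon
      push Not at hcon
      apply hne
      have h1 : i = lo (co F a) t := by omega
      have h2 : j = lo (co G a) t := by omega
      rw [h1, h2]
  · intro k hk
    refine co_mul_lt hF hG a ht k fun i j hij => ?_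
    rcases lt_or_ge i (lo (co F a) t) with h | h
    · exact Or.inl (lt_tv_of_lt_lo hF' h)
    · exact Or.inr (lt_tv_of_lt_lo hG' (by omega))

theorem hi_mul {F G : K[X]} (hF : F ≠ 0) (hG : G ≠ 0) (a : K) {t : ℝ} (ht : 0 < t) :
    hi (co (F * G) a) t = hi (co F a) t + hi (co G a) t := by
  have hF' := TP_co hF a
  have hG' := TP_co hG a
  refine hi_eq_of (TP_co (mul_ne_zero hF hG) a) ht
    (co_mul_eq hF hG a ht _ _ (hi_spec hF' ht) (hi_spec hG' ht) ?_) ?_
  · intro i j hij hne
    rcases lt_or_ge (hi (co F a) t) i with h | h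
    · exact Or.inl (lt_tv_of_hi_lt hF' ht h)
    · right
      apply lt_tv_of_hi_lt hG' ht
      by_contra hcon
      push Not at hcon
      apply hne
      have h1 : i = hi (co F a) t := by omega
      have h2 : j = hi (co G a) t := by omega
      rw [h1, h2]
  · intro k hk
    refine co_mul_lt hF hG a ht k fun i j hij => ?_
    rcases lt_or_ge (hi (co F a) t) i with h | h
    · exact Or.inl (lt_tv_of_hi_lt hF' ht h)
    · exact Or.inr (lt_tv_of_hi_lt hG' ht (by omega))

omit [IsUltrametricDist K] in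
theorem co_X_sub_C_zero (a b : K) : co (X - C b) a 0 = ‖b - a‖ := by
  unfold co
  rw [taylor_coeff_zero]
  simp [norm_sub_rev]

omit [IsUltrametricDist K] in
theorem co_X_sub_C_one (a b : K) : co (X - C b) a 1 = 1 := by
  unfold co
  simp [taylor_X, taylor_C, map_sub, coeff_X]

omit [IsUltrametricDist K] in
theorem co_X_sub_C_of_two_le (a b : K) {i : ℕ} (hi : 2 ≤ i) : co (X - C b) a i = 0 := by
  unfold co
  rw [coeff_eq_zero_of_natDegree_lt, norm_zero]
  rw [natDegree_taylor, natDegree_X_sub_C]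
  omega

omit [IsUltrametricDist K] in
theorem gn_X_sub_C (a b : K) {t : ℝ} (ht : 0 ≤ t) : gn (X - C b) a t = max t ‖b - a‖ := by
  have hTP := TP_co (X_sub_C_ne_zero b) a
  apply le_antisymm
  · refine ciSup_le fun i => ?_
    rcases Nat.lt_or_ge i 2 with h | h
    · interval_cases i
      · rw [co_X_sub_C_zero]; simp
      · rw [co_X_sub_C_one]; simp
    · rw [co_X_sub_C_of_two_le a b h, zero_mul]
      exact le_max_of_le_left ht
  · refine max_le ?_ ?_
    · have := le_tv hTP t 1
      rw [co_X_sub_C_one, pow_one, one_mul] at this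
      exact this
    · have := le_tv hTP t 0
      rw [co_X_sub_C_zero, pow_zero, mul_one] at this
      exact this

omit [IsUltrametricDist K] in
open Classical in
theorem lo_X_sub_C (a b : K) {t : ℝ} (ht : 0 < t) :
    lo (co (X - C b) a) t = if ‖b - a‖ < t then 1 else 0 := by
  have hTP := TP_co (X_sub_C_ne_zero b) a
  have htv : tv (co (X - C b) a) t = max t ‖b - a‖ := gn_X_sub_C a b ht.le
  split_ifs with h
  · refine lo_eq_of ?_ fun i hi => ?_
    · rw [co_X_sub_C_one, htv, max_eq_left h.le]; ring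
    · have : i = 0 := by omega
      subst this
      rw [co_X_sub_C_zero, htv, max_eq_left h.le]; simpa using h
  · push Not at h
    refine lo_eq_of ?_ fun i hi => absurd hi (Nat.not_lt_zero _)
    rw [co_X_sub_C_zero, htv, max_eq_right h]; ring

omit [IsUltrametricDist K] in
open Classical in
theorem hi_X_sub_C (a b : K) {t : ℝ} (ht : 0 < t) :
    hi (co (X - C b) a) t = if ‖b - a‖ ≤ t then 1 else 0 := by
  have hTP := TP_co (X_sub_C_ne_zero b) a
  have htv : tv (co (X - C b) a) t = max t ‖b - a‖ := gn_X_sub_C a b ht.le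
  split_ifs with h
  · refine hi_eq_of hTP ht ?_ fun i hi => ?_
    · rw [co_X_sub_C_one, htv, max_eq_left h]; ring
    · rw [co_X_sub_C_of_two_le a b (by omega), zero_mul]
      exact tv_pos hTP ht
  · push Not at h
    refine hi_eq_of hTP ht ?_ fun i hi => ?_
    · rw [co_X_sub_C_zero, htv, max_eq_right h.le]; ring
    · rcases Nat.lt_or_ge i 2 with h2 | h2
      · have : i = 1 := by omega
        subst this
        rw [co_X_sub_C_one, htv, max_eq_right h.le]; simpa using h
      · rw [co_X_sub_C_of_two_le a b h2, zero_mul]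
        exact tv_pos hTP ht

omit [IsUltrametricDist K] in
theorem lo_C {c : K} (hc : c ≠ 0) (a : K) {t : ℝ} (ht : 0 < t) :
    lo (co (C c) a) t = 0 ∧ hi (co (C c) a) t = 0 := by
  have hTP := TP_co (C_ne_zero.2 hc) a
  have := uniq_of (k := 0) hTP ht fun i hi => ?_
  · exact this.2
  · unfold co
    rw [taylor_C, coeff_C, coeff_C, if_neg hi, if_pos rfl]
    simpa using hc

omit [IsUltrametricDist K] in
theorem prod_ne_zero' (s : Multiset K) : (s.map (fun z => X - C z)).prod ≠ (0 : K[X]) := by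
  refine Multiset.prod_ne_zero fun h => ?_
  obtain ⟨z, _, hz⟩ := Multiset.mem_map.1 h
  exact X_sub_C_ne_zero z hz

open Classical in
theorem lo_prod {c : K} (hc : c ≠ 0) (s : Multiset K) (a : K) {t : ℝ} (ht : 0 < t) :
    lo (co (C c * (s.map (fun z => X - C z)).prod) a) t
      = (s.filter (fun z => ‖z - a‖ < t)).card := by
  induction s using Multiset.induction with
  | empty => simpa using (lo_C hc a ht).1
  | cons z s ih =>
    have e : C c * ((z ::ₘ s).map (fun z => X - C z)).prod
        = (X - C z) * (C c * (s.map (fun z => X - C z)).prod) := by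
      rw [Multiset.map_cons, Multiset.prod_cons]; ring
    rw [e, lo_mul (X_sub_C_ne_zero z) (mul_ne_zero (C_ne_zero.2 hc) (prod_ne_zero' s)) a ht, ih,
      lo_X_sub_C a z ht, Multiset.filter_cons]
    split_ifs with h
    · simp [add_comm]
    · simp

open Classical in
theorem hi_prod {c : K} (hc : c ≠ 0) (s : Multiset K) (a : K) {t : ℝ} (ht : 0 < t) :
    hi (co (C c * (s.map (fun z => X - C z)).prod) a) t
      = (s.filter (fun z => ‖z - a‖ ≤ t)).card := by
  induction s using Multiset.induction with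
  | empty => simpa using (lo_C hc a ht).2
  | cons z s ih =>
    have e : C c * ((z ::ₘ s).map (fun z => X - C z)).prod
        = (X - C z) * (C c * (s.map (fun z => X - C z)).prod) := by
      rw [Multiset.map_cons, Multiset.prod_cons]; ring
    rw [e, hi_mul (X_sub_C_ne_zero z) (mul_ne_zero (C_ne_zero.2 hc) (prod_ne_zero' s)) a ht, ih,
      hi_X_sub_C a z ht, Multiset.filter_cons]
    split_ifs with h
    · simp [add_comm]
    · simp

omit [IsUltrametricDist K] in
theorem eq_prod_of_closed [IsAlgClosed K] (F : K[X]) :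
    F = C F.leadingCoeff * (F.roots.map (fun z => X - C z)).prod :=
  (IsAlgClosed.splits F).eq_prod_roots

/-- `lo` counts the roots in the open disc. -/
theorem lo_eq_nlt [IsAlgClosed K] {F : K[X]} (hF : F ≠ 0) (a : K) {t : ℝ} (ht : 0 < t) :
    lo (co F a) t = nlt F a t := by
  conv_lhs => rw [eq_prod_of_closed F]
  rw [lo_prod (leadingCoeff_ne_zero.2 hF) _ a ht]
  rfl

/-- `hi` counts the roots in the closed disc. -/
theorem hi_eq_nle [IsAlgClosed K] {F : K[X]} (hF : F ≠ 0) (a : K) {t : ℝ} (ht : 0 < t) :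
    hi (co F a) t = nle F a t := by
  conv_lhs => rw [eq_prod_of_closed F]
  rw [hi_prod (leadingCoeff_ne_zero.2 hF) _ a ht]
  rfl

theorem gn_prod (s : Multiset K) (a : K) {t : ℝ} (ht : 0 ≤ t) :
    gn ((s.map (fun z => X - C z)).prod) a t = (s.map (fun z => max t ‖z - a‖)).prod := by
  induction s using Multiset.induction with
  | empty =>
    have := gn_C (1 : K) a ht
    simpa using this
  | cons z s ih =>
    rw [Multiset.map_cons, Multiset.prod_cons, Multiset.map_cons, Multiset.prod_cons,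
      gn_mul' _ _ a ht, ih, gn_X_sub_C a z ht]

theorem gn_eq_prod [IsAlgClosed K] (F : K[X]) (a : K) {t : ℝ} (ht : 0 ≤ t) :
    gn F a t = ‖F.leadingCoeff‖ * (F.roots.map (fun z => max t ‖z - a‖)).prod := by
  conv_lhs => rw [eq_prod_of_closed F]
  rw [gn_mul' _ _ a ht, gn_C _ a ht, gn_prod _ a ht]

end Pool.Agent.Helper17.Berk
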