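import Mathlib
import Pool.Agent.Helper17.Berk.Roots

/-!
# Topology of the Berkovich line (module B2, MP_160e9b_an)
-/

open Polynomial Topology

set_option linter.dupNamespace false

namespace Pool.Agent.Helper17.Berk

universe u

variable {K : Type u} [NontriviallyNormedField K] [IsUltrametricDist K]

/-! ### distances `x (X - C a)` -/

omit [IsUltrametricDist K] in
theorem Berk.lin_le (x : Berk K) (a b : K) : x (X - C a) ≤ max (x (X - C b)) ‖a - b‖ := by
  have h : (X - C a : K[X]) = (X - C b) + C (b - a) := by rw [C_sub]; ring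
  rw [h]
  refine (x.map_add_le _ _).trans ?_
  rw [x.map_C, norm_sub_rev b a]

omit [IsUltrametricDist K] in
theorem Berk.norm_sub_le (x : Berk K) (a b : K) :
    ‖a - b‖ ≤ max (x (X - C a)) (x (X - C b)) := by
  have h : (C (a - b) : K[X]) = (X - C b) - (X - C a) := by rw [C_sub]; ring
  rw [← x.map_C, h, max_comm]
  exact x.map_sub_le _ _

omit [IsUltrametricDist K] in
theorem Berk.lin_eq_norm (x : Berk K) {a b : K} (h : x (X - C b) < ‖a - b‖) :
    x (X - C a) = ‖a - b‖ := by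
  refine le_antisymm ((x.lin_le a b).trans (max_le h.le le_rfl)) ?_
  rcases le_max_iff.1 (x.norm_sub_le a b) with h1 | h1
  · exact h1
  · exact absurd h (not_lt.2 h1)

omit [IsUltrametricDist K] in
theorem Berk.lin_eq_lin (x : Berk K) {a b : K} (h : ‖a - b‖ < x (X - C b)) :
    x (X - C a) = x (X - C b) := by
  refine le_antisymm ((x.lin_le a b).trans (max_le le_rfl h.le)) ?_
  rcases le_max_iff.1 (x.lin_le b a) with h1 | h1
  · exact h1
  · rw [norm_sub_rev] at h1
    exact absurd h (not_lt.2 h1)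

theorem pt_lin (a b : K) : pt a (X - C b) = ‖a - b‖ := by
  change ‖(X - C b).eval a‖ = _
  simp

theorem zeta_lin (a b : K) {r : ℝ} (hr : 0 ≤ r) : zeta a r (X - C b) = max r ‖b - a‖ := by
  rw [zeta_apply hr, gn_X_sub_C a b hr]

theorem zeta_zero (a : K) : zeta a 0 = pt a := by
  ext F
  rw [zeta_apply le_rfl, gn_zero_radius]
  rfl

theorem Berk.ext_lin [IsAlgClosed K] {x y : Berk K} (h : ∀ a, x (X - C a) = y (X - C a)) :
    x = y := by
  ext F
  rw [x.eq_prod, y.eq_prod]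
  simp only [h]

theorem Berk.ext_iff_lin [IsAlgClosed K] {x y : Berk K} :
    x = y ↔ ∀ a, x (X - C a) = y (X - C a) :=
  ⟨fun h => by simp [h], Berk.ext_lin⟩

theorem zeta_eq_zeta_iff [IsAlgClosed K] {a b : K} {r s : ℝ} (hr : 0 ≤ r) (hs : 0 ≤ s) :
    zeta a r = zeta b s ↔ r = s ∧ ‖a - b‖ ≤ r := by
  constructor
  · intro h
    have h1 : zeta a r (X - C a) = zeta b s (X - C a) := by rw [h]
    have h2 : zeta a r (X - C b) = zeta b s (X - C b) := by rw [h]
    rw [zeta_lin _ _ hr, zeta_lin _ _ hs] at h1 h2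
    simp only [sub_self, norm_zero, max_eq_left hr, max_eq_left hs] at h1 h2
    have h3 : r = s := le_antisymm (by rw [← h2]; exact le_max_left _ _)
      (by rw [h1]; exact le_max_left _ _)
    exact ⟨h3, by rw [h1]; exact le_max_right _ _⟩
  · rintro ⟨rfl, h⟩
    ext F
    rw [zeta_apply hr, zeta_apply hr, gn_center F h]

/-- the smallest disc through `x` around the centre `a`: order relation with `ζ(a, t)`. -/
theorem Berk.le_zeta (x : Berk K) (a : K) (F : K[X]) : x F ≤ zeta a (x (X - C a)) F := by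
  rw [zeta_apply (x.nonneg _)]
  exact x.le_gn F le_rfl

/-! ### Topology -/

/-- the topology is generated by the functions `x ↦ |T - a|_x`. -/
theorem isInducing_lin [IsAlgClosed K] :
    IsInducing (fun (x : Berk K) (a : K) => x (X - C a)) := by
  have hc : Continuous (fun (x : Berk K) (a : K) => x (X - C a)) :=
    continuous_pi fun a => Berk.continuous_eval _
  have hP : Continuous (fun (g : K → ℝ) (F : K[X]) => ‖F.leadingCoeff‖ * (F.roots.map g).prod) :=
    continuous_pi fun F =>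
      continuous_const.mul (continuous_multiset_prod _ fun z _ => continuous_apply z)
  refine IsInducing.of_comp hc hP ?_
  have h3 : (fun (g : K → ℝ) (F : K[X]) => ‖F.leadingCoeff‖ * (F.roots.map g).prod) ∘
      (fun (x : Berk K) (a : K) => x (X - C a)) = fun (x : Berk K) (F : K[X]) => x F := by
    funext x F
    exact (x.eq_prod F).symm
  rw [h3]
  exact ⟨rfl⟩

instance : T2Space (Berk K) := by
  refine T2Space.of_injective_continuous (f := fun (x : Berk K) (F : K[X]) => x F) ?_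
    continuous_induced_dom
  intro x y h
  exact Berk.ext fun F => congrFun h F

theorem isCompact_closedDisc (a : K) (r : ℝ) : IsCompact {x : Berk K | x (X - C a) ≤ r} := by
  rcases lt_or_ge r 0 with hr | hr
  · have : {x : Berk K | x (X - C a) ≤ r} = ∅ := by
      ext x
      simp only [Set.mem_setOf_eq, Set.mem_empty_iff_false, iff_false, not_le]
      exact hr.trans_le (x.nonneg _)
    rw [this]
    exact isCompact_empty
  have hind : IsInducing (fun (x : Berk K) (F : K[X]) => x F) := ⟨rfl⟩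
  rw [hind.isCompact_iff]
  have hsub : (fun (x : Berk K) (F : K[X]) => x F) '' {x : Berk K | x (X - C a) ≤ r} ⊆
      Set.pi Set.univ (fun F : K[X] => Set.Icc 0 (gn F a r)) := by
    rintro _ ⟨x, hx, rfl⟩ F -
    exact ⟨x.nonneg F, x.le_gn F hx⟩
  have hK : IsCompact (Set.pi Set.univ (fun F : K[X] => Set.Icc 0 (gn F a r))) :=
    isCompact_univ_pi fun F => isCompact_Icc
  refine hK.of_isClosed_subset ?_ hsub
  have heq : (fun (x : Berk K) (F : K[X]) => x F) '' {x : Berk K | x (X - C a) ≤ r} =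
      {g : K[X] → ℝ | (∀ F, 0 ≤ g F) ∧ (∀ F G, g (F * G) = g F * g G) ∧
        (∀ F G, g (F + G) ≤ max (g F) (g G)) ∧ (∀ c : K, g (C c) = ‖c‖) ∧ g (X - C a) ≤ r} := by
    ext g
    constructor
    · rintro ⟨x, hx, rfl⟩
      exact ⟨x.nonneg, x.map_mul, x.map_add_le, x.map_C, hx⟩
    · rintro ⟨h1, h2, h3, h4, h5⟩
      exact ⟨⟨g, h1, h2, h3, h4⟩, h5, rfl⟩
  rw [heq]
  have e1 : ∀ F : K[X], Continuous (fun g : K[X] → ℝ => g F) := fun F => continuous_apply F
  simp only [Set.setOf_and, Set.setOf_forall]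
  refine IsClosed.inter (isClosed_iInter fun F => isClosed_le continuous_const (e1 F)) ?_
  refine IsClosed.inter (isClosed_iInter fun F => isClosed_iInter fun G =>
    isClosed_eq (e1 _) ((e1 F).mul (e1 G))) ?_
  refine IsClosed.inter (isClosed_iInter fun F => isClosed_iInter fun G =>
    isClosed_le (e1 _) ((e1 F).max (e1 G))) ?_
  refine IsClosed.inter (isClosed_iInter fun c => isClosed_eq (e1 _) continuous_const) ?_
  exact isClosed_le (e1 _) continuous_const

instance : LocallyCompactSpace (Berk K) := by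
  haveI : WeaklyLocallyCompactSpace (Berk K) := by
    refine ⟨fun x => ⟨{y : Berk K | y (X - C 0) ≤ x (X - C 0) + 1}, isCompact_closedDisc 0 _, ?_⟩⟩
    have ho : IsOpen {y : Berk K | y (X - C 0) < x (X - C 0) + 1} :=
      isOpen_lt (Berk.continuous_eval _) continuous_const
    refine Filter.mem_of_superset (ho.mem_nhds (by simp)) fun y hy => ?_
    exact (show y (X - C 0) < x (X - C 0) + 1 from hy).le
  infer_instance

instance : T2Space (P1 K) := inferInstance

/-- open disc of the Berkovich line, as a subset of `P1`. -/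
def oD (a : K) (r : ℝ) : Set (P1 K) := {p | ∃ x : Berk K, p = (x : P1 K) ∧ x (X - C a) < r}

/-- closed disc of the Berkovich line, as a subset of `P1`. -/
def cD (a : K) (r : ℝ) : Set (P1 K) := {p | ∃ x : Berk K, p = (x : P1 K) ∧ x (X - C a) ≤ r}

@[simp] theorem coe_mem_oD {a : K} {r : ℝ} {x : Berk K} :
    (x : P1 K) ∈ oD a r ↔ x (X - C a) < r := by
  constructor
  · rintro ⟨y, hy, h⟩
    rwa [OnePoint.coe_injective hy]
  · exact fun h => ⟨x, rfl, h⟩

@[simp] theorem coe_mem_cD {a : K} {r : ℝ} {x : Berk K} :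
    (x : P1 K) ∈ cD a r ↔ x (X - C a) ≤ r := by
  constructor
  · rintro ⟨y, hy, h⟩
    rwa [OnePoint.coe_injective hy]
  · exact fun h => ⟨x, rfl, h⟩

@[simp] theorem infty_notMem_oD {a : K} {r : ℝ} : (OnePoint.infty : P1 K) ∉ oD a r := by
  rintro ⟨x, hx, -⟩
  exact OnePoint.infty_ne_coe x hx

@[simp] theorem infty_notMem_cD {a : K} {r : ℝ} : (OnePoint.infty : P1 K) ∉ cD a r := by
  rintro ⟨x, hx, -⟩
  exact OnePoint.infty_ne_coe x hx

theorem oD_subset_cD (a : K) (r : ℝ) : oD a r ⊆ cD a r := by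
  rintro _ ⟨x, rfl, h⟩; exact ⟨x, rfl, h.le⟩

theorem isOpen_oD (a : K) (r : ℝ) : IsOpen (oD a r) := by
  have h : oD a r = (fun x : Berk K => (x : P1 K)) '' {x : Berk K | x (X - C a) < r} := by
    ext p
    constructor
    · rintro ⟨x, rfl, hx⟩; exact ⟨x, hx, rfl⟩
    · rintro ⟨x, hx, rfl⟩; exact ⟨x, rfl, hx⟩
  rw [h]
  exact OnePoint.isOpen_image_coe.2 (isOpen_lt (Berk.continuous_eval _) continuous_const)

theorem isClosed_cD (a : K) (r : ℝ) : IsClosed (cD a r) := by
  have h : cD a r = (fun x : Berk K => (x : P1 K)) '' {x : Berk K | x (X - C a) ≤ r} := by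
    ext p
    constructor
    · rintro ⟨x, rfl, hx⟩; exact ⟨x, hx, rfl⟩
    · rintro ⟨x, hx, rfl⟩; exact ⟨x, rfl, hx⟩
  rw [h, ← isOpen_compl_iff]
  exact OnePoint.isOpen_compl_image_coe.2
    ⟨isClosed_le (Berk.continuous_eval _) continuous_const, isCompact_closedDisc a r⟩

/-- neighbourhoods of infinity. -/
theorem exists_compl_cD_subset {V : Set (P1 K)} (hV : IsOpen V)
    (h : (OnePoint.infty : P1 K) ∈ V) : ∃ R : ℝ, 0 < R ∧ (cD 0 R)ᶜ ⊆ V := by
  have h1 := (OnePoint.isOpen_iff_of_mem h).1 hV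
  obtain ⟨-, hc⟩ := h1
  have hcont : Continuous (fun x : Berk K => x (X - C 0)) := Berk.continuous_eval _
  obtain ⟨R, hR⟩ := (hc.image hcont).bddAbove
  refine ⟨max R 1, lt_max_of_lt_right one_pos, ?_⟩
  intro p hp
  by_contra hpV
  apply hp
  induction p using OnePoint.rec with
  | infty => exact absurd h hpV
  | coe x =>
    rw [coe_mem_cD]
    refine (hR ⟨x, ?_, rfl⟩).trans (le_max_left _ _)
    simpa using hpV

/-- change of centre. -/
theorem oD_eq_oD {a b : K} {r : ℝ} (h : ‖a - b‖ < r) : oD a r = oD b r := by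
  have key : ∀ a b : K, ‖a - b‖ < r → oD a r ⊆ oD b r := by
    rintro a b h _ ⟨x, rfl, hx⟩
    refine ⟨x, rfl, (x.lin_le b a).trans_lt (max_lt hx ?_)⟩
    rwa [norm_sub_rev]
  exact Set.Subset.antisymm (key a b h) (key b a (by rwa [norm_sub_rev]))

theorem cD_eq_cD {a b : K} {r : ℝ} (h : ‖a - b‖ ≤ r) : cD a r = cD b r := by
  have key : ∀ a b : K, ‖a - b‖ ≤ r → cD a r ⊆ cD b r := by
    rintro a b h _ ⟨x, rfl, hx⟩
    refine ⟨x, rfl, (x.lin_le b a).trans (max_le hx ?_)⟩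
    rwa [norm_sub_rev]
  exact Set.Subset.antisymm (key a b h) (key b a (by rwa [norm_sub_rev]))

theorem oD_disjoint {a b : K} {r s : ℝ} (h1 : r ≤ ‖a - b‖) (h2 : s ≤ ‖a - b‖) :
    Disjoint (oD a r) (oD b s) := by
  rw [Set.disjoint_left]
  rintro _ ⟨x, rfl, hx⟩ hy
  rw [coe_mem_oD] at hy
  exact absurd (x.norm_sub_le a b) (not_le.2 (max_lt (hx.trans_le h1) (hy.trans_le h2)))

/-- discs are nested or disjoint. -/
theorem oD_subset_or_disjoint {a b : K} {r s : ℝ} (hrs : r ≤ s) :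
    oD a r ⊆ oD b s ∨ Disjoint (oD a r) (oD b s) := by
  rcases lt_or_ge ‖a - b‖ s with h | h
  · left
    rw [← oD_eq_oD h]
    rintro _ ⟨x, rfl, hx⟩
    exact ⟨x, rfl, hx.trans_le hrs⟩
  · exact Or.inr (oD_disjoint (hrs.trans h) h)

/-- the value group of an algebraically closed field is dense. -/
theorem exists_norm_between [IsAlgClosed K] {s t : ℝ} (hs : 0 ≤ s) (hst : s < t) :
    ∃ c : K, s < ‖c‖ ∧ ‖c‖ < t := by
  obtain ⟨g, hg⟩ := NormedField.exists_one_lt_norm K
  set s' : ℝ := max s (t / 2) with hs'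
  have ht : 0 < t := hs.trans_lt hst
  have hs'0 : 0 < s' := lt_max_of_lt_right (half_pos ht)
  have hs't : s' < t := max_lt hst (half_lt_self ht)
  have hq : 1 < t / s' := (one_lt_div hs'0).2 hs't
  obtain ⟨n, hn⟩ := pow_unbounded_of_one_lt ‖g‖ hq
  have hn0 : n ≠ 0 := by
    rintro rfl
    simp only [pow_zero] at hn
    exact absurd hg (not_lt.2 hn.le)
  obtain ⟨z, hz⟩ := IsAlgClosed.exists_pow_nat_eq g (Nat.pos_of_ne_zero hn0)
  have hz1 : 1 < ‖z‖ := by
    by_contra hcon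
    rw [not_lt] at hcon
    have : ‖g‖ ≤ 1 := by
      rw [← hz, norm_pow]
      exact pow_le_one₀ (norm_nonneg _) hcon
    exact absurd hg (not_lt.2 this)
  have hz2 : ‖z‖ < t / s' := by
    by_contra hcon
    rw [not_lt] at hcon
    have h1 : (t / s') ^ n ≤ ‖z‖ ^ n := pow_le_pow_left₀ (zero_le_one.trans hq.le) hcon n
    rw [← norm_pow, hz] at h1
    exact absurd hn (not_lt.2 h1)
  obtain ⟨k, hk1, hk2⟩ := exists_mem_Ico_zpow hs'0 hz1
  refine ⟨z ^ (k + 1), ?_, ?_⟩
  · rw [norm_zpow]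
    exact (le_max_left _ _).trans_lt hk2
  · rw [norm_zpow, zpow_add_one₀ (by positivity)]
    calc ‖z‖ ^ k * ‖z‖ ≤ s' * ‖z‖ := by gcongr
      _ < s' * (t / s') := by gcongr
      _ = t := by field_simp

/-- basic neighbourhoods in terms of the distances to finitely many centres. -/
theorem exists_lin_nhd [IsAlgClosed K] {V : Set (P1 K)} (hV : IsOpen V) {x : Berk K}
    (h : (x : P1 K) ∈ V) : ∃ (S : Finset K) (ε : ℝ), 0 < ε ∧
      ∀ y : Berk K, (∀ b ∈ S, |y (X - C b) - x (X - C b)| < ε) → (y : P1 K) ∈ V := by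
  classical
  have hV' : IsOpen ((fun y : Berk K => (y : P1 K)) ⁻¹' V) :=
    hV.preimage OnePoint.continuous_coe
  obtain ⟨U, hU, hUV⟩ := (isInducing_lin (K := K)).isOpen_iff.1 hV'
  have hx : (fun a : K => x (X - C a)) ∈ U := by
    have : x ∈ (fun (x : Berk K) (a : K) => x (X - C a)) ⁻¹' U := by
      rw [hUV]; exact h
    exact this
  obtain ⟨S, u, hu, hsub⟩ := isOpen_pi_iff.1 hU _ hx
  have hε : ∃ ε : ℝ, 0 < ε ∧ ∀ b ∈ S, Metric.ball (x (X - C b)) ε ⊆ u b := by
    clear hsub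
    induction S using Finset.induction_on with
    | empty => exact ⟨1, one_pos, by simp⟩
    | insert b S hb ih =>
      obtain ⟨ε, hε, hε2⟩ := ih (fun a ha => hu a (Finset.mem_insert_of_mem ha))
      obtain ⟨h1, h2⟩ := hu b (Finset.mem_insert_self _ _)
      obtain ⟨δ, hδ, hδ2⟩ := Metric.isOpen_iff.1 h1 _ h2
      refine ⟨min ε δ, lt_min hε hδ, ?_⟩
      intro c hc
      rcases Finset.mem_insert.1 hc with rfl | hc
      · exact (Metric.ball_subset_ball (min_le_right _ _)).trans hδ2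
      · exact (Metric.ball_subset_ball (min_le_left _ _)).trans (hε2 c hc)
  obtain ⟨ε, hε, hε2⟩ := hε
  refine ⟨S, ε, hε, fun y hy => ?_⟩
  have : (fun a : K => y (X - C a)) ∈ U := by
    apply hsub
    intro b hb
    apply hε2 b hb
    rw [Metric.mem_ball, Real.dist_eq]
    exact hy b hb
  have h3 : y ∈ (fun (x : Berk K) (a : K) => x (X - C a)) ⁻¹' U := this
  rw [hUV] at h3
  exact h3

/-- type II, III points and classical points near a given point, with finitely many prescribed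
distances. -/
theorem exists_pt_near [IsAlgClosed K] (x : Berk K) (S : Finset K) {ε : ℝ} (hε : 0 < ε) :
    ∃ a : K, ∀ b ∈ S, |‖a - b‖ - x (X - C b)| < ε := by
  classical
  rcases S.eq_empty_or_nonempty with rfl | hS
  · exact ⟨0, by simp⟩
  obtain ⟨b₀, hb₀, hmin⟩ := S.exists_min_image (fun b => x (X - C b)) hS
  set t := x (X - C b₀) with ht
  have ht0 : 0 ≤ t := x.nonneg _
  -- upper bound for the radius
  obtain ⟨t₁, ht₁, ht₁ε, ht₁S⟩ : ∃ t₁ : ℝ, t < t₁ ∧ t₁ ≤ t + ε ∧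
      ∀ b ∈ S, t < ‖b - b₀‖ → t₁ ≤ ‖b - b₀‖ := by
    set T := (S.filter (fun b => t < ‖b - b₀‖)).image (fun b => ‖b - b₀‖) with hT
    rcases T.eq_empty_or_nonempty with hTe | hTn
    · refine ⟨t + ε, by linarith, le_rfl, fun b hb h => ?_⟩
      have : ‖b - b₀‖ ∈ T := Finset.mem_image.2 ⟨b, Finset.mem_filter.2 ⟨hb, h⟩, rfl⟩
      rw [hTe] at this
      simp at this
    · refine ⟨min (t + ε) (T.min' hTn), ?_, min_le_left _ _, fun b hb h => ?_⟩
      · refine lt_min (by linarith) ?_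
        obtain ⟨b, hb, hb2⟩ := Finset.mem_image.1 (T.min'_mem hTn)
        rw [← hb2]
        exact (Finset.mem_filter.1 hb).2
      · refine (min_le_right _ _).trans (T.min'_le _ ?_)
        exact Finset.mem_image.2 ⟨b, Finset.mem_filter.2 ⟨hb, h⟩, rfl⟩
  obtain ⟨c, hc1, hc2⟩ := exists_norm_between (K := K) ht0 ht₁
  refine ⟨b₀ + c, fun b hb => ?_⟩
  rcases lt_or_ge t ‖b - b₀‖ with h | h
  · have h1 : ‖c‖ < ‖b - b₀‖ := hc2.trans_le (ht₁S b hb h)
    have h2 : x (X - C b) = ‖b - b₀‖ := x.lin_eq_norm h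
    have h3 : ‖b₀ + c - b‖ = ‖b - b₀‖ := by
      have : b₀ + c - b = c + (b₀ - b) := by ring
      rw [this, IsUltrametricDist.norm_add_eq_max_of_norm_ne_norm (by rw [norm_sub_rev b₀]; exact h1.ne),
        norm_sub_rev b₀, max_eq_right h1.le]
    rw [h2, h3, sub_self, abs_zero]
    exact hε
  · have h1 : ‖b - b₀‖ < ‖c‖ := h.trans_lt hc1
    have h3 : ‖b₀ + c - b‖ = ‖c‖ := by
      have : b₀ + c - b = c + (b₀ - b) := by ring
      rw [this, IsUltrametricDist.norm_add_eq_max_of_norm_ne_norm (by rw [norm_sub_rev b₀]; exact h1.ne'),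
        norm_sub_rev b₀, max_eq_left h1.le]
    have h4 : x (X - C b) = t := by
      refine le_antisymm ((x.lin_le b b₀).trans (max_le le_rfl h)) (hmin b hb)
    rw [h3, h4, abs_lt]
    constructor <;> linarith

theorem dense_range_emb [IsAlgClosed K] : Dense (Set.range (emb (K := K))) := by
  intro p
  rw [mem_closure_iff]
  intro V hV hp
  induction p using OnePoint.rec with
  | infty => exact ⟨OnePoint.infty, hp, ⟨OnePoint.infty, rfl⟩⟩
  | coe x =>
    obtain ⟨S, ε, hε, hS⟩ := exists_lin_nhd hV hp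
    obtain ⟨a, ha⟩ := exists_pt_near x S hε
    refine ⟨(pt a : P1 K), hS _ (fun b hb => ?_), ⟨(a : OnePoint K), rfl⟩⟩
    rw [pt_lin]
    exact ha b hb

/-- basis of neighbourhoods of `ζ(a, r)`, `r > 0`. -/
theorem exists_basic_subset [IsAlgClosed K] {V : Set (P1 K)} (hV : IsOpen V) {a : K} {r : ℝ}
    (hr : 0 < r) (h : (zeta a r : P1 K) ∈ V) :
    ∃ r₁ r₂ : ℝ, 0 < r₁ ∧ r₁ < r ∧ r < r₂ ∧ ∃ S : Finset K, (∀ b ∈ S, ‖b - a‖ ≤ r) ∧
      ∀ x : Berk K, x (X - C a) < r₂ → (∀ b ∈ S, r₁ < x (X - C b)) → (x : P1 K) ∈ V := by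
  classical
  obtain ⟨S, ε, hε, hS⟩ := exists_lin_nhd hV h
  obtain ⟨r₂, hr₂, hr₂ε, hr₂S⟩ : ∃ t₁ : ℝ, r < t₁ ∧ t₁ ≤ r + ε ∧
      ∀ b ∈ S, r < ‖b - a‖ → t₁ ≤ ‖b - a‖ := by
    set T := (S.filter (fun b => r < ‖b - a‖)).image (fun b => ‖b - a‖) with hT
    rcases T.eq_empty_or_nonempty with hTe | hTn
    · refine ⟨r + ε, by linarith, le_rfl, fun b hb h => ?_⟩
      have : ‖b - a‖ ∈ T := Finset.mem_image.2 ⟨b, Finset.mem_filter.2 ⟨hb, h⟩, rfl⟩
      rw [hTe] at this
      simp at this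
    · refine ⟨min (r + ε) (T.min' hTn), ?_, min_le_left _ _, fun b hb h => ?_⟩
      · refine lt_min (by linarith) ?_
        obtain ⟨b, hb, hb2⟩ := Finset.mem_image.1 (T.min'_mem hTn)
        rw [← hb2]
        exact (Finset.mem_filter.1 hb).2
      · refine (min_le_right _ _).trans (T.min'_le _ ?_)
        exact Finset.mem_image.2 ⟨b, Finset.mem_filter.2 ⟨hb, h⟩, rfl⟩
  refine ⟨max (r - ε) (r / 2), r₂, lt_max_of_lt_right (half_pos hr),
    max_lt (by linarith) (half_lt_self hr), hr₂, S.filter (fun b => ‖b - a‖ ≤ r),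
    fun b hb => (Finset.mem_filter.1 hb).2, fun x hx1 hx2 => hS x fun b hb => ?_⟩
  rw [zeta_lin _ _ hr.le]
  rcases le_or_gt ‖b - a‖ r with hb2 | hb2
  · rw [max_eq_left hb2]
    have h1 := hx2 b (Finset.mem_filter.2 ⟨hb, hb2⟩)
    have h2 := x.lin_le b a
    have h3 : x (X - C b) < r₂ := h2.trans_lt (max_lt hx1 (hb2.trans_lt hr₂))
    have h4 := (le_max_left (r - ε) (r / 2)).trans_lt h1
    rw [abs_lt]
    constructor <;> linarith
  · rw [max_eq_right hb2.le, x.lin_eq_norm (hx1.trans_le (hr₂S b hb hb2)), sub_self, abs_zero]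
    exact hε

/-- basis of neighbourhoods of a point `x` which is not of the form `ζ(a, r)` with `r > 0`: discs. -/
theorem exists_oD_subset [IsAlgClosed K] {V : Set (P1 K)} (hV : IsOpen V) (x : Berk K)
    (hx : ∀ (a : K) (r : ℝ), 0 < r → x ≠ zeta a r) (h : (x : P1 K) ∈ V) :
    ∃ (a : K) (r : ℝ), 0 < r ∧ (x : P1 K) ∈ oD a r ∧ oD a r ⊆ V := by
  classical
  obtain ⟨S, ε, hε, hS⟩ := exists_lin_nhd hV h
  by_cases h0 : ∃ b ∈ S, x (X - C b) = 0
  · obtain ⟨b, hb, hxb⟩ := h0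
    -- `x` is the classical point `b`
    obtain ⟨r, hr, hrε, hrS⟩ : ∃ r : ℝ, 0 < r ∧ r ≤ ε ∧
        ∀ c ∈ S, 0 < ‖c - b‖ → r ≤ ‖c - b‖ := by
      set T := (S.filter (fun c => 0 < ‖c - b‖)).image (fun c => ‖c - b‖) with hT
      rcases T.eq_empty_or_nonempty with hTe | hTn
      · refine ⟨ε, hε, le_rfl, fun c hc h => ?_⟩
        have : ‖c - b‖ ∈ T := Finset.mem_image.2 ⟨c, Finset.mem_filter.2 ⟨hc, h⟩, rfl⟩
        rw [hTe] at this
        simp at this
      · refine ⟨min ε (T.min' hTn), ?_, min_le_left _ _, fun c hc h => ?_⟩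
        · refine lt_min hε ?_
          obtain ⟨c, hc, hc2⟩ := Finset.mem_image.1 (T.min'_mem hTn)
          rw [← hc2]
          exact (Finset.mem_filter.1 hc).2
        · refine (min_le_right _ _).trans (T.min'_le _ ?_)
          exact Finset.mem_image.2 ⟨c, Finset.mem_filter.2 ⟨hc, h⟩, rfl⟩
    refine ⟨b, r, hr, ?_, ?_⟩
    · rw [coe_mem_oD, hxb]; exact hr
    · rintro _ ⟨y, rfl, hy⟩
      refine hS y fun c hc => ?_
      rcases eq_or_ne c b with rfl | hcb
      · rw [hxb, sub_zero, abs_of_nonneg (y.nonneg _)]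
        exact hy.trans_le hrε
      · have hpos : 0 < ‖c - b‖ := norm_pos_iff.2 (sub_ne_zero.2 hcb)
        rw [y.lin_eq_norm (hy.trans_le (hrS c hc hpos)),
          x.lin_eq_norm (by rw [hxb]; exact hpos), sub_self, abs_zero]
        exact hε
  · push Not at h0
    have hpos : ∀ b ∈ S, 0 < x (X - C b) := fun b hb => lt_of_le_of_ne (x.nonneg _) (Ne.symm (h0 b hb))
    have hex : ∀ b ∈ S, ∃ c : K, x (X - C c) < x (X - C b) := by
      intro b hb
      by_contra hcon
      push Not at hcon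
      refine hx b (x (X - C b)) (hpos b hb) (Berk.ext_lin fun c => ?_)
      rw [zeta_lin _ _ (x.nonneg _)]
      rcases lt_or_ge (x (X - C b)) ‖c - b‖ with h1 | h1
      · rw [x.lin_eq_norm h1, max_eq_right h1.le]
      · rw [max_eq_left h1]
        exact le_antisymm ((x.lin_le c b).trans (max_le le_rfl h1)) (hcon c)
    rcases S.eq_empty_or_nonempty with rfl | hSn
    · refine ⟨0, x (X - C 0) + 1, by have := x.nonneg (X - C 0); linarith, ?_, ?_⟩
      · rw [coe_mem_oD]; linarith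
      · rintro _ ⟨y, rfl, -⟩
        exact hS y (by simp)
    · obtain ⟨b₀, hb₀, hmin⟩ := S.exists_min_image (fun b => x (X - C b)) hSn
      obtain ⟨a, ha⟩ := hex b₀ hb₀
      refine ⟨a, x (X - C b₀), hpos b₀ hb₀, ?_, ?_⟩
      · rw [coe_mem_oD]; exact ha
      · rintro _ ⟨y, rfl, hy⟩
        refine hS y fun b hb => ?_
        have h1 : x (X - C a) < x (X - C b) := ha.trans_le (hmin b hb)
        have h2 : x (X - C b) = ‖b - a‖ := by
          refine le_antisymm ?_ ?_
          · rcases le_max_iff.1 (x.lin_le b a) with h3 | h3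
            · exact absurd h1 (not_lt.2 h3)
            · exact h3
          · refine (x.norm_sub_le b a).trans (max_le le_rfl h1.le)
        have h3 : y (X - C a) < ‖b - a‖ := by
          rw [← h2]; exact hy.trans_le (hmin b hb)
        rw [y.lin_eq_norm h3, h2, sub_self, abs_zero]
        exact hε

/-- every point is `ζ(a, r)` with `r ≥ 0`, or is of type IV. -/
theorem Berk.classify [IsAlgClosed K] (x : Berk K) :
    (∃ (a : K) (r : ℝ), 0 ≤ r ∧ x = zeta a r) ∨ ∀ a : K, ∃ b : K, x (X - C b) < x (X - C a) := by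
  by_cases hcon : ∀ a : K, ∃ b : K, x (X - C b) < x (X - C a)
  · exact Or.inr hcon
  · left
    push Not at hcon
    obtain ⟨a, ha⟩ := hcon
    refine ⟨a, x (X - C a), x.nonneg _, Berk.ext_lin fun c => ?_⟩
    rw [zeta_lin _ _ (x.nonneg _)]
    rcases lt_or_ge (x (X - C a)) ‖c - a‖ with h1 | h1
    · rw [x.lin_eq_norm h1, max_eq_right h1.le]
    · rw [max_eq_left h1]
      exact le_antisymm ((x.lin_le c a).trans (max_le le_rfl h1)) (ha c)

/-- a point of the closed disc `(c, s)` different from `ζ(c, s)` is in one of its open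
subdiscs of radius `s`. -/
theorem Berk.exists_dir [IsAlgClosed K] (x : Berk K) {c : K} {s : ℝ} (hs : 0 < s)
    (h : x (X - C c) ≤ s) (hne : x ≠ zeta c s) : ∃ e : K, ‖e - c‖ ≤ s ∧ x (X - C e) < s := by
  by_contra hcon
  push Not at hcon
  apply hne
  refine Berk.ext_lin fun e => ?_
  rw [zeta_lin _ _ hs.le]
  rcases lt_or_ge s ‖e - c‖ with h1 | h1
  · rw [x.lin_eq_norm (h.trans_lt h1), max_eq_right h1.le]
  · rw [max_eq_left h1]
    exact le_antisymm ((x.lin_le e c).trans (max_le h h1)) (hcon e h1)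

/-- continuity of `t ↦ ζ(a, t)`. -/
theorem continuous_zeta [IsAlgClosed K] (a : K) : Continuous (fun t : ℝ => zeta a t) := by
  rw [isInducing_lin.continuous_iff]
  refine continuous_pi fun b => ?_
  have h : (fun t : ℝ => (zeta a t) (X - C b)) = fun t : ℝ => max (max t 0) ‖b - a‖ := by
    funext t
    change gn (X - C b) a (max t 0) = _
    rw [gn_X_sub_C a b (le_max_right _ _)]
  change Continuous (fun t : ℝ => (zeta a t) (X - C b))
  rw [h]
  fun_prop

theorem continuous_zeta_coe [IsAlgClosed K] (a : K) :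
    Continuous (fun t : ℝ => (zeta a t : P1 K)) :=
  OnePoint.continuous_coe.comp (continuous_zeta a)

theorem ne_zeta_of_type4 [IsAlgClosed K] {x : Berk K}
    (h : ∀ a : K, ∃ b : K, x (X - C b) < x (X - C a)) (a : K) (r : ℝ) (hr : 0 < r) :
    x ≠ zeta a r := by
  rintro rfl
  obtain ⟨b, hb⟩ := h a
  rw [zeta_lin _ _ hr.le, zeta_lin _ _ hr.le, sub_self, norm_zero, max_eq_left hr.le] at hb
  exact absurd hb (not_lt.2 (le_max_left _ _))

theorem isPreconnected_cD [IsAlgClosed K] (a : K) {r : ℝ} (hr : 0 ≤ r) :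
    IsPreconnected (cD a r) := by
  set c : Set (Set (P1 K)) :=
    {s | ∃ b : K, ‖b - a‖ ≤ r ∧ s = (fun t : ℝ => (zeta b t : P1 K)) '' Set.Icc 0 r} with hc
  have hmem : ∀ (b : K) (t : ℝ), ‖b - a‖ ≤ r → 0 ≤ t → t ≤ r → (zeta b t : P1 K) ∈ ⋃₀ c :=
    fun b t hb h0 h1 => ⟨_, ⟨b, hb, rfl⟩, ⟨t, ⟨h0, h1⟩, rfl⟩⟩
  have hU : IsPreconnected (⋃₀ c) := by
    refine isPreconnected_sUnion (zeta a r : P1 K) c ?_ ?_
    · rintro _ ⟨b, hb, rfl⟩
      refine ⟨r, ⟨hr, le_rfl⟩, ?_⟩
      change (zeta b r : P1 K) = (zeta a r : P1 K)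
      rw [(zeta_eq_zeta_iff hr hr).2 ⟨rfl, hb⟩]
    · rintro _ ⟨b, hb, rfl⟩
      exact isPreconnected_Icc.image _ (continuous_zeta_coe b).continuousOn
  refine hU.subset_closure ?_ ?_
  · rintro _ ⟨_, ⟨b, hb, rfl⟩, ⟨t, ⟨h0, h1⟩, rfl⟩⟩
    change (zeta b t : P1 K) ∈ cD a r
    rw [coe_mem_cD, zeta_lin _ _ h0]
    exact max_le h1 (by rwa [norm_sub_rev])
  · rintro _ ⟨x, rfl, hx⟩
    rcases x.classify with ⟨b, s, hs, rfl⟩ | h4
    · rw [zeta_lin _ _ hs] at hx
      refine subset_closure (hmem b s ?_ hs ((le_max_left _ _).trans hx))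
      rw [norm_sub_rev]
      exact (le_max_right _ _).trans hx
    · rw [mem_closure_iff]
      intro V hV hxV
      obtain ⟨e, s, hs, hxs, hsub⟩ := exists_oD_subset hV x (ne_zeta_of_type4 h4) hxV
      rw [coe_mem_oD] at hxs
      obtain ⟨b, hb1, hb2⟩ : ∃ b : K, x (X - C b) ≤ x (X - C a) ∧ x (X - C b) < s := by
        rcases le_total (x (X - C e)) (x (X - C a)) with h | h
        · exact ⟨e, h, hxs⟩
        · exact ⟨a, le_rfl, h.trans_lt hxs⟩
      refine ⟨(zeta b 0 : P1 K), hsub ?_, hmem b 0 ?_ le_rfl hr⟩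
      · rw [coe_mem_oD, zeta_lin _ _ le_rfl, max_eq_right (norm_nonneg _)]
        exact (x.norm_sub_le e b).trans_lt (max_lt hxs hb2)
      · exact (x.norm_sub_le b a).trans (max_le (hb1.trans hx) hx)

/-- the complement of an open disc of type II radius is connected. -/
theorem isPreconnected_compl_oD [IsAlgClosed K] (a : K) {π : K} (hπ : π ≠ 0) :
    IsPreconnected (oD a ‖π‖)ᶜ := by
  have hρ : 0 < ‖π‖ := norm_pos_iff.2 hπ
  set ρ : ℝ := ‖π‖ with hρdef
  clear_value ρ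
  set U0 : Set (P1 K) := (fun t : ℝ => (zeta a t : P1 K)) '' Set.Ici ρ with hU0
  set c : Set (Set (P1 K)) :=
    insert U0 {s | ∃ b : K, ρ ≤ ‖b - a‖ ∧
      s = U0 ∪ (fun t : ℝ => (zeta b t : P1 K)) '' Set.Ici 0} with hc
  have hmem0 : ∀ t : ℝ, ρ ≤ t → (zeta a t : P1 K) ∈ ⋃₀ c :=
    fun t ht => ⟨U0, Set.mem_insert _ _, ⟨t, ht, rfl⟩⟩
  have hmem : ∀ (b : K) (t : ℝ), ρ ≤ ‖b - a‖ → 0 ≤ t → (zeta b t : P1 K) ∈ ⋃₀ c :=
    fun b t hb h0 => ⟨_, Set.mem_insert_of_mem _ ⟨b, hb, rfl⟩, Or.inr ⟨t, h0, rfl⟩⟩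
  have hU0c : IsPreconnected U0 :=
    isPreconnected_Ici.image _ (continuous_zeta_coe a).continuousOn
  have hU : IsPreconnected (⋃₀ c) := by
    refine isPreconnected_sUnion (zeta a ρ : P1 K) c ?_ ?_
    · rintro s hs
      rcases hs with rfl | ⟨b, hb, rfl⟩
      · exact ⟨ρ, Set.mem_Ici.2 le_rfl, rfl⟩
      · exact Or.inl ⟨ρ, Set.mem_Ici.2 le_rfl, rfl⟩
    · rintro s hs
      rcases hs with rfl | ⟨b, hb, rfl⟩
      · exact hU0c
      · refine IsPreconnected.union (zeta b ‖b - a‖ : P1 K) ?_ ?_ hU0c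
          (isPreconnected_Ici.image _ (continuous_zeta_coe b).continuousOn)
        · refine ⟨‖b - a‖, hb, ?_⟩
          change (zeta a ‖b - a‖ : P1 K) = (zeta b ‖b - a‖ : P1 K)
          rw [(zeta_eq_zeta_iff (norm_nonneg _) (norm_nonneg _)).2
            ⟨rfl, by rw [norm_sub_rev]⟩]
        · exact ⟨‖b - a‖, norm_nonneg _, rfl⟩
  refine hU.subset_closure ?_ ?_
  · rintro _ ⟨s, hs, hp⟩
    rcases hs with rfl | ⟨b, hb, rfl⟩
    · obtain ⟨t, ht, rfl⟩ := hp
      have ht' : ρ ≤ t := ht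
      change (zeta a t : P1 K) ∉ oD a ρ
      rw [coe_mem_oD, zeta_lin _ _ (hρ.le.trans ht'), not_lt]
      exact ht'.trans (le_max_left _ _)
    · rcases hp with ⟨t, ht, rfl⟩ | ⟨t, ht, rfl⟩
      · have ht' : ρ ≤ t := ht
        change (zeta a t : P1 K) ∉ oD a ρ
        rw [coe_mem_oD, zeta_lin _ _ (hρ.le.trans ht'), not_lt]
        exact ht'.trans (le_max_left _ _)
      · have ht' : 0 ≤ t := ht
        change (zeta b t : P1 K) ∉ oD a ρ
        rw [coe_mem_oD, zeta_lin _ _ ht', not_lt]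
        rw [norm_sub_rev] at hb
        exact hb.trans (le_max_right _ _)
  · intro p hp
    rw [mem_closure_iff]
    intro V hV hpV
    induction p using OnePoint.rec with
    | infty =>
      obtain ⟨R, hR, hsub⟩ := exists_compl_cD_subset hV hpV
      set t : ℝ := max ρ (R + 1) with ht
      have ht1 : ρ ≤ t := le_max_left _ _
      have ht2 : R < t := lt_of_lt_of_le (by linarith) (le_max_right ρ (R + 1))
      refine ⟨(zeta a t : P1 K), hsub ?_, hmem0 t ht1⟩
      change (zeta a t : P1 K) ∉ cD 0 R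
      rw [coe_mem_cD, zeta_lin _ _ (hρ.le.trans ht1), not_le]
      exact ht2.trans_le (le_max_left _ _)
    | coe x =>
      have hx : ρ ≤ x (X - C a) := by
        have h1 : (x : P1 K) ∉ oD a ρ := hp
        rwa [coe_mem_oD, not_lt] at h1
      rcases x.classify with ⟨b, s, hs, rfl⟩ | h4
      · rw [zeta_lin _ _ hs] at hx
        refine ⟨_, hpV, ?_⟩
        rcases le_or_gt ρ ‖b - a‖ with h | h
        · exact hmem b s h hs
        · have h2 : ρ ≤ s := by
            rcases le_max_iff.1 hx with h3 | h3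
            · exact h3
            · rw [norm_sub_rev] at h3
              exact absurd h (not_lt.2 h3)
          rw [(zeta_eq_zeta_iff (b := a) hs hs).2 ⟨rfl, (h.le.trans h2)⟩]
          exact hmem0 s h2
      · obtain ⟨e, s, hs, hxs, hsub⟩ := exists_oD_subset hV x (ne_zeta_of_type4 h4) hpV
        rw [coe_mem_oD] at hxs
        obtain ⟨b₁, hb₁⟩ := h4 a
        obtain ⟨b, hb1, hb2⟩ : ∃ b : K, x (X - C b) < x (X - C a) ∧ x (X - C b) < s := by
          rcases le_total (x (X - C e)) (x (X - C b₁)) with h | h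
          · exact ⟨e, h.trans_lt hb₁, hxs⟩
          · exact ⟨b₁, hb₁, h.trans_lt hxs⟩
        refine ⟨(zeta b 0 : P1 K), hsub ?_, hmem b 0 ?_ le_rfl⟩
        · rw [coe_mem_oD, zeta_lin _ _ le_rfl, max_eq_right (norm_nonneg _)]
          exact (x.norm_sub_le e b).trans_lt (max_lt hxs hb2)
        · rw [norm_sub_rev]
          refine hx.trans ?_
          rcases le_max_iff.1 (x.lin_le a b) with h3 | h3
          · exact absurd hb1 (not_lt.2 h3)
          · exact h3

/-- infinitely many directions at a type II point (the residue field is infinite). -/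
theorem exists_dirs [IsAlgClosed K] (a π : K) (hπ : π ≠ 0) (S : Finset K) :
    ∃ e : K, ‖e - a‖ = ‖π‖ ∧ ∀ b ∈ S, ‖b - a‖ ≤ ‖π‖ → ‖e - b‖ = ‖π‖ := by
  classical
  set T : Finset K := insert 0 ((S.filter (fun b => ‖b - a‖ ≤ ‖π‖)).image (fun b => (b - a) / π))
    with hT
  have hπ' : 0 < ‖π‖ := norm_pos_iff.2 hπ
  have hT1 : ∀ τ ∈ T, ‖τ‖ ≤ 1 := by
    intro τ hτ
    rcases Finset.mem_insert.1 hτ with rfl | hτ
    · simp
    · obtain ⟨b, hb, rfl⟩ := Finset.mem_image.1 hτ
      rw [norm_div]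
      exact (div_le_one hπ').2 (Finset.mem_filter.1 hb).2
  set P : K[X] := (∏ τ ∈ T, (X - C τ)) - 1 with hP
  have hdeg : P.degree ≠ 0 := by
    have h1 : (∏ τ ∈ T, (X - C τ) : K[X]).degree = (T.card : WithBot ℕ) := by
      rw [degree_prod]; simp
    have h2 : 0 < T.card := Finset.card_pos.2 ⟨0, Finset.mem_insert_self _ _⟩
    have h3 : (1 : K[X]).degree < (∏ τ ∈ T, (X - C τ) : K[X]).degree := by
      rw [h1, degree_one]; exact_mod_cast h2
    rw [hP, degree_sub_eq_left_of_degree_lt h3, h1]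
    exact_mod_cast h2.ne'
  obtain ⟨u, hu⟩ := IsAlgClosed.exists_root P hdeg
  have hprod : ∏ τ ∈ T, (u - τ) = 1 := by
    have : P.eval u = 0 := hu
    rw [hP, eval_sub, eval_prod, eval_one, sub_eq_zero] at this
    simpa using this
  have hnorm : ∏ τ ∈ T, ‖u - τ‖ = 1 := by
    rw [← norm_prod, hprod, norm_one]
  have hu1 : ‖u‖ ≤ 1 := by
    by_contra hcon
    rw [not_le] at hcon
    have h1 : ∀ τ ∈ T, ‖u - τ‖ = ‖u‖ := by
      intro τ hτ
      have h2 : ‖τ‖ < ‖u‖ := (hT1 τ hτ).trans_lt hcon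
      rw [sub_eq_add_neg, IsUltrametricDist.norm_add_eq_max_of_norm_ne_norm
        (by rw [norm_neg]; exact h2.ne'), norm_neg, max_eq_left h2.le]
    rw [Finset.prod_congr rfl h1, Finset.prod_const] at hnorm
    have h2 : 0 < T.card := Finset.card_pos.2 ⟨0, Finset.mem_insert_self _ _⟩
    exact absurd hnorm (one_lt_pow₀ hcon h2.ne').ne'
  have hle : ∀ τ ∈ T, ‖u - τ‖ ≤ 1 := by
    intro τ hτ
    rw [sub_eq_add_neg]
    refine (IsUltrametricDist.norm_add_le_max _ _).trans (max_le hu1 ?_)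
    rw [norm_neg]; exact hT1 τ hτ
  have heq : ∀ τ ∈ T, ‖u - τ‖ = 1 := by
    by_contra hcon
    push Not at hcon
    obtain ⟨τ, hτ, hne⟩ := hcon
    have hlt : ‖u - τ‖ < 1 := lt_of_le_of_ne (hle τ hτ) hne
    have h3 : ∏ τ ∈ T, ‖u - τ‖ < 1 := by
      rw [← Finset.mul_prod_erase T _ hτ]
      have h4 : ∏ x ∈ T.erase τ, ‖u - x‖ ≤ 1 :=
        Finset.prod_le_one (fun _ _ => norm_nonneg _) (fun x hx => hle x (Finset.mem_of_mem_erase hx))
      calc ‖u - τ‖ * ∏ x ∈ T.erase τ, ‖u - x‖ ≤ ‖u - τ‖ * 1 := by gcongr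
        _ < 1 := by rw [mul_one]; exact hlt
    exact absurd hnorm h3.ne
  refine ⟨a + π * u, ?_, fun b hb hb2 => ?_⟩
  · have h1 : ‖u‖ = 1 := by
      have := heq 0 (Finset.mem_insert_self _ _)
      simpa using this
    rw [add_sub_cancel_left, norm_mul, h1, mul_one]
  · have h1 := heq ((b - a) / π) (Finset.mem_insert_of_mem
      (Finset.mem_image.2 ⟨b, Finset.mem_filter.2 ⟨hb, hb2⟩, rfl⟩))
    have h2 : a + π * u - b = π * (u - (b - a) / π) := by field_simp; ring
    rw [h2, norm_mul, h1, mul_one]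

end Pool.Agent.Helper17.Berk
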