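import Mathlib
import Pool.Agent.Helper17.Berk.BTop

/-!
# Composition of rational functions (module COMP, MP_160e9b_an)
-/

open Polynomial Topology

set_option linter.dupNamespace false
set_option linter.unusedSectionVars false
set_option linter.deprecated false

namespace Pool.Agent.Helper17.Berk

universe u

variable {K : Type u} [NontriviallyNormedField K]

/-! ### homogenisation -/

@[simp] theorem homg_zero (n : ℕ) (U V : K[X]) : homg n 0 U V = 0 := by simp [homg]

theorem homg_sum {ι : Type*} (s : Finset ι) (n : ℕ) (F : ι → K[X]) (U V : K[X]) :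
    homg n (∑ i ∈ s, F i) U V = ∑ i ∈ s, homg n (F i) U V := by
  classical
  induction s using Finset.induction_on with
  | empty => simp
  | insert a s ha ih => rw [Finset.sum_insert ha, homg_add, ih, Finset.sum_insert ha]

theorem homg_one (n : ℕ) (U V : K[X]) : homg n 1 U V = V ^ n := by
  rw [← C_1, homg_C]; simp

theorem homg_sub (n : ℕ) (F G U V : K[X]) :
    homg n (F - G) U V = homg n F U V - homg n G U V := by
  have h : F - G = F + C (-1) * G := by simp [sub_eq_add_neg]
  rw [h, homg_add]
  have : homg n (C (-1) * G) U V = C (-1) * homg n G U V := by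
    have := homg_mul (n := 0) (m := max n G.natDegree) (C (-1)) G U V (by simp) (le_max_right _ _)
    simp only [homg, coeff_C_mul, Finset.mul_sum]
    refine Finset.sum_congr rfl fun i _ => ?_
    rw [C_mul]; ring
  rw [this]; simp [sub_eq_add_neg]

theorem homg_C_mul (n : ℕ) (c : K) (F U V : K[X]) :
    homg n (C c * F) U V = C c * homg n F U V := by
  simp only [homg, coeff_C_mul, Finset.mul_sum]
  refine Finset.sum_congr rfl fun i _ => ?_
  rw [C_mul]; ring

theorem homg_X (n : ℕ) (hn : 1 ≤ n) (U V : K[X]) : homg n X U V = U * V ^ (n - 1) := by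
  rw [homg, Finset.sum_eq_single 1]
  · simp
  · intro i _ hi
    rw [coeff_X_of_ne_one hi]; simp
  · intro h
    exact absurd (Finset.mem_range.2 (by omega)) h

theorem homg_X_sub_C (a : K) (U V : K[X]) : homg 1 (X - C a) U V = U - C a * V := by
  rw [homg_sub, homg_X 1 le_rfl, homg_C]; simp

theorem homg_pow {n : ℕ} (F U V : K[X]) (hn : F.natDegree ≤ n) (k : ℕ) :
    homg (k * n) (F ^ k) U V = homg n F U V ^ k := by
  induction k with
  | zero => simp [homg_one]
  | succ k ih =>
    rw [pow_succ, pow_succ, ← ih, Nat.succ_mul, homg_mul _ _ _ _ _ hn]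
    exact natDegree_pow_le.trans (Nat.mul_le_mul_left _ hn)

theorem homg_homg {n D : ℕ} (F P Q U V : K[X]) (hP : P.natDegree ≤ D) (hQ : Q.natDegree ≤ D) :
    homg (n * D) (homg n F P Q) U V = homg n F (homg D P U V) (homg D Q U V) := by
  conv_lhs => rw [homg.eq_def n F P Q]
  rw [homg_sum]
  conv_rhs => rw [homg]
  refine Finset.sum_congr rfl fun i hi => ?_
  have hi' : i ≤ n := Nat.lt_succ_iff.1 (Finset.mem_range.1 hi)
  have h1 : n * D = i * D + (n - i) * D := by rw [← add_mul]; congr 1; omega
  rw [mul_assoc, homg_C_mul, h1, homg_mul, homg_pow _ _ _ hP, homg_pow _ _ _ hQ, mul_assoc]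
  · exact natDegree_pow_le.trans (Nat.mul_le_mul_left _ hP)
  · exact natDegree_pow_le.trans (Nat.mul_le_mul_left _ hQ)

theorem natDegree_homg_le {n D : ℕ} (F U V : K[X]) (hU : U.natDegree ≤ D) (hV : V.natDegree ≤ D) :
    (homg n F U V).natDegree ≤ n * D := by
  rw [homg]
  refine natDegree_sum_le_of_forall_le _ _ fun i hi => ?_
  have hi' : i ≤ n := Nat.lt_succ_iff.1 (Finset.mem_range.1 hi)
  have h1 : n * D = i * D + (n - i) * D := by rw [← add_mul]; congr 1; omega
  rw [mul_assoc]
  refine (natDegree_C_mul_le _ _).trans ?_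
  refine natDegree_mul_le.trans ?_
  rw [h1]
  exact add_le_add (natDegree_pow_le.trans (Nat.mul_le_mul_left _ hU))
    (natDegree_pow_le.trans (Nat.mul_le_mul_left _ hV))

/-- homogeneous evaluation at a pair of scalars. -/
noncomputable def hev (n : ℕ) (F : K[X]) (u v : K) : K :=
  ∑ i ∈ Finset.range (n + 1), F.coeff i * u ^ i * v ^ (n - i)

theorem homg_C_C (n : ℕ) (F : K[X]) (u v : K) : homg n F (C u) (C v) = C (hev n F u v) := by
  simp only [homg, hev, map_sum, map_mul, map_pow]

theorem eval_homg' (n : ℕ) (F U V : K[X]) (z : K) :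
    (homg n F U V).eval z = hev n F (U.eval z) (V.eval z) := eval_homg n F U V z

theorem coeff_homg {n D : ℕ} (F U V : K[X]) (hU : U.natDegree ≤ D) (hV : V.natDegree ≤ D) :
    (homg n F U V).coeff (n * D) = hev n F (U.coeff D) (V.coeff D) := by
  rw [homg, hev, finsetSum_coeff]
  refine Finset.sum_congr rfl fun i hi => ?_
  have hi' : i ≤ n := Nat.lt_succ_iff.1 (Finset.mem_range.1 hi)
  have h1 : n * D = i * D + (n - i) * D := by rw [← add_mul]; congr 1; omega
  rw [mul_assoc, coeff_C_mul, h1, coeff_mul_add_eq_of_natDegree_le, coeff_pow_of_natDegree_le hU,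
    coeff_pow_of_natDegree_le hV, mul_assoc]
  · exact natDegree_pow_le.trans (Nat.mul_le_mul_left _ hU)
  · exact natDegree_pow_le.trans (Nat.mul_le_mul_left _ hV)

theorem hev_of_ne {n : ℕ} {F : K[X]} (hn : F.natDegree ≤ n) (u : K) {v : K} (hv : v ≠ 0) :
    hev n F u v = F.eval (u / v) * v ^ n := homg_sum_ne hn u v hv

theorem hev_zero_right (n : ℕ) (F : K[X]) (u : K) : hev n F u 0 = F.coeff n * u ^ n := by
  rw [hev, Finset.sum_eq_single n]
  · simp
  · intro i hi hne
    have : i < n := by
      have := Finset.mem_range.1 hi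
      omega
    rw [zero_pow (by omega), mul_zero]
  · simp

theorem hev_homg {n D : ℕ} (F U V : K[X]) (hU : U.natDegree ≤ D) (hV : V.natDegree ≤ D) (u v : K) :
    hev (n * D) (homg n F U V) u v = hev n F (hev D U u v) (hev D V u v) := by
  have h := homg_homg (n := n) F U V (C u) (C v) hU hV
  rw [homg_C_C, homg_C_C, homg_C_C, homg_C_C] at h
  exact C_injective h

/-- no common roots for coprime polynomials. -/
theorem not_root_of_coprime {F G : K[X]} (h : IsCoprime F G) (z : K) :
    ¬ (F.eval z = 0 ∧ G.eval z = 0) := by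
  rintro ⟨h1, h2⟩
  obtain ⟨a, b, hab⟩ := h
  have := congrArg (eval z) hab
  simp [h1, h2] at this

namespace RatMap

theorem natDegree_P_le (f : RatMap K) : f.P.natDegree ≤ f.deg := le_max_left _ _
theorem natDegree_Q_le (f : RatMap K) : f.Q.natDegree ≤ f.deg := le_max_right _ _

theorem coeff_deg_ne (f : RatMap K) : ¬ (f.P.coeff f.deg = 0 ∧ f.Q.coeff f.deg = 0) := by
  rintro ⟨hP, hQ⟩
  have hf := not_root_of_coprime f.cop
  rcases le_total f.P.natDegree f.Q.natDegree with hle | hle
  · have hd : f.deg = f.Q.natDegree := max_eq_right hle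
    rw [hd, coeff_natDegree, leadingCoeff_eq_zero] at hQ
    rw [hQ] at hle hd
    have hP0 : f.P.natDegree = 0 := by simpa using hle
    rw [hd] at hP
    have : f.P = 0 := by
      rw [eq_C_of_natDegree_eq_zero hP0] at hP ⊢
      simp at hP
      simp [hP]
    exact hf 0 (by simp [this, hQ])
  · have hd : f.deg = f.P.natDegree := max_eq_left hle
    rw [hd, coeff_natDegree, leadingCoeff_eq_zero] at hP
    rw [hP] at hle hd
    have hQ0 : f.Q.natDegree = 0 := by simpa using hle
    rw [hd] at hQ
    have : f.Q = 0 := by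
      rw [eq_C_of_natDegree_eq_zero hQ0] at hQ ⊢
      simp at hQ
      simp [hQ]
    exact hf 0 (by simp [this, hP])

theorem hev_ne (f : RatMap K) {u v : K} (h : ¬ (u = 0 ∧ v = 0)) :
    ¬ (hev f.deg f.P u v = 0 ∧ hev f.deg f.Q u v = 0) := by
  rintro ⟨h1, h2⟩
  by_cases hv : v = 0
  · subst hv
    have hu : u ≠ 0 := fun hu => h ⟨hu, rfl⟩
    rw [hev_zero_right] at h1 h2
    exact f.coeff_deg_ne ⟨by simpa [hu] using h1, by simpa [hu] using h2⟩
  · rw [hev_of_ne f.natDegree_P_le _ hv] at h1
    rw [hev_of_ne f.natDegree_Q_le _ hv] at h2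
    have hvn : v ^ f.deg ≠ 0 := pow_ne_zero _ hv
    exact not_root_of_coprime f.cop (u / v) ⟨by simpa [hvn] using h1, by simpa [hvn] using h2⟩

section

open Classical in
/-- the classical point with homogeneous coordinates `(u : v)`. -/
noncomputable def toP (u v : K) : OnePoint K :=
  if v = 0 then OnePoint.infty else ((u / v : K) : OnePoint K)

theorem toP_zero (u : K) : toP u 0 = OnePoint.infty := by simp [toP]

theorem toP_of_ne (u : K) {v : K} (hv : v ≠ 0) : toP u v = ((u / v : K) : OnePoint K) := by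
  simp [toP, hv]

theorem toP_one (u : K) : toP u 1 = (u : OnePoint K) := by simp [toP]

theorem toP_mul {c : K} (hc : c ≠ 0) (u v : K) : toP (u * c) (v * c) = toP u v := by
  by_cases hv : v = 0
  · subst hv; simp [toP_zero]
  · rw [toP_of_ne _ hv, toP_of_ne _ (mul_ne_zero hv hc), mul_div_mul_right _ _ hc]

theorem actK_infty (f : RatMap K) :
    f.actK OnePoint.infty = toP (f.P.coeff f.deg) (f.Q.coeff f.deg) := rfl

theorem actK_coe (f : RatMap K) (a : K) :
    f.actK (a : OnePoint K) = toP (f.P.eval a) (f.Q.eval a) := rfl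

theorem actK_toP (f : RatMap K) {u v : K} (h : ¬ (u = 0 ∧ v = 0)) :
    f.actK (toP u v) = toP (hev f.deg f.P u v) (hev f.deg f.Q u v) := by
  by_cases hv : v = 0
  · subst hv
    have hu : u ≠ 0 := fun hu => h ⟨hu, rfl⟩
    rw [toP_zero, actK_infty, hev_zero_right, hev_zero_right, toP_mul (pow_ne_zero _ hu)]
  · rw [toP_of_ne _ hv, actK_coe, hev_of_ne f.natDegree_P_le _ hv, hev_of_ne f.natDegree_Q_le _ hv,
      toP_mul (pow_ne_zero _ hv)]

theorem exists_toP (z : OnePoint K) : ∃ u v : K, ¬ (u = 0 ∧ v = 0) ∧ z = toP u v := by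
  induction z using OnePoint.rec with
  | infty => exact ⟨1, 0, by simp, (toP_zero 1).symm⟩
  | coe a => exact ⟨a, 1, by simp, (toP_one a).symm⟩

end

section comp

variable [IsUltrametricDist K] [IsAlgClosed K]

theorem comp_P (f g : RatMap K) : (f.comp g).P = homg f.deg f.P g.P g.Q := rfl
theorem comp_Q (f g : RatMap K) : (f.comp g).Q = homg f.deg f.Q g.P g.Q := rfl

/-- the degree is multiplicative. -/
theorem deg_comp (f g : RatMap K) : (f.comp g).deg = f.deg * g.deg := by
  apply le_antisymm
  · exact max_le (natDegree_homg_le _ _ _ g.natDegree_P_le g.natDegree_Q_le)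
      (natDegree_homg_le _ _ _ g.natDegree_P_le g.natDegree_Q_le)
  · have h := f.hev_ne g.coeff_deg_ne
    rw [← coeff_homg _ _ _ g.natDegree_P_le g.natDegree_Q_le,
      ← coeff_homg _ _ _ g.natDegree_P_le g.natDegree_Q_le, not_and_or] at h
    rcases h with h | h
    · exact (le_natDegree_of_ne_zero h).trans (le_max_left _ _)
    · exact (le_natDegree_of_ne_zero h).trans (le_max_right _ _)

theorem actK_comp (f g : RatMap K) (z : OnePoint K) :
    (f.comp g).actK z = f.actK (g.actK z) := by
  obtain ⟨u, v, h, rfl⟩ := exists_toP z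
  rw [actK_toP _ h, actK_toP _ h, actK_toP _ (g.hev_ne h), deg_comp, comp_P, comp_Q,
    hev_homg _ _ _ g.natDegree_P_le g.natDegree_Q_le,
    hev_homg _ _ _ g.natDegree_P_le g.natDegree_Q_le]

theorem deg_id : (RatMap.id K).deg = 1 := by
  simp [RatMap.deg, RatMap.id]

theorem deg_iter (f : RatMap K) (n : ℕ) : (f.iter n).deg = f.deg ^ n := by
  induction n with
  | zero => simp [iter, deg_id]
  | succ n ih => rw [iter, deg_comp, ih, pow_succ']

theorem actK_id (z : OnePoint K) : (RatMap.id K).actK z = z := by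
  obtain ⟨u, v, h, rfl⟩ := exists_toP z
  rw [actK_toP _ h, deg_id]
  simp [RatMap.id, hev, coeff_X, coeff_one]

end comp

end RatMap

/-! ### the action on Berkovich points -/

theorem Berk.abs_sub_le (x : Berk K) (F G : K[X]) : |x F - x G| ≤ x (F - G) := by
  have h1 : x F ≤ max (x G) (x (F - G)) := by
    have := x.map_add_le G (F - G)
    simpa using this
  have h2 : x G ≤ max (x F) (x (F - G)) := by
    have := x.map_sub_le F (F - G)
    simpa using this
  have h3 := x.nonneg (F - G)
  rw [abs_sub_le_iff]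
  constructor
  · rcases le_max_iff.1 h1 with h | h
    · linarith
    · have := x.nonneg G; linarith
  · rcases le_max_iff.1 h2 with h | h
    · linarith
    · have := x.nonneg F; linarith

theorem Berk.eq_of_dvd_sub (x : Berk K) {V A B : K[X]} (hV : x V = 0) (h : V ∣ A - B) :
    x A = x B := by
  obtain ⟨W, hW⟩ := h
  have h1 := x.abs_sub_le A B
  rw [hW, x.map_mul, hV, zero_mul] at h1
  have := abs_nonpos_iff.1 h1
  linarith

theorem Berk.not_both (x : Berk K) {P Q : K[X]} (h : IsCoprime P Q) : ¬ (x P = 0 ∧ x Q = 0) := by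
  rintro ⟨h1, h2⟩
  obtain ⟨a, b, hab⟩ := h
  have := x.map_add_le (a * P) (b * Q)
  rw [hab, x.map_one, x.map_mul, x.map_mul, h1, h2] at this
  simp at this
  linarith

theorem Berk.sum_le (x : Berk K) {ι : Type*} (s : Finset ι) (G : ι → K[X]) {B : ℝ} (hB : 0 ≤ B)
    (h : ∀ i ∈ s, x (G i) ≤ B) : x (∑ i ∈ s, G i) ≤ B := by
  classical
  induction s using Finset.induction_on with
  | empty => simpa using hB
  | insert a s ha ih =>
    rw [Finset.sum_insert ha]
    refine (x.map_add_le _ _).trans (max_le (h a (Finset.mem_insert_self _ _)) (ih ?_))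
    exact fun i hi => h i (Finset.mem_insert_of_mem hi)

theorem dvd_homg_sub (n : ℕ) (F U V : K[X]) : V ∣ homg n F U V - C (F.coeff n) * U ^ n := by
  rw [homg, Finset.sum_range_succ]
  simp only [Nat.sub_self, pow_zero, mul_one, add_sub_cancel_right]
  refine Finset.dvd_sum fun i hi => ?_
  have : n - i ≠ 0 := by
    have := Finset.mem_range.1 hi
    omega
  exact (dvd_pow_self V this).mul_left _

theorem Berk.homg_of_eq_zero (x : Berk K) (n : ℕ) (F U V : K[X]) (hV : x V = 0) :
    x (homg n F U V) = ‖F.coeff n‖ * x U ^ n := by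
  rw [x.eq_of_dvd_sub hV (dvd_homg_sub n F U V)]
  simp

namespace RatMap

theorem actB_apply_of_le (f : RatMap K) (x : Berk K) (h : x f.Q ≠ 0) {F : K[X]} {m : ℕ}
    (hm : F.natDegree ≤ m) : f.actB x h F = x (homg m F f.P f.Q) / x f.Q ^ m := by
  change x (homg F.natDegree F f.P f.Q) / x f.Q ^ F.natDegree = _
  rw [homg_of_le F _ _ le_rfl hm, Berk.map_mul, Berk.map_pow]
  have h1 : x f.Q ^ m = x f.Q ^ F.natDegree * x f.Q ^ (m - F.natDegree) := by
    rw [← pow_add, Nat.add_sub_cancel' hm]
  rw [h1, mul_div_mul_right _ _ (pow_ne_zero _ h)]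

theorem actB_apply (f : RatMap K) (x : Berk K) (h : x f.Q ≠ 0) (F : K[X]) :
    f.actB x h F = x (homg F.natDegree F f.P f.Q) / x f.Q ^ F.natDegree := rfl

theorem actB_X_sub_C (f : RatMap K) (x : Berk K) (h : x f.Q ≠ 0) (a : K) :
    f.actB x h (X - C a) = x (f.P - C a * f.Q) / x f.Q := by
  rw [f.actB_apply_of_le x h (m := 1) (by simp), homg_X_sub_C, pow_one]

theorem actB_X (f : RatMap K) (x : Berk K) (h : x f.Q ≠ 0) :
    f.actB x h X = x f.P / x f.Q := by
  have := f.actB_X_sub_C x h 0
  simpa using this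

variable [IsUltrametricDist K]

theorem act_coe_of_eq (f : RatMap K) {x : Berk K} (h : x f.Q = 0) :
    f.act (x : P1 K) = OnePoint.infty := by
  change (if h : x f.Q = 0 then OnePoint.infty else ((f.actB x h : Berk K) : P1 K)) = _
  rw [dif_pos h]

theorem act_coe_of_ne (f : RatMap K) {x : Berk K} (h : x f.Q ≠ 0) :
    f.act (x : P1 K) = ((f.actB x h : Berk K) : P1 K) := by
  change (if h : x f.Q = 0 then OnePoint.infty else ((f.actB x h : Berk K) : P1 K)) = _
  rw [dif_neg h]

theorem act_infty (f : RatMap K) : f.act OnePoint.infty = emb (f.actK OnePoint.infty) := rfl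

theorem act_coe_eq_infty_iff (f : RatMap K) {x : Berk K} :
    f.act (x : P1 K) = OnePoint.infty ↔ x f.Q = 0 := by
  by_cases h : x f.Q = 0
  · simp [f.act_coe_of_eq h, h]
  · simp only [f.act_coe_of_ne h, h, iff_false]
    exact OnePoint.coe_ne_infty _

theorem act_emb (f : RatMap K) (z : OnePoint K) : f.act (emb z) = emb (f.actK z) := by
  induction z using OnePoint.rec with
  | infty => rfl
  | coe a =>
    rw [actK_coe, emb_coe]
    by_cases h : f.Q.eval a = 0
    · rw [h, toP_zero, emb_infty]
      exact f.act_coe_of_eq (by change ‖f.Q.eval a‖ = 0; simp [h])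
    · have hx : pt a f.Q ≠ 0 := by change ‖f.Q.eval a‖ ≠ 0; simpa using h
      rw [f.act_coe_of_ne hx, toP_of_ne _ h, emb_coe]
      congr 1
      ext F
      rw [actB_apply]
      change ‖(homg F.natDegree F f.P f.Q).eval a‖ / ‖f.Q.eval a‖ ^ F.natDegree =
        ‖F.eval (f.P.eval a / f.Q.eval a)‖
      rw [eval_homg', hev_of_ne le_rfl _ h, norm_mul, norm_pow, mul_div_assoc,
        div_self (pow_ne_zero _ (by simpa using h)), mul_one]

/-- functoriality. -/
theorem act_comp [IsAlgClosed K] (f g : RatMap K) (x : P1 K) :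
    (f.comp g).act x = f.act (g.act x) := by
  induction x using OnePoint.rec with
  | infty => rw [act_infty, act_infty, actK_comp, act_emb]
  | coe x =>
    by_cases hV : x g.Q = 0
    · -- `x` is a pole of `g`
      have hU : x g.P ≠ 0 := fun hU => x.not_both g.cop ⟨hU, hV⟩
      rw [g.act_coe_of_eq hV, act_infty, actK_infty]
      have hQ : x (f.comp g).Q = ‖f.Q.coeff f.deg‖ * x g.P ^ f.deg :=
        x.homg_of_eq_zero _ _ _ _ hV
      by_cases hq : f.Q.coeff f.deg = 0
      · rw [(f.comp g).act_coe_of_eq (by rw [hQ, hq]; simp), hq, toP_zero, emb_infty]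
      · have hne : x (f.comp g).Q ≠ 0 := by
          rw [hQ]; exact mul_ne_zero (by simpa using hq) (pow_ne_zero _ hU)
        rw [(f.comp g).act_coe_of_ne hne, toP_of_ne _ hq, emb_coe]
        congr 1
        ext F
        rw [actB_apply, hQ, comp_P, comp_Q, ← homg_homg _ _ _ _ _ f.natDegree_P_le f.natDegree_Q_le,
          x.homg_of_eq_zero _ _ _ _ hV, coeff_homg _ _ _ f.natDegree_P_le f.natDegree_Q_le,
          hev_of_ne le_rfl _ hq]
        change _ = ‖F.eval (f.P.coeff f.deg / f.Q.coeff f.deg)‖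
        rw [norm_mul, norm_pow, mul_pow, ← pow_mul, mul_comm f.deg, mul_assoc, mul_div_assoc,
          div_self, mul_one]
        exact mul_ne_zero (pow_ne_zero _ (by simpa using hq)) (pow_ne_zero _ hU)
    · rw [g.act_coe_of_ne hV]
      set y := g.actB x hV with hy
      have hyQ : y f.Q = x (f.comp g).Q / x g.Q ^ f.deg :=
        g.actB_apply_of_le x hV f.natDegree_Q_le
      have hVn : x g.Q ^ f.deg ≠ 0 := pow_ne_zero _ hV
      by_cases hQ : x (f.comp g).Q = 0
      · rw [(f.comp g).act_coe_of_eq hQ, f.act_coe_of_eq]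
        rw [hyQ, hQ, zero_div]
      · have hyQ' : y f.Q ≠ 0 := by rw [hyQ]; exact div_ne_zero hQ hVn
        rw [(f.comp g).act_coe_of_ne hQ, f.act_coe_of_ne hyQ']
        congr 1
        ext F
        rw [actB_apply, actB_apply, comp_P, comp_Q,
          ← homg_homg _ _ _ _ _ f.natDegree_P_le f.natDegree_Q_le, hyQ,
          g.actB_apply_of_le x hV (m := F.natDegree * f.deg)
            (natDegree_homg_le _ _ _ f.natDegree_P_le f.natDegree_Q_le), div_pow, ← pow_mul,
          mul_comm f.deg, div_div_div_cancel_right₀ (pow_ne_zero _ hV), comp_Q]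

theorem act_id (x : P1 K) : (RatMap.id K).act x = x := by
  induction x using OnePoint.rec with
  | infty =>
    rw [act_infty, actK_infty]
    have hd : (RatMap.id K).deg = 1 := by simp [RatMap.deg, RatMap.id]
    rw [hd]
    have : (RatMap.id K).Q.coeff 1 = 0 := by simp [RatMap.id, coeff_one]
    rw [this, toP_zero, emb_infty]
  | coe x =>
    have h : x (RatMap.id K).Q ≠ 0 := by simp [RatMap.id]
    rw [act_coe_of_ne _ h]
    congr 1
    ext F
    rw [actB_apply]
    have h1 : homg F.natDegree F (RatMap.id K).P (RatMap.id K).Q = F := by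
      simp only [homg, RatMap.id, one_pow, mul_one]
      exact (F.as_sum_range_C_mul_X_pow).symm
    rw [h1]
    simp [RatMap.id]

theorem act_iter [IsAlgClosed K] (f : RatMap K) (n : ℕ) : (f.iter n).act = f.act^[n] := by
  induction n with
  | zero => funext x; exact act_id x
  | succ n ih =>
    funext x
    rw [iter, act_comp, ih, Function.iterate_succ_apply']

theorem actK_iter [IsAlgClosed K] (f : RatMap K) (n : ℕ) : (f.iter n).actK = f.actK^[n] := by
  induction n with
  | zero => funext x; exact actK_id x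
  | succ n ih =>
    funext x
    rw [iter, actK_comp, ih, Function.iterate_succ_apply']

end RatMap

/-! ### continuity -/

open Filter

section Cont

/-- on points near infinity, `x F ≤ M * x X ^ D`. -/
theorem Berk.le_pow (x : Berk K) (F : K[X]) {D : ℕ} (hD : F.natDegree ≤ D) (hx : 1 ≤ x X) :
    x F ≤ (∑ i ∈ Finset.range (D + 1), ‖F.coeff i‖) * x X ^ D := by
  have hF : F = ∑ i ∈ Finset.range (D + 1), C (F.coeff i) * X ^ i :=
    F.as_sum_range_C_mul_X_pow' (Nat.lt_succ_of_le hD)
  have h0 : 0 ≤ ∑ i ∈ Finset.range (D + 1), ‖F.coeff i‖ :=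
    Finset.sum_nonneg fun i _ => norm_nonneg _
  conv_lhs => rw [hF]
  refine x.sum_le _ _ (mul_nonneg h0 (pow_nonneg (x.nonneg _) _)) fun i hi => ?_
  rw [x.map_mul, x.map_C, x.map_pow]
  have hi' : i ≤ D := Nat.lt_succ_iff.1 (Finset.mem_range.1 hi)
  refine mul_le_mul ?_ (pow_le_pow_right₀ hx hi') (pow_nonneg (x.nonneg _) _) h0
  exact Finset.single_le_sum (f := fun i => ‖F.coeff i‖) (fun i _ => norm_nonneg _) hi

/-- leading behaviour at infinity. -/
theorem tendsto_div_pow {l : Filter (Berk K)} (hl : Tendsto (fun x : Berk K => x X) l atTop)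
    (F : K[X]) {D : ℕ} (hD : F.natDegree ≤ D) :
    Tendsto (fun x : Berk K => x F / x X ^ D) l (𝓝 ‖F.coeff D‖) := by
  rcases Nat.eq_zero_or_pos D with rfl | hpos
  · have hF : F = C (F.coeff 0) := eq_C_of_natDegree_eq_zero (by omega)
    have : (fun x : Berk K => x F / x X ^ 0) = fun _ => ‖F.coeff 0‖ := by
      funext x
      rw [pow_zero, div_one]
      conv_lhs => rw [hF]
      exact x.map_C _
    rw [this]
    exact tendsto_const_nhds
  · obtain ⟨E, rfl⟩ : ∃ E, D = E + 1 := ⟨D - 1, by omega⟩
    set G : K[X] := F - C (F.coeff (E + 1)) * X ^ (E + 1) with hG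
    have hGd : G.natDegree ≤ E := by
      rw [natDegree_le_iff_coeff_eq_zero]
      intro N hN
      rw [hG, coeff_sub, coeff_C_mul, coeff_X_pow]
      by_cases h : N = E + 1
      · subst h; simp
      · rw [if_neg h, mul_zero, sub_zero]
        exact coeff_eq_zero_of_natDegree_lt (by omega)
    set M : ℝ := ∑ i ∈ Finset.range (E + 1), ‖G.coeff i‖ with hM
    have h1 : ∀ᶠ x in l, |x F / x X ^ (E + 1) - ‖F.coeff (E + 1)‖| ≤ M * (x X)⁻¹ := by
      filter_upwards [hl.eventually_ge_atTop 1] with x hx
      have hx0 : 0 < x X := lt_of_lt_of_le one_pos hx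
      have hpow : 0 < x X ^ (E + 1) := pow_pos hx0 _
      have h2 : ‖F.coeff (E + 1)‖ = x (C (F.coeff (E + 1)) * X ^ (E + 1)) / x X ^ (E + 1) := by
        rw [x.map_mul, x.map_C, x.map_pow, mul_div_assoc, div_self hpow.ne', mul_one]
      rw [h2, ← sub_div, abs_div, abs_of_pos hpow, div_le_iff₀ hpow]
      refine (x.abs_sub_le _ _).trans ((x.le_pow G hGd hx).trans (le_of_eq ?_))
      rw [pow_succ]
      field_simp
      rfl
    have h3 : Tendsto (fun x : Berk K => M * (x X)⁻¹) l (𝓝 0) := by
      have := (tendsto_inv_atTop_zero.comp hl).const_mul M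
      simpa using this
    rw [tendsto_iff_norm_sub_tendsto_zero]
    refine squeeze_zero' (Eventually.of_forall fun x => norm_nonneg _) ?_ h3
    filter_upwards [h1] with x hx using by simpa [Real.norm_eq_abs] using hx

variable [IsUltrametricDist K]

theorem tendsto_coclosedCompact [IsAlgClosed K] :
    Tendsto (fun x : Berk K => x X) (coclosedCompact (Berk K)) atTop := by
  rw [tendsto_atTop]
  intro b
  rw [Filter.Eventually, hasBasis_coclosedCompact.mem_iff]
  refine ⟨{x : Berk K | x (X - C 0) ≤ b},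
    ⟨isClosed_le (Berk.continuous_eval _) continuous_const, isCompact_closedDisc 0 b⟩, ?_⟩
  intro x hx
  simp only [Set.mem_compl_iff, Set.mem_setOf_eq, C_0, sub_zero, not_le] at hx
  exact hx.le

/-- criterion for convergence to infinity under `f`. -/
theorem RatMap.tendsto_act_infty (f : RatMap K) {l : Filter (Berk K)}
    (h : ∀ R : ℝ, 0 < R → ∀ᶠ x : Berk K in l, R * x f.Q < x f.P) :
    Tendsto (fun x : Berk K => f.act (x : P1 K)) l (𝓝 OnePoint.infty) := by
  rw [OnePoint.hasBasis_nhds_infty.tendsto_right_iff]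
  rintro s ⟨-, hs⟩
  obtain ⟨R, hR⟩ := hs.bddAbove_image (f := fun y : Berk K => y X)
    (Berk.continuous_eval X).continuousOn
  have hR' : ∀ y ∈ s, y X ≤ R := fun y hy => hR ⟨y, hy, rfl⟩
  filter_upwards [h (max R 1) (lt_of_lt_of_le one_pos (le_max_right _ _))] with x hx
  by_cases hQ : x f.Q = 0
  · right
    rw [f.act_coe_of_eq hQ]; rfl
  · left
    rw [f.act_coe_of_ne hQ]
    refine ⟨_, ?_, rfl⟩
    intro hmem
    have h1 := hR' _ hmem
    rw [f.actB_X x hQ, div_le_iff₀ (lt_of_le_of_ne (x.nonneg _) (Ne.symm hQ))] at h1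
    have h2 : R * x f.Q ≤ max R 1 * x f.Q :=
      mul_le_mul_of_nonneg_right (le_max_left _ _) (x.nonneg _)
    linarith

open Classical in
/-- criterion for convergence to a finite point under `f`. -/
theorem RatMap.tendsto_act_coe (f : RatMap K) {l : Filter (Berk K)} (y : Berk K)
    (h0 : ∀ᶠ x : Berk K in l, x f.Q ≠ 0)
    (h : ∀ F : K[X], Tendsto (fun x : Berk K =>
      x (homg F.natDegree F f.P f.Q) / x f.Q ^ F.natDegree) l (𝓝 (y F))) :
    Tendsto (fun x : Berk K => f.act (x : P1 K)) l (𝓝 (y : P1 K)) := by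
  set G : Berk K → Berk K := fun x => if hx : x f.Q = 0 then y else f.actB x hx with hG
  have hT : Tendsto G l (𝓝 y) := by
    have hind : IsInducing (fun (x : Berk K) (F : K[X]) => x F) := ⟨rfl⟩
    rw [hind.tendsto_nhds_iff, tendsto_pi_nhds]
    intro F
    refine (h F).congr' ?_
    filter_upwards [h0] with x hx
    simp only [Function.comp, hG, dif_neg hx]
    rfl
  have hT' := (OnePoint.continuous_coe.tendsto y).comp hT
  refine hT'.congr' ?_
  filter_upwards [h0] with x hx
  simp only [Function.comp, hG, dif_neg hx]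
  exact (f.act_coe_of_ne hx).symm

/-- the action of a rational function is continuous. -/
theorem RatMap.continuous_act [IsAlgClosed K] (f : RatMap K) : Continuous f.act := by
  rw [continuous_iff_continuousAt]
  intro x
  induction x using OnePoint.rec with
  | coe x =>
    rw [OnePoint.continuousAt_coe]
    change Tendsto (fun x : Berk K => f.act (x : P1 K)) (𝓝 x) (𝓝 (f.act (x : P1 K)))
    by_cases hQ : x f.Q = 0
    · rw [f.act_coe_of_eq hQ]
      refine f.tendsto_act_infty fun R hR => ?_
      have hP : 0 < x f.P :=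
        lt_of_le_of_ne (x.nonneg _) fun h => x.not_both f.cop ⟨h.symm, hQ⟩
      have hc : Continuous fun y : Berk K => y f.P - R * y f.Q :=
        (Berk.continuous_eval _).sub ((Berk.continuous_eval _).const_mul R)
      have : ∀ᶠ y in 𝓝 x, 0 < y f.P - R * y f.Q := by
        refine hc.continuousAt.eventually_const_lt ?_
        change 0 < x f.P - R * x f.Q
        rw [hQ, mul_zero, sub_zero]; exact hP
      filter_upwards [this] with y hy
      linarith
    · rw [f.act_coe_of_ne hQ]
      refine f.tendsto_act_coe _ ?_ fun F => ?_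
      · exact (Berk.continuous_eval f.Q).continuousAt.eventually_ne hQ
      · exact ((Berk.continuous_eval _).tendsto x).div
          (((Berk.continuous_eval _).tendsto x).pow _) (pow_ne_zero _ hQ)
  | infty =>
    rw [OnePoint.continuousAt_infty', f.act_infty, actK_infty]
    change Tendsto (fun x : Berk K => f.act (x : P1 K)) _ _
    have hl := tendsto_coclosedCompact (K := K)
    have hpos : ∀ᶠ x : Berk K in coclosedCompact (Berk K), 0 < x X := hl.eventually_gt_atTop 0
    have hP := tendsto_div_pow hl f.P f.natDegree_P_le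
    have hQ := tendsto_div_pow hl f.Q f.natDegree_Q_le
    by_cases hq : f.Q.coeff f.deg = 0
    · rw [hq, toP_zero, emb_infty]
      have hp : f.P.coeff f.deg ≠ 0 := fun hp => f.coeff_deg_ne ⟨hp, hq⟩
      refine f.tendsto_act_infty fun R hR => ?_
      rw [hq, norm_zero] at hQ
      have h1 : Tendsto (fun x : Berk K => x f.P / x X ^ f.deg - R * (x f.Q / x X ^ f.deg))
          (coclosedCompact (Berk K)) (𝓝 (‖f.P.coeff f.deg‖ - R * 0)) := hP.sub (hQ.const_mul R)
      rw [mul_zero, sub_zero] at h1
      filter_upwards [h1.eventually_const_lt (norm_pos_iff.2 hp), hpos] with x hx hx0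
      have hpow : 0 < x X ^ f.deg := pow_pos hx0 _
      rw [← mul_div_assoc, ← sub_div, lt_div_iff₀ hpow, zero_mul] at hx
      linarith
    · rw [toP_of_ne _ hq, emb_coe]
      refine f.tendsto_act_coe _ ?_ fun F => ?_
      · filter_upwards [hQ.eventually_const_lt (norm_pos_iff.2 hq)] with x hx h0
        rw [h0, zero_div] at hx
        exact lt_irrefl _ hx
      · set n := F.natDegree with hn
        have h2 := tendsto_div_pow hl (homg n F f.P f.Q) (D := n * f.deg)
          (natDegree_homg_le _ _ _ f.natDegree_P_le f.natDegree_Q_le)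
        rw [coeff_homg _ _ _ f.natDegree_P_le f.natDegree_Q_le, hev_of_ne le_rfl _ hq,
          norm_mul, norm_pow] at h2
        have h3 := h2.div (hQ.pow n) (pow_ne_zero _ (norm_ne_zero_iff.2 hq))
        rw [mul_div_assoc, div_self (pow_ne_zero _ (norm_ne_zero_iff.2 hq)), mul_one] at h3
        change Tendsto _ _ (𝓝 ‖F.eval (f.P.coeff f.deg / f.Q.coeff f.deg)‖)
        refine h3.congr' ?_
        filter_upwards [hpos] with x hx0
        change x (homg n F f.P f.Q) / x X ^ (n * f.deg) / (x f.Q / x X ^ f.deg) ^ n = _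
        rw [div_pow, ← pow_mul, mul_comm f.deg, div_div_div_cancel_right₀ (pow_ne_zero _ hx0.ne')]

end Cont

namespace RatMap

/-! ### fibres -/

variable [IsUltrametricDist K]

theorem sub_ne_zero_of_deg (g : RatMap K) (h : 0 < g.deg) (w : K) : g.P - C w * g.Q ≠ 0 := by
  intro h0
  have hP : g.P = C w * g.Q := by linear_combination h0
  obtain ⟨a, b, hab⟩ := g.cop
  have hu : IsUnit g.Q := by
    refine isUnit_of_dvd_one ⟨a * C w + b, ?_⟩
    rw [← hab, hP]; ring
  have h1 : g.Q.natDegree = 0 := natDegree_eq_zero_of_isUnit hu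
  have h2 : g.P.natDegree = 0 := by
    rw [hP]
    have := natDegree_C_mul_le w g.Q
    omega
  have : g.deg = 0 := by simp [deg, h1, h2]
  omega

theorem Q_ne_zero_of_deg (g : RatMap K) (h : 0 < g.deg) : g.Q ≠ 0 := by
  intro h0
  obtain ⟨a, b, hab⟩ := g.cop
  have hu : IsUnit g.P := by
    refine isUnit_of_dvd_one ⟨a, ?_⟩
    rw [← hab, h0]; ring
  have h2 : g.P.natDegree = 0 := natDegree_eq_zero_of_isUnit hu
  have : g.deg = 0 := by simp [deg, h0, h2]
  omega

theorem fib_coe (f : RatMap K) (w : K) :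
    f.fib (w : OnePoint K) = (f.P - C w * f.Q).roots.map OnePoint.some +
      Multiset.replicate (f.deg - (f.P - C w * f.Q).natDegree) OnePoint.infty := rfl

theorem fib_infty (f : RatMap K) :
    f.fib OnePoint.infty = f.Q.roots.map OnePoint.some +
      Multiset.replicate (f.deg - f.Q.natDegree) OnePoint.infty := rfl

theorem natDegree_sub_le_deg (f : RatMap K) (w : K) : (f.P - C w * f.Q).natDegree ≤ f.deg :=
  (natDegree_sub_le _ _).trans (max_le f.natDegree_P_le
    ((natDegree_C_mul_le _ _).trans f.natDegree_Q_le))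

/-- the divisor of a form of degree `D`: roots of `F` and `D - natDegree F` times infinity. -/
noncomputable def dv (D : ℕ) (F : K[X]) : Multiset (OnePoint K) :=
  F.roots.map OnePoint.some + Multiset.replicate (D - F.natDegree) OnePoint.infty

theorem dv_mul {D E : ℕ} {F G : K[X]} (hF : F ≠ 0) (hG : G ≠ 0) (hD : F.natDegree ≤ D)
    (hE : G.natDegree ≤ E) : dv (D + E) (F * G) = dv D F + dv E G := by
  rw [dv, dv, dv, roots_mul (mul_ne_zero hF hG), natDegree_mul hF hG, Multiset.map_add]
  have : D + E - (F.natDegree + G.natDegree) = (D - F.natDegree) + (E - G.natDegree) := by omega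
  rw [this, Multiset.replicate_add]
  abel

theorem dv_pow {D : ℕ} {F : K[X]} (hF : F ≠ 0) (hD : F.natDegree ≤ D) (k : ℕ) :
    dv (k * D) (F ^ k) = k • dv D F := by
  induction k with
  | zero => simp [dv]
  | succ k ih =>
    rw [Nat.succ_mul, pow_succ, dv_mul (pow_ne_zero _ hF) hF _ hD, ih, succ_nsmul]
    exact natDegree_pow_le.trans (Nat.mul_le_mul_left _ hD)

theorem dv_C_mul {D : ℕ} {c : K} (hc : c ≠ 0) (F : K[X]) : dv D (C c * F) = dv D F := by
  rw [dv, dv, roots_C_mul _ hc, natDegree_C_mul hc]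

theorem dv_prod {D : ℕ} (s : Multiset K) (U V : K[X])
    (h : ∀ z ∈ s, U - C z * V ≠ 0 ∧ (U - C z * V).natDegree ≤ D) :
    dv (s.card * D) ((s.map (fun z => U - C z * V)).prod) =
      s.bind (fun z => dv D (U - C z * V)) := by
  induction s using Multiset.induction_on with
  | empty => simp [dv]
  | cons a s ih =>
    have hs : ∀ z ∈ s, U - C z * V ≠ 0 ∧ (U - C z * V).natDegree ≤ D :=
      fun z hz => h z (Multiset.mem_cons_of_mem hz)
    have ha := h a (Multiset.mem_cons_self _ _)
    rw [Multiset.map_cons, Multiset.prod_cons, Multiset.card_cons, Multiset.cons_bind, ← ih hs,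
      ← dv_mul ha.1 _ ha.2, Nat.succ_mul, add_comm]
    · refine (natDegree_multiset_prod_le _).trans ?_
      rw [Multiset.map_map]
      refine (Multiset.sum_le_card_nsmul _ D ?_).trans (by simp)
      intro x hx
      obtain ⟨z, hz, rfl⟩ := Multiset.mem_map.1 hx
      exact (hs z hz).2
    · intro h0
      rw [Multiset.prod_eq_zero_iff] at h0
      obtain ⟨z, hz, h1⟩ := Multiset.mem_map.1 h0
      exact (hs z hz).1 h1

theorem homg_prod (s : Multiset K) (U V : K[X]) :
    homg s.card ((s.map (fun z => X - C z)).prod) U V = (s.map (fun z => U - C z * V)).prod := by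
  induction s using Multiset.induction_on with
  | empty => simp [homg_one]
  | cons a s ih =>
    rw [Multiset.map_cons, Multiset.prod_cons, Multiset.card_cons, Multiset.map_cons,
      Multiset.prod_cons, ← ih, add_comm, homg_mul _ _ _ _ (by simp), homg_X_sub_C]
    rw [natDegree_multiset_prod_X_sub_C_eq_card]

/-- divisor of a composition. -/
theorem dv_homg [IsAlgClosed K] {n : ℕ} {F : K[X]} (hF : F ≠ 0) (hn : F.natDegree ≤ n)
    (g : RatMap K) (hg : 0 < g.deg) :
    dv (n * g.deg) (homg n F g.P g.Q) = (dv n F).bind g.fib := by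
  have hfac : F = C F.leadingCoeff * (F.roots.map (fun z => X - C z)).prod :=
    (IsAlgClosed.splits F).eq_prod_roots
  have hcard : F.natDegree = F.roots.card := (IsAlgClosed.splits F).natDegree_eq_card_roots
  have hQ := g.Q_ne_zero_of_deg hg
  have hlc : F.leadingCoeff ≠ 0 := leadingCoeff_ne_zero.2 hF
  have h1 : homg n F g.P g.Q = C F.leadingCoeff *
      ((F.roots.map (fun z => g.P - C z * g.Q)).prod * g.Q ^ (n - F.natDegree)) := by
    rw [homg_of_le F _ _ le_rfl hn, ← mul_assoc]
    congr 1
    conv_lhs => rw [hfac]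
    rw [homg_C_mul]
    congr 1
    have : (C F.leadingCoeff * (F.roots.map (fun z => X - C z)).prod).natDegree =
        F.roots.card := by rw [← hfac, hcard]
    rw [this, homg_prod]
  have h2 : n * g.deg = F.roots.card * g.deg + (n - F.natDegree) * g.deg := by
    rw [← add_mul, ← hcard]; congr 1; omega
  have hfactor : ∀ z ∈ F.roots, g.P - C z * g.Q ≠ 0 ∧ (g.P - C z * g.Q).natDegree ≤ g.deg :=
    fun z _ => ⟨g.sub_ne_zero_of_deg hg z, g.natDegree_sub_le_deg z⟩
  rw [h1, dv_C_mul hlc, h2, dv_mul _ (pow_ne_zero _ hQ), dv_prod _ _ _ hfactor,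
    dv_pow hQ g.natDegree_Q_le]
  · conv_rhs => rw [dv]
    rw [Multiset.add_bind, Multiset.bind_map]
    congr 1
    rw [Multiset.bind, Multiset.map_replicate, Multiset.join, Multiset.sum_replicate]
    rfl
  · refine (natDegree_multiset_prod_le _).trans ?_
    rw [Multiset.map_map]
    refine (Multiset.sum_le_card_nsmul _ g.deg ?_).trans (by simp)
    intro x hx
    obtain ⟨z, hz, rfl⟩ := Multiset.mem_map.1 hx
    exact (hfactor z hz).2
  · exact natDegree_pow_le.trans (Nat.mul_le_mul_left _ g.natDegree_Q_le)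
  · intro h0
    rw [Multiset.prod_eq_zero_iff] at h0
    obtain ⟨z, hz, h1⟩ := Multiset.mem_map.1 h0
    exact (hfactor z hz).1 h1

theorem fib_eq_zero_of_deg (f : RatMap K) (h : f.deg = 0) (w : OnePoint K) : f.fib w = 0 := by
  have hP : f.P.natDegree = 0 := by have := f.natDegree_P_le; omega
  have hQ : f.Q.natDegree = 0 := by have := f.natDegree_Q_le; omega
  induction w using OnePoint.rec with
  | infty =>
    rw [fib_infty, h, Nat.zero_sub, Multiset.replicate_zero, add_zero,
      eq_C_of_natDegree_eq_zero hQ, roots_C, Multiset.map_zero]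
  | coe w =>
    have h0 : (f.P - C w * f.Q).natDegree = 0 := by
      have := f.natDegree_sub_le_deg w; omega
    rw [fib_coe, h, Nat.zero_sub, Multiset.replicate_zero, add_zero,
      eq_C_of_natDegree_eq_zero h0, roots_C, Multiset.map_zero]

/-- the fibre of a composition. -/
theorem fib_comp [IsAlgClosed K] (f g : RatMap K) (w : OnePoint K) :
    (f.comp g).fib w = (f.fib w).bind g.fib := by
  rcases Nat.eq_zero_or_pos g.deg with hg | hg
  · rw [fib_eq_zero_of_deg _ (by rw [deg_comp, hg, mul_zero])]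
    symm
    rw [Multiset.bind]
    have : (f.fib w).map g.fib = (f.fib w).map (fun _ => 0) :=
      Multiset.map_congr rfl fun z _ => g.fib_eq_zero_of_deg hg z
    rw [this, Multiset.map_const', Multiset.join, Multiset.sum_replicate, smul_zero]
  rcases Nat.eq_zero_or_pos f.deg with hf | hf
  · rw [fib_eq_zero_of_deg _ (by rw [deg_comp, hf, zero_mul]), f.fib_eq_zero_of_deg hf,
      Multiset.zero_bind]
  induction w using OnePoint.rec with
  | infty =>
    have h1 : (f.comp g).fib OnePoint.infty = dv (f.deg * g.deg) (homg f.deg f.Q g.P g.Q) := by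
      rw [fib_infty, deg_comp]; rfl
    rw [h1, dv_homg (f.Q_ne_zero_of_deg hf) f.natDegree_Q_le g hg]
    rfl
  | coe w =>
    have h1 : (f.comp g).fib (w : OnePoint K) =
        dv (f.deg * g.deg) (homg f.deg (f.P - C w * f.Q) g.P g.Q) := by
      rw [fib_coe, deg_comp, homg_sub, homg_C_mul]; rfl
    rw [h1, dv_homg (f.sub_ne_zero_of_deg hf w) (f.natDegree_sub_le_deg w) g hg]
    rfl

theorem card_fib [IsAlgClosed K] (f : RatMap K) (w : OnePoint K) : (f.fib w).card = f.deg := by
  rcases Nat.eq_zero_or_pos f.deg with hf | hf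
  · rw [f.fib_eq_zero_of_deg hf, hf, Multiset.card_zero]
  induction w using OnePoint.rec with
  | infty =>
    rw [fib_infty, Multiset.card_add, Multiset.card_map, Multiset.card_replicate,
      ← (IsAlgClosed.splits f.Q).natDegree_eq_card_roots]
    have := f.natDegree_Q_le
    omega
  | coe w =>
    rw [fib_coe, Multiset.card_add, Multiset.card_map, Multiset.card_replicate,
      ← (IsAlgClosed.splits (f.P - C w * f.Q)).natDegree_eq_card_roots]
    have := f.natDegree_sub_le_deg w
    omega

theorem mem_dv_iff {D : ℕ} {F : K[X]} (hF : F ≠ 0) (hD : F.natDegree ≤ D) {u v : K}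
    (h : ¬ (u = 0 ∧ v = 0)) : toP u v ∈ dv D F ↔ hev D F u v = 0 := by
  by_cases hv : v = 0
  · subst hv
    have hu : u ≠ 0 := fun hu => h ⟨hu, rfl⟩
    rw [toP_zero, hev_zero_right, dv, Multiset.mem_add, Multiset.mem_replicate, Multiset.mem_map]
    constructor
    · rintro (⟨z, _, hz⟩ | ⟨h1, _⟩)
      · exact absurd hz (OnePoint.coe_ne_infty z)
      · rw [coeff_eq_zero_of_natDegree_lt (by omega), zero_mul]
    · intro h1
      right
      refine ⟨?_, rfl⟩
      have h2 : F.coeff D = 0 := by simpa [hu] using h1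
      intro h3
      have h4 : F.natDegree = D := by omega
      rw [← h4, coeff_natDegree, leadingCoeff_eq_zero] at h2
      exact hF h2
  · rw [toP_of_ne _ hv, hev_of_ne hD _ hv, dv, Multiset.mem_add, Multiset.mem_replicate,
      Multiset.mem_map]
    constructor
    · rintro (⟨z, hz, hz'⟩ | ⟨_, h1⟩)
      · have hz'' : z = u / v := OnePoint.coe_injective hz'
        rw [mem_roots hF, IsRoot.def] at hz
        rw [← hz'', hz, zero_mul]
      · exact absurd h1 (OnePoint.coe_ne_infty _)
    · intro h1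
      left
      refine ⟨u / v, ?_, rfl⟩
      rw [mem_roots hF, IsRoot.def]
      simpa [hv] using h1

theorem hev_sub (n : ℕ) (F G : K[X]) (u v : K) : hev n (F - G) u v = hev n F u v - hev n G u v := by
  simp only [hev, coeff_sub, sub_mul, Finset.sum_sub_distrib]

theorem hev_C_mul (n : ℕ) (c : K) (F : K[X]) (u v : K) :
    hev n (C c * F) u v = c * hev n F u v := by
  simp only [hev, coeff_C_mul, Finset.mul_sum, mul_assoc]

theorem mem_fib_iff (f : RatMap K) (hf : 0 < f.deg) (w z : OnePoint K) :
    z ∈ f.fib w ↔ f.actK z = w := by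
  obtain ⟨u, v, h, rfl⟩ := exists_toP z
  rw [actK_toP _ h]
  have hne := f.hev_ne h
  induction w using OnePoint.rec with
  | infty =>
    change toP u v ∈ dv f.deg f.Q ↔ _
    rw [mem_dv_iff (f.Q_ne_zero_of_deg hf) f.natDegree_Q_le h]
    constructor
    · intro h1; rw [h1, toP_zero]
    · intro h1
      by_contra h2
      rw [toP_of_ne _ h2] at h1
      exact OnePoint.coe_ne_infty _ h1
  | coe w =>
    change toP u v ∈ dv f.deg (f.P - C w * f.Q) ↔ _
    rw [mem_dv_iff (f.sub_ne_zero_of_deg hf w) (f.natDegree_sub_le_deg w) h, hev_sub, hev_C_mul]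
    constructor
    · intro h1
      have h2 : hev f.deg f.Q u v ≠ 0 := by
        intro h2
        rw [h2, mul_zero, sub_zero] at h1
        exact hne ⟨h1, h2⟩
      rw [toP_of_ne _ h2]
      congr 1
      field_simp
      linear_combination h1
    · intro h1
      by_cases h2 : hev f.deg f.Q u v = 0
      · rw [h2, toP_zero] at h1
        exact absurd h1.symm (OnePoint.coe_ne_infty _)
      · rw [toP_of_ne _ h2] at h1
        have h3 := OnePoint.coe_injective h1
        rw [← h3]
        field_simp
        ring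

/-! ### the remaining interface -/

section Interface

theorem Q_ne_zero (f : RatMap K) (hd : 1 ≤ f.deg) : f.Q ≠ 0 := f.Q_ne_zero_of_deg hd

theorem sub_ne_zero (f : RatMap K) (hd : 1 ≤ f.deg) (w : K) : f.P - C w * f.Q ≠ 0 :=
  f.sub_ne_zero_of_deg hd w

theorem mem_fib [IsAlgClosed K] (f : RatMap K) (hd : 1 ≤ f.deg) (z w : OnePoint K) :
    z ∈ f.fib w ↔ f.actK z = w := f.mem_fib_iff hd w z

/-- the value at a non-pole: `|T - y|_{f(x)} = |P - y Q|_x / |Q|_x`. -/
theorem act_coe_lin (f : RatMap K) (x : Berk K) (h : x f.Q ≠ 0) :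
    ∃ y : Berk K, f.act (x : P1 K) = (y : P1 K) ∧
      ∀ c : K, y (X - C c) = x (f.P - C c * f.Q) / x f.Q :=
  ⟨f.actB x h, f.act_coe_of_ne h, fun c => f.actB_X_sub_C x h c⟩

theorem act_coe_pole (f : RatMap K) (x : Berk K) (h : x f.Q = 0) :
    f.act (x : P1 K) = OnePoint.infty := f.act_coe_of_eq h

/-- criterion for `f(x) = y` at non-poles. -/
theorem act_eq_iff [IsAlgClosed K] (f : RatMap K) (_hd : 1 ≤ f.deg) (x y : Berk K) :
    f.act (x : P1 K) = (y : P1 K) ↔
      x f.Q ≠ 0 ∧ ∀ c : K, x (f.P - C c * f.Q) = y (X - C c) * x f.Q := by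
  by_cases h : x f.Q = 0
  · rw [f.act_coe_of_eq h]
    constructor
    · intro h1; exact absurd h1 (OnePoint.infty_ne_coe y)
    · intro h1; exact absurd h h1.1
  · rw [f.act_coe_of_ne h]
    constructor
    · intro h1
      refine ⟨h, fun c => ?_⟩
      rw [← OnePoint.coe_injective h1, f.actB_X_sub_C, div_mul_cancel₀ _ h]
    · rintro ⟨-, h1⟩
      congr 1
      refine Berk.ext_lin fun c => ?_
      rw [f.actB_X_sub_C, h1 c, mul_div_assoc, div_self h, mul_one]

/-- preimage of an open disc. -/
theorem act_mem_oD_iff (f : RatMap K) (x : Berk K) (c : K) {s : ℝ} (_hs : 0 < s) :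
    f.act (x : P1 K) ∈ oD c s ↔ x (f.P - C c * f.Q) < s * x f.Q := by
  by_cases h : x f.Q = 0
  · rw [f.act_coe_of_eq h, h, mul_zero]
    constructor
    · intro h1; exact absurd h1 infty_notMem_oD
    · intro h1; exact absurd h1 (not_lt.2 (x.nonneg _))
  · rw [f.act_coe_of_ne h, coe_mem_oD, f.actB_X_sub_C,
      div_lt_iff₀ (lt_of_le_of_ne (x.nonneg _) (Ne.symm h))]

/-- preimage of a closed disc. -/
theorem act_mem_cD_iff (f : RatMap K) (x : Berk K) (c : K) {s : ℝ} (_hs : 0 ≤ s) :
    f.act (x : P1 K) ∈ cD c s ↔ x f.Q ≠ 0 ∧ x (f.P - C c * f.Q) ≤ s * x f.Q := by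
  by_cases h : x f.Q = 0
  · rw [f.act_coe_of_eq h]
    constructor
    · intro h1; exact absurd h1 infty_notMem_cD
    · intro h1; exact absurd h h1.1
  · rw [f.act_coe_of_ne h, coe_mem_cD, f.actB_X_sub_C,
      div_le_iff₀ (lt_of_le_of_ne (x.nonneg _) (Ne.symm h))]
    exact ⟨fun h1 => ⟨h, h1⟩, fun h1 => h1.2⟩

omit [IsUltrametricDist K] in
/-- a point at distance zero from `a` is the classical point `a`. -/
theorem apply_eq_norm_eval (x : Berk K) (a : K) (h : x (X - C a) = 0) (G : K[X]) :
    x G = ‖G.eval a‖ := by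
  rw [← x.map_C (G.eval a)]
  exact x.eq_of_dvd_sub h (X_sub_C_dvd_sub_C_eval)

theorem eq_pt_of_lin_eq_zero (x : Berk K) (a : K) (h : x (X - C a) = 0) : x = pt a := by
  ext G
  exact apply_eq_norm_eval x a h G

/-- points of `H` (non-classical points) are not poles and are mapped to `H` (if `f` is not
constant). -/
theorem eval_ne_zero_of_not_classical [IsAlgClosed K] (x : Berk K) (hx : ∀ a, x ≠ pt a)
    {F : K[X]} (hF : F ≠ 0) : x F ≠ 0 := by
  have hfac : F = C F.leadingCoeff * (F.roots.map (fun z => X - C z)).prod :=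
    (IsAlgClosed.splits F).eq_prod_roots
  have hprod : ∀ s : Multiset K, x ((s.map (fun z => X - C z)).prod) ≠ 0 := by
    intro s
    induction s using Multiset.induction_on with
    | empty => simp
    | cons a s ih =>
      rw [Multiset.map_cons, Multiset.prod_cons, x.map_mul]
      exact mul_ne_zero (fun h => hx a (eq_pt_of_lin_eq_zero x a h)) ih
  rw [hfac, x.map_mul, x.map_C]
  exact mul_ne_zero (norm_ne_zero_iff.2 (leadingCoeff_ne_zero.2 hF)) (hprod _)

theorem act_classical_iff [IsAlgClosed K] (f : RatMap K) (hd : 1 ≤ f.deg) (x : P1 K) :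
    f.act x ∈ Set.range (emb (K := K)) ↔ x ∈ Set.range (emb (K := K)) := by
  constructor
  · rintro ⟨w, hw⟩
    induction x using OnePoint.rec with
    | infty => exact ⟨OnePoint.infty, rfl⟩
    | coe x =>
      by_contra hx
      have hx' : ∀ a, x ≠ pt a := by
        rintro a rfl
        exact hx ⟨(a : OnePoint K), rfl⟩
      have hQ : x f.Q ≠ 0 := eval_ne_zero_of_not_classical x hx' (f.Q_ne_zero hd)
      rw [f.act_coe_of_ne hQ] at hw
      induction w using OnePoint.rec with
      | infty => exact OnePoint.infty_ne_coe _ hw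
      | coe w =>
        have h1 : pt w = f.actB x hQ := OnePoint.coe_injective hw
        have h2 := f.actB_X_sub_C x hQ w
        rw [← h1, pt_lin, _root_.sub_self, norm_zero, eq_comm, div_eq_zero_iff] at h2
        rcases h2 with h2 | h2
        · exact eval_ne_zero_of_not_classical x hx' (f.sub_ne_zero hd w) h2
        · exact hQ h2
  · rintro ⟨z, rfl⟩
    exact ⟨f.actK z, (f.act_emb z).symm⟩

theorem act_iter_add [IsAlgClosed K] (f : RatMap K) (m n : ℕ) (x : P1 K) :
    (f.iter (m + n)).act x = (f.iter m).act ((f.iter n).act x) := by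
  rw [act_iter, act_iter, act_iter, Function.iterate_add_apply]

theorem fib_id (w : OnePoint K) : (RatMap.id K).fib w = {w} := by
  have hd : (RatMap.id K).deg = 1 := by simp [RatMap.deg, RatMap.id]
  induction w using OnePoint.rec with
  | infty =>
    rw [fib_infty, hd]
    simp [RatMap.id]
  | coe w =>
    have h1 : (RatMap.id K).P - C w * (RatMap.id K).Q = X - C w := by simp [RatMap.id]
    rw [fib_coe, hd, h1, roots_X_sub_C, natDegree_X_sub_C]
    simp

/-- fibres of an iterate, both ways. -/
theorem fib_iter_add [IsAlgClosed K] (f : RatMap K) (m n : ℕ) (w : OnePoint K) :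
    (f.iter (m + n)).fib w = ((f.iter m).fib w).bind (f.iter n).fib := by
  induction m generalizing w with
  | zero =>
    rw [Nat.zero_add]
    change _ = ((RatMap.id K).fib w).bind _
    rw [fib_id, Multiset.singleton_bind]
  | succ m ih =>
    have h1 : f.iter (m + 1 + n) = f.comp (f.iter (m + n)) := by
      rw [show m + 1 + n = (m + n) + 1 by omega]; rfl
    have h2 : f.iter (m + 1) = f.comp (f.iter m) := rfl
    rw [h1, h2, fib_comp, fib_comp, Multiset.bind_assoc]
    exact Multiset.bind_congr fun z _ => ih z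

theorem fib_iter_succ [IsAlgClosed K] (f : RatMap K) (n : ℕ) (w : OnePoint K) :
    (f.iter (n + 1)).fib w = (f.fib w).bind (f.iter n).fib := f.fib_comp (f.iter n) w

theorem N_comp [IsAlgClosed K] (f g : RatMap K) (w : OnePoint K) (V : Set (P1 K)) :
    (f.comp g).N w V = ((f.fib w).map (fun z => g.N z V)).sum := by
  classical
  rw [N, fib_comp, Multiset.filter_bind, Multiset.card_bind]
  rfl

open Classical in
theorem N_le_deg [IsAlgClosed K] (f : RatMap K) (w : OnePoint K) (V : Set (P1 K)) :
    f.N w V ≤ f.deg := by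
  rw [← f.card_fib w, N]
  exact Multiset.card_le_card (Multiset.filter_le _ _)

theorem N_univ [IsAlgClosed K] (f : RatMap K) (w : OnePoint K) : f.N w Set.univ = f.deg := by
  rw [← f.card_fib w, N]
  congr 1
  exact (@Multiset.filter_eq_self _ (fun z => emb z ∈ Set.univ)
    (fun _ => Classical.propDecidable _) (f.fib w)).2 fun z _ => Set.mem_univ _

theorem N_empty (f : RatMap K) (w : OnePoint K) : f.N w ∅ = 0 := by
  rw [N, Multiset.card_eq_zero]
  exact (@Multiset.filter_eq_nil _ (fun z => emb z ∈ (∅ : Set (P1 K)))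
    (fun _ => Classical.propDecidable _) (f.fib w)).2 fun z _ h => h

open Classical in
theorem N_mono (f : RatMap K) (w : OnePoint K) {V W : Set (P1 K)} (h : V ⊆ W) :
    f.N w V ≤ f.N w W := by
  rw [N, N]
  exact Multiset.card_le_card (Multiset.monotone_filter_right _ fun z hz => h hz)

open Classical in
theorem N_union (f : RatMap K) (w : OnePoint K) {V W : Set (P1 K)} (h : Disjoint V W) :
    f.N w (V ∪ W) = f.N w V + f.N w W := by
  have h0 : f.N w (V ∪ W) = ((f.fib w).filter (fun z => emb z ∈ V ∨ emb z ∈ W)).card := by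
    rw [N]; congr!
  have h1 : (f.fib w).filter (fun z => emb z ∈ V ∧ emb z ∈ W) = 0 :=
    Multiset.filter_eq_nil.2 fun z _ hz => Set.disjoint_left.1 h hz.1 hz.2
  have h2 := Multiset.filter_add_filter (fun z => emb z ∈ V) (fun z => emb z ∈ W) (f.fib w)
  rw [h1, add_zero] at h2
  rw [h0, N, N, ← Multiset.card_add, h2]

theorem N_compl [IsAlgClosed K] (f : RatMap K) (w : OnePoint K) (V : Set (P1 K)) :
    f.N w V + f.N w Vᶜ = f.deg := by
  rw [← N_union f w disjoint_compl_right, Set.union_compl_self, N_univ]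

open Classical in
theorem N_pos_iff [IsAlgClosed K] (f : RatMap K) (hd : 1 ≤ f.deg) (w : OnePoint K)
    (V : Set (P1 K)) :
    0 < f.N w V ↔ ∃ z : OnePoint K, f.actK z = w ∧ emb z ∈ V := by
  rw [N, Multiset.card_pos_iff_exists_mem]
  constructor
  · rintro ⟨z, hz⟩
    rw [Multiset.mem_filter] at hz
    exact ⟨z, (f.mem_fib hd z w).1 hz.1, hz.2⟩
  · rintro ⟨z, hz, hV⟩
    exact ⟨z, Multiset.mem_filter.2 ⟨(f.mem_fib hd z w).2 hz, hV⟩⟩

theorem natDegree_sub_le (f : RatMap K) (w : K) : (f.P - C w * f.Q).natDegree ≤ f.deg :=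
  f.natDegree_sub_le_deg w

end Interface

end RatMap

end Pool.Agent.Helper17.Berk
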