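import Mathlib
import Pool.Agent.Helper17.Berk.Comp
import Pool.Agent.Helper22.Berk.Cy

/-!
# Slopes over Berkovich points (module B4, MP_160e9b_an)

For `f = P/Q`, a centre `a` and a point `y` of `P1`, `f.G a y` is the tropical polynomial with
coefficients `|p_i - q_i T|_y`, where `p_i`, `q_i` are the Taylor coefficients of `P`, `Q` at `a`
(for `y = ∞`: `|q_i|`).  For classical `y`, `lo (f.G a y) t` and `hi (f.G a y) t` count the
preimages of `y` in the open and in the closed disc of centre `a` and radius `t`.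
-/

open Polynomial Topology

set_option linter.dupNamespace false
set_option linter.unusedSectionVars false
set_option linter.unusedVariables false
set_option linter.unusedSimpArgs false

namespace Pool.Agent.Helper17.Berk

universe u

variable {K : Type u} [NontriviallyNormedField K] [IsUltrametricDist K]

/-- comparison of the dominating indices. -/
theorem dom_congr {g h : ℕ → ℝ} {t M : ℝ} (hg : TP g) (hh : TP h) (ht : 0 < t)
    (h1 : ∀ i, h i * t ^ i = tv h t → g i * t ^ i = M)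
    (h2 : ∀ i, h i * t ^ i < tv h t → g i * t ^ i < M) :
    tv g t = M ∧ lo g t = lo h t ∧ hi g t = hi h t := by
  obtain ⟨i₀, hi₀⟩ := exists_eq_tv hh t ht.le
  have hM : tv g t = M := by
    refine le_antisymm (ciSup_le fun i => ?_) ((h1 i₀ hi₀) ▸ le_tv hg t i₀)
    rcases (le_tv hh t i).lt_or_eq with h | h
    · exact (h2 i h).le
    · exact (h1 i h).le
  have hset : {i | g i * t ^ i = tv g t} = {i | h i * t ^ i = tv h t} := by
    ext i
    simp only [Set.mem_ofPred_eq, hM]
    constructor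
    · intro h
      by_contra hne
      exact absurd h (h2 i (lt_of_le_of_ne (le_tv hh t i) hne)).ne
    · exact h1 i
  refine ⟨hM, ?_, ?_⟩
  · unfold lo; rw [hset]
  · unfold hi; rw [hset]

theorem gn_sub_le (F G : K[X]) (a : K) {t : ℝ} (ht : 0 ≤ t) :
    gn (F - G) a t ≤ max (gn F a t) (gn G a t) := by
  have := (zeta a t).map_sub_le F G
  rwa [zeta_apply ht, zeta_apply ht, zeta_apply ht] at this

theorem norm_sub_of_lt {u v : K} (h : ‖v‖ < ‖u‖) : ‖u - v‖ = ‖u‖ := by
  rw [sub_eq_add_neg, IsUltrametricDist.norm_add_eq_max_of_norm_ne_norm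
    (by rw [norm_neg]; exact h.ne'), norm_neg, max_eq_left h.le]

theorem norm_sub_of_gt {u v : K} (h : ‖u‖ < ‖v‖) : ‖u - v‖ = ‖v‖ := by
  rw [norm_sub_rev, norm_sub_of_lt h]

theorem norm_sub_le_max' (u v : K) : ‖u - v‖ ≤ max ‖u‖ ‖v‖ := by
  have := IsUltrametricDist.norm_add_le_max u (-v)
  rwa [← sub_eq_add_neg, norm_neg] at this

theorem gn_pos {F : K[X]} (hF : F ≠ 0) (a : K) {t : ℝ} (ht : 0 < t) : 0 < gn F a t :=
  tv_pos (TP_co hF a) ht

theorem gn_C_mul (c : K) (F : K[X]) (a : K) {t : ℝ} (ht : 0 ≤ t) :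
    gn (C c * F) a t = ‖c‖ * gn F a t := by
  rw [gn_mul' _ _ _ ht, gn_C _ _ ht]

namespace RatMap

/-- the tropical polynomial of `P - y Q` at the centre `a` (`cP` of Helper22). -/
noncomputable abbrev G (f : RatMap K) (a : K) : P1 K → ℕ → ℝ := Pool.Agent.Helper22.Berk.cP f a

omit [IsUltrametricDist K] in
theorem G_eq_cP (f : RatMap K) (a : K) (y : P1 K) : f.G a y = Helper22.Berk.cP f a y := rfl

omit [IsUltrametricDist K] in
theorem G_coe (f : RatMap K) (a c : K) (y : Berk K) (i : ℕ) : f.G a (y : P1 K) i =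
    y (C ((taylor a (f.P - C c * f.Q)).coeff i) - C ((taylor a f.Q).coeff i) * (X - C c)) := by
  change y (C ((taylor a f.P).coeff i) - X * C ((taylor a f.Q).coeff i)) = _
  congr 1
  simp only [map_sub, taylor_mul, taylor_C, coeff_sub, coeff_C_mul, C_mul]
  ring

omit [IsUltrametricDist K] in
theorem coeff_sub' (f : RatMap K) (a c e : K) (i : ℕ) : (taylor a (f.P - C e * f.Q)).coeff i =
    (taylor a (f.P - C c * f.Q)).coeff i - (e - c) * (taylor a f.Q).coeff i := by
  simp only [map_sub, taylor_mul, taylor_C, coeff_sub, coeff_C_mul]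
  ring

variable [IsAlgClosed K]

omit [IsUltrametricDist K] [IsAlgClosed K] in
theorem TP_G' (f : RatMap K) (hd : 1 ≤ f.deg) (a : K) (y : P1 K) : TP (f.G a y) := by
  rw [G_eq_cP]
  exact Helper22.Berk.TP_cP f hd a y

theorem TP_G (f : RatMap K) (hd : 1 ≤ f.deg) (a : K) (y : P1 K) : TP (f.G a y) :=
  TP_G' f hd a y

theorem G_infty (f : RatMap K) (a : K) : f.G a OnePoint.infty = co f.Q a := rfl

theorem G_pt (f : RatMap K) (a w : K) : f.G a (pt w : Berk K) = co (f.P - C w * f.Q) a := by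
  rw [G_eq_cP, Helper22.Berk.cP_coe, Helper22.Berk.cy_pt]

omit [IsAlgClosed K] in
theorem gn_lin (u v c : K) {s : ℝ} (hs : 0 ≤ s) :
    gn (C u - C v * (X - C c)) c s = max ‖u‖ (s * ‖v‖) := by
  have e : taylor c (C u - C v * (X - C c)) = C u - C v * X := by
    rw [map_sub, taylor_mul, map_sub, taylor_X, taylor_C, taylor_C, taylor_C]
    ring
  have e0 : co (C u - C v * (X - C c)) c 0 = ‖u‖ := by simp [co, e]
  have e1 : co (C u - C v * (X - C c)) c 1 = ‖v‖ := by simp [co, e, coeff_C]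
  have e2 : ∀ i, 2 ≤ i → co (C u - C v * (X - C c)) c i = 0 := by
    intro i hi
    obtain ⟨j, rfl⟩ : ∃ j, i = j + 2 := ⟨i - 2, by omega⟩
    simp [co, e, coeff_C, coeff_X]
  rw [gn]
  by_cases h0 : C u - C v * (X - C c) = 0
  · have hu : u = 0 := by
      have := congrArg (fun F : K[X] => F.eval c) h0
      simpa using this
    have hv : v = 0 := by
      rw [hu] at h0
      have := congrArg (fun F : K[X] => F.eval (c + 1)) h0
      simpa using this
    subst hu; subst hv
    simp [tv, co]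
  have hTP := TP_co h0 c
  apply le_antisymm
  · refine ciSup_le fun i => ?_
    match i with
    | 0 => rw [e0]; simp
    | 1 => rw [e1]; simp [mul_comm]
    | i + 2 =>
      rw [e2 (i + 2) (by omega), zero_mul]
      exact le_max_of_le_left (norm_nonneg _)
  · refine max_le ?_ ?_
    · have := le_tv hTP s 0
      rw [e0] at this
      simpa using this
    · have := le_tv hTP s 1
      rw [e1] at this
      simpa [mul_comm] using this

theorem G_zeta (f : RatMap K) (a c : K) {s : ℝ} (hs : 0 ≤ s) :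
    f.G a (zeta c s : Berk K) = tmax s (co (f.P - C c * f.Q) a) (co f.Q a) := by
  funext i
  rw [G_coe f a c, zeta_apply hs, gn_lin _ _ _ hs]
  rfl

omit [IsAlgClosed K] in
open Classical in
theorem card_filter_oD (s : Multiset K) (k : ℕ) (a : K) (t : ℝ) :
    ((s.map OnePoint.some + Multiset.replicate k OnePoint.infty).filter
      (fun z => emb z ∈ oD a t)).card = (s.filter (fun z => ‖z - a‖ < t)).card := by
  have h0 : (Multiset.replicate k (OnePoint.infty : OnePoint K)).filter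
      (fun z => emb z ∈ oD a t) = 0 := by
    refine Multiset.filter_eq_nil.2 fun z hz => ?_
    rw [Multiset.eq_of_mem_replicate hz]
    exact infty_notMem_oD
  rw [Multiset.filter_add, h0, add_zero, Multiset.filter_map, Multiset.card_map]
  congr 1
  refine Multiset.filter_congr fun z _ => ?_
  change ((pt z : Berk K) : P1 K) ∈ oD a t ↔ _
  rw [coe_mem_oD, pt_lin]

omit [IsAlgClosed K] in
open Classical in
theorem card_filter_cD (s : Multiset K) (k : ℕ) (a : K) (t : ℝ) :
    ((s.map OnePoint.some + Multiset.replicate k OnePoint.infty).filter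
      (fun z => emb z ∈ cD a t)).card = (s.filter (fun z => ‖z - a‖ ≤ t)).card := by
  have h0 : (Multiset.replicate k (OnePoint.infty : OnePoint K)).filter
      (fun z => emb z ∈ cD a t) = 0 := by
    refine Multiset.filter_eq_nil.2 fun z hz => ?_
    rw [Multiset.eq_of_mem_replicate hz]
    exact infty_notMem_cD
  rw [Multiset.filter_add, h0, add_zero, Multiset.filter_map, Multiset.card_map]
  congr 1
  refine Multiset.filter_congr fun z _ => ?_
  change ((pt z : Berk K) : P1 K) ∈ cD a t ↔ _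
  rw [coe_mem_cD, pt_lin]

/-- counting preimages in an open disc. -/
theorem N_oD (f : RatMap K) (hd : 1 ≤ f.deg) (w : OnePoint K) (a : K) {t : ℝ} (ht : 0 < t) :
    f.N w (oD a t) = lo (f.G a (emb w)) t := by
  induction w using OnePoint.rec with
  | infty =>
    rw [N, fib_infty, card_filter_oD, emb_infty, G_infty, lo_eq_nlt (f.Q_ne_zero hd) a ht]
    rfl
  | coe w =>
    rw [N, fib_coe, card_filter_oD, emb_coe, G_pt, lo_eq_nlt (f.sub_ne_zero hd w) a ht]
    rfl

/-- counting preimages in a closed disc. -/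
theorem N_cD (f : RatMap K) (hd : 1 ≤ f.deg) (w : OnePoint K) (a : K) {t : ℝ} (ht : 0 < t) :
    f.N w (cD a t) = hi (f.G a (emb w)) t := by
  induction w using OnePoint.rec with
  | infty =>
    rw [N, fib_infty, card_filter_cD, emb_infty, G_infty, hi_eq_nle (f.Q_ne_zero hd) a ht]
    rfl
  | coe w =>
    rw [N, fib_coe, card_filter_cD, emb_coe, G_pt, hi_eq_nle (f.sub_ne_zero hd w) a ht]
    rfl

theorem G_eq_zero (f : RatMap K) (a : K) (y : P1 K) {i : ℕ} (hi : f.deg < i) :
    f.G a y i = 0 := by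
  rw [G_eq_cP]
  exact Helper22.Berk.cP_eq_zero f a y hi

theorem lo_G_le_deg (f : RatMap K) (hd : 1 ≤ f.deg) (a : K) {t : ℝ} (ht : 0 < t) (y : P1 K) :
    hi (f.G a y) t ≤ f.deg := by
  by_contra h
  push Not at h
  have h1 := hi_spec (f.TP_G hd a y) ht
  rw [f.G_eq_zero a y h, zero_mul] at h1
  exact absurd h1 (tv_pos (f.TP_G hd a y) ht).ne

theorem act_zeta_iff (f : RatMap K) (hd : 1 ≤ f.deg) (a c : K) {r s : ℝ} (hr : 0 < r)
    (hs : 0 ≤ s) : f.act (zeta a r : Berk K) = (zeta c s : Berk K) ↔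
      ∀ y : K, gn (f.P - C y * f.Q) a r = max s ‖y - c‖ * gn f.Q a r := by
  rw [f.act_eq_iff hd, zeta_apply hr.le]
  constructor
  · rintro ⟨-, h⟩ y
    have := h y
    rwa [zeta_apply hr.le, zeta_lin c y hs] at this
  · intro h
    refine ⟨(gn_pos (f.Q_ne_zero hd) a hr).ne', fun y => ?_⟩
    rw [zeta_apply hr.le, zeta_lin c y hs]
    exact h y

/-- the explicit image of `ζ(a,r)`: centre the quotient of the coefficients at a dominating index
of `Q`. -/
theorem act_zeta_of_dom (f : RatMap K) (hd : 1 ≤ f.deg) (a c : K) {r : ℝ} (hr : 0 < r) {j : ℕ}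
    (hj : co f.Q a j * r ^ j = tv (co f.Q a) r)
    (hc : (taylor a (f.P - C c * f.Q)).coeff j = 0) :
    f.act (zeta a r : Berk K) =
      (zeta c (gn (f.P - C c * f.Q) a r / gn f.Q a r) : Berk K) := by
  have hQ := gn_pos (f.Q_ne_zero hd) a hr
  have hP := gn_pos (f.sub_ne_zero hd c) a hr
  rw [f.act_zeta_iff hd a c hr (div_pos hP hQ).le]
  intro y
  set s := gn (f.P - C c * f.Q) a r / gn f.Q a r with hs
  have hs' : gn (f.P - C c * f.Q) a r = s * gn f.Q a r := by
    rw [hs, div_mul_cancel₀ _ hQ.ne']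
  have e1 : f.P - C y * f.Q = (f.P - C c * f.Q) - C (y - c) * f.Q := by
    rw [C_sub]; ring
  have e2 : f.P - C c * f.Q = (f.P - C y * f.Q) - C (c - y) * f.Q := by
    rw [C_sub]; ring
  have h1 : gn (f.P - C y * f.Q) a r ≤ max s ‖y - c‖ * gn f.Q a r := by
    rw [e1]
    refine (gn_sub_le _ _ _ hr.le).trans ?_
    rw [gn_C_mul _ _ _ hr.le, hs', max_mul_of_nonneg _ _ hQ.le]
  have h2 : ‖y - c‖ * gn f.Q a r ≤ gn (f.P - C y * f.Q) a r := by
    have h3 := le_tv (TP_co (f.sub_ne_zero hd y) a) r j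
    have h4 : co (f.P - C y * f.Q) a j = ‖y - c‖ * co f.Q a j := by
      simp only [co]
      rw [f.coeff_sub' a c y, hc, zero_sub, norm_neg, norm_mul]
    rw [h4, mul_assoc, hj] at h3
    exact h3
  have h3 : s * gn f.Q a r ≤ gn (f.P - C y * f.Q) a r := by
    rw [← hs', e2]
    refine (gn_sub_le _ _ _ hr.le).trans ?_
    rw [gn_C_mul _ _ _ hr.le, norm_sub_rev]
    exact max_le le_rfl h2
  refine le_antisymm h1 ?_
  rw [max_mul_of_nonneg _ _ hQ.le]
  exact max_le h3 h2

theorem exists_dom (f : RatMap K) (hd : 1 ≤ f.deg) (a : K) {r : ℝ} (hr : 0 < r) :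
    ∃ (j : ℕ) (c : K), (taylor a f.Q).coeff j ≠ 0 ∧ co f.Q a j * r ^ j = tv (co f.Q a) r ∧
      (taylor a (f.P - C c * f.Q)).coeff j = 0 := by
  obtain ⟨j, hj⟩ := exists_eq_tv (TP_co (f.Q_ne_zero hd) a) r hr.le
  have hq : (taylor a f.Q).coeff j ≠ 0 := by
    intro h
    rw [co, h, norm_zero, zero_mul] at hj
    exact absurd hj (gn_pos (f.Q_ne_zero hd) a hr).ne
  refine ⟨j, (taylor a f.P).coeff j / (taylor a f.Q).coeff j, hq, hj, ?_⟩
  simp only [map_sub, taylor_mul, taylor_C, coeff_sub, coeff_C_mul]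
  field_simp
  ring

/-- the images of the points `ζ(a, r)`. -/
theorem exists_act_zeta (f : RatMap K) (hd : 1 ≤ f.deg) (a : K) {r : ℝ} (hr : 0 < r) :
    ∃ (c : K) (s : ℝ), 0 < s ∧ f.act (zeta a r : Berk K) = (zeta c s : Berk K) := by
  obtain ⟨j, c, -, hj, hc⟩ := f.exists_dom hd a hr
  exact ⟨c, _, div_pos (gn_pos (f.sub_ne_zero hd c) a hr) (gn_pos (f.Q_ne_zero hd) a hr),
    f.act_zeta_of_dom hd a c hr hj hc⟩

/-- type II points are mapped to type II points. -/
theorem exists_act_zeta_two (f : RatMap K) (hd : 1 ≤ f.deg) (a π : K) (hπ : π ≠ 0) :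
    ∃ (c π' : K), π' ≠ 0 ∧ f.act (zeta a ‖π‖ : Berk K) = (zeta c ‖π'‖ : Berk K) := by
  have hr : 0 < ‖π‖ := norm_pos_iff.2 hπ
  obtain ⟨j, c, hq, hj, hc⟩ := f.exists_dom hd a hr
  have hP := TP_co (f.sub_ne_zero hd c) a
  set i := lo (co (f.P - C c * f.Q) a) ‖π‖ with hi
  have h1 := lo_spec hP hr.le
  rw [← hi] at h1
  have hi0 : (taylor a (f.P - C c * f.Q)).coeff i ≠ 0 := by
    intro h
    rw [co, h, norm_zero, zero_mul] at h1
    exact absurd h1 (tv_pos hP hr).ne
  refine ⟨c, (taylor a (f.P - C c * f.Q)).coeff i * π ^ i / ((taylor a f.Q).coeff j * π ^ j),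
    ?_, ?_⟩
  · exact div_ne_zero (mul_ne_zero hi0 (pow_ne_zero _ hπ)) (mul_ne_zero hq (pow_ne_zero _ hπ))
  · rw [f.act_zeta_of_dom hd a c hr hj hc]
    congr 3
    rw [norm_div, norm_mul, norm_mul, norm_pow, norm_pow]
    rw [gn, gn, ← h1, ← hj]
    rfl

omit [IsUltrametricDist K] in
theorem exists_norm_eq {u v : K} (hu : u ≠ 0) (hv : v ≠ 0) {r : ℝ} (hr : 0 < r) {m k : ℕ}
    (hmk : m ≠ k) (h : ‖u‖ * r ^ m = ‖v‖ * r ^ k) : ∃ π : K, π ≠ 0 ∧ r = ‖π‖ := by
  wlog hlt : m < k generalizing u v m k with H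
  · exact H hv hu hmk.symm h.symm (by omega)
  obtain ⟨n, rfl⟩ : ∃ n, k = m + n := ⟨k - m, by omega⟩
  have hn : 0 < n := by omega
  obtain ⟨π, hπ⟩ := IsAlgClosed.exists_pow_nat_eq (u / v) hn
  have h1 : ‖π‖ ^ n = r ^ n := by
    rw [← norm_pow, hπ, norm_div]
    rw [pow_add, ← mul_assoc, mul_right_comm] at h
    have hm : r ^ m ≠ 0 := by positivity
    have h2 := mul_right_cancel₀ hm h
    rw [h2]
    have : ‖v‖ ≠ 0 := norm_ne_zero_iff.2 hv
    field_simp
  have h2 : ‖π‖ = r := by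
    exact (pow_left_inj₀ (norm_nonneg _) hr.le hn.ne').1 h1
  refine ⟨π, ?_, h2.symm⟩
  intro h3
  rw [h3, norm_zero] at h2
  exact hr.ne h2

/-- and conversely. -/
theorem exists_two_of_act (f : RatMap K) (hd : 1 ≤ f.deg) (a c π' : K) {r : ℝ} (hr : 0 < r)
    (hπ : π' ≠ 0) (h : f.act (zeta a r : Berk K) = (zeta c ‖π'‖ : Berk K)) :
    ∃ π : K, π ≠ 0 ∧ r = ‖π‖ := by
  obtain ⟨j, y, hq, hj, hy⟩ := f.exists_dom hd a hr
  have h1 := (f.act_zeta_iff hd a c hr (norm_nonneg _)).1 h y
  have hP := TP_co (f.sub_ne_zero hd y) a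
  set i := lo (co (f.P - C y * f.Q) a) r with hi
  have h2 := lo_spec hP hr.le
  rw [← hi] at h2
  have hi0 : (taylor a (f.P - C y * f.Q)).coeff i ≠ 0 := by
    intro h
    rw [co, h, norm_zero, zero_mul] at h2
    exact absurd h2 (tv_pos hP hr).ne
  have hij : i ≠ j := by
    intro h
    rw [h] at hi0
    exact hi0 hy
  obtain ⟨w, hw, hw'⟩ : ∃ w : K, w ≠ 0 ∧ max ‖π'‖ ‖y - c‖ = ‖w‖ := by
    rcases max_cases ‖π'‖ ‖y - c‖ with ⟨h3, -⟩ | ⟨h3, h4⟩
    · exact ⟨π', hπ, h3⟩
    · refine ⟨y - c, ?_, h3⟩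
      intro h5
      rw [h5, norm_zero] at h4
      exact absurd h4 (not_lt.2 (norm_nonneg _))
  rw [hw', gn, gn, ← h2, ← hj, ← mul_assoc, co, co, ← norm_mul] at h1
  exact exists_norm_eq hi0 (mul_ne_zero hw hq) hr hij h1

/-- if some index is dominating for exactly one of `P - cQ` and `Q`, then all the `P - yQ` with
`‖y - c‖ = s` have the expected norm. -/
theorem act_zeta_of_index (f : RatMap K) (hd : 1 ≤ f.deg) (a c : K) {r s : ℝ} (hr : 0 < r)
    (hs : 0 < s) (h : gn (f.P - C c * f.Q) a r = s * gn f.Q a r) {i : ℕ}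
    (hi : ¬ (co (f.P - C c * f.Q) a i * r ^ i = tv (co (f.P - C c * f.Q) a) r ↔
      co f.Q a i * r ^ i = tv (co f.Q a) r)) :
    f.act (zeta a r : Berk K) = (zeta c s : Berk K) := by
  have hQ := gn_pos (f.Q_ne_zero hd) a hr
  rw [f.act_zeta_iff hd a c hr hs.le]
  intro y
  have e1 : f.P - C y * f.Q = (f.P - C c * f.Q) - C (y - c) * f.Q := by
    rw [C_sub]; ring
  have e2 : f.P - C c * f.Q = (f.P - C y * f.Q) - C (c - y) * f.Q := by
    rw [C_sub]; ring
  have h1 : gn (f.P - C y * f.Q) a r ≤ max s ‖y - c‖ * gn f.Q a r := by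
    rw [e1]
    refine (gn_sub_le _ _ _ hr.le).trans ?_
    rw [gn_C_mul _ _ _ hr.le, h, max_mul_of_nonneg _ _ hQ.le]
  refine le_antisymm h1 ?_
  rcases lt_trichotomy ‖y - c‖ s with hlt | heq | hgt
  · rw [max_eq_left hlt.le, ← h]
    have h2 := gn_sub_le (f.P - C y * f.Q) (C (c - y) * f.Q) a hr.le
    rw [← e2, gn_C_mul _ _ _ hr.le, norm_sub_rev] at h2
    rcases le_max_iff.1 h2 with h3 | h3
    · exact h3
    · rw [h] at h3
      exact absurd h3 (not_le.2 (mul_lt_mul_of_pos_right hlt hQ))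
  · rw [heq, max_self]
    -- the index `i`
    have hPT := TP_co (f.sub_ne_zero hd c) a
    have hQT := TP_co (f.Q_ne_zero hd) a
    have hYT := TP_co (f.sub_ne_zero hd y) a
    have hco : (taylor a (f.P - C y * f.Q)).coeff i = (taylor a (f.P - C c * f.Q)).coeff i -
        (y - c) * (taylor a f.Q).coeff i := f.coeff_sub' a c y i
    have hri : (0 : ℝ) < r ^ i := by positivity
    have hle := le_tv hYT r i
    refine le_trans (le_of_eq ?_) hle
    change s * tv (co f.Q a) r = ‖(taylor a (f.P - C y * f.Q)).coeff i‖ * r ^ i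
    have hA : tv (co (f.P - C c * f.Q) a) r = s * tv (co f.Q a) r := h
    by_cases hPi : co (f.P - C c * f.Q) a i * r ^ i = tv (co (f.P - C c * f.Q) a) r
    · have hQi : co f.Q a i * r ^ i < tv (co f.Q a) r := by
        refine lt_of_le_of_ne (le_tv hQT r i) fun h5 => hi ⟨fun _ => h5, fun _ => hPi⟩
      have hlt : ‖(y - c) * (taylor a f.Q).coeff i‖ < ‖(taylor a (f.P - C c * f.Q)).coeff i‖ := by
        rw [norm_mul, heq]
        have h6 : s * (co f.Q a i * r ^ i) < co (f.P - C c * f.Q) a i * r ^ i := by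
          rw [hPi, hA]
          exact mul_lt_mul_of_pos_left hQi hs
        rw [← mul_assoc] at h6
        exact lt_of_mul_lt_mul_right h6 hri.le
      rw [hco, norm_sub_of_lt hlt, ← hA, ← hPi]
      rfl
    · have hQi : co f.Q a i * r ^ i = tv (co f.Q a) r := by
        by_contra h5
        exact hi ⟨fun h6 => absurd h6 hPi, fun h6 => absurd h6 h5⟩
      have hPi' : co (f.P - C c * f.Q) a i * r ^ i < tv (co (f.P - C c * f.Q) a) r :=
        lt_of_le_of_ne (le_tv hPT r i) hPi
      have hlt : ‖(taylor a (f.P - C c * f.Q)).coeff i‖ < ‖(y - c) * (taylor a f.Q).coeff i‖ := by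
        rw [norm_mul, heq]
        have h6 : co (f.P - C c * f.Q) a i * r ^ i < s * (co f.Q a i * r ^ i) := by
          rw [hQi, ← hA]
          exact hPi'
        rw [← mul_assoc] at h6
        exact lt_of_mul_lt_mul_right h6 hri.le
      rw [hco, norm_sub_of_gt hlt, ← hQi, norm_mul, heq, mul_assoc]
      rfl
  · rw [max_eq_right hgt.le]
    have h2 := gn_sub_le (f.P - C c * f.Q) (f.P - C y * f.Q) a hr.le
    have e3 : (f.P - C c * f.Q) - (f.P - C y * f.Q) = C (y - c) * f.Q := by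
      rw [C_sub]; ring
    rw [e3, gn_C_mul _ _ _ hr.le, h] at h2
    rcases le_max_iff.1 h2 with h3 | h3
    · exact absurd h3 (not_le.2 (mul_lt_mul_of_pos_right hgt hQ))
    · exact h3

/-- enough to test: `f(ζ(a,r)) = ζ(a', s)` if both values `|P - cQ|`, `|Q|` have different slopes. -/
theorem act_zeta_of_slopes (f : RatMap K) (hd : 1 ≤ f.deg) (a c : K) {r s : ℝ} (hr : 0 < r)
    (hs : 0 < s) (h : gn (f.P - C c * f.Q) a r = s * gn f.Q a r)
    (h' : lo (co (f.P - C c * f.Q) a) r ≠ lo (co f.Q a) r ∨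
      hi (co (f.P - C c * f.Q) a) r ≠ hi (co f.Q a) r) :
    f.act (zeta a r : Berk K) = (zeta c s : Berk K) := by
  by_contra hcon
  have key : ∀ i, (co (f.P - C c * f.Q) a i * r ^ i = tv (co (f.P - C c * f.Q) a) r ↔
      co f.Q a i * r ^ i = tv (co f.Q a) r) := by
    intro i
    by_contra hi
    exact hcon (f.act_zeta_of_index hd a c hr hs h hi)
  have hset : {i | co (f.P - C c * f.Q) a i * r ^ i = tv (co (f.P - C c * f.Q) a) r} =
      {i | co f.Q a i * r ^ i = tv (co f.Q a) r} := by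
    ext i; exact key i
  rcases h' with h' | h'
  · exact h' (by unfold lo; rw [hset])
  · exact h' (by unfold hi; rw [hset])

theorem gn_of_act_zeta (f : RatMap K) (hd : 1 ≤ f.deg) (a c : K) {r s : ℝ} (hr : 0 < r)
    (hs : 0 < s) (h : f.act (zeta a r : Berk K) = (zeta c s : Berk K)) (y : K) :
    gn (f.P - C y * f.Q) a r = max s ‖y - c‖ * gn f.Q a r :=
  (f.act_zeta_iff hd a c hr hs.le).1 h y

/-- outward direction, with the value. -/
theorem dom_outward (f : RatMap K) (hd : 1 ≤ f.deg) (a c : K) {r s : ℝ} (hr : 0 < r)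
    (h : gn (f.P - C c * f.Q) a r ≤ s * gn f.Q a r) {y : Berk K}
    (hy : s < y (X - C c)) : tv (f.G a (y : P1 K)) r = y (X - C c) * gn f.Q a r ∧
      lo (f.G a (y : P1 K)) r = lo (co f.Q a) r ∧ hi (f.G a (y : P1 K)) r = hi (co f.Q a) r := by
  have hQT := TP_co (f.Q_ne_zero hd) a
  have hQ := gn_pos (f.Q_ne_zero hd) a hr
  have hρ : 0 < y (X - C c) := by
    have h1 : 0 ≤ s * gn f.Q a r := (gn_pos (f.sub_ne_zero hd c) a hr).le.trans h
    have h2 : 0 ≤ s := nonneg_of_mul_nonneg_left h1 hQ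
    exact h2.trans_lt hy
  refine dom_congr (f.TP_G hd a _) hQT hr (fun i hi => ?_) (fun i hi => ?_)
  · have hri : (0 : ℝ) < r ^ i := by positivity
    have h1 : y (C ((taylor a (f.P - C c * f.Q)).coeff i)) <
        y (C ((taylor a f.Q).coeff i) * (X - C c)) := by
      rw [Berk.map_mul, Berk.map_C, Berk.map_C]
      have h2 := le_tv (TP_co (f.sub_ne_zero hd c) a) r i
      have h3 : ‖(taylor a (f.P - C c * f.Q)).coeff i‖ * r ^ i <
          (‖(taylor a f.Q).coeff i‖ * y (X - C c)) * r ^ i := by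
        calc ‖(taylor a (f.P - C c * f.Q)).coeff i‖ * r ^ i
            ≤ s * gn f.Q a r := h2.trans h
          _ < y (X - C c) * gn f.Q a r := mul_lt_mul_of_pos_right hy hQ
          _ = (‖(taylor a f.Q).coeff i‖ * y (X - C c)) * r ^ i := by
              rw [gn, ← hi, co]; ring
      exact lt_of_mul_lt_mul_right h3 hri.le
    rw [f.G_coe a c, Helper22.Berk.map_sub_eq_of_lt y h1, Berk.map_mul, Berk.map_C, gn, ← hi, co]
    ring
  · have hri : (0 : ℝ) < r ^ i := by positivity
    rw [f.G_coe a c]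
    have h1 := y.map_sub_le (C ((taylor a (f.P - C c * f.Q)).coeff i))
      (C ((taylor a f.Q).coeff i) * (X - C c))
    rw [Berk.map_mul, Berk.map_C, Berk.map_C] at h1
    refine (mul_le_mul_of_nonneg_right h1 hri.le).trans_lt ?_
    rw [max_mul_of_nonneg _ _ hri.le]
    refine max_lt ?_ ?_
    · have h2 := le_tv (TP_co (f.sub_ne_zero hd c) a) r i
      calc ‖(taylor a (f.P - C c * f.Q)).coeff i‖ * r ^ i
            ≤ s * gn f.Q a r := h2.trans h
          _ < y (X - C c) * gn f.Q a r := mul_lt_mul_of_pos_right hy hQ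
    · calc ‖(taylor a f.Q).coeff i‖ * y (X - C c) * r ^ i
          = y (X - C c) * (co f.Q a i * r ^ i) := by rw [co]; ring
        _ < y (X - C c) * gn f.Q a r := mul_lt_mul_of_pos_left hi hρ

/-- inward directions, with the value. -/
theorem dom_inward (f : RatMap K) (hd : 1 ≤ f.deg) (a e : K) {r s : ℝ} (hr : 0 < r)
    (h : gn (f.P - C e * f.Q) a r = s * gn f.Q a r) {y : Berk K}
    (hy : y (X - C e) < s) : tv (f.G a (y : P1 K)) r = s * gn f.Q a r ∧
      lo (f.G a (y : P1 K)) r = lo (co (f.P - C e * f.Q) a) r ∧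
      hi (f.G a (y : P1 K)) r = hi (co (f.P - C e * f.Q) a) r := by
  have hPT := TP_co (f.sub_ne_zero hd e) a
  have hQT := TP_co (f.Q_ne_zero hd) a
  have hQ := gn_pos (f.Q_ne_zero hd) a hr
  have hP := gn_pos (f.sub_ne_zero hd e) a hr
  have hbd : ∀ i, ‖(taylor a f.Q).coeff i‖ * y (X - C e) * r ^ i <
      tv (co (f.P - C e * f.Q) a) r := by
    intro i
    calc ‖(taylor a f.Q).coeff i‖ * y (X - C e) * r ^ i
          = y (X - C e) * (co f.Q a i * r ^ i) := by rw [co]; ring
        _ ≤ y (X - C e) * gn f.Q a r :=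
            mul_le_mul_of_nonneg_left (le_tv hQT r i) (y.nonneg _)
        _ < s * gn f.Q a r := mul_lt_mul_of_pos_right hy hQ
        _ = tv (co (f.P - C e * f.Q) a) r := h.symm
  refine dom_congr (f.TP_G hd a _) hPT hr (fun i hi => ?_) (fun i hi => ?_)
  · have hri : (0 : ℝ) < r ^ i := by positivity
    have h1 : y (C ((taylor a f.Q).coeff i) * (X - C e)) <
        y (C ((taylor a (f.P - C e * f.Q)).coeff i)) := by
      rw [Berk.map_mul, Berk.map_C, Berk.map_C]
      have h3 := hbd i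
      rw [← hi] at h3
      exact lt_of_mul_lt_mul_right h3 hri.le
    have h2 : y (C ((taylor a (f.P - C e * f.Q)).coeff i) -
        C ((taylor a f.Q).coeff i) * (X - C e)) = ‖(taylor a (f.P - C e * f.Q)).coeff i‖ := by
      rw [← Berk.map_neg, neg_sub, Helper22.Berk.map_sub_eq_of_lt y h1, Berk.map_C]
    rw [f.G_coe a e, h2, ← h]
    exact hi
  · have hri : (0 : ℝ) < r ^ i := by positivity
    rw [f.G_coe a e]
    have h1 := y.map_sub_le (C ((taylor a (f.P - C e * f.Q)).coeff i))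
      (C ((taylor a f.Q).coeff i) * (X - C e))
    rw [Berk.map_mul, Berk.map_C, Berk.map_C] at h1
    refine (mul_le_mul_of_nonneg_right h1 hri.le).trans_lt ?_
    rw [max_mul_of_nonneg _ _ hri.le, ← h]
    exact max_lt hi (hbd i)

/-- semicontinuity of the slopes in `y`. -/
theorem eventually_lo_hi (f : RatMap K) (hd : 1 ≤ f.deg) (a : K) {t : ℝ} (ht : 0 < t)
    (y : P1 K) : ∀ᶠ y' in 𝓝 y, lo (f.G a y) t ≤ lo (f.G a y') t ∧ hi (f.G a y') t ≤ hi (f.G a y) t := by
  induction y using OnePoint.rec with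
  | infty =>
    set s := gn (f.P - C 0 * f.Q) a t / gn f.Q a t with hs
    have h : gn (f.P - C 0 * f.Q) a t ≤ s * gn f.Q a t := by
      rw [hs, div_mul_cancel₀ _ (gn_pos (f.Q_ne_zero hd) a ht).ne']
    have ho : IsOpen (cD 0 s : Set (P1 K))ᶜ := (isClosed_cD 0 s).isOpen_compl
    filter_upwards [ho.mem_nhds infty_notMem_cD] with y' hy'
    rw [G_infty]
    induction y' using OnePoint.rec with
    | infty => exact ⟨le_rfl, le_rfl⟩
    | coe y' =>
      have hy'' : s < y' (X - C 0) := by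
        by_contra hcon
        exact hy' (coe_mem_cD.2 (not_lt.1 hcon))
      have := f.dom_outward hd a 0 ht h hy''
      rw [this.2.1, this.2.2]
      exact ⟨le_rfl, le_rfl⟩
  | coe y =>
    rw [OnePoint.nhds_coe_eq, Filter.eventually_map]
    have hTy := f.TP_G hd a (y : P1 K)
    have hcont : Continuous fun y' : Berk K => tv (f.G a (y' : P1 K)) t := by
      have := Helper22.Berk.continuous_tv_cy f hd a ht.le
      refine this.congr fun y' => ?_
      rw [G_eq_cP, Helper22.Berk.cP_coe]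
    have hci : ∀ i, Continuous fun y' : Berk K => f.G a (y' : P1 K) i * t ^ i := fun i =>
      (Berk.continuous_eval _).mul continuous_const
    have hev : ∀ᶠ y' : Berk K in 𝓝 y, ∀ i ∈ Finset.range (f.deg + 1),
        f.G a (y : P1 K) i * t ^ i < tv (f.G a (y : P1 K)) t →
          f.G a (y' : P1 K) i * t ^ i < tv (f.G a (y' : P1 K)) t := by
      rw [Filter.eventually_all_finset]
      intro i _
      by_cases hi : f.G a (y : P1 K) i * t ^ i < tv (f.G a (y : P1 K)) t
      · filter_upwards [(isOpen_lt (hci i) hcont).mem_nhds hi] with y' hy' _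
        exact hy'
      · filter_upwards with y' h
        exact absurd h hi
    filter_upwards [hev] with y' hy'
    have hTy' := f.TP_G hd a (y' : P1 K)
    have key : ∀ i, f.G a (y' : P1 K) i * t ^ i = tv (f.G a (y' : P1 K)) t →
        f.G a (y : P1 K) i * t ^ i = tv (f.G a (y : P1 K)) t := by
      intro i hi
      by_contra hne
      have hlt := lt_of_le_of_ne (le_tv hTy t i) hne
      by_cases hir : i ∈ Finset.range (f.deg + 1)
      · exact absurd hi (hy' i hir hlt).ne
      · have : f.deg < i := by simpa [Nat.lt_succ_iff] using hir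
        rw [f.G_eq_zero a _ this, zero_mul] at hi
        exact absurd hi (tv_pos hTy' ht).ne
    exact ⟨lo_le (key _ (lo_spec hTy' ht.le)), le_hi hTy ht (key _ (hi_spec hTy' ht))⟩

/-- local constancy of the slopes in `y` at noncritical radii. -/
theorem eventually_eq (f : RatMap K) (hd : 1 ≤ f.deg) (a : K) {t : ℝ} (ht : 0 < t)
    {y : P1 K} {k : ℕ} (h1 : lo (f.G a y) t = k) (h2 : hi (f.G a y) t = k) :
    ∀ᶠ y' in 𝓝 y, lo (f.G a y') t = k ∧ hi (f.G a y') t = k := by
  filter_upwards [f.eventually_lo_hi hd a ht y] with y' hy'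
  have h3 := lo_le_hi (f.TP_G hd a y') ht
  omega

/-- `lo` of `G` is constant on the directions at the image point: outward direction. -/
theorem lo_G_outward (f : RatMap K) (hd : 1 ≤ f.deg) (a c : K) {r s : ℝ} (hr : 0 < r)
    (hs : 0 < s) (h : f.act (zeta a r : Berk K) = (zeta c s : Berk K)) {y : P1 K}
    (hy : y ∉ cD c s) : lo (f.G a y) r = lo (co f.Q a) r ∧ hi (f.G a y) r = hi (co f.Q a) r := by
  induction y using OnePoint.rec with
  | infty => exact ⟨rfl, rfl⟩
  | coe y =>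
    have h1 := f.gn_of_act_zeta hd a c hr hs h c
    rw [sub_self, norm_zero, max_eq_left hs.le] at h1
    rw [coe_mem_cD, not_le] at hy
    exact (f.dom_outward hd a c hr h1.le hy).2

/-- `lo` of `G` is constant on the directions at the image point: inward directions. -/
theorem lo_G_inward (f : RatMap K) (hd : 1 ≤ f.deg) (a c e : K) {r s : ℝ} (hr : 0 < r)
    (hs : 0 < s) (h : f.act (zeta a r : Berk K) = (zeta c s : Berk K)) (he : ‖e - c‖ ≤ s)
    {y : P1 K} (hy : y ∈ oD e s) :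
    lo (f.G a y) r = lo (co (f.P - C e * f.Q) a) r ∧
      hi (f.G a y) r = hi (co (f.P - C e * f.Q) a) r := by
  induction y using OnePoint.rec with
  | infty => exact absurd hy infty_notMem_oD
  | coe y =>
    have h1 := f.gn_of_act_zeta hd a c hr hs h e
    rw [max_eq_left he] at h1
    rw [coe_mem_oD] at hy
    exact (f.dom_inward hd a e hr h1 hy).2

/-- `lo` and `hi` at the image point. -/
theorem lo_G_image (f : RatMap K) (hd : 1 ≤ f.deg) (a c : K) {r s : ℝ} (hr : 0 < r)
    (hs : 0 < s) (h : f.act (zeta a r : Berk K) = (zeta c s : Berk K)) :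
    lo (f.G a (zeta c s : Berk K)) r = min (lo (co (f.P - C c * f.Q) a) r) (lo (co f.Q a) r) ∧
      hi (f.G a (zeta c s : Berk K)) r =
        max (hi (co (f.P - C c * f.Q) a) r) (hi (co f.Q a) r) := by
  have h1 := f.gn_of_act_zeta hd a c hr hs h c
  rw [sub_self, norm_zero, max_eq_left hs.le] at h1
  rw [f.G_zeta a c hs.le]
  exact ⟨lo_tmax_of_eq (TP_co (f.sub_ne_zero hd c) a) (TP_co (f.Q_ne_zero hd) a) hs hr h1,
    hi_tmax_of_eq (TP_co (f.sub_ne_zero hd c) a) (TP_co (f.Q_ne_zero hd) a) hs hr h1⟩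

/-- the three kinds of points with respect to `ζ(c, s)`. -/
theorem cases_dir (c : K) {s : ℝ} (hs : 0 < s) (y : P1 K) :
    y ∉ cD c s ∨ y = (zeta c s : Berk K) ∨ ∃ e : K, ‖e - c‖ ≤ s ∧ y ∈ oD e s := by
  by_cases hy : y ∈ cD c s
  · right
    by_cases hne : y = (zeta c s : Berk K)
    · exact Or.inl hne
    · right
      induction y using OnePoint.rec with
      | infty => exact absurd hy infty_notMem_cD
      | coe y =>
        rw [coe_mem_cD] at hy
        obtain ⟨e, he, he'⟩ := y.exists_dir hs hy (fun h => hne (by rw [h]))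
        exact ⟨e, he, coe_mem_oD.2 he'⟩
  · exact Or.inl hy

/-- comparison of `P - eQ` with `P - cQ` and `Q`. -/
theorem lo_sub_le (f : RatMap K) (hd : 1 ≤ f.deg) (a c e : K) {r s : ℝ} (hr : 0 < r)
    (hs : 0 < s) (h : f.act (zeta a r : Berk K) = (zeta c s : Berk K)) (he : ‖e - c‖ ≤ s) :
    min (lo (co (f.P - C c * f.Q) a) r) (lo (co f.Q a) r) ≤ lo (co (f.P - C e * f.Q) a) r ∧
      hi (co (f.P - C e * f.Q) a) r ≤
        max (hi (co (f.P - C c * f.Q) a) r) (hi (co f.Q a) r) := by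
  have hQ := gn_pos (f.Q_ne_zero hd) a hr
  have hCT := TP_co (f.sub_ne_zero hd c) a
  have hET := TP_co (f.sub_ne_zero hd e) a
  have hQT := TP_co (f.Q_ne_zero hd) a
  have h1 : tv (co (f.P - C c * f.Q) a) r = s * tv (co f.Q a) r := by
    have := f.gn_of_act_zeta hd a c hr hs h c
    rw [sub_self, norm_zero, max_eq_left hs.le] at this
    exact this
  have h2 : tv (co (f.P - C e * f.Q) a) r = s * tv (co f.Q a) r := by
    have := f.gn_of_act_zeta hd a c hr hs h e
    rw [max_eq_left he] at this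
    exact this
  have key : ∀ i, co (f.P - C e * f.Q) a i * r ^ i = tv (co (f.P - C e * f.Q) a) r →
      co (f.P - C c * f.Q) a i * r ^ i = tv (co (f.P - C c * f.Q) a) r ∨
        co f.Q a i * r ^ i = tv (co f.Q a) r := by
    intro i hi
    by_contra hcon
    push Not at hcon
    have h3 := lt_of_le_of_ne (le_tv hCT r i) hcon.1
    have h4 := lt_of_le_of_ne (le_tv hQT r i) hcon.2
    have hri : (0 : ℝ) < r ^ i := by positivity
    have h5 : co (f.P - C e * f.Q) a i ≤ max (co (f.P - C c * f.Q) a i) (s * co f.Q a i) := by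
      simp only [co]
      rw [f.coeff_sub' a c e i]
      refine (norm_sub_le_max' _ _).trans (max_le_max le_rfl ?_)
      rw [norm_mul]
      exact mul_le_mul_of_nonneg_right he (norm_nonneg _)
    have h6 := mul_le_mul_of_nonneg_right h5 hri.le
    rw [max_mul_of_nonneg _ _ hri.le, hi, h2] at h6
    rcases le_max_iff.1 h6 with h7 | h7
    · rw [h1] at h3
      exact absurd h3 (not_lt.2 h7)
    · rw [mul_assoc] at h7
      exact absurd h4 (not_lt.2 (le_of_mul_le_mul_left h7 hs))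
  constructor
  · rcases key _ (lo_spec hET hr.le) with h3 | h3
    · exact min_le_of_left_le (lo_le h3)
    · exact min_le_of_right_le (lo_le h3)
  · rcases key _ (hi_spec hET hr) with h3 | h3
    · exact le_max_of_le_left (le_hi hCT hr h3)
    · exact le_max_of_le_right (le_hi hQT hr h3)

/-- the minimum of the slope is attained at the image point itself. -/
theorem lo_G_image_le (f : RatMap K) (hd : 1 ≤ f.deg) (a : K) {r : ℝ} (hr : 0 < r) (y : P1 K) :
    lo (f.G a (f.act (zeta a r : Berk K))) r ≤ lo (f.G a y) r ∧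
      hi (f.G a y) r ≤ hi (f.G a (f.act (zeta a r : Berk K))) r := by
  obtain ⟨c, s, hs, h⟩ := f.exists_act_zeta hd a hr
  rw [h, (f.lo_G_image hd a c hr hs h).1, (f.lo_G_image hd a c hr hs h).2]
  rcases cases_dir c hs y with hy | rfl | ⟨e, he, hy⟩
  · rw [(f.lo_G_outward hd a c hr hs h hy).1, (f.lo_G_outward hd a c hr hs h hy).2]
    exact ⟨min_le_right _ _, le_max_right _ _⟩
  · rw [(f.lo_G_image hd a c hr hs h).1, (f.lo_G_image hd a c hr hs h).2]
    exact ⟨le_rfl, le_rfl⟩
  · rw [(f.lo_G_inward hd a c e hr hs h he hy).1, (f.lo_G_inward hd a c e hr hs h he hy).2]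
    exact f.lo_sub_le hd a c e hr hs h he

/-- local constancy off the image point, hence constancy on connected sets. -/
theorem lo_G_eq_of_preconnected (f : RatMap K) (hd : 1 ≤ f.deg) (a : K) {r : ℝ} (hr : 0 < r)
    {S : Set (P1 K)} (hS : IsPreconnected S) (hb : f.act (zeta a r : Berk K) ∉ S) {y y' : P1 K}
    (hy : y ∈ S) (hy' : y' ∈ S) : lo (f.G a y) r = lo (f.G a y') r := by
  obtain ⟨c, s, hs, h⟩ := f.exists_act_zeta hd a hr
  refine hS.constant (f := fun y => lo (f.G a y) r) ?_ hy hy'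
  intro z hz
  refine ContinuousAt.continuousWithinAt ?_
  have hloc : ∀ᶠ z' in 𝓝 z, lo (f.G a z') r = lo (f.G a z) r := by
    rcases cases_dir c hs z with hz' | rfl | ⟨e, he, hz'⟩
    · have ho : IsOpen (cD c s : Set (P1 K))ᶜ := (isClosed_cD c s).isOpen_compl
      filter_upwards [ho.mem_nhds hz'] with z' hz''
      rw [(f.lo_G_outward hd a c hr hs h hz'').1, (f.lo_G_outward hd a c hr hs h hz').1]
    · exact absurd hz (h ▸ hb)
    · filter_upwards [(isOpen_oD e s).mem_nhds hz'] with z' hz''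
      rw [(f.lo_G_inward hd a c e hr hs h he hz'').1, (f.lo_G_inward hd a c e hr hs h he hz').1]
  exact (tendsto_const_nhds (x := lo (f.G a z) r)).congr' (hloc.mono fun _ h => h.symm)

theorem zeta_center {a b : K} {r : ℝ} (h : ‖a - b‖ ≤ r) : zeta a r = zeta b r := by
  have hr : 0 ≤ r := (norm_nonneg _).trans h
  exact (zeta_eq_zeta_iff hr hr).2 ⟨rfl, h⟩

/-- the two possibilities for the slopes, uniformly in the centre. -/
theorem cases_G (f : RatMap K) (hd : 1 ≤ f.deg) (a : K) {r : ℝ} (hr : 0 < r) (y : P1 K) :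
    (∃ F : K[X], F ≠ 0 ∧ ∀ b : K, ‖a - b‖ ≤ r →
      lo (f.G b y) r = lo (co F b) r ∧ hi (f.G b y) r = hi (co F b) r) ∨
    ∃ F₁ F₂ : K[X], F₁ ≠ 0 ∧ F₂ ≠ 0 ∧ ∀ b : K, ‖a - b‖ ≤ r →
      lo (f.G b y) r = min (lo (co F₁ b) r) (lo (co F₂ b) r) ∧
        hi (f.G b y) r = max (hi (co F₁ b) r) (hi (co F₂ b) r) := by
  obtain ⟨c, s, hs, h⟩ := f.exists_act_zeta hd a hr
  have hb : ∀ b : K, ‖a - b‖ ≤ r → f.act (zeta b r : Berk K) = (zeta c s : Berk K) := by
    intro b hb
    rw [← zeta_center hb, h]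
  rcases cases_dir c hs y with hy | rfl | ⟨e, he, hy⟩
  · exact Or.inl ⟨f.Q, f.Q_ne_zero hd, fun b hab => f.lo_G_outward hd b c hr hs (hb b hab) hy⟩
  · exact Or.inr ⟨_, _, f.sub_ne_zero hd c, f.Q_ne_zero hd,
      fun b hab => f.lo_G_image hd b c hr hs (hb b hab)⟩
  · exact Or.inl ⟨_, f.sub_ne_zero hd e,
      fun b hab => f.lo_G_inward hd b c e hr hs (hb b hab) he hy⟩

/-- centre change in `G`. -/
theorem lo_G_center (f : RatMap K) (hd : 1 ≤ f.deg) {a b : K} {r : ℝ} (h : ‖a - b‖ < r)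
    (y : P1 K) : lo (f.G a y) r = lo (f.G b y) r := by
  have hr : 0 < r := (norm_nonneg _).trans_lt h
  rcases f.cases_G hd a hr y with ⟨F, hF, H⟩ | ⟨F₁, F₂, h1, h2, H⟩
  · rw [(H a (by simpa using hr.le)).1, (H b h.le).1, lo_center hF h]
  · rw [(H a (by simpa using hr.le)).1, (H b h.le).1, lo_center h1 h, lo_center h2 h]

theorem hi_G_center (f : RatMap K) (hd : 1 ≤ f.deg) {a b : K} {r : ℝ} (hr : 0 < r)
    (h : ‖a - b‖ ≤ r) (y : P1 K) : hi (f.G a y) r = hi (f.G b y) r := by
  rcases f.cases_G hd a hr y with ⟨F, hF, H⟩ | ⟨F₁, F₂, h1, h2, H⟩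
  · rw [(H a (by simpa using hr.le)).2, (H b h).2, hi_center hF hr h]
  · rw [(H a (by simpa using hr.le)).2, (H b h).2, hi_center h1 hr h, hi_center h2 hr h]

open Classical in
theorem sum_card_filter_le {ι : Type*} (s : Multiset K) (S : Finset ι) (p : ι → K → Prop)
    (q : K → Prop) (hpq : ∀ b ∈ S, ∀ z, p b z → q z)
    (hdis : ∀ b ∈ S, ∀ b' ∈ S, b ≠ b' → ∀ z, p b z → ¬ p b' z) :
    ∑ b ∈ S, (s.filter (p b)).card ≤ (s.filter q).card := by
  induction s using Multiset.induction_on with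
  | empty => simp
  | cons z s ih =>
    have e : ∀ (p : K → Prop), ((z ::ₘ s).filter p).card = (if p z then 1 else 0) +
        (s.filter p).card := by
      intro p
      by_cases hp : p z
      · rw [Multiset.filter_cons_of_pos _ hp]; simp [hp, add_comm]
      · rw [Multiset.filter_cons_of_neg _ hp]; simp [hp]
    rw [e q, Finset.sum_congr rfl fun b _ => e (p b), Finset.sum_add_distrib]
    refine add_le_add ?_ ih
    by_cases hex : ∃ b ∈ S, p b z
    · obtain ⟨b, hb, hbz⟩ := hex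
      rw [Finset.sum_eq_single b]
      · simp [hbz, hpq b hb z hbz]
      · intro b' hb' hne
        simp [hdis b hb b' hb' (Ne.symm hne) z hbz]
      · exact fun h => absurd hb h
    · push Not at hex
      rw [Finset.sum_eq_zero fun b hb => by simp [hex b hb]]
      exact Nat.zero_le _

theorem sum_lo_co_le_hi {F : K[X]} (hF : F ≠ 0) (a : K) {r : ℝ} (hr : 0 < r)
    (S : Finset K) (hS : ∀ b ∈ S, ‖b - a‖ ≤ r) (hS' : ∀ b ∈ S, ∀ b' ∈ S, b ≠ b' → r ≤ ‖b - b'‖) :
    ∑ b ∈ S, lo (co F b) r ≤ hi (co F a) r := by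
  rw [hi_eq_nle hF a hr, Finset.sum_congr rfl fun b _ => lo_eq_nlt hF b hr]
  refine sum_card_filter_le F.roots S (fun b z => ‖z - b‖ < r) (fun z => ‖z - a‖ ≤ r) ?_ ?_
  · intro b hb z hz
    have : z - a = (z - b) + (b - a) := by ring
    rw [this]
    exact (IsUltrametricDist.norm_add_le_max _ _).trans (max_le hz.le (hS b hb))
  · intro b hb b' hb' hne z hz hz'
    have h1 := hS' b hb b' hb' hne
    have h2 : b - b' = (z - b') - (z - b) := by ring
    rw [h2] at h1
    exact absurd (h1.trans (norm_sub_le_max' _ _)) (not_le.2 (max_lt hz' hz))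

/-- disjoint open subdiscs of a closed disc: the slopes add up at most to the outer one. -/
theorem sum_lo_G_le_hi (f : RatMap K) (hd : 1 ≤ f.deg) (a : K) {r : ℝ} (hr : 0 < r)
    (S : Finset K) (hS : ∀ b ∈ S, ‖b - a‖ ≤ r) (hS' : ∀ b ∈ S, ∀ b' ∈ S, b ≠ b' → r ≤ ‖b - b'‖)
    (y : P1 K) : ∑ b ∈ S, lo (f.G b y) r ≤ hi (f.G a y) r := by
  have haa : ‖a - a‖ ≤ r := by simpa using hr.le
  have hab : ∀ b ∈ S, ‖a - b‖ ≤ r := fun b hb => by rw [norm_sub_rev]; exact hS b hb
  rcases f.cases_G hd a hr y with ⟨F, hF, H⟩ | ⟨F₁, F₂, h1, h2, H⟩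
  · rw [(H a haa).2, Finset.sum_congr rfl fun b hb => (H b (hab b hb)).1]
    exact sum_lo_co_le_hi hF a hr S hS hS'
  · rw [(H a haa).2, Finset.sum_congr rfl fun b hb => (H b (hab b hb)).1]
    refine le_max_of_le_left ((Finset.sum_le_sum fun b _ => min_le_left _ _).trans ?_)
    exact sum_lo_co_le_hi h1 a hr S hS hS'

end RatMap

end Pool.Agent.Helper17.Berk
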