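import Mathlib
import Pool.Agent.Helper17.Berk.GG

/-!
# Local degrees (module B5, MP_160e9b_an)
-/

open Polynomial Topology

set_option linter.dupNamespace false

namespace Pool.Agent.Helper17.Berk

universe u

/-! ### auxiliary facts (helper12) -/

theorem eventually_below_ld {g : ℕ → ℝ} (hg : TP g) {r : ℝ} (hr : 0 < r) :
    ∀ᶠ t in 𝓝[<] r, lo g t = lo g r ∧ hi g t = lo g r := by
  obtain ⟨t₀, h0, h1, h2⟩ := exists_below hg hr
  filter_upwards [Ioo_mem_nhdsLT h1] with t ht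
  exact h2 t ht.1 ht.2

theorem eventually_above_ld {g : ℕ → ℝ} (hg : TP g) {r : ℝ} (hr : 0 < r) :
    ∀ᶠ t in 𝓝[>] r, lo g t = hi g r ∧ hi g t = hi g r := by
  obtain ⟨t₀, h1, h2⟩ := exists_above hg hr
  filter_upwards [Ioo_mem_nhdsGT h1] with t ht
  exact h2 t ht.1 ht.2

theorem eventually_pos_lt_ld {r : ℝ} (hr : 0 < r) : ∀ᶠ t in 𝓝[<] r, 0 < t ∧ t < r := by
  filter_upwards [Ioo_mem_nhdsLT hr] with t ht
  exact ht

theorem eventually_gt_lt_ld {r : ℝ} (hr : 0 < r) {s : ℝ} (hs : s < r) :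
    ∀ᶠ t in 𝓝[<] r, 0 < t ∧ s < t ∧ t < r := by
  filter_upwards [Ioo_mem_nhdsLT hr, Ioo_mem_nhdsLT hs] with t ht ht'
  exact ⟨ht.1, ht'.1, ht.2⟩

theorem eventually_lt_lt_ld {r s : ℝ} (hs : r < s) : ∀ᶠ t in 𝓝[>] r, r < t ∧ t < s := by
  filter_upwards [Ioo_mem_nhdsGT hs] with t ht
  exact ht

variable {K : Type u} [NontriviallyNormedField K] [IsUltrametricDist K]

omit [IsUltrametricDist K] in
/-- representatives of the directions of a finite set of centres. -/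
theorem exists_reps_ld (S₀ : Finset K) {r : ℝ} (hr : 0 < r) : ∃ S ⊆ S₀,
    (∀ b ∈ S, ∀ b' ∈ S, b ≠ b' → r ≤ ‖b - b'‖) ∧ ∀ b ∈ S₀, ∃ b' ∈ S, ‖b - b'‖ < r := by
  classical
  induction S₀ using Finset.induction_on with
  | empty => exact ⟨∅, by simp, by simp, by simp⟩
  | insert c S₀ _ ih =>
    obtain ⟨S, hS, h1, h2⟩ := ih
    by_cases hc : ∃ b' ∈ S, ‖c - b'‖ < r
    · refine ⟨S, hS.trans (Finset.subset_insert _ _), h1, fun b hb => ?_⟩
      rcases Finset.mem_insert.1 hb with rfl | hb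
      · exact hc
      · exact h2 b hb
    · push Not at hc
      refine ⟨insert c S, Finset.insert_subset_insert _ hS, ?_, ?_⟩
      · intro b hb b' hb' hne
        rcases Finset.mem_insert.1 hb with h3 | h3
        · rcases Finset.mem_insert.1 hb' with h4 | h4
          · exact absurd (h3.trans h4.symm) hne
          · rw [h3]; exact hc b' h4
        · rcases Finset.mem_insert.1 hb' with h4 | h4
          · rw [norm_sub_rev, h4]; exact hc b h3
          · exact h1 b h3 b' h4 hne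
      · intro b hb
        rcases Finset.mem_insert.1 hb with rfl | hb
        · exact ⟨b, Finset.mem_insert_self _ _, by simpa using hr⟩
        · obtain ⟨b', hb', h⟩ := h2 b hb
          exact ⟨b', Finset.mem_insert_of_mem hb', h⟩

variable [IsAlgClosed K]

/-- a nonempty open set contains a classical point. -/
theorem exists_emb_mem_ld {U : Set (P1 K)} (hU : IsOpen U) {x : P1 K} (hx : x ∈ U) :
    ∃ z : OnePoint K, emb z ∈ U := by
  obtain ⟨_, hy, z, rfl⟩ := (dense_range_emb (K := K)).inter_open_nonempty U hU ⟨x, hx⟩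
  exact ⟨z, hy⟩

/-- near `ζ(c,s)`, outside the closed disc. -/
theorem exists_emb_outward_ld {U : Set (P1 K)} (hU : IsOpen U) {c : K} {s : ℝ} (hs : 0 < s)
    (h : ((zeta c s : Berk K) : P1 K) ∈ U) : ∃ w : OnePoint K, emb w ∈ U ∧ emb w ∉ cD c s := by
  have hcont : Continuous (fun t : ℝ => ((zeta c t : Berk K) : P1 K)) :=
    OnePoint.continuous_coe.comp (continuous_zeta c)
  have hmem : ∀ᶠ t in 𝓝[>] s, ((zeta c t : Berk K) : P1 K) ∈ U :=
    (hcont.continuousAt.eventually (hU.mem_nhds h)).filter_mono nhdsWithin_le_nhds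
  obtain ⟨t, ht, ht'⟩ := (hmem.and (eventually_mem_nhdsWithin (a := s) (s := Set.Ioi s))).exists
  have hts : s < t := ht'
  have ht0 : 0 < t := hs.trans hts
  have hnot : ((zeta c t : Berk K) : P1 K) ∈ (cD c s)ᶜ := by
    rw [Set.mem_compl_iff, coe_mem_cD, zeta_lin c c ht0.le]
    simp only [sub_self, norm_zero, not_le]
    exact lt_max_of_lt_left hts
  obtain ⟨w, hw⟩ := exists_emb_mem_ld (hU.inter (isClosed_cD c s).isOpen_compl) ⟨ht, hnot⟩
  exact ⟨w, hw.1, hw.2⟩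

/-- near `ζ(c,s)`, in one of the inward directions. -/
theorem exists_emb_inward_ld {U : Set (P1 K)} (hU : IsOpen U) {c e : K} {s : ℝ} (hs : 0 < s)
    (he : ‖e - c‖ ≤ s) (h : ((zeta c s : Berk K) : P1 K) ∈ U) :
    ∃ w : OnePoint K, emb w ∈ U ∧ emb w ∈ oD e s := by
  have hcont : Continuous (fun t : ℝ => ((zeta e t : Berk K) : P1 K)) :=
    OnePoint.continuous_coe.comp (continuous_zeta e)
  have hes : (zeta c s : Berk K) = zeta e s :=
    (zeta_eq_zeta_iff hs.le hs.le).2 ⟨rfl, by rwa [norm_sub_rev]⟩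
  rw [hes] at h
  have hmem : ∀ᶠ t in 𝓝[<] s, ((zeta e t : Berk K) : P1 K) ∈ U :=
    (hcont.continuousAt.eventually (hU.mem_nhds h)).filter_mono nhdsWithin_le_nhds
  obtain ⟨t, ht, ht0, hts⟩ := (hmem.and (eventually_pos_lt_ld hs)).exists
  have hin : ((zeta e t : Berk K) : P1 K) ∈ oD e s := by
    rw [coe_mem_oD, zeta_lin e e ht0.le]
    simp only [sub_self, norm_zero]
    exact max_lt hts hs
  obtain ⟨w, hw⟩ := exists_emb_mem_ld (hU.inter (isOpen_oD e s)) ⟨ht, hin⟩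
  exact ⟨w, hw.1, hw.2⟩

namespace RatMap

theorem N_union_le_ld (f : RatMap K) (w : OnePoint K) (V W : Set (P1 K)) :
    f.N w (V ∪ W) ≤ f.N w V + f.N w W := by
  have h : V ∪ W = V ∪ (W \ V) := by simp
  rw [h, f.N_union w Set.disjoint_sdiff_right]
  exact Nat.add_le_add_left (f.N_mono w Set.sdiff_subset) _

omit [IsAlgClosed K] in
theorem N_empty_ld (f : RatMap K) (w : OnePoint K) : f.N w ∅ = 0 := by
  simp [N]

theorem N_biUnion_le_ld {ι : Type*} (f : RatMap K) (w : OnePoint K) (S : Finset ι)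
    (A : ι → Set (P1 K)) : f.N w (⋃ b ∈ S, A b) ≤ ∑ b ∈ S, f.N w (A b) := by
  classical
  induction S using Finset.induction_on with
  | empty => simp [N_empty_ld]
  | insert b S hb ih =>
    rw [Finset.set_biUnion_insert, Finset.sum_insert hb]
    exact (f.N_union_le_ld w _ _).trans (Nat.add_le_add_left ih _)

theorem N_biUnion_eq_ld {ι : Type*} (f : RatMap K) (w : OnePoint K) (S : Finset ι)
    (A : ι → Set (P1 K)) (h : ∀ b ∈ S, ∀ b' ∈ S, b ≠ b' → Disjoint (A b) (A b')) :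
    f.N w (⋃ b ∈ S, A b) = ∑ b ∈ S, f.N w (A b) := by
  classical
  induction S using Finset.induction_on with
  | empty => simp [N_empty_ld]
  | insert b S hb ih =>
    rw [Finset.set_biUnion_insert, Finset.sum_insert hb, ← ih]
    · apply f.N_union w
      rw [Set.disjoint_iUnion₂_right]
      intro i hi
      exact h b (Finset.mem_insert_self _ _) i (Finset.mem_insert_of_mem hi)
        (by rintro rfl; exact hb hi)
    · intro b₁ hb₁ b₂ hb₂
      exact h b₁ (Finset.mem_insert_of_mem hb₁) b₂ (Finset.mem_insert_of_mem hb₂)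

theorem N_diff_add_ld (f : RatMap K) (w : OnePoint K) {V W : Set (P1 K)} (h : W ⊆ V) :
    f.N w (V \ W) + f.N w W = f.N w V := by
  rw [← f.N_union w Set.disjoint_sdiff_left, Set.sdiff_union_of_subset h]

omit [IsAlgClosed K] in
theorem locDeg_le_of (f : RatMap K) (x : P1 K) {k : ℕ} {V W : Set (P1 K)} (hV : IsOpen V)
    (hxV : x ∈ V) (hW : IsOpen W) (hxW : f.act x ∈ W)
    (h : ∀ w : OnePoint K, emb w ∈ W → f.N w V ≤ k) : f.locDeg x ≤ k :=
  Nat.sInf_le ⟨V, hV, hxV, W, hW, hxW, h⟩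

theorem exists_locDeg (f : RatMap K) (x : P1 K) : ∃ V : Set (P1 K), IsOpen V ∧ x ∈ V ∧
    ∃ W : Set (P1 K), IsOpen W ∧ f.act x ∈ W ∧ ∀ w : OnePoint K, emb w ∈ W → f.N w V ≤ f.locDeg x :=
  Nat.sInf_mem (s := {k | ∃ V : Set (P1 K), IsOpen V ∧ x ∈ V ∧ ∃ W : Set (P1 K), IsOpen W ∧
    f.act x ∈ W ∧ ∀ w : OnePoint K, emb w ∈ W → f.N w V ≤ k})
    ⟨f.deg, Set.univ, isOpen_univ, trivial, Set.univ, isOpen_univ, trivial,
      fun w _ => f.N_le_deg w _⟩

theorem locDeg_le_deg (f : RatMap K) (x : P1 K) : f.locDeg x ≤ f.deg :=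
  f.locDeg_le_of x isOpen_univ trivial isOpen_univ trivial fun w _ => f.N_le_deg w _

theorem one_le_locDeg (f : RatMap K) (hd : 1 ≤ f.deg) (x : P1 K) : 1 ≤ f.locDeg x := by
  by_contra hcon
  have h0 : f.locDeg x = 0 := by omega
  obtain ⟨V, hV, hxV, W, hW, hxW, h⟩ := f.exists_locDeg x
  obtain ⟨z, hz1, hz2⟩ := exists_emb_mem_ld (hV.inter (hW.preimage f.continuous_act)) ⟨hxV, hxW⟩
  have h1 : emb (f.actK z) ∈ W := by
    rw [← f.act_emb]; exact hz2
  have h2 := h _ h1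
  have h3 : 0 < f.N (f.actK z) V := (f.N_pos_iff hd _ _).2 ⟨z, rfl, hz1⟩
  omega

/-- submultiplicativity of local degrees. -/
theorem locDeg_comp_le (f g : RatMap K) (x : P1 K) :
    (f.comp g).locDeg x ≤ f.locDeg (g.act x) * g.locDeg x := by
  classical
  rcases Nat.eq_zero_or_pos g.deg with hg | hg
  · have h1 := (f.comp g).locDeg_le_deg x
    rw [f.deg_comp g, hg, mul_zero] at h1
    omega
  obtain ⟨V₁, hV₁, hxV₁, W₁, hW₁, hxW₁, h1⟩ := g.exists_locDeg x
  obtain ⟨V₂, hV₂, hxV₂, W₂, hW₂, hxW₂, h2⟩ := f.exists_locDeg (g.act x)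
  refine (f.comp g).locDeg_le_of x (V := V₁ ∩ g.act ⁻¹' (V₂ ∩ W₁)) (W := W₂)
    (hV₁.inter ((hV₂.inter hW₁).preimage g.continuous_act)) ⟨hxV₁, hxV₂, hxW₁⟩ hW₂
    (by rwa [f.act_comp]) ?_
  intro w hw
  rw [f.N_comp g]
  have key : ∀ z ∈ f.fib w, g.N z (V₁ ∩ g.act ⁻¹' (V₂ ∩ W₁)) ≤
      if emb z ∈ V₂ then g.locDeg x else 0 := by
    intro z _
    by_cases hz : emb z ∈ V₂ ∩ W₁
    · rw [if_pos hz.1]
      exact (g.N_mono z Set.inter_subset_left).trans (h1 z hz.2)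
    · have h0 : g.N z (V₁ ∩ g.act ⁻¹' (V₂ ∩ W₁)) = 0 := by
        by_contra hne
        obtain ⟨z', hz', hz''⟩ := (g.N_pos_iff hg z _).1 (Nat.pos_of_ne_zero hne)
        apply hz
        have := hz''.2
        rw [Set.mem_preimage, g.act_emb, hz'] at this
        exact this
      rw [h0]
      exact Nat.zero_le _
  calc ((f.fib w).map fun z => g.N z (V₁ ∩ g.act ⁻¹' (V₂ ∩ W₁))).sum
      ≤ ((f.fib w).map fun z => if emb z ∈ V₂ then g.locDeg x else 0).sum :=
        Multiset.sum_map_le_sum_map _ _ key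
    _ = f.N w V₂ * g.locDeg x := by
        rw [N]
        generalize f.fib w = m
        induction m using Multiset.induction_on with
        | empty => simp
        | cons z m ih =>
          rw [Multiset.map_cons, Multiset.sum_cons, ih, Multiset.filter_cons]
          split_ifs with hz
          · simp only [Multiset.card_add, Multiset.card_singleton]
            ring
          · simp
    _ ≤ f.locDeg (g.act x) * g.locDeg x := Nat.mul_le_mul_right _ (h2 w hw)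

/-- the local degree at `ζ(a,r)`: upper bound. -/
theorem locDeg_zeta_add_le (f : RatMap K) (hd : 1 ≤ f.deg) (a : K) {r : ℝ} (hr : 0 < r)
    (S : Finset K) (hS : ∀ b ∈ S, ‖b - a‖ ≤ r) (hS' : ∀ b ∈ S, ∀ b' ∈ S, b ≠ b' → r ≤ ‖b - b'‖) :
    f.locDeg (zeta a r : Berk K) + ∑ b ∈ S, lo (f.G b (f.act (zeta a r : Berk K))) r ≤
      hi (f.G a (f.act (zeta a r : Berk K))) r := by
  set y₀ := f.act (zeta a r : Berk K) with hy₀
  obtain ⟨r₂, hr₂, h2⟩ := (eventually_mem_nhdsWithin.and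
    (eventually_above_ld (f.TP_G hd a y₀) hr)).exists
  have hr₂' : r < r₂ := hr₂
  have hbel : ∀ᶠ t in 𝓝[<] r, ∀ b ∈ S,
      lo (f.G b y₀) t = lo (f.G b y₀) r ∧ hi (f.G b y₀) t = lo (f.G b y₀) r :=
    (Filter.eventually_all_finset S).2 fun b _ => eventually_below_ld (f.TP_G hd b y₀) hr
  obtain ⟨r₁, h1, hr₁, hr₁'⟩ := (hbel.and (eventually_pos_lt_ld hr)).exists
  have hW : ∀ᶠ y' in 𝓝 y₀, (lo (f.G a y') r₂ = hi (f.G a y₀) r) ∧
      ∀ b ∈ S, hi (f.G b y') r₁ = lo (f.G b y₀) r := by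
    refine Filter.Eventually.and ?_ ((Filter.eventually_all_finset S).2 fun b hb => ?_)
    · exact (f.eventually_eq hd a (hr.trans hr₂') h2.1 h2.2).mono fun y' h => h.1
    · exact (f.eventually_eq hd b hr₁ (h1 b hb).1 (h1 b hb).2).mono fun y' h => h.2
  obtain ⟨W, hW1, hWo, hyW⟩ := eventually_nhds_iff.1 hW
  have hsub : (⋃ b ∈ S, cD b r₁ : Set (P1 K)) ⊆ oD a r₂ := by
    refine Set.iUnion₂_subset fun b hb => ?_
    rintro _ ⟨x, rfl, hx⟩
    refine ⟨x, rfl, ?_⟩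
    refine (x.lin_le a b).trans_lt (max_lt (hx.trans_lt (hr₁'.trans hr₂')) ?_)
    rw [norm_sub_rev]
    exact (hS b hb).trans_lt hr₂'
  have hdisj : ∀ b ∈ S, ∀ b' ∈ S, b ≠ b' → Disjoint (cD b r₁ : Set (P1 K)) (cD b' r₁) := by
    intro b hb b' hb' hne
    rw [Set.disjoint_left]
    rintro _ ⟨x, rfl, hx⟩ hx'
    rw [coe_mem_cD] at hx'
    have h3 := x.norm_sub_le b b'
    have h4 := hS' b hb b' hb' hne
    have h5 : max (x (X - C b)) (x (X - C b')) ≤ r₁ := max_le hx hx'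
    linarith
  have hmem : ((zeta a r : Berk K) : P1 K) ∈ oD a r₂ \ ⋃ b ∈ S, cD b r₁ := by
    refine ⟨?_, ?_⟩
    · rw [coe_mem_oD, zeta_lin a a hr.le]
      simp only [sub_self, norm_zero]
      exact max_lt hr₂' (hr.trans hr₂')
    · simp only [Set.mem_iUnion, not_exists]
      intro b hb h
      rw [coe_mem_cD, zeta_lin a b hr.le, max_eq_left (hS b hb)] at h
      linarith
  have hN : ∀ w, emb w ∈ W → f.N w (oD a r₂ \ ⋃ b ∈ S, cD b r₁) +
      ∑ b ∈ S, lo (f.G b y₀) r = hi (f.G a y₀) r := by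
    intro w hw
    have h3 := f.N_diff_add_ld w hsub
    rw [f.N_biUnion_eq_ld w S _ hdisj, f.N_oD hd w a (hr.trans hr₂'), (hW1 _ hw).1] at h3
    rw [← h3]
    congr 1
    refine Finset.sum_congr rfl fun b hb => ?_
    rw [f.N_cD hd w b hr₁, (hW1 _ hw).2 b hb]
  have hle := f.locDeg_le_of (zeta a r : Berk K)
    (k := hi (f.G a y₀) r - ∑ b ∈ S, lo (f.G b y₀) r)
    ((isOpen_oD a r₂).sdiff (isClosed_biUnion_finset fun b _ => isClosed_cD b r₁)) hmem hWo hyW
    (fun w hw => by have := hN w hw; omega)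
  have hsum := f.sum_lo_G_le_hi hd a hr S hS hS' y₀
  omega

/-- the local degree at `ζ(a,r)`: lower bound, if the finitely many directions in `S` contain all
the bad directions. -/
theorem le_locDeg_zeta_add (f : RatMap K) (hd : 1 ≤ f.deg) (a : K) {r : ℝ} (hr : 0 < r)
    (S : Finset K) (hS : ∀ b ∈ S, ‖b - a‖ ≤ r)
    (h0 : ∀ b : K, ‖b - a‖ ≤ r → (∀ b' ∈ S, r ≤ ‖b - b'‖) →
      lo (f.G b (f.act (zeta a r : Berk K))) r = 0) :
    hi (f.G a (f.act (zeta a r : Berk K))) r ≤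
      f.locDeg (zeta a r : Berk K) + ∑ b ∈ S, lo (f.G b (f.act (zeta a r : Berk K))) r := by
  classical
  set y₀ := f.act (zeta a r : Berk K) with hy₀
  obtain ⟨V, hV, hxV, W, hW, hxW, hVW⟩ := f.exists_locDeg (zeta a r : Berk K)
  obtain ⟨r₁, r₂, hr₁, hr₁r, hrr₂, S₀, hS₀, hsubV⟩ := exists_basic_subset hV hr hxV
  obtain ⟨t₂, ⟨hrt₂, htr₂⟩, h2⟩ := ((eventually_lt_lt_ld hrr₂).and
    (eventually_above_ld (f.TP_G hd a y₀) hr)).exists
  -- the lower radius
  have hbel : ∀ᶠ t in 𝓝[<] r, ∀ b ∈ S₀ ∪ S,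
      lo (f.G b y₀) t = lo (f.G b y₀) r ∧ hi (f.G b y₀) t = lo (f.G b y₀) r :=
    (Filter.eventually_all_finset _).2 fun b _ => eventually_below_ld (f.TP_G hd b y₀) hr
  have hdist : ∀ᶠ t in 𝓝[<] r, ∀ b ∈ S₀, ∀ b' ∈ S, ‖b - b'‖ < r → ‖b - b'‖ < t := by
    refine (Filter.eventually_all_finset _).2 fun b _ =>
      (Filter.eventually_all_finset _).2 fun b' _ => ?_
    by_cases h : ‖b - b'‖ < r
    · exact (eventually_gt_lt_ld hr h).mono fun t ht _ => ht.2.1
    · exact Filter.Eventually.of_forall fun t ht => absurd ht h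
  obtain ⟨t₁, ⟨h1, hd1⟩, ht₁, hr₁t, ht₁r⟩ :=
    ((hbel.and hdist).and (eventually_gt_lt_ld hr hr₁r)).exists
  have hWev : ∀ᶠ y' in 𝓝 y₀, (lo (f.G a y') t₂ = hi (f.G a y₀) r) ∧
      ∀ b ∈ S₀ ∪ S, hi (f.G b y') t₁ = lo (f.G b y₀) r := by
    refine Filter.Eventually.and ?_ ((Filter.eventually_all_finset _).2 fun b hb => ?_)
    · exact (f.eventually_eq hd a (hr.trans hrt₂) h2.1 h2.2).mono fun y' h => h.1
    · exact (f.eventually_eq hd b ht₁ (h1 b hb).1 (h1 b hb).2).mono fun y' h => h.2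
  obtain ⟨W', hW1, hWo, hyW⟩ := eventually_nhds_iff.1 hWev
  obtain ⟨w, hwW, hwW'⟩ := exists_emb_mem_ld (hW.inter hWo) ⟨hxW, hyW⟩
  set S₁ := S₀.filter (fun b => ∀ b' ∈ S, r ≤ ‖b - b'‖) with hS₁
  have hcov : (oD a t₂ : Set (P1 K)) ⊆ (V ∪ ⋃ b ∈ S, cD b t₁) ∪ ⋃ b ∈ S₁, cD b t₁ := by
    rintro _ ⟨x, rfl, hx⟩
    by_cases hcase : ∀ b ∈ S₀, r₁ < x (X - C b)
    · exact Or.inl (Or.inl (hsubV x (hx.trans htr₂) hcase))
    push Not at hcase
    obtain ⟨b, hb, hxb⟩ := hcase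
    by_cases hb1 : ∀ b' ∈ S, r ≤ ‖b - b'‖
    · right
      simp only [Set.mem_iUnion]
      exact ⟨b, Finset.mem_filter.2 ⟨hb, hb1⟩, coe_mem_cD.2 (hxb.trans hr₁t.le)⟩
    · push Not at hb1
      obtain ⟨b', hb', hbb⟩ := hb1
      left; right
      simp only [Set.mem_iUnion]
      refine ⟨b', hb', coe_mem_cD.2 ?_⟩
      refine (x.lin_le b' b).trans (max_le (hxb.trans hr₁t.le) ?_)
      rw [norm_sub_rev]
      exact (hd1 b hb b' hb' hbb).le
  have hN1 : f.N w (oD a t₂) = hi (f.G a y₀) r := by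
    rw [f.N_oD hd w a (hr.trans hrt₂), (hW1 _ hwW').1]
  have hN2 : f.N w (⋃ b ∈ S, cD b t₁) ≤ ∑ b ∈ S, lo (f.G b y₀) r := by
    refine (f.N_biUnion_le_ld w S _).trans (Finset.sum_le_sum fun b hb => ?_)
    rw [f.N_cD hd w b ht₁, (hW1 _ hwW').2 b (Finset.mem_union_right _ hb)]
  have hN3 : f.N w (⋃ b ∈ S₁, cD b t₁) ≤ 0 := by
    refine (f.N_biUnion_le_ld w S₁ _).trans (Finset.sum_nonpos fun b hb => ?_)
    rw [f.N_cD hd w b ht₁,
      (hW1 _ hwW').2 b (Finset.mem_union_left _ (Finset.mem_filter.1 hb).1)]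
    exact (h0 b (hS₀ b (Finset.mem_filter.1 hb).1) (Finset.mem_filter.1 hb).2).le
  have hN4 := f.N_mono w hcov
  have hN5 := f.N_union_le_ld w (V ∪ ⋃ b ∈ S, cD b t₁) (⋃ b ∈ S₁, cD b t₁)
  have hN6 := f.N_union_le_ld w V (⋃ b ∈ S, cD b t₁)
  have hN7 := hVW w hwW
  omega

/-- classical points near the image, in the direction of a given point. -/
theorem exists_near_dir_ld (f : RatMap K) (hd : 1 ≤ f.deg) (a : K) {r : ℝ} (hr : 0 < r)
    (y : P1 K) (hy : y ≠ f.act (zeta a r : Berk K)) {U : Set (P1 K)} (hU : IsOpen U)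
    (hmem : f.act (zeta a r : Berk K) ∈ U) : ∃ w : OnePoint K, emb w ∈ U ∧
      lo (f.G a (emb w)) r = lo (f.G a y) r ∧ hi (f.G a (emb w)) r = hi (f.G a y) r := by
  obtain ⟨c, s, hs, hcs⟩ := f.exists_act_zeta hd a hr
  rw [hcs] at hmem hy
  by_cases hyc : y ∈ cD c s
  · obtain ⟨x, rfl, hx⟩ := hyc
    obtain ⟨e, he, hxe⟩ := x.exists_dir hs hx (fun h => hy (by rw [h]))
    obtain ⟨w, hwU, hwe⟩ := exists_emb_inward_ld hU hs he hmem
    refine ⟨w, hwU, ?_, ?_⟩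
    · rw [(f.lo_G_inward hd a c e hr hs hcs he hwe).1,
        (f.lo_G_inward hd a c e hr hs hcs he (coe_mem_oD.2 hxe)).1]
    · rw [(f.lo_G_inward hd a c e hr hs hcs he hwe).2,
        (f.lo_G_inward hd a c e hr hs hcs he (coe_mem_oD.2 hxe)).2]
  · obtain ⟨w, hwU, hwc⟩ := exists_emb_outward_ld hU hs hmem
    refine ⟨w, hwU, ?_, ?_⟩
    · rw [(f.lo_G_outward hd a c hr hs hcs hwc).1, (f.lo_G_outward hd a c hr hs hcs hyc).1]
    · rw [(f.lo_G_outward hd a c hr hs hcs hwc).2, (f.lo_G_outward hd a c hr hs hcs hyc).2]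

/-- the oscillation of the number of preimages in the disc `(a, r)` is at most the local degree at
its boundary point. -/
theorem lo_G_le_add_locDeg (f : RatMap K) (hd : 1 ≤ f.deg) (a : K) {r : ℝ} (hr : 0 < r)
    (y : P1 K) :
    lo (f.G a y) r ≤ lo (f.G a (f.act (zeta a r : Berk K))) r + f.locDeg (zeta a r : Berk K) := by
  set y₀ := f.act (zeta a r : Berk K) with hy₀
  by_cases hy : y = y₀
  · rw [hy]; omega
  obtain ⟨V, hV, hxV, W, hW, hxW, hVW⟩ := f.exists_locDeg (zeta a r : Berk K)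
  obtain ⟨r₁, r₂, hr₁, hr₁r, hrr₂, S₀, hS₀, hsubV⟩ := exists_basic_subset hV hr hxV
  have hdist : ∀ᶠ t in 𝓝[<] r, ∀ b ∈ S₀, ‖b - a‖ < r → ‖b - a‖ < t := by
    refine (Filter.eventually_all_finset _).2 fun b _ => ?_
    by_cases h : ‖b - a‖ < r
    · exact (eventually_gt_lt_ld hr h).mono fun t ht _ => ht.2.1
    · exact Filter.Eventually.of_forall fun t ht => absurd ht h
  obtain ⟨t₁, ⟨h1, hd1⟩, ht₁, hr₁t, ht₁r⟩ :=
    (((eventually_below_ld (f.TP_G hd a y₀) hr).and hdist).and (eventually_gt_lt_ld hr hr₁r)).exists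
  have hWev : ∀ᶠ y' in 𝓝 y₀, hi (f.G a y') t₁ = lo (f.G a y₀) r :=
    (f.eventually_eq hd a ht₁ h1.1 h1.2).mono fun y' h => h.2
  obtain ⟨W', hW1, hWo, hyW⟩ := eventually_nhds_iff.1 hWev
  obtain ⟨w, hwW, hlo, -⟩ := f.exists_near_dir_ld hd a hr y hy (hW.inter hWo) ⟨hxW, hyW⟩
  have hcov : (oD a r : Set (P1 K)) ⊆ V ∪ cD a t₁ := by
    rintro _ ⟨x, rfl, hx⟩
    by_cases hcase : ∀ b ∈ S₀, r₁ < x (X - C b)
    · exact Or.inl (hsubV x (hx.trans hrr₂) hcase)
    push Not at hcase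
    obtain ⟨b, hb, hxb⟩ := hcase
    right
    have hba : ‖b - a‖ < r := by
      rw [norm_sub_rev]
      refine (x.norm_sub_le a b).trans_lt (max_lt hx (hxb.trans_lt hr₁r))
    refine coe_mem_cD.2 ((x.lin_le a b).trans (max_le (hxb.trans hr₁t.le) ?_))
    rw [norm_sub_rev]
    exact (hd1 b hb hba).le
  have hN1 := f.N_mono w hcov
  have hN2 := f.N_union_le_ld w V (cD a t₁)
  rw [f.N_oD hd w a hr, hlo] at hN1
  rw [f.N_cD hd w a ht₁, hW1 _ hwW.2] at hN2
  have hN3 := hVW w hwW.1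
  omega

/-- the same for the closed disc. -/
theorem hi_G_le_add_locDeg (f : RatMap K) (hd : 1 ≤ f.deg) (a : K) {r : ℝ} (hr : 0 < r)
    (y : P1 K) :
    hi (f.G a (f.act (zeta a r : Berk K))) r ≤ hi (f.G a y) r + f.locDeg (zeta a r : Berk K) := by
  set y₀ := f.act (zeta a r : Berk K) with hy₀
  by_cases hy : y = y₀
  · rw [hy]; omega
  obtain ⟨V, hV, hxV, W, hW, hxW, hVW⟩ := f.exists_locDeg (zeta a r : Berk K)
  obtain ⟨r₁, r₂, hr₁, hr₁r, hrr₂, S₀, hS₀, hsubV⟩ := exists_basic_subset hV hr hxV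
  obtain ⟨t₂, ⟨hrt₂, htr₂⟩, h2⟩ := ((eventually_lt_lt_ld hrr₂).and
    (eventually_above_ld (f.TP_G hd a y₀) hr)).exists
  have hWev : ∀ᶠ y' in 𝓝 y₀, lo (f.G a y') t₂ = hi (f.G a y₀) r :=
    (f.eventually_eq hd a (hr.trans hrt₂) h2.1 h2.2).mono fun y' h => h.1
  obtain ⟨W', hW1, hWo, hyW⟩ := eventually_nhds_iff.1 hWev
  obtain ⟨w, hwW, -, hhi⟩ := f.exists_near_dir_ld hd a hr y hy (hW.inter hWo) ⟨hxW, hyW⟩
  have hcov : (oD a t₂ : Set (P1 K)) ⊆ V ∪ cD a r := by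
    rintro _ ⟨x, rfl, hx⟩
    by_cases hxr : x (X - C a) ≤ r
    · exact Or.inr (coe_mem_cD.2 hxr)
    push Not at hxr
    refine Or.inl (hsubV x (hx.trans htr₂) fun b hb => ?_)
    by_contra hcon
    push Not at hcon
    have h3 := (x.lin_le a b).trans (max_le (hcon.trans hr₁r.le)
      ((norm_sub_rev a b).le.trans (hS₀ b hb)))
    linarith
  have hN1 := f.N_mono w hcov
  have hN2 := f.N_union_le_ld w V (cD a r)
  rw [f.N_oD hd w a (hr.trans hrt₂), hW1 _ hwW.2] at hN1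
  rw [f.N_cD hd w a hr, hhi] at hN2
  have hN3 := hVW w hwW.1
  omega

/-- lower semicontinuity: near the image of `ζ(a,r)` every classical point has at least `locDeg`
preimages in a given neighbourhood of `ζ(a,r)`. -/
theorem exists_locDeg_le_N_ld (f : RatMap K) (hd : 1 ≤ f.deg) (a : K) {r : ℝ} (hr : 0 < r)
    {V : Set (P1 K)} (hV : IsOpen V) (hxV : ((zeta a r : Berk K) : P1 K) ∈ V) :
    ∃ W : Set (P1 K), IsOpen W ∧ f.act (zeta a r : Berk K) ∈ W ∧
      ∀ w : OnePoint K, emb w ∈ W → f.locDeg (zeta a r : Berk K) ≤ f.N w V := by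
  classical
  set y₀ := f.act (zeta a r : Berk K) with hy₀
  obtain ⟨r₁, r₂, hr₁, hr₁r, hrr₂, S₀, hS₀, hsubV⟩ := exists_basic_subset hV hr hxV
  obtain ⟨S, hSS₀, hS', hrep⟩ := exists_reps_ld S₀ hr
  obtain ⟨t₂, ⟨hrt₂, htr₂⟩, h2⟩ := ((eventually_lt_lt_ld hrr₂).and
    (eventually_above_ld (f.TP_G hd a y₀) hr)).exists
  have hbel : ∀ᶠ t in 𝓝[<] r, ∀ b ∈ S,
      lo (f.G b y₀) t = lo (f.G b y₀) r ∧ hi (f.G b y₀) t = lo (f.G b y₀) r :=
    (Filter.eventually_all_finset _).2 fun b _ => eventually_below_ld (f.TP_G hd b y₀) hr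
  have hdist : ∀ᶠ t in 𝓝[<] r, ∀ b ∈ S₀, ∀ b' ∈ S, ‖b - b'‖ < r → ‖b - b'‖ < t := by
    refine (Filter.eventually_all_finset _).2 fun b _ =>
      (Filter.eventually_all_finset _).2 fun b' _ => ?_
    by_cases h : ‖b - b'‖ < r
    · exact (eventually_gt_lt_ld hr h).mono fun t ht _ => ht.2.1
    · exact Filter.Eventually.of_forall fun t ht => absurd ht h
  obtain ⟨t₁, ⟨h1, hd1⟩, ht₁, hr₁t, ht₁r⟩ :=
    ((hbel.and hdist).and (eventually_gt_lt_ld hr hr₁r)).exists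
  have hWev : ∀ᶠ y' in 𝓝 y₀, (lo (f.G a y') t₂ = hi (f.G a y₀) r) ∧
      ∀ b ∈ S, hi (f.G b y') t₁ = lo (f.G b y₀) r := by
    refine Filter.Eventually.and ?_ ((Filter.eventually_all_finset _).2 fun b hb => ?_)
    · exact (f.eventually_eq hd a (hr.trans hrt₂) h2.1 h2.2).mono fun y' h => h.1
    · exact (f.eventually_eq hd b ht₁ (h1 b hb).1 (h1 b hb).2).mono fun y' h => h.2
  obtain ⟨W, hW1, hWo, hyW⟩ := eventually_nhds_iff.1 hWev
  refine ⟨W, hWo, hyW, fun w hw => ?_⟩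
  have hcov : (oD a t₂ : Set (P1 K)) ⊆ V ∪ ⋃ b ∈ S, cD b t₁ := by
    rintro _ ⟨x, rfl, hx⟩
    by_cases hcase : ∀ b ∈ S₀, r₁ < x (X - C b)
    · exact Or.inl (hsubV x (hx.trans htr₂) hcase)
    push Not at hcase
    obtain ⟨b, hb, hxb⟩ := hcase
    obtain ⟨b', hb', hbb⟩ := hrep b hb
    right
    simp only [Set.mem_iUnion]
    refine ⟨b', hb', coe_mem_cD.2 ?_⟩
    refine (x.lin_le b' b).trans (max_le (hxb.trans hr₁t.le) ?_)
    rw [norm_sub_rev]
    exact (hd1 b hb b' hb' hbb).le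
  have hN1 : f.N w (oD a t₂) = hi (f.G a y₀) r := by
    rw [f.N_oD hd w a (hr.trans hrt₂), (hW1 _ hw).1]
  have hN2 : f.N w (⋃ b ∈ S, cD b t₁) ≤ ∑ b ∈ S, lo (f.G b y₀) r := by
    refine (f.N_biUnion_le_ld w S _).trans (Finset.sum_le_sum fun b hb => ?_)
    rw [f.N_cD hd w b ht₁, (hW1 _ hw).2 b hb]
  have hN3 := f.N_mono w hcov
  have hN4 := f.N_union_le_ld w V (⋃ b ∈ S, cD b t₁)
  have hN5 := f.locDeg_zeta_add_le hd a hr S (fun b hb => hS₀ b (hSS₀ hb)) hS'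
  rw [← hy₀] at hN5
  omega

/-- a point of full local degree is the only preimage of its image. -/
theorem eq_of_locDeg_eq_deg (f : RatMap K) (hd : 1 ≤ f.deg) (a : K) {r : ℝ} (hr : 0 < r)
    (h : f.locDeg (zeta a r : Berk K) = f.deg) (x : P1 K)
    (hx : f.act x = f.act (zeta a r : Berk K)) : x = (zeta a r : Berk K) := by
  by_contra hne
  obtain ⟨V₁, V, hV₁, hV, hx₁, hxV, hdisj⟩ := t2_separation hne
  obtain ⟨W, hW, hyW, hWN⟩ := f.exists_locDeg_le_N_ld hd a hr hV hxV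
  obtain ⟨z, hz1, hz2⟩ := exists_emb_mem_ld (hV₁.inter (hW.preimage f.continuous_act))
    ⟨hx₁, by rw [Set.mem_preimage, hx]; exact hyW⟩
  have h1 : emb (f.actK z) ∈ W := by
    rw [← f.act_emb]; exact hz2
  have h2 := hWN _ h1
  have h3 : 0 < f.N (f.actK z) V₁ := (f.N_pos_iff hd _ _).2 ⟨z, rfl, hz1⟩
  have h4 := f.N_union (f.actK z) hdisj
  have h5 := f.N_le_deg (f.actK z) (V₁ ∪ V)
  omega

/-- conversely. -/
theorem locDeg_eq_deg_of_unique (f : RatMap K) (hd : 1 ≤ f.deg) (x : P1 K)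
    (h : ∀ y, f.act y = f.act x → y = x) : f.locDeg x = f.deg := by
  refine le_antisymm (f.locDeg_le_deg x) ?_
  obtain ⟨V, hV, hxV, W, hW, hxW, hVW⟩ := f.exists_locDeg x
  have hcl : IsClosed (f.act '' Vᶜ) :=
    (hV.isClosed_compl.isCompact.image f.continuous_act).isClosed
  have hnot : f.act x ∉ f.act '' Vᶜ := by
    rintro ⟨y, hy, hyx⟩
    rw [h y hyx] at hy
    exact hy hxV
  obtain ⟨w, hw1, hw2⟩ := exists_emb_mem_ld (hW.inter hcl.isOpen_compl) ⟨hxW, hnot⟩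
  have h1 : f.N w Vᶜ = 0 := by
    by_contra hne
    obtain ⟨z, hz, hz'⟩ := (f.N_pos_iff hd w _).1 (Nat.pos_of_ne_zero hne)
    apply hw2
    refine ⟨emb z, hz', ?_⟩
    rw [f.act_emb, hz]
  have h2 := f.N_compl w V
  have h3 := hVW w hw1
  omega

/-- simple classical fixed points have local degree one. -/
theorem locDeg_emb_eq_one (f : RatMap K) (hd : 1 ≤ f.deg) (z : OnePoint K)
    (hz : f.actK z = z) (hm : f.mult z ≠ 0) : f.locDeg (emb z) = 1 := by
  refine le_antisymm ?_ (f.one_le_locDeg hd _)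
  have hfix : f.act (emb z) = emb z := by rw [f.act_emb, hz]
  induction z using OnePoint.rec with
  | infty =>
    have hQc : f.Q.coeff f.deg = 0 := by
      by_contra hne
      have h1 : f.actK OnePoint.infty = ((f.P.coeff f.deg / f.Q.coeff f.deg : K) : OnePoint K) :=
        if_neg hne
      rw [h1] at hz
      exact OnePoint.coe_ne_infty _ hz
    have hQ1 : f.Q.coeff (f.deg - 1) ≠ 0 := by
      intro h
      apply hm
      change f.Q.coeff (f.deg - 1) / f.P.coeff f.deg = 0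
      rw [h, zero_div]
    have hQdeg : f.Q.natDegree = f.deg - 1 := by
      refine le_antisymm ?_ (le_natDegree_of_ne_zero hQ1)
      rw [natDegree_le_iff_coeff_eq_zero]
      intro n hn
      rcases eq_or_lt_of_le (show f.deg ≤ n by omega) with rfl | hlt
      · exact hQc
      · exact coeff_eq_zero_of_natDegree_lt (lt_of_le_of_lt f.natDegree_Q_le hlt)
    obtain ⟨t₀, ht₀, ht⟩ := exists_lo_eq_natDegree (f.Q_ne_zero hd) (0 : K)
    obtain ⟨t, htt⟩ := exists_gt t₀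
    obtain ⟨h1, h2⟩ := ht t htt
    have htpos := ht₀.trans htt
    obtain ⟨W, hW1, hWo, hyW⟩ := eventually_nhds_iff.1
      (f.eventually_eq hd (0 : K) htpos (y := OnePoint.infty) (k := f.deg - 1)
        (by rw [f.G_infty, h1, hQdeg]) (by rw [f.G_infty, h2, hQdeg]))
    refine f.locDeg_le_of _ (V := (cD 0 t)ᶜ) (W := W) (isClosed_cD 0 t).isOpen_compl
      (by simp) hWo (by rw [hfix]; exact hyW) fun w hw => ?_
    have h3 := f.N_compl w (cD 0 t)
    rw [f.N_cD hd w 0 htpos, (hW1 _ hw).2] at h3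
    omega
  | coe a =>
    have hQa : f.Q.eval a ≠ 0 := by
      intro h
      have h1 : f.actK (a : OnePoint K) = OnePoint.infty := if_pos h
      rw [h1] at hz
      exact OnePoint.infty_ne_coe _ hz
    have hPa : f.P.eval a = a * f.Q.eval a := by
      have h1 : f.actK (a : OnePoint K) = ((f.P.eval a / f.Q.eval a : K) : OnePoint K) :=
        if_neg hQa
      rw [h1] at hz
      exact (div_eq_iff hQa).1 (OnePoint.coe_injective hz)
    have hF := f.sub_ne_zero hd a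
    have hG : f.G a (emb (a : OnePoint K)) = co (f.P - C a * f.Q) a := f.G_pt a a
    have hTP := f.TP_G hd a (emb (a : OnePoint K))
    have hc0 : co (f.P - C a * f.Q) a 0 = 0 := by
      simp [co, taylor_coeff_zero, hPa]
    have hc1 : co (f.P - C a * f.Q) a 1 ≠ 0 := by
      simp only [co, taylor_coeff_one, norm_ne_zero_iff]
      intro h
      apply hm
      change (f.P.derivative.eval a * f.Q.eval a - f.P.eval a * f.Q.derivative.eval a) /
        f.Q.eval a ^ 2 = 0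
      simp only [derivative_sub, derivative_mul, derivative_C, zero_mul, zero_add, eval_sub,
        eval_mul, eval_C] at h
      rw [div_eq_zero_iff]
      left
      rw [hPa]
      linear_combination f.Q.eval a * h
    obtain ⟨t₀, ht₀, ht⟩ := exists_near_zero hTP
    obtain ⟨t, ht1, ht2⟩ := exists_between ht₀
    obtain ⟨h1, h2, h3⟩ := ht t ht1 ht2
    have hlo : lo (f.G a (emb (a : OnePoint K))) t = 1 := by
      rcases Nat.lt_trichotomy (lo (f.G a (emb (a : OnePoint K))) t) 1 with h | h | h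
      · have h4 : lo (f.G a (emb (a : OnePoint K))) t = 0 := by omega
        rw [h4, hG, hc0] at h2
        exact absurd h2 (lt_irrefl _)
      · exact h
      · have := h1 1 h
        rw [hG] at this
        exact absurd this hc1
    obtain ⟨W, hW1, hWo, hyW⟩ := eventually_nhds_iff.1
      (f.eventually_eq hd a ht1 hlo (h3.trans hlo))
    refine f.locDeg_le_of _ (V := oD a t) (W := W) (isOpen_oD a t) ?_ hWo
      (by rw [hfix]; exact hyW) fun w hw => ?_
    · rw [emb_coe, coe_mem_oD, pt_lin]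
      simpa using ht1
    · rw [f.N_oD hd w a ht1, (hW1 _ hw).1]

end RatMap

end Pool.Agent.Helper17.Berk
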