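import Mathlib
import Pool.Agent.Helper17.Berk.LocDeg

/-!
# Fixed points of type IV have local degree one (module B6, MP_160e9b_an)

Proof (paper).  `x` of type IV, `f x = x`.  Choose `a'` with `τ := x (X - C a')` smaller than
`t₀ := min_z x (X - C z)`, `z` running over the roots of `Q` and of `P - T Q`.  On `(τ, t₀)`,
`C(t) = gn Q a' t = κ` is constant, `E(t) = gn (P - X Q) a' t = e` is constant and
`e = x (P - X Q) ≤ τ κ` (because `x (P - C a' Q) = x (X - C a') x Q = τ κ`).  If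
`A(t) = gn (P - C a' Q) a' t ≠ t κ` then `E(t) = max (A t) (t κ) ≥ t κ > τ κ`, a contradiction;
so `A(t) = κ t` on `(τ, t₀)`, `lo = hi = 1` there, and `G a' x` has the single dominating index
`1` at `t`.
-/

open Polynomial Topology

set_option linter.dupNamespace false

namespace Pool.Agent.Helper17.Berk

universe u

variable {K : Type u} [NontriviallyNormedField K] [IsUltrametricDist K] [IsAlgClosed K]

namespace RatMap

omit [IsAlgClosed K] in
/-- for a type IV point and finitely many centres, some smaller disc avoids all of them. -/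
theorem tf_exists_avoid (x : Berk K) (hx : ∀ a : K, ∃ b : K, x (X - C b) < x (X - C a))
    (Z : Finset K) : ∃ (a : K) (t₀ : ℝ), x (X - C a) < t₀ ∧ ∀ z ∈ Z, t₀ ≤ x (X - C z) := by
  classical
  rcases Z.eq_empty_or_nonempty with rfl | hne
  · exact ⟨0, x (X - C 0) + 1, by linarith, by simp⟩
  · obtain ⟨z, hz, hmin⟩ := Finset.exists_min_image Z (fun z => x (X - C z)) hne
    obtain ⟨b, hb⟩ := hx z
    exact ⟨b, x (X - C z), hb, fun z' hz' => hmin z' hz'⟩

/-- no roots in the disc: the open disc count vanishes. -/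
theorem tf_lo_eq_zero (x : Berk K) {F : K[X]} (hF : F ≠ 0) {a : K} {t₀ t : ℝ} (ht : 0 < t)
    (ht0 : t ≤ t₀) (ha : x (X - C a) < t₀) (hz : ∀ z ∈ F.roots, t₀ ≤ x (X - C z)) :
    lo (co F a) t = 0 := by
  classical
  rw [lo_eq_nlt hF a ht, nlt, Multiset.card_eq_zero, Multiset.filter_eq_nil]
  intro z hzr hlt
  have h1 := hz z hzr
  have h2 := x.lin_le z a
  rcases le_max_iff.1 h2 with h | h
  · exact absurd (h1.trans h) (not_le.2 ha)
  · exact absurd (hlt.trans_le ht0) (not_lt.2 (h1.trans h))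

/-- near a fixed point of type IV, `f` is injective. -/
theorem exists_disc_of_typeFour (f : RatMap K) (hd : 2 ≤ f.deg) (x : Berk K)
    (hx : ∀ a : K, ∃ b : K, x (X - C b) < x (X - C a)) (hfix : f.act (x : P1 K) = (x : P1 K)) :
    ∃ (a : K) (t : ℝ), 0 < t ∧ (x : P1 K) ∈ oD a t ∧ lo (f.G a (x : P1 K)) t = 1 ∧
      hi (f.G a (x : P1 K)) t = 1 := by
  classical
  have hd1 : 1 ≤ f.deg := by omega
  have hQ : f.Q ≠ 0 := f.Q_ne_zero hd1
  -- `P - X Q ≠ 0`
  have hE : f.P - X * f.Q ≠ 0 := by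
    intro h
    have h1 : f.P = X * f.Q := sub_eq_zero.1 h
    have hc := f.cop
    rw [h1] at hc
    have h2 : IsUnit f.Q := by
      have h3 : IsCoprime f.Q f.Q := hc.of_mul_left_right
      exact isCoprime_self.1 h3
    have h4 := natDegree_eq_zero_of_isUnit h2
    have h5 : f.P.natDegree ≤ 1 := by
      rw [h1]
      refine natDegree_mul_le.trans ?_
      rw [natDegree_X, h4]
    rw [RatMap.deg, h4] at hd
    omega
  obtain ⟨hxQ, hlin⟩ := (f.act_eq_iff hd1 x x).1 hfix
  obtain ⟨a, t₀, hat, hZ⟩ := tf_exists_avoid x hx (f.Q.roots.toFinset ∪ (f.P - X * f.Q).roots.toFinset)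
  have hZQ : ∀ z ∈ f.Q.roots, t₀ ≤ x (X - C z) := fun z hz =>
    hZ z (Finset.mem_union_left _ (Multiset.mem_toFinset.2 hz))
  have hZE : ∀ z ∈ (f.P - X * f.Q).roots, t₀ ≤ x (X - C z) := fun z hz =>
    hZ z (Finset.mem_union_right _ (Multiset.mem_toFinset.2 hz))
  set τ : ℝ := x (X - C a) with hτ
  have hτ0 : 0 ≤ τ := x.nonneg _
  set κ : ℝ := x f.Q with hκ
  have hκ0 : 0 < κ := lt_of_le_of_ne (x.nonneg _) (Ne.symm hxQ)
  set e : ℝ := x (f.P - X * f.Q) with he
  have he_le : e ≤ τ * κ := by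
    have h1 : f.P - X * f.Q = (f.P - C a * f.Q) - (X - C a) * f.Q := by ring
    rw [he, h1]
    refine (x.map_sub_le _ _).trans ?_
    rw [hlin a, Berk.map_mul, max_self]
  -- on `(τ, t₀)`
  have hloQ : ∀ t, 0 < t → t ≤ t₀ → lo (co f.Q a) t = 0 := fun t ht ht' =>
    tf_lo_eq_zero x hQ ht ht' hat hZQ
  have hloE : ∀ t, 0 < t → t ≤ t₀ → lo (co (f.P - X * f.Q) a) t = 0 := fun t ht ht' =>
    tf_lo_eq_zero x hE ht ht' hat hZE
  have hgnQ : ∀ t, τ < t → t ≤ t₀ → gn f.Q a t = κ := fun t ht ht' =>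
    (x.eq_gn hQ ht (hloQ t (hτ0.trans_lt ht) ht')).symm
  have hgnE : ∀ t, τ < t → t ≤ t₀ → gn (f.P - X * f.Q) a t = e := fun t ht ht' =>
    (x.eq_gn hE ht (hloE t (hτ0.trans_lt ht) ht')).symm
  have hA0 : f.P - C a * f.Q ≠ 0 := f.sub_ne_zero hd1 a
  have hgnA : ∀ t, τ < t → t ≤ t₀ → gn (f.P - C a * f.Q) a t = t * κ := by
    intro t ht ht'
    have htp : 0 < t := hτ0.trans_lt ht
    have h1 : f.P - C a * f.Q = (f.P - X * f.Q) + (X - C a) * f.Q := by ring
    have h2 : (X - C a) * f.Q = (f.P - C a * f.Q) + C (-1) * (f.P - X * f.Q) := by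
      rw [C_neg, C_1]; ring
    have h3 : gn ((X - C a) * f.Q) a t = t * κ := by
      rw [gn_mul _ _ _ htp, gn_X_sub_C a a htp.le, hgnQ t ht ht', sub_self, norm_zero,
        max_eq_left htp.le]
    have h4 : gn (C (-1) * (f.P - X * f.Q)) a t = e := by
      rw [gn_mul _ _ _ htp, gn_C _ _ htp.le, hgnE t ht ht', norm_neg, norm_one, one_mul]
    have h5 : e < t * κ := he_le.trans_lt (mul_lt_mul_of_pos_right ht hκ0)
    apply le_antisymm
    · rw [h1]
      refine (gn_add_le _ _ _ htp.le).trans ?_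
      rw [hgnE t ht ht', h3]
      exact max_le h5.le le_rfl
    · have h6 := gn_add_le (f.P - C a * f.Q) (C (-1) * (f.P - X * f.Q)) a htp.le
      rw [← h2, h3, h4] at h6
      rcases le_max_iff.1 h6 with h | h
      · exact h
      · exact absurd h (not_le.2 h5)
  -- choose radii
  obtain ⟨t1, ht1, ht1'⟩ := exists_between hat
  obtain ⟨t2, ht2, ht2'⟩ := exists_between ht1'
  have ht1p : 0 < t1 := hτ0.trans_lt ht1
  have ht2p : 0 < t2 := ht1p.trans ht2
  have hτ2 : τ < t2 := ht1.trans ht2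
  have hTA : TP (co (f.P - C a * f.Q) a) := TP_co hA0 a
  have hTQ : TP (co f.Q a) := TP_co hQ a
  have hloA : lo (co (f.P - C a * f.Q) a) t2 = 1 ∧ hi (co (f.P - C a * f.Q) a) t2 = 1 := by
    have e1 : 1 ≤ lo (co (f.P - C a * f.Q) a) t2 := by
      refine le_lo_of_growth hTA ht1p ht2 (le_of_eq ?_)
      change gn (f.P - C a * f.Q) a t1 * _ = gn (f.P - C a * f.Q) a t2
      rw [hgnA t1 ht1 ht1'.le, hgnA t2 hτ2 ht2'.le]
      field_simp
    have e2 : hi (co (f.P - C a * f.Q) a) t2 ≤ 1 := by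
      refine hi_le_of_growth hTA ht2p ht2' (le_of_eq ?_)
      change gn (f.P - C a * f.Q) a t₀ = gn (f.P - C a * f.Q) a t2 * _
      rw [hgnA t₀ hat le_rfl, hgnA t2 hτ2 ht2'.le]
      field_simp
    have e3 := lo_le_hi hTA ht2p
    omega
  refine ⟨a, t2, ht2p, ?_, ?_⟩
  · rw [coe_mem_oD]; exact hτ2
  -- the tropical polynomial `G a x`
  have hTG : TP (f.G a (x : P1 K)) := f.TP_G hd1 a _
  have hG : ∀ i, f.G a (x : P1 K) i =
      x (C ((taylor a f.P).coeff i) - X * C ((taylor a f.Q).coeff i)) := fun i => by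
    first
      | rfl
      | (change x (C ((taylor a f.P).coeff i) - C ((taylor a f.Q).coeff i) * X) = _
         rw [mul_comm (C ((taylor a f.Q).coeff i)) X])
  have hcoQ : ∀ i, co f.Q a i * t2 ^ i ≤ κ := by
    intro i
    have := le_tv hTQ t2 i
    have h2 := hgnQ t2 hτ2 ht2'.le
    rw [gn] at h2
    rwa [h2] at this
  have hdec : ∀ i, C ((taylor a f.P).coeff i) - X * C ((taylor a f.Q).coeff i) =
      C ((taylor a (f.P - C a * f.Q)).coeff i) - (X - C a) * C ((taylor a f.Q).coeff i) := by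
    intro i
    rw [map_sub, taylor_mul, taylor_C, coeff_sub, coeff_C_mul, C_sub, C_mul]
    ring
  have hsmall : ∀ i, x ((X - C a) * C ((taylor a f.Q).coeff i)) * t2 ^ i < t2 * κ := by
    intro i
    rw [Berk.map_mul, Berk.map_C, mul_assoc]
    calc τ * (‖(taylor a f.Q).coeff i‖ * t2 ^ i) ≤ τ * κ :=
          mul_le_mul_of_nonneg_left (hcoQ i) hτ0
      _ < t2 * κ := mul_lt_mul_of_pos_right hτ2 hκ0
  have hcoA : ∀ i, x (C ((taylor a (f.P - C a * f.Q)).coeff i)) * t2 ^ i =
      co (f.P - C a * f.Q) a i * t2 ^ i := by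
    intro i
    rw [Berk.map_C]; rfl
  have htvA : tv (co (f.P - C a * f.Q) a) t2 = t2 * κ := hgnA t2 hτ2 ht2'.le
  have hle : ∀ i, f.G a (x : P1 K) i * t2 ^ i ≤
      max (co (f.P - C a * f.Q) a i * t2 ^ i)
        (x ((X - C a) * C ((taylor a f.Q).coeff i)) * t2 ^ i) := by
    intro i
    rw [hG, hdec, ← hcoA, ← max_mul_of_nonneg _ _ (by positivity)]
    exact mul_le_mul_of_nonneg_right (x.map_sub_le _ _) (by positivity)
  have h1val : co (f.P - C a * f.Q) a 1 * t2 ^ 1 = t2 * κ := by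
    have := lo_spec hTA ht2p.le
    rw [hloA.1, htvA] at this
    exact this
  have hne : ∀ i, i ≠ 1 → co (f.P - C a * f.Q) a i * t2 ^ i < t2 * κ := by
    intro i hi'
    rcases lt_or_gt_of_ne hi' with h | h
    · have := lt_tv_of_lt_lo hTA (t := t2) (i := i) (by rw [hloA.1]; exact h)
      rwa [htvA] at this
    · have := lt_tv_of_hi_lt hTA ht2p (i := i) (by rw [hloA.2]; exact h)
      rwa [htvA] at this
  have hG1 : f.G a (x : P1 K) 1 * t2 ^ 1 = t2 * κ := by
    apply le_antisymm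
    · refine (hle 1).trans (max_le h1val.le (hsmall 1).le)
    · have h2 : C ((taylor a (f.P - C a * f.Q)).coeff 1) =
          (C ((taylor a f.P).coeff 1) - X * C ((taylor a f.Q).coeff 1)) +
            (X - C a) * C ((taylor a f.Q).coeff 1) := by
        rw [hdec]; ring
      have h3 := x.map_add_le (C ((taylor a f.P).coeff 1) - X * C ((taylor a f.Q).coeff 1))
        ((X - C a) * C ((taylor a f.Q).coeff 1))
      rw [← h2, ← hG] at h3
      have h4 := mul_le_mul_of_nonneg_right h3 (show (0 : ℝ) ≤ t2 ^ 1 by positivity)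
      rw [hcoA, h1val, max_mul_of_nonneg _ _ (by positivity)] at h4
      rcases le_max_iff.1 h4 with h | h
      · exact h
      · exact absurd h (not_le.2 (hsmall 1))
  have hGle : ∀ i, f.G a (x : P1 K) i * t2 ^ i ≤ f.G a (x : P1 K) 1 * t2 ^ 1 := by
    intro i
    rw [hG1]
    refine (hle i).trans (max_le ?_ (hsmall i).le)
    rcases eq_or_ne i 1 with rfl | h
    · exact h1val.le
    · exact (hne i h).le
  have htvG : tv (f.G a (x : P1 K)) t2 = t2 * κ := by
    rw [tv_eq_of hTG hGle, hG1]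
  constructor
  · refine lo_eq_of (by rw [htvG, hG1]) fun i hi' => ?_
    rw [htvG]
    exact (hle i).trans_lt (max_lt (hne i (by omega)) (hsmall i))
  · refine hi_eq_of hTG ht2p (by rw [htvG, hG1]) fun i hi' => ?_
    rw [htvG]
    exact (hle i).trans_lt (max_lt (hne i (by omega)) (hsmall i))

theorem locDeg_typeFour (f : RatMap K) (hd : 2 ≤ f.deg) (x : Berk K)
    (hx : ∀ a : K, ∃ b : K, x (X - C b) < x (X - C a)) (hfix : f.act (x : P1 K) = (x : P1 K)) :
    f.locDeg (x : P1 K) = 1 := by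
  have hd1 : 1 ≤ f.deg := by omega
  obtain ⟨a, t, ht, hxt, hlo, hhi⟩ := f.exists_disc_of_typeFour hd x hx hfix
  refine le_antisymm ?_ (f.one_le_locDeg hd1 _)
  have hev := f.eventually_eq hd1 a ht (y := (x : P1 K)) hlo hhi
  obtain ⟨W, hWs, hWo, hxW⟩ := mem_nhds_iff.1 hev
  refine f.locDeg_le_of _ (isOpen_oD a t) hxt hWo (by rw [hfix]; exact hxW) fun w hw => ?_
  rw [f.N_oD hd1 w a ht]
  exact (hWs hw).1.le

omit [IsUltrametricDist K] [IsAlgClosed K] in
theorem tf_pt_injective [IsUltrametricDist K] : Function.Injective (pt : K → Berk K) := by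
  intro a b h
  have h1 := pt_lin a b
  rw [h, pt_lin, sub_self, norm_zero] at h1
  exact sub_eq_zero.1 (norm_eq_zero.1 h1.symm)

omit [IsUltrametricDist K] [IsAlgClosed K] in
theorem tf_emb_injective [IsUltrametricDist K] :
    Function.Injective (emb : OnePoint K → P1 K) := by
  intro z w h
  induction z using OnePoint.rec with
  | infty =>
    induction w using OnePoint.rec with
    | infty => rfl
    | coe b =>
      rw [emb_infty, emb_coe] at h
      exact absurd h (OnePoint.infty_ne_coe _)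
  | coe a =>
    induction w using OnePoint.rec with
    | infty =>
      rw [emb_infty, emb_coe] at h
      exact absurd h.symm (OnePoint.infty_ne_coe _)
    | coe b =>
      rw [emb_coe, emb_coe] at h
      rw [tf_pt_injective (OnePoint.coe_injective h)]

/-- repelling fixed points are classical or of the form `ζ(a, r)`. -/
theorem RFix_cases (f : RatMap K) (hd : 2 ≤ f.deg) {x : P1 K} (hx : x ∈ f.RFix) :
    (∃ z : OnePoint K, x = emb z ∧ f.actK z = z ∧ 1 < ‖f.mult z‖ ∧ f.locDeg x = 1) ∨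
      ∃ (a : K) (r : ℝ), 0 < r ∧ x = (zeta a r : Berk K) ∧ f.act x = x ∧ 2 ≤ f.locDeg x := by
  have hd1 : 1 ≤ f.deg := by omega
  obtain ⟨hfix, ⟨hcl, h2⟩ | ⟨z, rfl, hz⟩⟩ := hx
  · right
    induction x using OnePoint.rec with
    | infty => exact absurd ⟨OnePoint.infty, emb_infty⟩ hcl
    | coe y =>
      rcases y.classify with ⟨a, r, hr, rfl⟩ | h4
      · rcases hr.eq_or_lt with rfl | hr
        · exact absurd ⟨(a : OnePoint K), by rw [emb_coe, zeta_zero]⟩ hcl
        · exact ⟨a, r, hr, rfl, hfix, h2⟩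
      · have := f.locDeg_typeFour hd y h4 hfix
        omega
  · left
    rw [f.act_emb] at hfix
    have hz' := tf_emb_injective hfix
    refine ⟨z, rfl, hz', hz, f.locDeg_emb_eq_one hd1 z hz' ?_⟩
    intro h0
    rw [h0, norm_zero] at hz
    linarith

end RatMap

end Pool.Agent.Helper17.Berk
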