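import Mathlib
import Pool.Agent.Helper17.Berk.TypeFour

/-!
# The upper bound for repelling fixed points (module B7, MP_160e9b_an)

For a fixed point `ζ(a,r)` of `f = P/Q` put `A(t) = gn (P - aQ) a t`, `C(t) = gn Q a t`; then
`A(r) = r C(r)`, and `f.G a (ζ(a,r)) = tmax r (co (P - aQ) a) (co Q a)`.  The number
`lo (f.G a (ζ(a,r))) r` counts the preimages in the open disc `(a,r)` of the points near `ζ(a,r)`
and `hi` those in the closed disc.

Edge lemma (`edge`): for `0 < r' < r` let `k = hi (tmax r' A C) r'`.  Then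
`k ≤ lo (tmax r A C) r`, except when `A(r') = r' C(r')` and `hi A r' = hi C r' + 1`, when
`k - 1 ≤ lo (tmax r A C) r`.
Proof.  Put `q = r/r'`.
* `A(r') > r' C(r')`: `k = hi A r'`.  If `A(r) > r C(r)` then `lo = lo A r ≥ k`.  Otherwise
  `C(r) ≥ A(r)/r ≥ A(r') q^k / r` and `C(r') < A(r')/r'` so `C(r)/C(r') > q^(k-1)`, `lo C r ≥ k`.
* `A(r') < r' C(r')`: `k = hi C r'`; if `A(r) < r C(r)` fine; otherwise
  `A(r) ≥ r C(r) ≥ r C(r') q^k > q^(k+1) A(r')`, so `lo A r ≥ k + 2`.
* `A(r') = r' C(r')`, `k = max (hi A r') (hi C r')`.  If `k = hi C r'` and `A(r) ≥ r C(r)` then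
  `A(r) ≥ q^(k+1) A(r')`, `lo A r ≥ k+1`, and `lo C r ≥ k`.  If `k = hi A r' > hi C r'`
  and `A(r) ≤ r C(r)` then `C(r) ≥ q^(k-1) C(r')`, so `lo C r ≥ k - 1`; if moreover
  `lo C r = k - 1` then `C(r) = q^(k-1) C(r')`, hence `hi C r' ≥ ...` equality everywhere and
  `hi C r' = k - 1`.

Induction (`sum_wt_oD_le`): for every finite `F ⊆ RFix f` contained in the open disc `(a, r)`,
`∑_{x ∈ F} wt x ≤ lo (f.G a (ζ(a,r))) r` (strong induction on `card F`; take the smallest closed
disc containing `F`; if its radius is `0` then `F` is one classical repelling point; otherwise split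
`F` according to the directions, use `locDeg_zeta_add_le` and the edge lemma.)  Top: `F` without
infinity is contained in a large disc, where `lo ≤ deg f`, and `≤ deg f - 1` if infinity is a
repelling fixed point.
-/

open Polynomial Topology

set_option linter.dupNamespace false

namespace Pool.Agent.Helper17.Berk

universe u

variable {K : Type u} [NontriviallyNormedField K] [IsUltrametricDist K] [IsAlgClosed K]

namespace RatMap

/-- The outward multiplicity at `x = ζ(a,r)` is one and the outward direction is fixed. -/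
def NonFull (f : RatMap K) (x : P1 K) : Prop :=
  ∃ (a : K) (r : ℝ), 0 < r ∧ x = (zeta a r : Berk K) ∧
    hi (co (f.P - C a * f.Q) a) r = hi (co f.Q a) r + 1

open Classical in
/-- the weight of a repelling fixed point. -/
noncomputable def wt (f : RatMap K) (x : P1 K) : ℕ :=
  f.locDeg x - (if f.NonFull x then 1 else 0)

theorem le_lo_tmax {g h : ℕ → ℝ} (hg : TP g) (hh : TP h) {s t : ℝ} (hs : 0 < s) (ht : 0 < t)
    {k : ℕ} (h1 : s * tv h t ≤ tv g t → k ≤ lo g t) (h2 : tv g t ≤ s * tv h t → k ≤ lo h t) :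
    k ≤ lo (tmax s g h) t := by
  rcases lt_trichotomy (tv g t) (s * tv h t) with h | h | h
  · rw [lo_tmax_of_gt hg hh hs ht h]; exact h2 h.le
  · rw [lo_tmax_of_eq hg hh hs ht h]; exact le_min (h1 h.ge) (h2 h.le)
  · rw [lo_tmax_of_lt hg hh hs.le ht h]; exact h1 h.le

/-- edge lemma. -/
theorem edge {A B : ℕ → ℝ} (hA : TP A) (hB : TP B) {r' r : ℝ} (h0 : 0 < r') (hr : r' < r) :
    hi (tmax r' A B) r' ≤ lo (tmax r A B) r ∨
      (tv A r' = r' * tv B r' ∧ hi A r' = hi B r' + 1 ∧
        hi (tmax r' A B) r' ≤ lo (tmax r A B) r + 1) := by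
  have hr0 : 0 < r := h0.trans hr
  have hq1 : 1 < r / r' := (one_lt_div h0).2 hr
  set q := r / r' with hq
  have hq0 : 0 < q := by linarith
  have hrq : r = r' * q := by rw [hq]; field_simp
  have hAp := tv_pos hA h0
  have hBp := tv_pos hB h0
  have gA : ∀ k, k = hi A r' → tv A r' * q ^ k ≤ tv A r := by
    rintro k rfl; exact tv_growth_hi hA h0
  have gB : ∀ k, k = hi B r' → tv B r' * q ^ k ≤ tv B r := by
    rintro k rfl; exact tv_growth_hi hB h0
  rcases lt_trichotomy (tv A r') (r' * tv B r') with h | h | h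
  · -- case 2
    left
    rw [hi_tmax_of_gt hA hB h0 h0 h]
    have hk := gB _ rfl
    set k := hi B r' with hkdef
    refine le_lo_tmax hA hB hr0 hr0 (fun h1 => ?_) (fun _ => ?_)
    · have : k + 1 < lo A r := by
        refine lt_lo_of_growth hA h0 hr ?_
        calc tv A r' * q ^ (k + 1) < r' * tv B r' * q ^ (k + 1) := by gcongr
          _ = r * (tv B r' * q ^ k) := by rw [hrq]; ring
          _ ≤ r * tv B r := by gcongr
          _ ≤ tv A r := h1
      omega
    · exact le_lo_of_growth hB h0 hr hk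
  · -- case 3
    rw [hi_tmax_of_eq hA hB h0 h0 h]
    rcases le_or_gt (hi A r') (hi B r') with hle | hlt
    · left
      rw [max_eq_right hle]
      have hk := gB _ rfl
      set k := hi B r' with hkdef
      refine le_lo_tmax hA hB hr0 hr0 (fun h1 => ?_) (fun _ => ?_)
      · have : k + 1 ≤ lo A r := by
          refine le_lo_of_growth hA h0 hr ?_
          calc tv A r' * q ^ (k + 1) = r' * tv B r' * q ^ (k + 1) := by rw [h]
            _ = r * (tv B r' * q ^ k) := by rw [hrq]; ring
            _ ≤ r * tv B r := by gcongr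
            _ ≤ tv A r := h1
        omega
      · exact le_lo_of_growth hB h0 hr hk
    · rw [max_eq_left hlt.le]
      have hk := gA _ rfl
      set k := hi A r' with hkdef
      obtain ⟨m, hm0⟩ : ∃ m, k = m + 1 := ⟨k - 1, by omega⟩
      clear_value k
      subst hm0
      have hgrow : tv A r ≤ r * tv B r → tv B r' * q ^ m ≤ tv B r := by
        intro h1
        have : r * (tv B r' * q ^ m) ≤ r * tv B r := by
          calc r * (tv B r' * q ^ m) = r' * tv B r' * q ^ (m + 1) := by rw [hrq]; ring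
            _ = tv A r' * q ^ (m + 1) := by rw [h]
            _ ≤ tv A r := hk
            _ ≤ r * tv B r := h1
        exact le_of_mul_le_mul_left this hr0
      by_cases hm : hi B r' = m
      · right
        refine ⟨h, by rw [hm], ?_⟩
        have : m ≤ lo (tmax r A B) r := by
          refine le_lo_tmax hA hB hr0 hr0 (fun h1 => ?_) (fun h1 => ?_)
          · have := le_lo_of_growth hA h0 hr hk
            omega
          · exact le_lo_of_growth hB h0 hr (hgrow h1)
        omega
      · left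
        refine le_lo_tmax hA hB hr0 hr0 (fun h1 => ?_) (fun h1 => ?_)
        · exact le_lo_of_growth hA h0 hr hk
        · have h2 := hgrow h1
          have h3 := le_lo_of_growth hB h0 hr h2
          by_contra hcon
          have h4 : lo B r = m := by omega
          have h5 := tv_growth_lo hB h0 hr.le
          rw [h4] at h5
          have h6 : tv B r = tv B r' * q ^ m := le_antisymm h5 h2
          have h7 := lo_spec hB hr0.le
          rw [h4, h6, hrq, mul_pow] at h7
          have h8 : B m * r' ^ m = tv B r' := by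
            have : (B m * r' ^ m) * q ^ m = tv B r' * q ^ m := by rw [← h7]; ring
            exact mul_right_cancel₀ (pow_ne_zero _ hq0.ne') this
          have h9 := le_hi hB h0 h8
          omega
  · -- case 1
    left
    rw [hi_tmax_of_lt hA hB h0.le h0 h]
    have hk := gA _ rfl
    set k := hi A r' with hkdef
    refine le_lo_tmax hA hB hr0 hr0 (fun _ => ?_) (fun h1 => ?_)
    · exact le_lo_of_growth hA h0 hr hk
    · rcases Nat.eq_zero_or_pos k with h2 | h2
      · omega
      · obtain ⟨m, hm⟩ : ∃ m, k = m + 1 := ⟨k - 1, by omega⟩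
        have : m < lo B r := by
          refine lt_lo_of_growth hB h0 hr ?_
          have : r * (tv B r' * q ^ m) < r * tv B r := by
            calc r * (tv B r' * q ^ m) = r' * tv B r' * q ^ (m + 1) := by rw [hrq]; ring
              _ < tv A r' * q ^ (m + 1) := by gcongr
              _ = tv A r' * q ^ k := by rw [hm]
              _ ≤ tv A r := hk
              _ ≤ r * tv B r := h1
          exact lt_of_mul_lt_mul_left this hr0.le
        omega

/-- a repelling classical fixed point in the affine line -/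
theorem one_le_lo_of_repelling (f : RatMap K) (hd : 2 ≤ f.deg) (b : K)
    (hb : f.actK (b : OnePoint K) = (b : OnePoint K)) (hm : 1 < ‖f.mult (b : OnePoint K)‖)
    {r : ℝ} (hr : 0 < r) : 1 ≤ lo (f.G b (zeta b r : Berk K)) r := by
  have hQ0 : f.Q.eval b ≠ 0 := by
    intro h
    have : f.actK (b : OnePoint K) = OnePoint.infty := if_pos h
    rw [this] at hb
    exact OnePoint.infty_ne_coe b hb
  have hPb : f.P.eval b = b * f.Q.eval b := by
    have : f.actK (b : OnePoint K) = ((f.P.eval b / f.Q.eval b : K) : OnePoint K) := if_neg hQ0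
    rw [this] at hb
    have := OnePoint.coe_injective hb
    rwa [div_eq_iff hQ0] at this
  have hmul : f.mult (b : OnePoint K) =
      (f.P.derivative.eval b - b * f.Q.derivative.eval b) / f.Q.eval b := by
    change (f.P.derivative.eval b * f.Q.eval b - f.P.eval b * f.Q.derivative.eval b) /
      f.Q.eval b ^ 2 = _
    rw [hPb]
    field_simp
  have hA1 : ‖f.Q.eval b‖ < ‖f.P.derivative.eval b - b * f.Q.derivative.eval b‖ := by
    rw [hmul, norm_div, one_lt_div (norm_pos_iff.2 hQ0)] at hm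
    exact hm
  have hPne : f.P - C b * f.Q ≠ 0 := Pool.Agent.Helper22.Berk.sub_ne_zero f (by omega) b
  have hQne : f.Q ≠ 0 := Pool.Agent.Helper22.Berk.Q_ne_zero f (by omega)
  have hA := TP_co hPne b
  have hB := TP_co hQne b
  have e0 : co (f.P - C b * f.Q) b 0 = 0 := by
    simp [co, taylor_coeff_zero, hPb]
  have e1 : co (f.P - C b * f.Q) b 1 = ‖f.P.derivative.eval b - b * f.Q.derivative.eval b‖ := by
    simp only [co, taylor_coeff_one]
    congr 1
    simp
  have e2 : co f.Q b 0 = ‖f.Q.eval b‖ := by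
    simp [co, taylor_coeff_zero]
  rw [G_zeta f b b hr.le]
  refine le_lo_tmax hA hB hr hr (fun _ => ?_) (fun h1 => ?_)
  · by_contra hcon
    have h0 : lo (co (f.P - C b * f.Q) b) r = 0 := by omega
    have h2 := lo_spec hA hr.le
    rw [h0, e0, zero_mul] at h2
    exact (tv_pos hA hr).ne h2
  · by_contra hcon
    have h0 : lo (co f.Q b) r = 0 := by omega
    have h2 := lo_spec hB hr.le
    rw [h0, e2, pow_zero, mul_one] at h2
    have h3 := le_tv hA r 1
    rw [e1, pow_one] at h3
    rw [← h2] at h1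
    have := h3.trans h1
    rw [mul_comm r] at this
    have := le_of_mul_le_mul_right this hr
    linarith

/-- every repelling fixed point in the affine line is `ζ(a,r)`, `r ≥ 0` -/
theorem RFix_coe_cases (f : RatMap K) (hd : 2 ≤ f.deg) {x : P1 K} (hx : x ∈ f.RFix)
    (hx' : x ≠ OnePoint.infty) :
    ∃ (a : K) (r : ℝ), 0 ≤ r ∧ x = (zeta a r : Berk K) ∧ (r = 0 →
      f.actK (a : OnePoint K) = (a : OnePoint K) ∧ 1 < ‖f.mult (a : OnePoint K)‖ ∧
        f.locDeg x = 1) := by
  rcases f.RFix_cases hd hx with ⟨z, hz, h1, h2, h3⟩ | ⟨a, r, hr, h1, -, -⟩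
  · induction z using OnePoint.rec with
    | infty => exact absurd hz hx'
    | coe a =>
      refine ⟨a, 0, le_rfl, ?_, fun _ => ⟨h1, h2, h3⟩⟩
      rw [zeta_zero, hz]
      rfl
  · exact ⟨a, r, hr.le, h1, fun h => absurd h hr.ne'⟩

theorem wt_le_locDeg (f : RatMap K) (x : P1 K) : f.wt x ≤ f.locDeg x := Nat.sub_le _ _

theorem sum_wt_oD_le (f : RatMap K) (hd : 2 ≤ f.deg) (F : Finset (P1 K))
    (hF : ∀ x ∈ F, x ∈ f.RFix) (a : K) {r : ℝ} (hr : 0 < r) (hFr : ∀ x ∈ F, x ∈ oD a r) :
    ∑ x ∈ F, f.wt x ≤ lo (f.G a (zeta a r : Berk K)) r := by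
  classical
  induction hn : F.card using Nat.strong_induction_on generalizing F a r with
  | _ n ih =>
  have hd1 : 1 ≤ f.deg := by omega
  rcases F.eq_empty_or_nonempty with rfl | ⟨x₀, hx₀⟩
  · simp
  have hne : ∀ x ∈ F, x ≠ OnePoint.infty := by
    intro x hx h
    have := hFr x hx
    rw [h] at this
    exact infty_notMem_oD this
  -- the centres and radii
  have hex : ∀ x : P1 K, ∃ (a : K) (r : ℝ), x ∈ F → (0 ≤ r ∧ x = (zeta a r : Berk K) ∧ (r = 0 →
      f.actK (a : OnePoint K) = (a : OnePoint K) ∧ 1 < ‖f.mult (a : OnePoint K)‖ ∧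
        f.locDeg x = 1)) := by
    intro x
    by_cases hx : x ∈ F
    · obtain ⟨a, r, h⟩ := f.RFix_coe_cases hd (hF x hx) (hne x hx)
      exact ⟨a, r, fun _ => h⟩
    · exact ⟨0, 0, fun h => absurd h hx⟩
  choose ctr rad hcr using hex
  set b := ctr x₀ with hb
  -- distance to b
  set dist' : P1 K → ℝ := fun x => max (rad x) ‖b - ctr x‖ with hdist
  obtain ⟨x₁, hx₁, hmax⟩ := Finset.exists_max_image F dist' ⟨x₀, hx₀⟩
  set ρ := dist' x₁ with hρ
  have hab : ‖a - b‖ < r := by
    have h1 := hFr x₀ hx₀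
    rw [(hcr x₀ hx₀).2.1, coe_mem_oD, zeta_lin _ _ (hcr x₀ hx₀).1] at h1
    exact lt_of_le_of_lt (le_max_right _ _) h1
  have hmemO : ∀ x ∈ F, ∀ (c : K) (t : ℝ), x ∈ oD c t ↔ max (rad x) ‖c - ctr x‖ < t := by
    intro x hx c t
    conv_lhs => rw [(hcr x hx).2.1]
    rw [coe_mem_oD, zeta_lin _ _ (hcr x hx).1]
  have hρr : ρ < r := by
    have h1 := hFr x₁ hx₁
    rw [hmemO x₁ hx₁] at h1
    refine max_lt (lt_of_le_of_lt (le_max_left _ _) h1) ?_
    have h2 : ‖b - ctr x₁‖ ≤ max ‖b - a‖ ‖a - ctr x₁‖ := by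
      have := IsUltrametricDist.norm_add_le_max (b - a) (a - ctr x₁)
      simpa using this
    refine lt_of_le_of_lt h2 (max_lt (by rwa [norm_sub_rev]) ?_)
    exact lt_of_le_of_lt (le_max_right _ _) h1
  have hzr : (zeta a r : Berk K) = zeta b r := (zeta_eq_zeta_iff hr.le hr.le).2 ⟨rfl, hab.le⟩
  rw [hzr, f.lo_G_center hd1 hab]
  have hρ0 : 0 ≤ ρ := le_trans (hcr x₁ hx₁).1 (le_max_left _ _)
  rcases hρ0.eq_or_lt with hρz | hρp
  · -- only one point
    have hall : ∀ x ∈ F, rad x = 0 ∧ ctr x = b := by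
      intro x hx
      have h1 := hmax x hx
      rw [← hρz] at h1
      have h2 := (le_max_left _ _).trans h1
      have h3 := (le_max_right _ _).trans h1
      refine ⟨le_antisymm h2 (hcr x hx).1, ?_⟩
      have h4 := norm_le_zero_iff.1 h3
      exact (sub_eq_zero.1 h4).symm
    have hsub : F = {x₀} := by
      refine Finset.eq_singleton_iff_unique_mem.2 ⟨hx₀, fun x hx => ?_⟩
      rw [(hcr x hx).2.1, (hcr x₀ hx₀).2.1, (hall x hx).1, (hall x hx).2, (hall x₀ hx₀).1]
    rw [hsub, Finset.sum_singleton]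
    have h5 := (hcr x₀ hx₀).2.2 (hall x₀ hx₀).1
    refine (f.wt_le_locDeg x₀).trans ?_
    rw [h5.2.2]
    exact f.one_le_lo_of_repelling hd b h5.1 h5.2.1 hr
  -- the vertex
  set y : Berk K := zeta b ρ with hy
  have hA := TP_co (Pool.Agent.Helper22.Berk.sub_ne_zero f hd1 b) b
  have hB := TP_co (Pool.Agent.Helper22.Berk.Q_ne_zero f hd1) b
  -- radii of the points different from the vertex
  have hlt : ∀ x ∈ F, x ≠ (y : P1 K) → rad x < ρ := by
    intro x hx hxy
    have h1 := hmax x hx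
    have h2 := (le_max_left _ _).trans h1
    refine lt_of_le_of_ne h2 fun h => hxy ?_
    rw [(hcr x hx).2.1, hy]
    congr 1
    rw [zeta_eq_zeta_iff (hcr x hx).1 hρ0]
    refine ⟨h, ?_⟩
    rw [norm_sub_rev]
    rw [h]
    exact (le_max_right _ _).trans h1
  -- the directions
  set Cn : Finset K := (F.erase (y : P1 K)).image ctr with hCn
  obtain ⟨S, hSC, hSp, hSmax⟩ : ∃ S : Finset K, S ⊆ Cn ∧
      (∀ c ∈ S, ∀ c' ∈ S, c ≠ c' → ρ ≤ ‖c - c'‖) ∧
      ∀ c ∈ Cn, ∃ c' ∈ S, ‖c' - c‖ < ρ := by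
    obtain ⟨S, hS, hSm⟩ := Finset.exists_max_image
      (Cn.powerset.filter (fun S => ∀ c ∈ S, ∀ c' ∈ S, c ≠ c' → ρ ≤ ‖c - c'‖)) Finset.card
      ⟨∅, by simp⟩
    rw [Finset.mem_filter, Finset.mem_powerset] at hS
    refine ⟨S, hS.1, hS.2, fun c hc => ?_⟩
    by_contra hcon
    push Not at hcon
    have hcS : c ∉ S := by
      intro h
      have := hcon c h
      simp at this
      linarith
    have h1 := hSm (insert c S) (by
      rw [Finset.mem_filter, Finset.mem_powerset]
      refine ⟨Finset.insert_subset hc hS.1, ?_⟩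
      intro c1 h1 c2 h2 h12
      rw [Finset.mem_insert] at h1 h2
      rcases h1 with rfl | h1 <;> rcases h2 with rfl | h2
      · exact absurd rfl h12
      · rw [norm_sub_rev]; exact hcon c2 h2
      · exact hcon c1 h1
      · exact hS.2 c1 h1 c2 h2 h12)
    rw [Finset.card_insert_of_notMem hcS] at h1
    omega
  have hSb : ∀ c ∈ S, ‖c - b‖ ≤ ρ := by
    intro c hc
    obtain ⟨x, hx, rfl⟩ := Finset.mem_image.1 (hSC hc)
    rw [norm_sub_rev]
    exact (le_max_right _ _).trans (hmax x (Finset.mem_of_mem_erase hx))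
  have hdir : ∀ x : P1 K, ∃ c : K, x ∈ F.erase (y : P1 K) → c ∈ S ∧ x ∈ oD c ρ := by
    intro x
    by_cases hx : x ∈ F.erase (y : P1 K)
    · obtain ⟨c, hc, hcx⟩ := hSmax (ctr x) (Finset.mem_image_of_mem _ hx)
      refine ⟨c, fun _ => ⟨hc, ?_⟩⟩
      rw [hmemO x (Finset.mem_of_mem_erase hx)]
      exact max_lt (hlt x (Finset.mem_of_mem_erase hx) (Finset.ne_of_mem_erase hx)) hcx
    · exact ⟨0, fun h => absurd h hx⟩
  choose g hg using hdir
  have hsum1 : ∑ x ∈ F.erase (y : P1 K), f.wt x ≤ ∑ c ∈ S, lo (f.G c (y : P1 K)) ρ := by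
    rw [← Finset.sum_fiberwise_of_maps_to (fun x hx => (hg x hx).1)]
    refine Finset.sum_le_sum fun c hc => ?_
    set F' := (F.erase (y : P1 K)).filter (fun x => g x = c) with hF'
    have hF'F : F' ⊆ F := (Finset.filter_subset _ _).trans (Finset.erase_subset _ _)
    have hF'o : ∀ x ∈ F', x ∈ oD c ρ := by
      intro x hx
      rw [hF', Finset.mem_filter] at hx
      rw [← hx.2]
      exact (hg x hx.1).2
    have hcard : F'.card < n := by
      rw [← hn]
      refine Finset.card_lt_card (Finset.ssubset_iff_subset_ne.2 ⟨hF'F, fun h => ?_⟩)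
      have h0 := hF'o x₀ (h ▸ hx₀)
      have h1 := hF'o x₁ (h ▸ hx₁)
      rw [hmemO x₀ hx₀] at h0
      rw [hmemO x₁ hx₁] at h1
      have h2 : ‖b - ctr x₁‖ < ρ := by
        have h3 : ‖b - ctr x₁‖ ≤ max ‖b - c‖ ‖c - ctr x₁‖ := by
          have := IsUltrametricDist.norm_add_le_max (b - c) (c - ctr x₁)
          simpa using this
        refine lt_of_le_of_lt h3 (max_lt ?_ (lt_of_le_of_lt (le_max_right _ _) h1))
        rw [norm_sub_rev]
        exact lt_of_le_of_lt (le_max_right _ _) h0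
      have h3 : ρ < ρ := by
        conv_lhs => rw [hρ, hdist]
        exact max_lt (lt_of_le_of_lt (le_max_left _ _) h1) h2
      exact lt_irrefl _ h3
    have h4 := ih F'.card hcard F' (fun x hx => hF x (hF'F hx)) c hρp hF'o rfl
    have h5 : (zeta c ρ : Berk K) = y := (zeta_eq_zeta_iff hρ0 hρ0).2 ⟨rfl, hSb c hc⟩
    rwa [h5] at h4
  have hGr : f.G b (zeta b r : Berk K) = tmax r (co (f.P - C b * f.Q) b) (co f.Q b) :=
    G_zeta f b b hr.le
  have hGρ : f.G b (y : P1 K) = tmax ρ (co (f.P - C b * f.Q) b) (co f.Q b) :=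
    G_zeta f b b hρ0
  -- if the vertex is fixed
  have hfixed : f.act (y : P1 K) = (y : P1 K) →
      ∑ c ∈ S, lo (f.G c (y : P1 K)) ρ + f.locDeg (y : P1 K) ≤ hi (f.G b (y : P1 K)) ρ := by
    intro h
    have h1 := f.locDeg_zeta_add_le hd1 b hρp S hSb hSp
    rw [← hy, h] at h1
    omega
  have hnon : ∑ c ∈ S, lo (f.G c (y : P1 K)) ρ ≤ hi (f.G b (y : P1 K)) ρ :=
    f.sum_lo_G_le_hi hd1 b hρp S hSb hSp _
  -- conclusion
  rw [hGr]
  rcases edge hA hB hρp hρr with hE | ⟨h1, h2, h3⟩
  · rw [← hGρ] at hE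
    refine le_trans ?_ hE
    by_cases hyF : (y : P1 K) ∈ F
    · have hsplit : ∑ x ∈ F.erase (y : P1 K), f.wt x + f.wt (y : P1 K) = ∑ x ∈ F, f.wt x :=
        Finset.sum_erase_add _ _ hyF
      have h1 := hfixed (hF _ hyF).1
      have h2 := f.wt_le_locDeg (y : P1 K)
      omega
    · rw [Finset.erase_eq_of_notMem hyF] at hsum1
      omega
  · have hfx : f.act (y : P1 K) = (y : P1 K) := by
      refine f.act_zeta_of_slopes hd1 b b hρp hρp h1 (Or.inr ?_)
      omega
    have h4 := hfixed hfx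
    rw [← hGρ] at h3
    by_cases hyF : (y : P1 K) ∈ F
    · have hsplit : ∑ x ∈ F.erase (y : P1 K), f.wt x + f.wt (y : P1 K) = ∑ x ∈ F, f.wt x :=
        Finset.sum_erase_add _ _ hyF
      have hNF : f.NonFull (y : P1 K) := ⟨b, ρ, hρp, rfl, h2⟩
      have h5 : f.wt (y : P1 K) = f.locDeg (y : P1 K) - 1 := by
        rw [wt, if_pos hNF]
      have h6 := f.one_le_locDeg hd1 (y : P1 K)
      omega
    · rw [Finset.erase_eq_of_notMem hyF] at hsum1
      have h6 := f.one_le_locDeg hd1 (y : P1 K)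
      omega

/-- **Upper bound.** -/
theorem sum_wt_le (f : RatMap K) (hd : 2 ≤ f.deg) (F : Finset (P1 K))
    (hF : ∀ x ∈ F, x ∈ f.RFix) : ∑ x ∈ F, f.wt x ≤ f.deg := by
  classical
  have hd1 : 1 ≤ f.deg := by omega
  set F' := F.erase (OnePoint.infty : P1 K) with hF'
  have hF'F : ∀ x ∈ F', x ∈ F := fun x hx => Finset.mem_of_mem_erase hx
  have hbound : ∃ R : ℝ, ∀ x ∈ F', x ∈ oD (0 : K) R := by
    have : ∀ x ∈ F', ∃ R : ℝ, x ∈ oD (0 : K) R := by
      intro x hx
      induction x using OnePoint.rec with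
      | infty => exact absurd rfl (Finset.ne_of_mem_erase hx)
      | coe x => exact ⟨x (X - C 0) + 1, by simp⟩
    choose! R hR using this
    rcases F'.eq_empty_or_nonempty with h0 | h0
    · exact ⟨0, by simp [h0]⟩
    · obtain ⟨x₁, hx₁, hmax⟩ := Finset.exists_max_image F' R h0
      refine ⟨R x₁, fun x hx => ?_⟩
      obtain ⟨y, hy, hlt⟩ := hR x hx
      exact ⟨y, hy, hlt.trans_le (hmax x hx)⟩
  obtain ⟨R, hR⟩ := hbound
  have hmono : ∀ r, R ≤ r → ∀ x ∈ F', x ∈ oD (0 : K) r := by
    intro r hr x hx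
    obtain ⟨y, hy, hlt⟩ := hR x hx
    exact ⟨y, hy, hlt.trans_le hr⟩
  have key : ∀ r, R ≤ r → 0 < r →
      ∑ x ∈ F', f.wt x ≤ lo (tmax r (co f.P 0) (co f.Q 0)) r := by
    intro r hr hr0
    have h1 := f.sum_wt_oD_le hd F' (fun x hx => hF x (hF'F x hx)) 0 hr0 (hmono r hr)
    rw [G_zeta f 0 0 hr0.le] at h1
    simpa using h1
  by_cases hinf : (OnePoint.infty : P1 K) ∈ F
  · have hsplit : ∑ x ∈ F', f.wt x + f.wt (OnePoint.infty : P1 K) = ∑ x ∈ F, f.wt x :=
      Finset.sum_erase_add _ _ hinf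
    obtain ⟨z, hz, hz1, hz2, hz3⟩ | ⟨a, r, hr, h1, -, -⟩ := f.RFix_cases hd (hF _ hinf)
    swap
    · exact absurd h1 (OnePoint.infty_ne_coe _)
    have hzi : z = OnePoint.infty := by
      induction z using OnePoint.rec with
      | infty => rfl
      | coe z => exact absurd hz (OnePoint.infty_ne_coe _)
    subst hzi
    have hQ0 : f.Q.coeff f.deg = 0 := by
      by_contra h
      have : f.actK OnePoint.infty = ((f.P.coeff f.deg / f.Q.coeff f.deg : K) : OnePoint K) :=
        if_neg h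
      rw [this] at hz1
      exact OnePoint.coe_ne_infty _ hz1
    have hmul : f.mult OnePoint.infty = f.Q.coeff (f.deg - 1) / f.P.coeff f.deg := rfl
    have hP0 : f.P.coeff f.deg ≠ 0 := by
      intro h
      rw [hmul, h] at hz2
      simp at hz2
      linarith
    rw [hmul, norm_div, one_lt_div (norm_pos_iff.2 hP0)] at hz2
    have hq0 : f.Q.coeff (f.deg - 1) ≠ 0 := by
      intro h
      rw [h, norm_zero] at hz2
      exact absurd hz2 (not_lt.2 (norm_nonneg _))
    have hPd : f.P.natDegree = f.deg := le_antisymm (le_max_left _ _) (le_natDegree_of_ne_zero hP0)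
    have hQne : f.Q ≠ 0 := Pool.Agent.Helper22.Berk.Q_ne_zero f hd1
    have hPne : f.P ≠ 0 := by
      intro h
      rw [h] at hP0
      simp at hP0
    have hQd : f.Q.natDegree = f.deg - 1 := by
      refine le_antisymm ?_ (le_natDegree_of_ne_zero hq0)
      have h1 : f.Q.natDegree ≤ f.deg := le_max_right _ _
      have h2 : f.Q.natDegree ≠ f.deg := by
        intro h
        rw [← h, coeff_natDegree, leadingCoeff_eq_zero] at hQ0
        exact hQne hQ0
      omega
    obtain ⟨t₁, ht₁, h1⟩ := exists_lo_eq_natDegree hPne (0 : K)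
    obtain ⟨t₂, ht₂, h2⟩ := exists_lo_eq_natDegree hQne (0 : K)
    set r := max (max t₁ t₂) (max R 1) + 1 with hr
    have hr1 : t₁ < r := by
      have := le_max_left (max t₁ t₂) (max R 1)
      have := le_max_left t₁ t₂
      linarith
    have hr2 : t₂ < r := by
      have := le_max_left (max t₁ t₂) (max R 1)
      have := le_max_right t₁ t₂
      linarith
    have hr3 : R ≤ r := by
      have := le_max_right (max t₁ t₂) (max R 1)
      have := le_max_left R 1
      linarith
    have hr0 : 0 < r := ht₁.trans hr1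
    have h3 := key r hr3 hr0
    have hA := TP_co hPne (0 : K)
    have hB := TP_co hQne (0 : K)
    have e1 : tv (co f.P 0) r = ‖f.P.coeff f.deg‖ * r ^ f.deg := by
      rw [← lo_spec hA hr0.le, (h1 r hr1).1, hPd]
      simp [co]
    have e2 : tv (co f.Q 0) r = ‖f.Q.coeff (f.deg - 1)‖ * r ^ (f.deg - 1) := by
      rw [← lo_spec hB hr0.le, (h2 r hr2).1, hQd]
      simp [co]
    have e3 : tv (co f.P 0) r < r * tv (co f.Q 0) r := by
      rw [e1, e2]
      have : r * (‖f.Q.coeff (f.deg - 1)‖ * r ^ (f.deg - 1)) =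
          ‖f.Q.coeff (f.deg - 1)‖ * r ^ f.deg := by
        conv_rhs => rw [show f.deg = f.deg - 1 + 1 by omega, pow_succ]
        simp only [Nat.add_sub_cancel]
        ring
      rw [this]
      have : 0 < r ^ f.deg := pow_pos hr0 _
      gcongr
    rw [lo_tmax_of_gt hA hB hr0 hr0 e3, (h2 r hr2).1, hQd] at h3
    have h4 := f.wt_le_locDeg (OnePoint.infty : P1 K)
    have h5 : f.locDeg (OnePoint.infty : P1 K) = 1 := hz3
    omega
  · have hsplit : F' = F := Finset.erase_eq_of_notMem hinf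
    rw [← hsplit]
    set r := max R 1 with hr
    have hr0 : 0 < r := lt_of_lt_of_le one_pos (le_max_right _ _)
    have h1 := f.sum_wt_oD_le hd F' (fun x hx => hF x (hF'F x hx)) 0 hr0
      (hmono r (le_max_left _ _))
    refine h1.trans ?_
    exact (lo_le_hi (f.TP_G hd1 0 _) hr0).trans (f.lo_G_le_deg hd1 0 hr0 _)

theorem not_nonFull_emb (f : RatMap K) (z : OnePoint K) : ¬ f.NonFull (emb z) := by
  rintro ⟨a, r, hr, h, -⟩
  induction z using OnePoint.rec with
  | infty => exact absurd h (OnePoint.infty_ne_coe _)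
  | coe z =>
    have h1 : (pt z : Berk K) = zeta a r := OnePoint.coe_injective h
    rw [← zeta_zero] at h1
    exact hr.ne ((zeta_eq_zeta_iff le_rfl hr.le).1 h1).1

theorem one_le_wt (f : RatMap K) (hd : 2 ≤ f.deg) {x : P1 K} (hx : x ∈ f.RFix) :
    1 ≤ f.wt x ∧ f.locDeg x ≤ 2 * f.wt x := by
  obtain ⟨z, hz, hz1, hz2, hz3⟩ | ⟨a, r, hr, h1, h2, h3⟩ := f.RFix_cases hd hx
  · have : f.wt x = 1 := by
      rw [wt, if_neg (hz ▸ f.not_nonFull_emb z), hz3]
    omega
  · have : f.locDeg x - 1 ≤ f.wt x := by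
      rw [wt]
      split_ifs <;> omega
    omega

theorem RFix_finite (f : RatMap K) (hd : 2 ≤ f.deg) : (f.RFix).Finite := by
  by_contra hcon
  obtain ⟨F, hF, hcard⟩ := Set.Infinite.exists_subset_card_eq hcon (f.deg + 1)
  have h1 := f.sum_wt_le hd F (fun x hx => hF (by simpa using hx))
  have h2 : ∑ x ∈ F, 1 ≤ ∑ x ∈ F, f.wt x :=
    Finset.sum_le_sum fun x hx => (f.one_le_wt hd (hF (by simpa using hx))).1
  rw [Finset.sum_const, hcard] at h2
  simp at h2
  omega

end RatMap

end Pool.Agent.Helper17.Berk
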