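import Mathlib
import Pool.Agent.Helper17.Berk.Upper

/-!
# Good pullbacks of discs and their fixed points (module B8, MP_160e9b_an)
-/

open Polynomial Topology

set_option linter.dupNamespace false

namespace Pool.Agent.Helper17.Berk

universe u

variable {K : Type u} [NontriviallyNormedField K] [IsUltrametricDist K] [IsAlgClosed K]

namespace RatMap

/-- the open disc `(b, r)` is a good pullback of the open disc `(c, s)` under `f`: no poles in it,
boundary point mapped onto `ζ(c,s)`, and `f b` in the disc `(c,s)`. -/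
structure GoodPull (f : RatMap K) (b : K) (r : ℝ) (c : K) (s : ℝ) : Prop where
  rpos : 0 < r
  spos : 0 < s
  nopole : ∀ z : K, ‖z - b‖ < r → f.Q.eval z ≠ 0
  bdry : gn (f.P - C c * f.Q) b r = s * gn f.Q b r
  inn : ‖(f.P - C c * f.Q).eval b‖ < s * ‖f.Q.eval b‖

/-- the degree of a good pullback. -/
noncomputable def gdeg (f : RatMap K) (b : K) (r : ℝ) (c : K) : ℕ :=
  lo (co (f.P - C c * f.Q) b) r

variable {f g : RatMap K} {b b' c c' : K} {r r' s s' : ℝ}

omit [IsUltrametricDist K] [IsAlgClosed K] in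
theorem co_zero_index (F : K[X]) (a : K) : co F a 0 = ‖F.eval a‖ := by
  simp only [co, taylor_coeff_zero]

omit [IsAlgClosed K] in
theorem zeta_notMem_oD (hs : 0 ≤ s) : ((zeta c s : Berk K) : P1 K) ∉ oD c s := by
  rw [coe_mem_oD, zeta_lin c c hs, sub_self, norm_zero, max_eq_left hs]
  exact lt_irrefl _

theorem tv_lt_of_lo_pos {A : ℕ → ℝ} (hA : TP A) {t t' : ℝ} (ht : 0 ≤ t) (htt : t < t')
    (h : 1 ≤ lo A t') : tv A t < tv A t' := by
  have ht' : 0 < t' := lt_of_le_of_lt ht htt
  obtain ⟨i, hi⟩ := exists_eq_tv hA t ht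
  rw [← hi]
  rcases Nat.eq_zero_or_pos i with h0 | hpos
  · have h1 := lt_tv_of_lt_lo (t := t') hA (i := 0) (by omega)
    rw [h0]
    simpa using h1
  · rcases (hA.nonneg i).eq_or_lt with h0 | h0
    · rw [← h0, zero_mul]
      exact tv_pos hA ht'
    · refine lt_of_lt_of_le ?_ (le_tv hA t' i)
      exact mul_lt_mul_of_pos_left (pow_lt_pow_left₀ htt ht hpos.ne') h0

theorem GoodPull.frontier' (hd : 1 ≤ f.deg) (h : f.GoodPull b r c s) :
    lo (co f.Q b) r = 0 := by
  rw [lo_eq_nlt (f.Q_ne_zero hd) b h.rpos, nlt, Multiset.card_eq_zero, Multiset.filter_eq_nil]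
  intro z hz hzb
  rw [mem_roots (f.Q_ne_zero hd)] at hz
  exact h.nopole z hzb hz

theorem GoodPull.gn_Q (hd : 1 ≤ f.deg) (h : f.GoodPull b r c s) :
    gn f.Q b r = ‖f.Q.eval b‖ := by
  have h1 := lo_spec (TP_co (f.Q_ne_zero hd) b) h.rpos.le
  rw [h.frontier' hd, co_zero_index, pow_zero, mul_one] at h1
  exact h1.symm

theorem GoodPull.one_le_gdeg (hd : 1 ≤ f.deg) (h : f.GoodPull b r c s) : 1 ≤ f.gdeg b r c := by
  by_contra hcon
  have h0 : lo (co (f.P - C c * f.Q) b) r = 0 := by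
    unfold gdeg at hcon
    omega
  have h1 := lo_spec (TP_co (f.sub_ne_zero hd c) b) h.rpos.le
  rw [h0, co_zero_index, pow_zero, mul_one] at h1
  have h2 : ‖(f.P - C c * f.Q).eval b‖ = s * ‖f.Q.eval b‖ := by
    rw [h1, ← h.gn_Q hd]
    exact h.bdry
  exact absurd h2 h.inn.ne

/-- the boundary point. -/
theorem GoodPull.act_zeta (hd : 1 ≤ f.deg) (h : f.GoodPull b r c s) :
    f.act (zeta b r : Berk K) = (zeta c s : Berk K) := by
  refine f.act_zeta_of_slopes hd b c h.rpos h.spos h.bdry (Or.inl ?_)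
  rw [h.frontier' hd]
  have := h.one_le_gdeg hd
  unfold gdeg at this
  omega

/-- `f` maps the disc `(b,r)` into `(c,s)`. -/
theorem GoodPull.mapsTo (hd : 1 ≤ f.deg) (h : f.GoodPull b r c s) {x : P1 K}
    (hx : x ∈ oD b r) : f.act x ∈ oD c s := by
  obtain ⟨y, rfl, hy⟩ := hx
  rw [f.act_mem_oD_iff y c h.spos]
  have h1 : y f.Q = gn f.Q b r := y.eq_gn (f.Q_ne_zero hd) hy (h.frontier' hd)
  have h2 : y (f.P - C c * f.Q) ≤ gn (f.P - C c * f.Q) b (y (X - C b)) := y.le_gn _ le_rfl
  have h3 : gn (f.P - C c * f.Q) b (y (X - C b)) < gn (f.P - C c * f.Q) b r :=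
    tv_lt_of_lo_pos (TP_co (f.sub_ne_zero hd c) b) (y.nonneg _) hy (h.one_le_gdeg hd)
  rw [h1, ← h.bdry]
  exact h2.trans_lt h3

/-- and the closed disc into the closed disc. -/
theorem GoodPull.frontier (hd : 1 ≤ f.deg) (h : f.GoodPull b r c s) :
    lo (co f.Q b) r = 0 := by
  exact h.frontier' hd

/-- number of preimages in `(b,r)`: `gdeg` over `(c,s)`, zero elsewhere. -/
theorem GoodPull.lo_G_of_mem (hd : 1 ≤ f.deg) (h : f.GoodPull b r c s) {y : P1 K}
    (hy : y ∈ oD c s) : lo (f.G b y) r = f.gdeg b r c := by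
  exact (f.lo_G_inward hd b c c h.rpos h.spos (h.act_zeta hd)
    (by rw [sub_self, norm_zero]; exact h.spos.le) hy).1

theorem GoodPull.lo_G_of_notMem (hd : 1 ≤ f.deg) (h : f.GoodPull b r c s) {y : P1 K}
    (hy : y ∉ oD c s) : lo (f.G b y) r = 0 := by
  by_cases hy1 : y ∈ cD c s
  · obtain ⟨x, rfl, hx⟩ := hy1
    rw [coe_mem_oD, not_lt] at hy
    by_cases hxz : x = zeta c s
    · have h1 := (f.lo_G_image_le hd b h.rpos OnePoint.infty).1
      rw [h.act_zeta hd, G_infty, h.frontier' hd] at h1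
      rw [hxz]
      omega
    · obtain ⟨e, he, hxe⟩ := x.exists_dir h.spos hx hxz
      have hes : ‖e - c‖ = s := by
        refine le_antisymm he ?_
        have h1 := x.lin_le c e
        rcases le_max_iff.1 h1 with h2 | h2
        · exact absurd (hy.trans h2) (not_le.2 hxe)
        · rw [norm_sub_rev]
          exact hy.trans h2
      rw [(f.lo_G_inward hd b c e h.rpos h.spos (h.act_zeta hd) he (coe_mem_oD.2 hxe)).1]
      have h1 : gn (f.P - C e * f.Q) b r = s * gn f.Q b r := by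
        rw [(f.act_zeta_iff hd b c h.rpos h.spos.le).1 (h.act_zeta hd) e, hes, max_self]
      have h2 : ‖(f.P - C e * f.Q).eval b‖ = s * ‖f.Q.eval b‖ := by
        have e1 : (f.P - C e * f.Q).eval b =
            (f.P - C c * f.Q).eval b - (e - c) * f.Q.eval b := by
          simp only [eval_sub, eval_mul, eval_C]
          ring
        have e2 : ‖(e - c) * f.Q.eval b‖ = s * ‖f.Q.eval b‖ := by rw [norm_mul, hes]
        rw [e1, sub_eq_add_neg, IsUltrametricDist.norm_add_eq_max_of_norm_ne_norm, norm_neg, e2,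
          max_eq_right h.inn.le]
        rw [norm_neg, e2]
        exact h.inn.ne
      refine Nat.le_zero.1 (lo_le ?_)
      rw [co_zero_index, pow_zero, mul_one, h2, ← h.gn_Q hd]
      exact h1.symm
  · rw [(f.lo_G_outward hd b c h.rpos h.spos (h.act_zeta hd) hy1).1, h.frontier' hd]

/-- independence of the centres. -/
theorem GoodPull.center (hd : 1 ≤ f.deg) (h : f.GoodPull b r c s) (hb : ‖b - b'‖ < r)
    (hc : ‖c - c'‖ < s) : f.GoodPull b' r c' s ∧ f.gdeg b' r c' = f.gdeg b r c := by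
  have hb' : ‖b' - b‖ < r := by rwa [norm_sub_rev]
  have hc' : ‖c' - c‖ < s := by rwa [norm_sub_rev]
  have h1 : ((pt b' : Berk K) : P1 K) ∈ oD b r := by
    rw [coe_mem_oD, pt_lin]
    exact hb'
  have h2 := h.mapsTo hd h1
  rw [f.act_mem_oD_iff _ c h.spos] at h2
  change ‖(f.P - C c * f.Q).eval b'‖ < s * ‖f.Q.eval b'‖ at h2
  have hQ : 0 < ‖f.Q.eval b'‖ := norm_pos_iff.2 (h.nopole b' hb')
  refine ⟨⟨h.rpos, h.spos, fun z hz => h.nopole z ?_, ?_, ?_⟩, ?_⟩
  · have e : z - b = (z - b') + (b' - b) := by ring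
    rw [e]
    exact (IsUltrametricDist.norm_add_le_max _ _).trans_lt (max_lt hz hb')
  · rw [← gn_center (f.P - C c' * f.Q) hb.le, ← gn_center f.Q hb.le,
      (f.act_zeta_iff hd b c h.rpos h.spos.le).1 (h.act_zeta hd) c', max_eq_left hc'.le]
  · have e1 : (f.P - C c' * f.Q).eval b' =
        (f.P - C c * f.Q).eval b' + (c - c') * f.Q.eval b' := by
      simp only [eval_sub, eval_mul, eval_C]
      ring
    rw [e1]
    refine (IsUltrametricDist.norm_add_le_max _ _).trans_lt (max_lt h2 ?_)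
    rw [norm_mul]
    exact mul_lt_mul_of_pos_right hc hQ
  · have h3 : ((pt c' : Berk K) : P1 K) ∈ oD c s := by
      rw [coe_mem_oD, pt_lin]
      exact hc'
    have h4 := h.lo_G_of_mem hd h3
    rw [G_pt] at h4
    rw [← h4]
    exact (lo_center (f.sub_ne_zero hd c') hb).symm

/-- two good pullbacks of the same disc are equal or disjoint. -/
theorem GoodPull.radius_eq (hd : 1 ≤ f.deg) (h : f.GoodPull b r c s) (h' : f.GoodPull b' r' c s)
    (hb : ‖b - b'‖ < max r r') : r = r' := by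
  have key : ∀ {b b' : K} {r r' : ℝ}, f.GoodPull b r c s → f.GoodPull b' r' c s →
      ‖b - b'‖ < r' → r < r' → False := by
    intro b b' r r' h h' hb hlt
    have h1 := (h'.center hd (by rwa [norm_sub_rev] : ‖b' - b‖ < r')
      (by rw [sub_self, norm_zero]; exact h'.spos : ‖c - c‖ < s)).1
    have h2 : ((zeta b r : Berk K) : P1 K) ∈ oD b r' := by
      rw [coe_mem_oD, zeta_lin b b h.rpos.le, sub_self, norm_zero, max_eq_left h.rpos.le]
      exact hlt
    have h3 := h1.mapsTo hd h2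
    rw [h.act_zeta hd] at h3
    exact zeta_notMem_oD h.spos.le h3
  rcases lt_trichotomy r r' with hlt | heq | hlt
  · rw [max_eq_right hlt.le] at hb
    exact (key h h' hb hlt).elim
  · exact heq
  · rw [max_eq_left hlt.le, norm_sub_rev] at hb
    exact (key h' h hb hlt).elim

/-- composition of good pullbacks. -/
theorem GoodPull.comp (hf : 1 ≤ f.deg) (hg : 1 ≤ g.deg) (h : g.GoodPull b r b' r')
    (h' : f.GoodPull b' r' c s) :
    (f.comp g).GoodPull b r c s ∧ (f.comp g).gdeg b r c = f.gdeg b' r' c * g.gdeg b r b' := by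
  classical
  have hd : 1 ≤ (f.comp g).deg := by
    rw [deg_comp]
    exact Nat.mul_pos hf hg
  have hmap : ∀ x ∈ oD b r, (f.comp g).act x ∈ oD c s := by
    intro x hx
    rw [act_comp]
    exact h'.mapsTo hf (h.mapsTo hg hx)
  have hpt : ∀ z : K, ‖z - b‖ < r → ((pt z : Berk K) : P1 K) ∈ oD b r := by
    intro z hz
    rw [coe_mem_oD, pt_lin]
    exact hz
  have hz : (f.comp g).act (zeta b r : Berk K) = (zeta c s : Berk K) := by
    rw [act_comp, h.act_zeta hg, h'.act_zeta hf]
  have hG : (f.comp g).GoodPull b r c s := by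
    refine ⟨h.rpos, h'.spos, fun z hzb h0 => ?_, ?_, ?_⟩
    · have h1 := hmap _ (hpt z hzb)
      rw [act_coe_pole (f.comp g) (pt z)
        (by change ‖(f.comp g).Q.eval z‖ = 0; rw [h0, norm_zero])] at h1
      exact infty_notMem_oD h1
    · rw [((f.comp g).act_zeta_iff hd b c h.rpos h'.spos.le).1 hz c, sub_self, norm_zero,
        max_eq_left h'.spos.le]
    · have h1 := hmap _ (hpt b (by rw [sub_self, norm_zero]; exact h.rpos))
      rw [act_mem_oD_iff _ _ c h'.spos] at h1
      exact h1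
  refine ⟨hG, ?_⟩
  have hcpt : ((pt c : Berk K) : P1 K) ∈ oD c s := by
    rw [coe_mem_oD, pt_lin, sub_self, norm_zero]
    exact h'.spos
  have e1 : (f.comp g).gdeg b r c = (f.comp g).N (c : OnePoint K) (oD b r) := by
    rw [N_oD _ hd _ _ h.rpos, emb_coe]
    exact (hG.lo_G_of_mem hd hcpt).symm
  have e2 : f.gdeg b' r' c = f.N (c : OnePoint K) (oD b' r') := by
    rw [N_oD _ hf _ _ h'.rpos, emb_coe]
    exact (h'.lo_G_of_mem hf hcpt).symm
  rw [e1, e2, N_comp]
  have e3 : ∀ z : OnePoint K, g.N z (oD b r) =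
      if emb z ∈ oD b' r' then g.gdeg b r b' else 0 := by
    intro z
    rw [N_oD _ hg _ _ h.rpos]
    split_ifs with hz
    · exact h.lo_G_of_mem hg hz
    · exact h.lo_G_of_notMem hg hz
  rw [Multiset.map_congr rfl (fun z _ => e3 z), N]
  generalize f.fib (c : OnePoint K) = M
  induction M using Multiset.induction_on with
  | empty => simp
  | cons z M ih =>
    rw [Multiset.map_cons, Multiset.sum_cons, ih]
    by_cases hz : emb z ∈ oD b' r'
    · rw [if_pos hz, Multiset.filter_cons_of_pos (p := fun z => emb z ∈ oD b' r') M hz,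
        Multiset.card_cons]
      ring
    · rw [if_neg hz, Multiset.filter_cons_of_neg (p := fun z => emb z ∈ oD b' r') M hz]
      ring

/-- the radius of a good pullback of a type II disc is of type II. -/
theorem GoodPull.exists_norm (hd : 1 ≤ f.deg) (h : f.GoodPull b r c s)
    (hs : ∃ π : K, π ≠ 0 ∧ s = ‖π‖) : ∃ π : K, π ≠ 0 ∧ r = ‖π‖ := by
  obtain ⟨π, hπ, rfl⟩ := hs
  exact f.exists_two_of_act hd b c π h.rpos hπ (h.act_zeta hd)

/-- the degree of a good pullback is at most the local degree at the boundary point. -/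
theorem GoodPull.gdeg_le_locDeg (hd : 1 ≤ f.deg) (h : f.GoodPull b r c s) :
    f.gdeg b r c ≤ f.locDeg (zeta b r : Berk K) := by
  have h1 := f.lo_G_le_add_locDeg hd b h.rpos (pt c : Berk K)
  have hcpt : ((pt c : Berk K) : P1 K) ∈ oD c s := by
    rw [coe_mem_oD, pt_lin, sub_self, norm_zero]
    exact h.spos
  rw [h.lo_G_of_mem hd hcpt, h.act_zeta hd,
    h.lo_G_of_notMem hd (zeta_notMem_oD h.spos.le), zero_add] at h1
  exact h1

end RatMap

end Pool.Agent.Helper17.Berk
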