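import Mathlib
import Pool.Agent.Helper17.Berk.GoodBall

/-!
# The good ball lemma (module B8x, MP_160e9b_an; helper28)
-/

open Polynomial Topology

set_option linter.dupNamespace false

namespace Pool.Agent.Helper17.Berk

universe u

variable {K : Type u} [NontriviallyNormedField K] [IsUltrametricDist K]

/-! ### coefficients of differences -/

theorem gf_co_sub_le (A B : K[X]) (a : K) (i : ℕ) : co (A - B) a i ≤ max (co A a i) (co B a i) := by
  simp only [co, map_sub, coeff_sub]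
  rw [sub_eq_add_neg, ← norm_neg ((taylor a B).coeff i)]
  exact IsUltrametricDist.norm_add_le_max _ _

theorem gf_co_sub_eq {A B : K[X]} {a : K} {i : ℕ} (h : co B a i < co A a i) :
    co (A - B) a i = co A a i := by
  simp only [co, map_sub, coeff_sub] at *
  rw [sub_eq_add_neg, IsUltrametricDist.norm_add_eq_max_of_norm_ne_norm, norm_neg,
    max_eq_left h.le]
  rw [norm_neg]
  exact h.ne'

omit [IsUltrametricDist K] in
theorem gf_co_C_mul (c : K) (B : K[X]) (a : K) (i : ℕ) : co (C c * B) a i = ‖c‖ * co B a i := by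
  simp only [co, taylor_mul, taylor_C, coeff_C_mul, norm_mul]

theorem gf_gn_C_mul (c : K) (B : K[X]) (a : K) {t : ℝ} (ht : 0 ≤ t) :
    gn (C c * B) a t = ‖c‖ * gn B a t := by
  rw [gn_mul' _ _ _ ht, gn_C _ _ ht]

theorem gf_gn_sub_le (A B : K[X]) (a : K) {t : ℝ} (ht : 0 ≤ t) :
    gn (A - B) a t ≤ max (gn A a t) (gn B a t) := by
  rw [sub_eq_add_neg]
  refine (gn_add_le _ _ _ ht).trans (le_of_eq ?_)
  have : (-B : K[X]) = C (-1) * B := by simp
  rw [this, gf_gn_C_mul _ _ _ ht]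
  simp

/-- a dominated perturbation changes neither the norm nor the slope. -/
theorem gf_gn_sub_of_lt {A B : K[X]} (hA : A ≠ 0) {a : K} {t : ℝ} (ht : 0 < t)
    (h : gn B a t < gn A a t) :
    A - B ≠ 0 ∧ gn (A - B) a t = gn A a t ∧ lo (co (A - B) a) t = lo (co A a) t ∧
      hi (co (A - B) a) t = hi (co A a) t := by
  have hTA := TP_co hA a
  have hle : ∀ i, co B a i * t ^ i < gn A a t := by
    intro i
    by_cases hB : B = 0
    · subst hB
      have : co (0 : K[X]) a i = 0 := by simp [co]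
      rw [this, zero_mul]
      exact tv_pos hTA ht
    · exact lt_of_le_of_lt (le_tv (TP_co hB a) t i) h
  have hAB : A - B ≠ 0 := by
    intro h0
    have : A = B := sub_eq_zero.1 h0
    rw [this] at h
    exact lt_irrefl _ h
  have hT := TP_co hAB a
  have hval : ∀ i, co A a i * t ^ i = gn A a t → co (A - B) a i * t ^ i = gn A a t := by
    intro i hi
    have h1 : co B a i < co A a i := by
      have := hle i
      rw [← hi] at this
      exact lt_of_mul_lt_mul_right this (by positivity)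
    rw [gf_co_sub_eq h1, hi]
  have hub : ∀ i, co (A - B) a i * t ^ i ≤ gn A a t := by
    intro i
    have h1 : co (A - B) a i * t ^ i ≤ max (co A a i * t ^ i) (co B a i * t ^ i) := by
      rw [← max_mul_of_nonneg _ _ (by positivity)]
      exact mul_le_mul_of_nonneg_right (gf_co_sub_le A B a i) (by positivity)
    exact h1.trans (max_le (le_tv hTA t i) (hle i).le)
  have hlt : ∀ i, co A a i * t ^ i < gn A a t → co (A - B) a i * t ^ i < gn A a t := by
    intro i hi
    have h1 : co (A - B) a i * t ^ i ≤ max (co A a i * t ^ i) (co B a i * t ^ i) := by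
      rw [← max_mul_of_nonneg _ _ (by positivity)]
      exact mul_le_mul_of_nonneg_right (gf_co_sub_le A B a i) (by positivity)
    exact lt_of_le_of_lt h1 (max_lt hi (hle i))
  have htv : gn (A - B) a t = gn A a t := by
    apply le_antisymm
    · exact ciSup_le hub
    · have := hval _ (lo_spec hTA ht.le)
      rw [← this]
      exact le_tv hT t _
  refine ⟨hAB, htv, ?_, ?_⟩
  · apply lo_eq_of
    · exact (hval _ (lo_spec hTA ht.le)).trans htv.symm
    · intro i hi
      change _ < gn (A - B) a t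
      rw [htv]
      exact hlt i (lt_tv_of_lt_lo hTA hi)
  · apply hi_eq_of hT ht
    · exact (hval _ (hi_spec hTA ht)).trans htv.symm
    · intro i hi
      change _ < gn (A - B) a t
      rw [htv]
      exact hlt i (lt_tv_of_hi_lt hTA ht hi)

omit [IsUltrametricDist K] in
/-- only the constant term dominates below the first root. -/
theorem gf_gn_eq_of_lo_eq_zero {F : K[X]} (hF : F ≠ 0) {a : K} {r : ℝ} (hr : 0 < r)
    (h0 : lo (co F a) r = 0) {t : ℝ} (ht : 0 ≤ t) (htr : t ≤ r) : gn F a t = ‖F.eval a‖ := by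
  have hT := TP_co hF a
  have h1 : gn F a r = ‖F.eval a‖ := by
    have := lo_spec hT hr.le
    rw [h0, pow_zero, mul_one] at this
    rw [gn, ← this, co, taylor_coeff_zero]
  apply le_antisymm
  · rw [← h1]
    exact tv_mono hT ht htr
  · have := le_tv hT t 0
    rw [pow_zero, mul_one] at this
    have h2 : co F a 0 = ‖F.eval a‖ := by rw [co, taylor_coeff_zero]
    rw [← h2]
    exact this

omit [IsUltrametricDist K] in
theorem gf_hi_eq_zero_of_lo_eq_zero {F : K[X]} (hF : F ≠ 0) {a : K} {r : ℝ}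
    (h0 : lo (co F a) r = 0) {t : ℝ} (ht : 0 < t) (htr : t < r) : hi (co F a) t = 0 := by
  have := hi_le_lo (TP_co hF a) ht htr
  omega

/-! ### the last radius at which `tv A t ≤ κ t` -/

theorem gf_exists_tau {A : ℕ → ℝ} (hA : TP A) (h0 : A 0 = 0) {κ r : ℝ} (hr : 0 < r)
    (hAr : κ * r < tv A r) : ∃ τ, 0 ≤ τ ∧ τ < r ∧ tv A τ = κ * τ ∧
      ∀ t, τ < t → t ≤ r → κ * t < tv A t := by
  have hcont : ContinuousOn (fun t => tv A t - κ * t) (Set.Icc 0 r) := by
    refine ContinuousOn.sub ((continuousOn_tv hA).mono Set.Icc_subset_Ici_self) ?_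
    exact (continuous_const.mul continuous_id).continuousOn
  set S : Set ℝ := {t | t ∈ Set.Icc 0 r ∧ tv A t - κ * t ≤ 0} with hS
  have hSc : IsCompact S := by
    have : S = Set.Icc 0 r ∩ (fun t => tv A t - κ * t) ⁻¹' (Set.Iic 0) := by
      ext t; simp [hS]
    rw [this]
    exact isCompact_Icc.of_isClosed_subset
      (hcont.preimage_isClosed_of_isClosed isClosed_Icc isClosed_Iic) Set.inter_subset_left
  have h0S : (0 : ℝ) ∈ S := ⟨⟨le_rfl, hr.le⟩, by rw [tv_zero hA, h0]; simp⟩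
  obtain ⟨τ, hτS, hmax⟩ := hSc.exists_isMaxOn ⟨0, h0S⟩ continuousOn_id
  have hτ0 : 0 ≤ τ := hτS.1.1
  have hτr : τ < r := by
    rcases hτS.1.2.lt_or_eq with h | h
    · exact h
    · exfalso
      have := hτS.2
      rw [h] at this
      linarith
  have habove : ∀ t, τ < t → t ≤ r → κ * t < tv A t := by
    intro t h1 h2
    by_contra hcon
    push Not at hcon
    have : t ∈ S := ⟨⟨hτ0.trans h1.le, h2⟩, by linarith⟩
    have h3 : t ≤ τ := hmax this
    linarith
  refine ⟨τ, hτ0, hτr, ?_, habove⟩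
  apply le_antisymm
  · have := hτS.2
    linarith
  · -- limit from above
    have h1 : Filter.Tendsto (fun t => tv A t - κ * t) (𝓝[Set.Icc 0 r] τ)
        (𝓝 (tv A τ - κ * τ)) := hcont τ hτS.1
    have h2 : Filter.Tendsto (fun t => tv A t - κ * t) (𝓝[>] τ) (𝓝 (tv A τ - κ * τ)) := by
      refine h1.mono_left ?_
      rw [nhdsWithin_le_iff]
      filter_upwards [Ioo_mem_nhdsGT hτr] with t ht
      exact ⟨hτ0.trans ht.1.le, ht.2.le⟩
    have h3 : 0 ≤ tv A τ - κ * τ := by
      refine ge_of_tendsto h2 ?_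
      filter_upwards [Ioo_mem_nhdsGT hτr] with t ht
      have := habove t ht.1 ht.2.le
      linarith
    linarith

theorem gf_two_le_hi {A : ℕ → ℝ} (hA : TP A) {κ r τ : ℝ} (hτ : 0 < τ) (hτr : τ < r)
    (he : tv A τ = κ * τ) (hab : ∀ t, τ < t → t ≤ r → κ * t < tv A t) : 2 ≤ hi A τ := by
  obtain ⟨t₀, ht₀, h⟩ := exists_above hA hτ
  obtain ⟨t, ht1, ht2⟩ := exists_between (lt_min ht₀ hτr)
  have h1 := (h t ht1 (ht2.trans_le (min_le_left _ _))).1
  have h2 := hab t ht1 (ht2.trans_le (min_le_right _ _)).le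
  have h3 := tv_growth_lo hA hτ ht1.le
  rw [h1, he] at h3
  by_contra hcon
  push Not at hcon
  have hq : 1 ≤ t / τ := (one_le_div hτ).2 ht1.le
  have hκ : 0 < κ * τ := by rw [← he]; exact tv_pos hA hτ
  have h4 : (t / τ) ^ (hi A τ) ≤ (t / τ) ^ 1 := pow_le_pow_right₀ hq (by omega)
  have h5 : tv A t ≤ κ * t := by
    calc tv A t ≤ κ * τ * (t / τ) ^ (hi A τ) := h3
      _ ≤ κ * τ * (t / τ) ^ 1 := mul_le_mul_of_nonneg_left h4 hκ.le
      _ = κ * t := by field_simp
  linarith

theorem gf_lt_coeff_one {A : ℕ → ℝ} (hA : TP A) (h0 : A 0 = 0) {κ r : ℝ} (hκ : 0 < κ) (hr : 0 < r)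
    (hab : ∀ t, 0 < t → t ≤ r → κ * t < tv A t) : κ < A 1 := by
  obtain ⟨t₀, ht₀, h⟩ := exists_near_zero hA
  have ht₀2 : 0 < t₀ / 2 := by linarith
  obtain ⟨ha, hb, hc⟩ := h (t₀ / 2) ht₀2 (by linarith)
  set l := lo A (t₀ / 2) with hl
  have hl1 : 1 ≤ l := by
    rcases Nat.eq_zero_or_pos l with h' | h'
    · rw [h', h0] at hb
      exact absurd hb (lt_irrefl _)
    · exact h'
  have hval : ∀ t, 0 < t → t < t₀ / 2 → tv A t = A l * t ^ l := by
    intro t ht1 ht2
    obtain ⟨ha', hb', hc'⟩ := h t ht1 (by linarith)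
    have h1 : lo A t ≤ l := (lo_le_hi hA ht1).trans (hi_le_lo hA ht1 ht2)
    have h2 : l ≤ lo A t := by
      by_contra hcon
      push Not at hcon
      rw [ha _ hcon] at hb'
      exact lt_irrefl _ hb'
    have h3 := lo_spec hA ht1.le
    rw [le_antisymm h1 h2] at h3
    exact h3.symm
  -- choose a small `t`
  set t := min (min (t₀ / 4) r) (min 1 (κ / (2 * A l))) with htdef
  have hAl : 0 < 2 * A l := by linarith
  have ht : 0 < t := by
    refine lt_min (lt_min (by linarith) hr) (lt_min one_pos (div_pos hκ hAl))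
  have ht1 : t < t₀ / 2 := by
    have : t ≤ t₀ / 4 := (min_le_left _ _).trans (min_le_left _ _)
    linarith
  have ht2 : t ≤ r := (min_le_left _ _).trans (min_le_right _ _)
  have ht3 : t ≤ 1 := (min_le_right _ _).trans (min_le_left _ _)
  have ht4 : t ≤ κ / (2 * A l) := (min_le_right _ _).trans (min_le_right _ _)
  have h5 := hab t ht ht2
  rw [hval t ht ht1] at h5
  rcases Nat.lt_or_ge 1 l with h6 | h6
  · exfalso
    have h7 : t ^ l ≤ t ^ 2 := pow_le_pow_of_le_one ht.le ht3 h6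
    have h8 : A l * t ^ l ≤ A l * t ^ 2 := mul_le_mul_of_nonneg_left h7 hb.le
    have h9 : κ * t < A l * t ^ 2 := h5.trans_le h8
    have h10 : κ < A l * t := by
      have : κ * t < (A l * t) * t := by rw [pow_two, ← mul_assoc] at h9; exact h9
      exact lt_of_mul_lt_mul_right this ht.le
    rw [le_div_iff₀ hAl] at ht4
    nlinarith
  · have h7 : l = 1 := le_antisymm h6 hl1
    rw [h7, pow_one] at h5
    exact lt_of_mul_lt_mul_right h5 ht.le

/-- a perturbation which is strictly dominated from the top slope on. -/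
theorem gf_hi_sub_of {A B : K[X]} (hA : A ≠ 0) {a : K} {t : ℝ} (ht : 0 < t)
    (h1 : ∀ i, co B a i * t ^ i ≤ gn A a t)
    (h2 : ∀ i, hi (co A a) t ≤ i → co B a i * t ^ i < gn A a t) :
    A - B ≠ 0 ∧ gn (A - B) a t = gn A a t ∧ hi (co (A - B) a) t = hi (co A a) t := by
  have hTA := TP_co hA a
  have hub' : ∀ i, co (A - B) a i * t ^ i ≤ max (co A a i * t ^ i) (co B a i * t ^ i) := by
    intro i
    rw [← max_mul_of_nonneg _ _ (by positivity)]
    exact mul_le_mul_of_nonneg_right (gf_co_sub_le A B a i) (by positivity)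
  have hub : ∀ i, co (A - B) a i * t ^ i ≤ gn A a t := fun i =>
    (hub' i).trans (max_le (le_tv hTA t i) (h1 i))
  have hval : co (A - B) a (hi (co A a) t) * t ^ (hi (co A a) t) = gn A a t := by
    have h3 := h2 _ le_rfl
    have h4 : co B a (hi (co A a) t) < co A a (hi (co A a) t) := by
      rw [gn, ← hi_spec hTA ht] at h3
      exact lt_of_mul_lt_mul_right h3 (by positivity)
    rw [gf_co_sub_eq h4, hi_spec hTA ht]
    rfl
  have hAB : A - B ≠ 0 := by
    intro h0
    rw [h0] at hval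
    have : co (0 : K[X]) a (hi (co A a) t) = 0 := by simp [co]
    rw [this, zero_mul] at hval
    exact absurd hval (tv_pos hTA ht).ne
  have hT := TP_co hAB a
  have htv : gn (A - B) a t = gn A a t := by
    apply le_antisymm
    · exact ciSup_le hub
    · rw [← hval]
      exact le_tv hT t _
  refine ⟨hAB, htv, ?_⟩
  apply hi_eq_of hT ht
  · exact hval.trans htv.symm
  · intro i hi'
    change _ < gn (A - B) a t
    rw [htv]
    exact lt_of_le_of_lt (hub' i) (max_lt (lt_tv_of_hi_lt hTA ht hi') (h2 i hi'.le))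

omit [IsUltrametricDist K] in
theorem gf_co_X_sub_C_mul_zero (z : K) (B : K[X]) : co ((X - C z) * B) z 0 = 0 := by
  simp [co, taylor_mul]

omit [IsUltrametricDist K] in
theorem gf_co_X_sub_C_mul_succ (z : K) (B : K[X]) (i : ℕ) :
    co ((X - C z) * B) z (i + 1) = co B z i := by
  simp [co, taylor_mul]

namespace RatMap

variable [IsAlgClosed K] {f : RatMap K} {b c : K} {r s : ℝ}

/-! ### the disc without poles -/

/-- working hypotheses: no poles in the open disc `(b, r)`. -/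
structure GfNoPole (f : RatMap K) (b : K) (r : ℝ) : Prop where
  hd : 1 ≤ f.deg
  rpos : 0 < r
  loQ : lo (co f.Q b) r = 0

theorem GfNoPole.loQ' (h : f.GfNoPole b r) {z : K} (hz : ‖z - b‖ < r) : lo (co f.Q z) r = 0 := by
  rw [lo_center (f.Q_ne_zero h.hd) hz, h.loQ]

theorem GfNoPole.gnQ (h : f.GfNoPole b r) {z : K} (hz : ‖z - b‖ < r) {t : ℝ} (ht : 0 ≤ t)
    (htr : t ≤ r) : gn f.Q z t = gn f.Q b r := by
  have hQ := f.Q_ne_zero h.hd
  rw [gf_gn_eq_of_lo_eq_zero hQ h.rpos (h.loQ' hz) ht htr,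
    ← norm_eval_eq_gn hQ hz h.loQ]

theorem GfNoPole.hiQ (h : f.GfNoPole b r) {z : K} (hz : ‖z - b‖ < r) {t : ℝ} (ht : 0 < t)
    (htr : t < r) : hi (co f.Q z) t = 0 :=
  gf_hi_eq_zero_of_lo_eq_zero (f.Q_ne_zero h.hd) (h.loQ' hz) ht htr

theorem GfNoPole.evalQ (h : f.GfNoPole b r) {z : K} (hz : ‖z - b‖ < r) :
    ‖f.Q.eval z‖ = gn f.Q b r := norm_eval_eq_gn (f.Q_ne_zero h.hd) hz h.loQ

theorem GfNoPole.gnpos (h : f.GfNoPole b r) : 0 < gn f.Q b r :=
  tv_pos (TP_co (f.Q_ne_zero h.hd) b) h.rpos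

omit [IsAlgClosed K] [IsUltrametricDist K] in
theorem gf_sub_decomp (f : RatMap K) (w z : K) :
    f.P - C w * f.Q = (f.P - C z * f.Q) - C (w - z) * f.Q := by
  rw [C_sub]; ring

omit [IsAlgClosed K] [IsUltrametricDist K] in
theorem gf_H_decomp (f : RatMap K) (z : K) :
    f.P - X * f.Q = (f.P - C z * f.Q) - (X - C z) * f.Q := by
  ring

/-- the fixed disc (or point) around the fixed point `z`. -/
structure GfTau (f : RatMap K) (κ r : ℝ) (z : K) (τ : ℝ) : Prop where
  nonneg : 0 ≤ τ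
  lt : τ < r
  eq : gn (f.P - C z * f.Q) z τ = κ * τ
  above : ∀ t, τ < t → t ≤ r → κ * t < gn (f.P - C z * f.Q) z t

omit [IsAlgClosed K] [IsUltrametricDist K] in
theorem GfTau.unique {κ : ℝ} {z : K} {τ τ' : ℝ} (h : f.GfTau κ r z τ) (h' : f.GfTau κ r z τ') :
    τ = τ' := by
  rcases lt_trichotomy τ τ' with h1 | h1 | h1
  · have := h.above τ' h1 h'.lt.le
    rw [h'.eq] at this
    exact absurd this (lt_irrefl _)
  · exact h1
  · have := h'.above τ h1 h.lt.le
    rw [h.eq] at this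
    exact absurd this (lt_irrefl _)

/-- at the boundary the map is expanding. -/
theorem gf_gn_top (h : f.GfNoPole b r) (hb : gn (f.P - C c * f.Q) b r = s * gn f.Q b r)
    (hbc : ‖b - c‖ < s) (hrs : r < s) {z : K} (hz : ‖z - b‖ < r) :
    gn (f.P - C z * f.Q) z r = s * gn f.Q b r := by
  have hzc : ‖z - c‖ < s := by
    have : z - c = (z - b) + (b - c) := by ring
    rw [this]
    exact lt_of_le_of_lt (IsUltrametricDist.norm_add_le_max _ _) (max_lt (hz.trans hrs) hbc)
  rw [gn_center (f.P - C z * f.Q) hz.le, f.gf_sub_decomp z c]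
  have h1 := gf_gn_sub_of_lt (f.sub_ne_zero h.hd c) (a := b) (t := r) (B := C (z - c) * f.Q) h.rpos
    (by
      rw [gf_gn_C_mul _ _ _ h.rpos.le, hb]
      exact mul_lt_mul_of_pos_right hzc h.gnpos)
  rw [h1.2.1, hb]

theorem gf_exists_isTau (h : f.GfNoPole b r) (hb : gn (f.P - C c * f.Q) b r = s * gn f.Q b r)
    (hbc : ‖b - c‖ < s) (hrs : r < s) {z : K} (hz : ‖z - b‖ < r)
    (hfix : f.P.eval z = z * f.Q.eval z) : ∃ τ, f.GfTau (gn f.Q b r) r z τ := by
  have hA := f.sub_ne_zero h.hd z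
  have h0 : co (f.P - C z * f.Q) z 0 = 0 := by
    simp [co, taylor_coeff_zero, hfix]
  obtain ⟨τ, h1, h2, h3, h4⟩ := gf_exists_tau (TP_co hA z) h0 (κ := gn f.Q b r) h.rpos
    (by
      change _ < gn (f.P - C z * f.Q) z r
      rw [gf_gn_top h hb hbc hrs hz, mul_comm]
      exact mul_lt_mul_of_pos_right hrs h.gnpos)
  exact ⟨τ, h1, h2, h3, h4⟩

/-- the disc does not depend on the centre. -/
theorem GfTau.center (h : f.GfNoPole b r) {z w : K} (hz : ‖z - b‖ < r) {τ : ℝ}
    (hτ : f.GfTau (gn f.Q b r) r z τ) (hw : ‖w - z‖ ≤ τ) : f.GfTau (gn f.Q b r) r w τ := by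
  have hκ := h.gnpos
  have hA := f.sub_ne_zero h.hd z
  have hab : ∀ t, τ < t → t ≤ r → gn (f.P - C w * f.Q) w t = gn (f.P - C z * f.Q) z t := by
    intro t h1 h2
    have ht : 0 < t := lt_of_le_of_lt hτ.nonneg h1
    rw [gn_center (f.P - C w * f.Q) (hw.trans h1.le), f.gf_sub_decomp w z]
    refine (gf_gn_sub_of_lt hA ht ?_).2.1
    rw [gf_gn_C_mul _ _ _ ht.le, h.gnQ hz ht.le h2, mul_comm]
    refine lt_of_le_of_lt ?_ (hτ.above t h1 h2)
    exact mul_le_mul_of_nonneg_left (hw.trans h1.le) hκ.le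
  have hab' : ∀ t, τ < t → t ≤ r → gn f.Q b r * t < gn (f.P - C w * f.Q) w t := by
    intro t h1 h2
    rw [hab t h1 h2]
    exact hτ.above t h1 h2
  have hle : gn (f.P - C w * f.Q) w τ ≤ gn f.Q b r * τ := by
    rw [gn_center (f.P - C w * f.Q) hw, f.gf_sub_decomp w z]
    refine (gf_gn_sub_le _ _ _ hτ.nonneg).trans (max_le hτ.eq.le ?_)
    rw [gf_gn_C_mul _ _ _ hτ.nonneg, h.gnQ hz hτ.nonneg hτ.lt.le, mul_comm]
    exact mul_le_mul_of_nonneg_left hw hκ.le
  refine ⟨hτ.nonneg, hτ.lt, le_antisymm hle ?_, hab'⟩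
  -- limit from above
  have hTA := TP_co (f.sub_ne_zero h.hd w) w
  have h1 : Filter.Tendsto (fun t => gn (f.P - C w * f.Q) w t - gn f.Q b r * t)
      (𝓝[>] τ) (𝓝 (gn (f.P - C w * f.Q) w τ - gn f.Q b r * τ)) := by
    have h2 : Filter.Tendsto (fun t => gn (f.P - C w * f.Q) w t - gn f.Q b r * t)
        (𝓝[Set.Ici 0] τ) (𝓝 (gn (f.P - C w * f.Q) w τ - gn f.Q b r * τ)) := by
      have := (continuousOn_tv hTA).sub
        ((continuous_const.mul continuous_id : Continuous fun t : ℝ => gn f.Q b r * t).continuousOn)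
      exact this τ hτ.nonneg
    refine h2.mono_left ?_
    rw [nhdsWithin_le_iff]
    filter_upwards [self_mem_nhdsWithin] with t ht
    exact hτ.nonneg.trans (le_of_lt ht)
  have h3 : 0 ≤ gn (f.P - C w * f.Q) w τ - gn f.Q b r * τ := by
    refine ge_of_tendsto h1 ?_
    filter_upwards [Ioo_mem_nhdsGT hτ.lt] with t ht
    have := hab' t ht.1 ht.2.le
    linarith
  linarith

/-- the slope at the fixed point. -/
noncomputable def gfKap (f : RatMap K) (z : K) (τ : ℝ) : ℕ := hi (co (f.P - C z * f.Q) z) τ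

theorem GfTau.two_le (h : f.GfNoPole b r) {z : K} {τ : ℝ}
    (hτ : f.GfTau (gn f.Q b r) r z τ) (h0 : 0 < τ) : 2 ≤ f.gfKap z τ :=
  gf_two_le_hi (TP_co (f.sub_ne_zero h.hd z) z) h0 hτ.lt hτ.eq hτ.above

theorem GfTau.coQ_lt (h : f.GfNoPole b r) {z : K} (hz : ‖z - b‖ < r) {τ : ℝ}
    (hτ : f.GfTau (gn f.Q b r) r z τ) (h0 : 0 < τ) {i : ℕ} (hi1 : 1 ≤ i) :
    co f.Q z i * τ ^ i < gn f.Q b r := by
  rw [← h.gnQ hz h0.le hτ.lt.le]
  apply lt_tv_of_hi_lt (TP_co (f.Q_ne_zero h.hd) z) h0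
  rw [h.hiQ hz h0 hτ.lt]
  exact hi1

theorem GfTau.coQ_le (h : f.GfNoPole b r) {z : K} (hz : ‖z - b‖ < r) {τ : ℝ}
    (hτ : f.GfTau (gn f.Q b r) r z τ) (h0 : 0 < τ) (i : ℕ) :
    co f.Q z i * τ ^ i ≤ gn f.Q b r := by
  rw [← h.gnQ hz h0.le hτ.lt.le]
  exact le_tv (TP_co (f.Q_ne_zero h.hd) z) _ i

/-- the number of fixed points in the closed disc. -/
theorem GfTau.nle (h : f.GfNoPole b r) {z : K} (hz : ‖z - b‖ < r) {τ : ℝ}
    (hτ : f.GfTau (gn f.Q b r) r z τ) (h0 : 0 < τ) :
    nle (f.P - X * f.Q) z τ = f.gfKap z τ := by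
  have hA := f.sub_ne_zero h.hd z
  have hk := hτ.two_le h h0
  have key := gf_hi_sub_of hA (a := z) h0 (B := (X - C z) * f.Q)
    (by
      intro i
      rw [hτ.eq]
      rcases i with _ | i
      · rw [gf_co_X_sub_C_mul_zero, zero_mul]
        exact (mul_pos h.gnpos h0).le
      · rw [gf_co_X_sub_C_mul_succ, pow_succ, ← mul_assoc]
        exact mul_le_mul_of_nonneg_right (hτ.coQ_le h hz h0 i) h0.le)
    (by
      intro i hi'
      rw [hτ.eq]
      rcases i with _ | i
      · rw [gf_co_X_sub_C_mul_zero, zero_mul]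
        exact mul_pos h.gnpos h0
      · rw [gf_co_X_sub_C_mul_succ, pow_succ, ← mul_assoc]
        have : 1 ≤ i := by
          unfold gfKap at hk
          omega
        exact mul_lt_mul_of_pos_right (hτ.coQ_lt h hz h0 this) h0)
  rw [gf_H_decomp f z, ← hi_eq_nle key.1 z h0, key.2.2]
  rfl

theorem GfTau.hi_Q (h : f.GfNoPole b r) {w : K} (hw : ‖w - b‖ < r) {z : K} {τ : ℝ}
    (hτ : f.GfTau (gn f.Q b r) r z τ) (h0 : 0 < τ) : hi (co f.Q w) τ = 0 :=
  h.hiQ hw h0 hτ.lt

/-- the fixed point is not non-full. -/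
theorem GfTau.hi_sub (h : f.GfNoPole b r) {z : K} (hz : ‖z - b‖ < r) {τ : ℝ}
    (hτ : f.GfTau (gn f.Q b r) r z τ) (h0 : 0 < τ) {w : K} (hw : ‖w - z‖ ≤ τ) :
    hi (co (f.P - C w * f.Q) w) τ = f.gfKap z τ := by
  have hA := f.sub_ne_zero h.hd z
  have hk := hτ.two_le h h0
  have key := gf_hi_sub_of hA (a := z) h0 (B := C (w - z) * f.Q)
    (by
      intro i
      rw [hτ.eq, gf_co_C_mul, mul_assoc, mul_comm (gn f.Q b r)]
      exact mul_le_mul hw (hτ.coQ_le h hz h0 i)
        (mul_nonneg (norm_nonneg _) (pow_nonneg h0.le _)) h0.le)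
    (by
      intro i hi'
      rw [hτ.eq, gf_co_C_mul, mul_assoc, mul_comm (gn f.Q b r)]
      have h1 : 1 ≤ i := by
        unfold gfKap at hk
        omega
      have h2 := hτ.coQ_lt h hz h0 h1
      calc ‖w - z‖ * (co f.Q z i * τ ^ i) ≤ τ * (co f.Q z i * τ ^ i) :=
            mul_le_mul_of_nonneg_right hw (mul_nonneg (norm_nonneg _) (pow_nonneg h0.le _))
        _ < τ * gn f.Q b r := mul_lt_mul_of_pos_left h2 h0)
  rw [hi_center (f.sub_ne_zero h.hd w) h0 hw, f.gf_sub_decomp w z, key.2.2]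
  rfl

/-- the point is fixed. -/
theorem GfTau.act_zeta (h : f.GfNoPole b r) {z : K} (hz : ‖z - b‖ < r) {τ : ℝ}
    (hτ : f.GfTau (gn f.Q b r) r z τ) (h0 : 0 < τ) :
    f.act (zeta z τ : Berk K) = (zeta z τ : Berk K) := by
  apply f.act_zeta_of_slopes h.hd z z h0 h0
  · rw [hτ.eq, h.gnQ hz h0.le hτ.lt.le, mul_comm]
  · right
    rw [hτ.hi_Q h hz h0]
    have := hτ.two_le h h0
    unfold gfKap at this
    omega

theorem GfTau.gn_shift (h : f.GfNoPole b r) {z : K} (hz : ‖z - b‖ < r) {τ : ℝ}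
    (hτ : f.GfTau (gn f.Q b r) r z τ) {w : K} (hw : ‖w - z‖ ≤ τ) :
    gn (f.P - C z * f.Q) w τ = τ * gn f.Q w τ := by
  rw [gn_center (f.P - C z * f.Q) hw, gn_center f.Q hw, h.gnQ hz hτ.nonneg hτ.lt.le, hτ.eq,
    mul_comm]

/-- its local degree. -/
theorem GfTau.locDeg (h : f.GfNoPole b r) {z : K} (hz : ‖z - b‖ < r) {τ : ℝ}
    (hτ : f.GfTau (gn f.Q b r) r z τ) (h0 : 0 < τ) :
    f.locDeg (zeta z τ : Berk K) = f.gfKap z τ := by
  have hhi : hi (f.G z (f.act (zeta z τ : Berk K))) τ = f.gfKap z τ := by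
    rw [hτ.act_zeta h hz h0, f.G_zeta z z h0.le, hi_tmax_of_eq (TP_co (f.sub_ne_zero h.hd z) z)
      (TP_co (f.Q_ne_zero h.hd) z) h0 h0 (hτ.gn_shift h hz (by simpa using h0.le)),
      hτ.hi_Q h hz h0]
    simp [gfKap]
  have hlo : ∀ w : K, ‖w - z‖ ≤ τ → lo (f.G w (f.act (zeta z τ : Berk K))) τ = 0 := by
    intro w hw
    have hwb : ‖w - b‖ < r := by
      have : w - b = (w - z) + (z - b) := by ring
      rw [this]
      exact lt_of_le_of_lt (IsUltrametricDist.norm_add_le_max _ _)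
        (max_lt (hw.trans_lt hτ.lt) hz)
    have hT := TP_co (f.Q_ne_zero h.hd) w
    rw [hτ.act_zeta h hz h0, f.G_zeta w z h0.le, lo_tmax_of_eq (TP_co (f.sub_ne_zero h.hd z) w)
      hT h0 h0 (hτ.gn_shift h hz hw)]
    have h1 := hτ.hi_Q h hwb h0
    have h2 := lo_le_hi hT h0
    omega
  apply le_antisymm
  · have := f.locDeg_zeta_add_le h.hd z h0 ∅ (by simp) (by simp)
    rw [hhi] at this
    simpa using this
  · have := f.le_locDeg_zeta_add h.hd z h0 ∅ (by simp) (fun w hw _ => hlo w hw)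
    rw [hhi] at this
    simpa using this

/-- points `ζ(z, τ)`, `τ > 0`, are not classical. -/
theorem gf_zeta_ne_emb (z : K) {τ : ℝ} (h0 : 0 < τ) : ((zeta z τ : Berk K) : P1 K) ∉
    Set.range (emb (K := K)) := by
  rintro ⟨w, hw⟩
  induction w using OnePoint.rec with
  | infty => exact OnePoint.infty_ne_coe _ hw
  | coe a =>
    rw [emb_coe] at hw
    have h1 := OnePoint.coe_injective hw
    rw [← zeta_zero, zeta_eq_zeta_iff le_rfl h0.le] at h1
    exact h0.ne h1.1

theorem GfTau.mem_RFix (h : f.GfNoPole b r) {z : K} (hz : ‖z - b‖ < r) {τ : ℝ}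
    (hτ : f.GfTau (gn f.Q b r) r z τ) (h0 : 0 < τ) :
    ((zeta z τ : Berk K) : P1 K) ∈ f.RFix := by
  refine ⟨hτ.act_zeta h hz h0, Or.inl ⟨gf_zeta_ne_emb z h0, ?_⟩⟩
  rw [hτ.locDeg h hz h0]
  exact hτ.two_le h h0

theorem GfTau.full (h : f.GfNoPole b r) {z : K} (hz : ‖z - b‖ < r) {τ : ℝ}
    (hτ : f.GfTau (gn f.Q b r) r z τ) : ¬ f.NonFull (zeta z τ : Berk K) := by
  rintro ⟨a, t, ht, he, hn⟩
  have h1 := OnePoint.coe_injective he
  rw [zeta_eq_zeta_iff hτ.nonneg ht.le] at h1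
  obtain ⟨rfl, h2⟩ := h1
  rw [norm_sub_rev] at h2
  have haz : ‖a - b‖ < r := by
    have : a - b = (a - z) + (z - b) := by ring
    rw [this]
    exact lt_of_le_of_lt (IsUltrametricDist.norm_add_le_max _ _)
      (max_lt (h2.trans_lt hτ.lt) hz)
  rw [hτ.hi_sub h hz ht h2, hτ.hi_Q h haz ht] at hn
  have := hτ.two_le h ht
  omega

/-! ### the classical case -/

theorem GfTau.coeff_one (h : f.GfNoPole b r) {z : K} (hfix : f.P.eval z = z * f.Q.eval z)
    (hτ : f.GfTau (gn f.Q b r) r z 0) :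
    gn f.Q b r < ‖f.P.derivative.eval z - z * f.Q.derivative.eval z‖ := by
  have hA := f.sub_ne_zero h.hd z
  have h0 : co (f.P - C z * f.Q) z 0 = 0 := by
    simp [co, taylor_coeff_zero, hfix]
  have := gf_lt_coeff_one (TP_co hA z) h0 h.gnpos h.rpos hτ.above
  rw [co, taylor_coeff_one] at this
  simpa using this

theorem GfTau.mult (h : f.GfNoPole b r) {z : K} (hz : ‖z - b‖ < r)
    (hfix : f.P.eval z = z * f.Q.eval z) (hτ : f.GfTau (gn f.Q b r) r z 0) :
    1 < ‖f.mult (z : OnePoint K)‖ := by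
  have h1 := hτ.coeff_one h hfix
  have h2 := h.evalQ hz
  have hκ := h.gnpos
  have hQ : f.Q.eval z ≠ 0 := by
    rw [← norm_pos_iff, h2]; exact hκ
  have h3 : f.mult (z : OnePoint K) =
      (f.P.derivative.eval z - z * f.Q.derivative.eval z) / f.Q.eval z := by
    change (f.P.derivative.eval z * f.Q.eval z - f.P.eval z * f.Q.derivative.eval z) /
      f.Q.eval z ^ 2 = _
    rw [hfix]
    field_simp
  rw [h3, norm_div, h2, one_lt_div hκ]
  exact h1

open Classical in
theorem gf_actK_eq (h : f.GfNoPole b r) {z : K} (hz : ‖z - b‖ < r)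
    (hfix : f.P.eval z = z * f.Q.eval z) : f.actK (z : OnePoint K) = z := by
  have hQ : f.Q.eval z ≠ 0 := by
    rw [← norm_pos_iff, h.evalQ hz]; exact h.gnpos
  change (if f.Q.eval z = 0 then OnePoint.infty
      else ((f.P.eval z / f.Q.eval z : K) : OnePoint K)) = _
  rw [if_neg hQ, hfix, mul_div_cancel_right₀ _ hQ]

theorem GfTau.mem_RFix_zero (h : f.GfNoPole b r) {z : K} (hz : ‖z - b‖ < r)
    (hfix : f.P.eval z = z * f.Q.eval z) (hτ : f.GfTau (gn f.Q b r) r z 0) :
    ((zeta z 0 : Berk K) : P1 K) ∈ f.RFix := by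
  rw [zeta_zero, ← emb_coe]
  refine ⟨?_, Or.inr ⟨_, rfl, hτ.mult h hz hfix⟩⟩
  rw [f.act_emb, gf_actK_eq h hz hfix]

theorem GfTau.locDeg_zero (h : f.GfNoPole b r) {z : K} (hz : ‖z - b‖ < r)
    (hfix : f.P.eval z = z * f.Q.eval z) (hτ : f.GfTau (gn f.Q b r) r z 0) :
    f.locDeg (zeta z 0 : Berk K) = 1 := by
  rw [zeta_zero, ← emb_coe]
  apply f.locDeg_emb_eq_one h.hd _ (gf_actK_eq h hz hfix)
  intro h0
  have := hτ.mult h hz hfix
  rw [h0, norm_zero] at this
  linarith

theorem GfTau.count (h : f.GfNoPole b r) {z : K} (hz : ‖z - b‖ < r)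
    (hfix : f.P.eval z = z * f.Q.eval z) (hτ : f.GfTau (gn f.Q b r) r z 0)
    (hH : f.P - X * f.Q ≠ 0) : (f.P - X * f.Q).rootMultiplicity z = 1 := by
  have h1 := hτ.coeff_one h hfix
  have h2 := h.evalQ hz
  have hroot : (f.P - X * f.Q).IsRoot z := by
    simp [IsRoot, hfix]
  have h3 : 0 < (f.P - X * f.Q).rootMultiplicity z := (rootMultiplicity_pos hH).2 hroot
  have h4 : ¬ 1 < (f.P - X * f.Q).rootMultiplicity z := by
    rw [one_lt_rootMultiplicity_iff_isRoot hH]
    rintro ⟨-, h5⟩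
    have h6 : f.P.derivative.eval z - z * f.Q.derivative.eval z = f.Q.eval z := by
      have h7 : (derivative (f.P - X * f.Q)).eval z = 0 := h5
      simp only [derivative_sub, derivative_mul, derivative_X, one_mul, eval_sub, eval_add,
        eval_mul, eval_X] at h7
      linear_combination h7
    rw [h6, h2] at h1
    exact lt_irrefl _ h1
  omega

open Classical in
/-- **Good ball lemma**: a good pullback `(b,r) → (c,s)` with `(b,r)` strictly inside `(c,s)`
contains repelling fixed points of total degree `gdeg`, all full.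

Proof.  `P - T Q` has exactly `m = gdeg` roots in `(b,r)` (on its boundary `|T - c| < |f - c|`).
For such a root `z` put `A_z(t) = gn (P - zQ) z t`, `κ = ‖Q z‖` (no poles: `gn Q z t = κ`).  Let
`t_z` be the supremum of the `t < r` with `A_z(t) ≤ κ t` (`t_z < r` since `A_z(r) = s κ > r κ`).
If there is no such `t` then `z` is a classical repelling fixed point, a simple root of
`P - T Q`, and no other root ... ; otherwise `ζ(z, t_z)` is fixed, `lo/hi` just above `t_z` is
`k = hi (co (P - zQ) z) t_z ≥ 2`, its local degree is `k`, it is full, and `P - T Q` has exactly `k`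
roots in the closed disc `(z, t_z)`.  Different discs obtained in this way are disjoint. -/
theorem GoodPull.exists_fixed (hd : 2 ≤ f.deg) (h : f.GoodPull b r c s) (hbc : ‖b - c‖ < s)
    (hrs : r < s) : ∃ F : Finset (P1 K),
      (∀ x ∈ F, x ∈ f.RFix ∧ ¬ f.NonFull x ∧ x ∈ oD b r) ∧
        ∑ x ∈ F, f.locDeg x = f.gdeg b r c := by
  have hd1 : 1 ≤ f.deg := by omega
  have hN : f.GfNoPole b r := ⟨hd1, h.rpos, h.frontier hd1⟩
  have hA := f.sub_ne_zero hd1 c
  -- `H` and its roots in the open disc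
  set H : K[X] := f.P - X * f.Q with hHdef
  have key := gf_gn_sub_of_lt hA (a := b) (t := r) (B := (X - C c) * f.Q) h.rpos (by
    rw [gn_mul' _ _ _ h.rpos.le, gn_X_sub_C _ _ h.rpos.le, h.bdry]
    refine mul_lt_mul_of_pos_right (max_lt hrs ?_) hN.gnpos
    rwa [norm_sub_rev])
  rw [← gf_H_decomp f c, ← hHdef] at key
  obtain ⟨hH, -, hlo, -⟩ := key
  set R : Multiset K := H.roots.filter (fun z => ‖z - b‖ < r) with hR
  have hcard : R.card = f.gdeg b r c := by
    rw [gdeg, ← hlo, lo_eq_nlt hH b h.rpos, nlt]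
  have hmemR : ∀ z ∈ R, ‖z - b‖ < r ∧ f.P.eval z = z * f.Q.eval z := by
    intro z hz
    rw [hR, Multiset.mem_filter, mem_roots hH] at hz
    refine ⟨hz.2, ?_⟩
    have := hz.1
    simp only [hHdef, IsRoot, eval_sub, eval_mul, eval_X] at this
    exact sub_eq_zero.1 this
  have hex : ∀ z, z ∈ R → ∃ τ, f.GfTau (gn f.Q b r) r z τ := fun z hz =>
    gf_exists_isTau hN h.bdry hbc hrs (hmemR z hz).1 (hmemR z hz).2
  choose! τ hτ using hex
  set Φ : K → P1 K := fun z => ((zeta z (τ z) : Berk K) : P1 K) with hΦ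
  refine ⟨(R.map Φ).toFinset, ?_, ?_⟩
  · intro x hx
    rw [Multiset.mem_toFinset, Multiset.mem_map] at hx
    obtain ⟨z, hz, rfl⟩ := hx
    obtain ⟨hzb, hfix⟩ := hmemR z hz
    have ht := hτ z hz
    refine ⟨?_, ht.full hN hzb, ?_⟩
    · rcases ht.nonneg.eq_or_lt with h0 | h0
      · have ht' : f.GfTau (gn f.Q b r) r z 0 := by rw [h0]; exact ht
        have := ht'.mem_RFix_zero hN hzb hfix
        simp only [hΦ]
        rwa [h0] at this
      · exact ht.mem_RFix hN hzb h0
    · simp only [hΦ]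
      rw [coe_mem_oD, zeta_lin z b ht.nonneg, max_lt_iff]
      refine ⟨ht.lt, ?_⟩
      rwa [norm_sub_rev]
  · rw [← hcard, ← Multiset.card_map Φ R, ← Multiset.toFinset_sum_count_eq]
    refine Finset.sum_congr rfl fun x hx => ?_
    rw [Multiset.mem_toFinset, Multiset.mem_map] at hx
    obtain ⟨z, hz, rfl⟩ := hx
    obtain ⟨hzb, hfix⟩ := hmemR z hz
    have ht := hτ z hz
    have hcount : Multiset.count (Φ z) (R.map Φ) =
        (H.roots.filter (fun w => ‖w - z‖ ≤ τ z)).card := by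
      rw [Multiset.count_map, hR, Multiset.filter_filter]
      congr 1
      refine Multiset.filter_congr fun w hw => ?_
      constructor
      · rintro ⟨h1, h2⟩
        have hwR : w ∈ R := by rw [hR, Multiset.mem_filter]; exact ⟨hw, h2⟩
        have h3 := OnePoint.coe_injective h1
        rw [zeta_eq_zeta_iff ht.nonneg (hτ w hwR).nonneg] at h3
        rw [norm_sub_rev]
        exact h3.2
      · intro h1
        have hwb : ‖w - b‖ < r := by
          have : w - b = (w - z) + (z - b) := by ring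
          rw [this]
          exact lt_of_le_of_lt (IsUltrametricDist.norm_add_le_max _ _)
            (max_lt (h1.trans_lt ht.lt) hzb)
        have hwR : w ∈ R := by rw [hR, Multiset.mem_filter]; exact ⟨hw, hwb⟩
        refine ⟨?_, hwb⟩
        have h3 : τ z = τ w := (ht.center hN hzb h1).unique (hτ w hwR)
        simp only [hΦ]
        congr 1
        rw [zeta_eq_zeta_iff ht.nonneg (hτ w hwR).nonneg]
        exact ⟨h3, by rw [norm_sub_rev]; exact h1⟩
    rw [hcount]
    rcases ht.nonneg.eq_or_lt with h0 | h0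
    · have ht' : f.GfTau (gn f.Q b r) r z 0 := by rw [h0]; exact ht
      have h1 : f.locDeg (Φ z) = 1 := by
        have := ht'.locDeg_zero hN hzb hfix
        simp only [hΦ]
        rwa [h0] at this
      rw [h1, ← h0]
      have h2 : H.roots.filter (fun w => ‖w - z‖ ≤ 0) = H.roots.filter (fun w => z = w) := by
        refine Multiset.filter_congr fun w _ => ?_
        rw [norm_le_zero_iff, sub_eq_zero, eq_comm]
      rw [h2, Multiset.filter_eq, Multiset.card_replicate, count_roots]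
      exact (ht'.count hN hzb hfix hH).symm
    · rw [show (H.roots.filter (fun w => ‖w - z‖ ≤ τ z)).card = nle H z (τ z) from rfl,
        ht.nle hN hzb h0]
      exact ht.locDeg hN hzb h0

end RatMap

end Pool.Agent.Helper17.Berk
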