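import Mathlib
import Pool.Agent.Helper17.Berk.GoodBall

/-!
# Bad discs (module B10, MP_160e9b_an)

A disc `(c,s)` is *bad* for `f` if it contains `f(∞)`, or if for some finite pole `p` and some
`t > 0`, `f(ζ(p,t))` is in `(c,s)`.  If it is not bad, all classical preimages of its points
lie in good pullbacks.  In a family of pairwise disjoint discs at most `d² + 1` are bad.

Counting: for each pole `p` let `0 < t₁ < ... < t_k` be the distances `|p - p'|` to the other poles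
(`k ≤ d - 1`), so there are `k + 1 ≤ d` open intervals in the complement.  A bad disc hits (by
openness) one of the open intervals of one of the poles.  On such an interval `gn Q p t` is a
monomial, so `t ↦ gn (P - cQ) p t / gn Q p t` is logarithmically convex for every `c`.  Two disjoint
discs `(c,s)`, `(c',s')` cannot hit the same interval, at `τ` and `τ'`, `τ < τ'` say: with
`δ = ‖c - c'‖`, `|f-c|_τ < s ≤ δ`, `|f - c|_{τ'} = δ` and `|f-c|_t = δ` also for `t` slightly larger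
than `τ'`, contradicting convexity.
-/

open Polynomial Topology

set_option linter.dupNamespace false

namespace Pool.Agent.Helper17.Berk

universe u

variable {K : Type u} [NontriviallyNormedField K] [IsUltrametricDist K]

/-! ### auxiliary facts on Gauss norms -/

omit [IsUltrametricDist K] in
theorem bd_gn_pos {F : K[X]} (hF : F ≠ 0) (a : K) {t : ℝ} (ht : 0 < t) : 0 < gn F a t :=
  tv_pos (TP_co hF a) ht

omit [IsUltrametricDist K] in
theorem bd_continuousOn_gn {F : K[X]} (hF : F ≠ 0) (a : K) :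
    ContinuousOn (gn F a) (Set.Ici 0) :=
  continuousOn_tv (TP_co hF a)

theorem bd_gn_C_mul (k : K) (F : K[X]) (a : K) {t : ℝ} (ht : 0 ≤ t) :
    gn (C k * F) a t = ‖k‖ * gn F a t := by
  rw [gn_mul' _ _ _ ht, gn_C _ _ ht]

theorem bd_gn_neg (F : K[X]) (a : K) {t : ℝ} (ht : 0 ≤ t) : gn (-F) a t = gn F a t := by
  have h : -F = C (-1) * F := by simp
  rw [h, bd_gn_C_mul _ _ _ ht]; simp

theorem bd_gn_add_eq {F G : K[X]} {a : K} {t : ℝ} (ht : 0 ≤ t) (h : gn F a t < gn G a t) :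
    gn (F + G) a t = gn G a t := by
  apply le_antisymm
  · exact (gn_add_le F G a ht).trans (max_le h.le le_rfl)
  · have h1 := gn_add_le (F + G) (-F) a ht
    rw [bd_gn_neg _ _ ht] at h1
    have e : F + G + -F = G := by ring
    rw [e] at h1
    rcases le_max_iff.1 h1 with h2 | h2
    · exact h2
    · exact absurd h2 (not_le.2 h)

theorem bd_shift_le (P Q : K[X]) (c c' a : K) {t : ℝ} (ht : 0 ≤ t) :
    gn (P - C c' * Q) a t ≤ max (gn (P - C c * Q) a t) (‖c - c'‖ * gn Q a t) := by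
  have e : P - C c' * Q = (P - C c * Q) + C (c - c') * Q := by rw [C_sub]; ring
  rw [e]
  refine (gn_add_le _ _ _ ht).trans ?_
  rw [bd_gn_C_mul _ _ _ ht]

theorem bd_shift_eq (P Q : K[X]) (c c' a : K) {t : ℝ} (ht : 0 ≤ t)
    (h : gn (P - C c' * Q) a t < ‖c - c'‖ * gn Q a t) :
    gn (P - C c * Q) a t = ‖c - c'‖ * gn Q a t := by
  have e : P - C c * Q = (P - C c' * Q) + C (c' - c) * Q := by rw [C_sub]; ring
  rw [e, bd_gn_add_eq ht, bd_gn_C_mul _ _ _ ht, norm_sub_rev]
  rw [bd_gn_C_mul _ _ _ ht, norm_sub_rev]; exact h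

variable [IsAlgClosed K]

/-- Gauss norms for large radii. -/
theorem bd_gn_large {F : K[X]} (hF : F ≠ 0) (a : K) :
    ∃ t₀ : ℝ, 0 < t₀ ∧ ∀ t, t₀ < t → gn F a t = ‖F.leadingCoeff‖ * t ^ F.natDegree := by
  obtain ⟨t₀, h0, h⟩ := exists_lo_eq_natDegree hF a
  refine ⟨t₀, h0, fun t ht => ?_⟩
  have h1 := lo_spec (TP_co hF a) (t := t) (h0.trans ht).le
  rw [(h t ht).1] at h1
  have h2 : co F a F.natDegree = ‖F.leadingCoeff‖ := by
    unfold co
    rw [coeff_taylor_natDegree]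
  rw [h2] at h1
  exact h1.symm

namespace RatMap

/-- bad discs. -/
def Bad (f : RatMap K) (c : K) (s : ℝ) : Prop :=
  f.act OnePoint.infty ∈ oD c s ∨
    ∃ p : K, f.Q.eval p = 0 ∧ ∃ t : ℝ, 0 < t ∧ gn (f.P - C c * f.Q) p t < s * gn f.Q p t

theorem Bad_center_aux (f : RatMap K) {c c' : K} {s : ℝ} (h : ‖c - c'‖ < s)
    (hB : f.Bad c s) : f.Bad c' s := by
  rcases hB with hB | ⟨p, hp, t, ht, hB⟩
  · left; rwa [← oD_eq_oD h]
  · right
    refine ⟨p, hp, t, ht, ?_⟩
    refine (bd_shift_le f.P f.Q c c' p ht.le).trans_lt (max_lt hB ?_)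
    by_cases hQ : f.Q = 0
    · exfalso
      have : gn f.Q p t = 0 := by
        rw [hQ]
        have := bd_gn_C_mul (0 : K) (0 : K[X]) p ht.le
        simpa using this
      rw [this, mul_zero] at hB
      exact absurd hB (not_lt.2 (gn_nonneg _ _ ht.le))
    · exact mul_lt_mul_of_pos_right h (bd_gn_pos hQ p ht)

theorem Bad_center (f : RatMap K) {c c' : K} {s : ℝ} (h : ‖c - c'‖ < s) :
    f.Bad c s ↔ f.Bad c' s :=
  ⟨f.Bad_center_aux h, f.Bad_center_aux (by rwa [norm_sub_rev])⟩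

/-- value at infinity. -/
theorem act_infty_mem (f : RatMap K) {c : K} {s : ℝ} (hQ : f.Q.coeff f.deg ≠ 0)
    (h : ‖f.P.coeff f.deg - c * f.Q.coeff f.deg‖ < s * ‖f.Q.coeff f.deg‖) :
    f.act OnePoint.infty ∈ oD c s := by
  classical
  have e : f.act OnePoint.infty =
      ((pt (f.P.coeff f.deg / f.Q.coeff f.deg) : Berk K) : P1 K) := by
    change emb (f.actK OnePoint.infty) = _
    have : f.actK OnePoint.infty = ((f.P.coeff f.deg / f.Q.coeff f.deg : K) : OnePoint K) := by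
      change (if f.Q.coeff f.deg = 0 then OnePoint.infty
        else ((f.P.coeff f.deg / f.Q.coeff f.deg : K) : OnePoint K)) = _
      rw [if_neg hQ]
    rw [this]; rfl
  rw [e, coe_mem_oD, pt_lin]
  have h1 : f.P.coeff f.deg / f.Q.coeff f.deg - c =
      (f.P.coeff f.deg - c * f.Q.coeff f.deg) / f.Q.coeff f.deg := by
    field_simp
  rw [h1, norm_div, div_lt_iff₀ (norm_pos_iff.2 hQ)]
  exact h

/-- if infinity is not sent into the disc then the radii where `|f - c| ≥ s` are unbounded. -/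
theorem exists_cross (f : RatMap K) (hd : 1 ≤ f.deg) {c : K} {s : ℝ} (hs : 0 < s)
    (hnb : f.act OnePoint.infty ∉ oD c s) (z : K) :
    ∃ t : ℝ, 0 < t ∧ s * gn f.Q z t ≤ gn (f.P - C c * f.Q) z t := by
  by_contra hcon
  push Not at hcon
  have hQ0 := f.Q_ne_zero hd
  have hP0 := f.sub_ne_zero hd c
  obtain ⟨t₁, h1, hA⟩ := bd_gn_large hP0 z
  obtain ⟨t₂, h2, hB⟩ := bd_gn_large hQ0 z
  have hle := f.natDegree_sub_le c
  have hco : (f.P - C c * f.Q).coeff f.deg = f.P.coeff f.deg - c * f.Q.coeff f.deg := by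
    simp
  rcases (f.natDegree_Q_le).lt_or_eq with hlt | heq
  · -- pole at infinity
    have hQd : f.Q.coeff f.deg = 0 := coeff_eq_zero_of_natDegree_lt hlt
    have hPd : f.P.natDegree = f.deg := by
      have : f.deg = max f.P.natDegree f.Q.natDegree := rfl
      omega
    have hPne : f.P ≠ 0 := by
      intro h
      rw [h, natDegree_zero] at hPd
      omega
    have hPc : f.P.coeff f.deg ≠ 0 := by
      rw [← hPd, coeff_natDegree]; exact leadingCoeff_ne_zero.2 hPne
    have hnd : (f.P - C c * f.Q).natDegree = f.deg := by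
      refine le_antisymm hle (le_natDegree_of_ne_zero ?_)
      rw [hco, hQd, mul_zero, sub_zero]; exact hPc
    have hlc : (f.P - C c * f.Q).leadingCoeff = f.P.coeff f.deg := by
      rw [leadingCoeff, hnd, hco, hQd, mul_zero, sub_zero]
    set t := max (max (t₁ + 1) (t₂ + 1))
      (max 1 (s * ‖f.Q.leadingCoeff‖ / ‖f.P.coeff f.deg‖)) with ht
    have ht1 : t₁ < t := lt_of_lt_of_le (lt_add_one _) ((le_max_left _ _).trans (le_max_left _ _))
    have ht2 : t₂ < t := lt_of_lt_of_le (lt_add_one _) ((le_max_right _ _).trans (le_max_left _ _))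
    have ht3 : 1 ≤ t := (le_max_left _ _).trans (le_max_right _ _)
    have ht4 : s * ‖f.Q.leadingCoeff‖ / ‖f.P.coeff f.deg‖ ≤ t :=
      (le_max_right _ _).trans (le_max_right _ _)
    have hp : 0 < ‖f.P.coeff f.deg‖ := norm_pos_iff.2 hPc
    rw [div_le_iff₀ hp] at ht4
    have h3 := hcon t (h1.trans ht1)
    rw [hA t ht1, hB t ht2, hnd, hlc] at h3
    have e : f.deg = f.Q.natDegree + (f.deg - f.Q.natDegree) := by omega
    have h5 : t * t ^ f.Q.natDegree ≤ t ^ f.deg := by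
      rw [← pow_succ']
      exact pow_le_pow_right₀ ht3 (by omega)
    have h6 : 0 ≤ t ^ f.Q.natDegree := by positivity
    have h7 : s * (‖f.Q.leadingCoeff‖ * t ^ f.Q.natDegree) ≤ ‖f.P.coeff f.deg‖ * t ^ f.deg := by
      calc s * (‖f.Q.leadingCoeff‖ * t ^ f.Q.natDegree)
          = (s * ‖f.Q.leadingCoeff‖) * t ^ f.Q.natDegree := by ring
        _ ≤ (t * ‖f.P.coeff f.deg‖) * t ^ f.Q.natDegree := mul_le_mul_of_nonneg_right ht4 h6
        _ = ‖f.P.coeff f.deg‖ * (t * t ^ f.Q.natDegree) := by ring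
        _ ≤ ‖f.P.coeff f.deg‖ * t ^ f.deg := mul_le_mul_of_nonneg_left h5 hp.le
    linarith
  · have hQc : f.Q.coeff f.deg ≠ 0 := by
      rw [← heq, coeff_natDegree]; exact leadingCoeff_ne_zero.2 hQ0
    refine hnb (f.act_infty_mem hQc ?_)
    rw [← hco]
    rcases hle.lt_or_eq with hlt | he
    · rw [coeff_eq_zero_of_natDegree_lt hlt, norm_zero]
      exact mul_pos hs (norm_pos_iff.2 hQc)
    · set t := max (t₁ + 1) (t₂ + 1) with ht
      have ht1 : t₁ < t := lt_of_lt_of_le (lt_add_one _) (le_max_left _ _)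
      have ht2 : t₂ < t := lt_of_lt_of_le (lt_add_one _) (le_max_right _ _)
      have h3 := hcon t (h1.trans ht1)
      rw [hA t ht1, hB t ht2, he, heq] at h3
      have e1 : (f.P - C c * f.Q).leadingCoeff = (f.P - C c * f.Q).coeff f.deg := by
        rw [leadingCoeff, he]
      have e2 : f.Q.leadingCoeff = f.Q.coeff f.deg := by
        rw [leadingCoeff, heq]
      rw [e1, e2, ← mul_assoc] at h3
      exact lt_of_mul_lt_mul_right h3 (by have := h1.trans ht1; positivity)

/-- every preimage of a non-bad disc lies in a good pullback. -/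
theorem exists_goodPull (f : RatMap K) (hd : 1 ≤ f.deg) {c : K} {s : ℝ} (hs : 0 < s)
    (hnb : ¬ f.Bad c s) (z : K) (hz : f.act (pt z : Berk K) ∈ oD c s) :
    ∃ r : ℝ, f.GoodPull z r c s := by
  have hQ0 := f.Q_ne_zero hd
  have hP0 := f.sub_ne_zero hd c
  rw [act_mem_oD_iff f _ c hs] at hz
  have hz' : ‖(f.P - C c * f.Q).eval z‖ < s * ‖f.Q.eval z‖ := hz
  obtain ⟨t₁, ht₁, hcross⟩ := f.exists_cross hd hs (fun h => hnb (Or.inl h)) z
  -- the least crossing
  set φ : ℝ → ℝ := fun t => gn (f.P - C c * f.Q) z t - s * gn f.Q z t with hφ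
  have hcont : ContinuousOn φ (Set.Ici 0) :=
    (bd_continuousOn_gn hP0 z).sub ((bd_continuousOn_gn hQ0 z).const_smul s)
  have hc1 : ContinuousOn φ (Set.Icc 0 t₁) := hcont.mono Set.Icc_subset_Ici_self
  have hcl : IsClosed (Set.Icc 0 t₁ ∩ φ ⁻¹' Set.Ici 0) :=
    hc1.preimage_isClosed_of_isClosed isClosed_Icc isClosed_Ici
  have hcomp : IsCompact (Set.Icc 0 t₁ ∩ φ ⁻¹' Set.Ici 0) :=
    isCompact_Icc.of_isClosed_subset hcl Set.inter_subset_left
  obtain ⟨r, ⟨hr1, hr2⟩, hrmin⟩ := hcomp.exists_isLeast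
    ⟨t₁, ⟨⟨ht₁.le, le_rfl⟩, by simp only [Set.mem_preimage, Set.mem_Ici, hφ]; linarith⟩⟩
  have hφ0 : φ 0 < 0 := by
    simp only [hφ]
    rw [gn_zero_radius, gn_zero_radius]; linarith
  have hr2' : 0 ≤ φ r := hr2
  have hrpos : 0 < r := by
    rcases hr1.1.eq_or_lt with h | h
    · rw [← h] at hr2'; linarith
    · exact h
  have hlt : ∀ t, 0 ≤ t → t < r → φ t < 0 := by
    intro t h0 h1
    by_contra hcon
    push Not at hcon
    have := hrmin ⟨⟨h0, h1.le.trans hr1.2⟩, hcon⟩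
    linarith
  have heq : φ r = 0 := by
    by_contra hne
    have hpos : 0 < φ r := lt_of_le_of_ne hr2' (Ne.symm hne)
    have hiv := intermediate_value_Icc hr1.1 (hcont.mono (fun t ht => ht.1))
    obtain ⟨t, ht, ht0⟩ := hiv ⟨hφ0.le, hpos.le⟩
    rcases ht.2.lt_or_eq with h | h
    · have := hlt t ht.1 h; linarith
    · rw [h] at ht0; linarith
  refine ⟨r, hrpos, hs, ?_, by simp only [hφ] at heq; linarith, hz'⟩
  intro p hp hQp
  have h1 := hlt ‖p - z‖ (norm_nonneg _) hp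
  simp only [hφ] at h1
  rcases (norm_nonneg (p - z)).eq_or_lt with h | h
  · have : p = z := by
      rw [eq_comm, norm_eq_zero, sub_eq_zero] at h; exact h
    rw [this] at hQp
    rw [hQp, norm_zero, mul_zero] at hz'
    exact absurd hz' (not_lt.2 (norm_nonneg _))
  · refine hnb (Or.inr ⟨p, hQp, ‖p - z‖, h, ?_⟩)
    rw [gn_center (f.P - C c * f.Q) (a := p) (b := z) le_rfl, gn_center f.Q (a := p) (b := z) le_rfl]
    linarith

/-- `f z = c` for the roots of `P - c Q`. -/
theorem act_root_mem (f : RatMap K) {c : K} {s : ℝ} (hs : 0 < s) {z : K}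
    (hz : (f.P - C c * f.Q).eval z = 0) : f.act (pt z : Berk K) ∈ oD c s := by
  rw [act_mem_oD_iff f _ c hs]
  change ‖(f.P - C c * f.Q).eval z‖ < s * ‖f.Q.eval z‖
  rw [hz, norm_zero]
  have hq : f.Q.eval z ≠ 0 := by
    intro hq
    refine isCoprime_iff_root.1 f.cop z ⟨?_, hq⟩
    simpa [hq] using hz
  exact mul_pos hs (norm_pos_iff.2 hq)

open Classical in
/-- counting with multiplicities in a disjoint cover. -/
theorem bd_sum_card {α β : Type*} (M : Multiset α) (T : Finset β) (p : β → α → Prop)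
    (h : ∀ z ∈ M, ∃ V ∈ T, p V z ∧ ∀ V' ∈ T, p V' z → V' = V) :
    ∑ V ∈ T, (M.filter (p V)).card = M.card := by
  induction M using Multiset.induction_on with
  | empty => simp
  | cons z M ih =>
    obtain ⟨V, hV, hp, huniq⟩ := h z (Multiset.mem_cons_self z M)
    have h1 : ∀ V' ∈ T, ((z ::ₘ M).filter (p V')).card =
        (if V' = V then 1 else 0) + (M.filter (p V')).card := by
      intro V' hV'
      by_cases hpp : p V' z
      · rw [Multiset.filter_cons_of_pos _ hpp, Multiset.card_cons, if_pos (huniq V' hV' hpp)]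
        ring
      · rw [Multiset.filter_cons_of_neg _ hpp, if_neg (fun h : V' = V => hpp (by rw [h]; exact hp))]
        ring
    rw [Finset.sum_congr rfl h1, Finset.sum_add_distrib,
      ih (fun z' hz' => h z' (Multiset.mem_cons_of_mem hz')), Multiset.card_cons]
    simp [hV]; ring

open Classical in
/-- a finite set of centres with equal-or-disjoint discs is covered by disjoint discs. -/
theorem bd_cover (R : Finset K) (r : K → ℝ)
    (hr : ∀ z ∈ R, ∀ z' ∈ R, ‖z - z'‖ < max (r z) (r z') → r z = r z')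
    (hpos : ∀ z ∈ R, 0 < r z) :
    ∃ T : Finset (K × ℝ), (∀ V ∈ T, V.1 ∈ R ∧ V.2 = r V.1) ∧
      (∀ V ∈ T, ∀ V' ∈ T, V ≠ V' → max V.2 V'.2 ≤ ‖V.1 - V'.1‖) ∧
      ∀ z ∈ R, ∃ V ∈ T, ‖z - V.1‖ < V.2 := by
  induction R using Finset.induction_on with
  | empty => exact ⟨∅, by simp⟩
  | insert a R ha ih =>
    obtain ⟨T, h1, h2, h3⟩ := ih
      (fun z hz z' hz' => hr z (Finset.mem_insert_of_mem hz) z' (Finset.mem_insert_of_mem hz'))
      (fun z hz => hpos z (Finset.mem_insert_of_mem hz))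
    by_cases hcov : ∃ V ∈ T, ‖a - V.1‖ < V.2
    · refine ⟨T, fun V hV => ⟨Finset.mem_insert_of_mem (h1 V hV).1, (h1 V hV).2⟩, h2, ?_⟩
      intro z hz
      rcases Finset.mem_insert.1 hz with rfl | hz
      · exact hcov
      · exact h3 z hz
    · push Not at hcov
      have key : ∀ V ∈ T, max V.2 (r a) ≤ ‖V.1 - a‖ := by
        intro V hV
        by_contra hcon
        push Not at hcon
        obtain ⟨hV1, hV2⟩ := h1 V hV
        rw [hV2] at hcon
        have e := hr V.1 (Finset.mem_insert_of_mem hV1) a (Finset.mem_insert_self a R) hcon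
        rw [e, max_self, ← e, ← hV2, norm_sub_rev] at hcon
        exact absurd hcon (not_lt.2 (hcov V hV))
      refine ⟨insert (a, r a) T, ?_, ?_, ?_⟩
      · intro V hV
        rcases Finset.mem_insert.1 hV with rfl | hV
        · exact ⟨Finset.mem_insert_self a R, rfl⟩
        · exact ⟨Finset.mem_insert_of_mem (h1 V hV).1, (h1 V hV).2⟩
      · intro V hV V' hV' hne
        rcases Finset.mem_insert.1 hV with rfl | hV <;> rcases Finset.mem_insert.1 hV' with rfl | hV'
        · exact absurd rfl hne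
        · have := key V' hV'
          rw [max_comm, norm_sub_rev]; exact this
        · exact key V hV
        · exact h2 V hV V' hV' hne
      · intro z hz
        rcases Finset.mem_insert.1 hz with rfl | hz
        · exact ⟨(z, r z), Finset.mem_insert_self _ _, by simpa using hpos z (Finset.mem_insert_self _ _)⟩
        · obtain ⟨V, hV, h⟩ := h3 z hz
          exact ⟨V, Finset.mem_insert_of_mem hV, h⟩

/-- all good pullbacks of a non-bad disc. -/
theorem exists_pulls (f : RatMap K) (hd : 1 ≤ f.deg) {c : K} {s : ℝ} (hs : 0 < s)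
    (hnb : ¬ f.Bad c s) : ∃ T : Finset (K × ℝ),
      (∀ V ∈ T, f.GoodPull V.1 V.2 c s) ∧
      (∀ V ∈ T, ∀ V' ∈ T, V ≠ V' → Disjoint (oD V.1 V.2 : Set (P1 K)) (oD V'.1 V'.2)) ∧
      (∀ z : K, f.act (pt z : Berk K) ∈ oD c s → ∃ V ∈ T, ‖z - V.1‖ < V.2) ∧
      ∑ V ∈ T, f.gdeg V.1 V.2 c = f.deg := by
  classical
  have hP0 := f.sub_ne_zero hd c
  set R : Finset K := (f.P - C c * f.Q).roots.toFinset with hR
  have hroot : ∀ z ∈ R, (f.P - C c * f.Q).eval z = 0 := by
    intro z hz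
    rw [hR, Multiset.mem_toFinset, mem_roots hP0] at hz
    exact hz
  have hex : ∀ z : K, ∃ r : ℝ, z ∈ R → f.GoodPull z r c s := by
    intro z
    by_cases hz : z ∈ R
    · obtain ⟨r, hr⟩ := f.exists_goodPull hd hs hnb z (f.act_root_mem hs (hroot z hz))
      exact ⟨r, fun _ => hr⟩
    · exact ⟨0, fun h => absurd h hz⟩
  choose r hr using hex
  obtain ⟨T, h1, h2, h3⟩ := bd_cover R r
    (fun z hz z' hz' h => (hr z hz).radius_eq hd (hr z' hz') h) (fun z hz => (hr z hz).rpos)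
  have hG : ∀ V ∈ T, f.GoodPull V.1 V.2 c s := by
    intro V hV
    rw [(h1 V hV).2]; exact hr V.1 (h1 V hV).1
  refine ⟨T, hG, ?_, ?_, ?_⟩
  · intro V hV V' hV' hne
    have := h2 V hV V' hV' hne
    exact oD_disjoint ((le_max_left _ _).trans this) ((le_max_right _ _).trans this)
  · intro z hz
    obtain ⟨ρ, hρ⟩ := f.exists_goodPull hd hs hnb z hz
    have hg := hρ.one_le_gdeg hd
    unfold gdeg at hg
    rw [lo_eq_nlt hP0 z hρ.rpos, nlt, Nat.one_le_iff_ne_zero, ← Nat.pos_iff_ne_zero,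
      Multiset.card_pos_iff_exists_mem] at hg
    obtain ⟨z₀, hz₀⟩ := hg
    rw [Multiset.mem_filter] at hz₀
    obtain ⟨V, hV, hlt⟩ := h3 z₀ (by rw [hR, Multiset.mem_toFinset]; exact hz₀.1)
    refine ⟨V, hV, ?_⟩
    have hlt2 : ‖z - V.1‖ < max ρ V.2 := by
      have e : z - V.1 = (z - z₀) + (z₀ - V.1) := by ring
      rw [e]
      refine (IsUltrametricDist.norm_add_le_max _ _).trans_lt (max_lt ?_ ?_)
      · rw [norm_sub_rev]; exact hz₀.2.trans_le (le_max_left _ _)
      · exact hlt.trans_le (le_max_right _ _)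
    have e := hρ.radius_eq hd (hG V hV) hlt2
    rw [e, max_self] at hlt2
    exact hlt2
  · have hnd : (f.P - C c * f.Q).natDegree = f.deg := by
      by_contra hne
      have hlt : (f.P - C c * f.Q).natDegree < f.deg :=
        lt_of_le_of_ne (f.natDegree_sub_le c) hne
      have hco : (f.P - C c * f.Q).coeff f.deg = f.P.coeff f.deg - c * f.Q.coeff f.deg := by
        simp
      have h0 : f.P.coeff f.deg - c * f.Q.coeff f.deg = 0 := by
        rw [← hco]; exact coeff_eq_zero_of_natDegree_lt hlt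
      have hQc : f.Q.coeff f.deg ≠ 0 := by
        intro hq
        rw [hq, mul_zero, sub_zero] at h0
        have hd2 : f.deg = max f.P.natDegree f.Q.natDegree := rfl
        rcases le_total f.P.natDegree f.Q.natDegree with hle | hle
        · have : f.deg = f.Q.natDegree := by rw [hd2, max_eq_right hle]
          rw [this, coeff_natDegree, leadingCoeff_eq_zero] at hq
          exact f.Q_ne_zero hd hq
        · have : f.deg = f.P.natDegree := by rw [hd2, max_eq_left hle]
          rw [this, coeff_natDegree, leadingCoeff_eq_zero] at h0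
          rw [h0, natDegree_zero] at this
          omega
      refine hnb (Or.inl (f.act_infty_mem hQc ?_))
      rw [h0, norm_zero]
      exact mul_pos hs (norm_pos_iff.2 hQc)
    have hcard : (f.P - C c * f.Q).roots.card = f.deg := by
      rw [← hnd]
      exact (IsAlgClosed.splits (f.P - C c * f.Q)).natDegree_eq_card_roots.symm
    rw [← hcard, ← bd_sum_card (f.P - C c * f.Q).roots T (fun V z => ‖z - V.1‖ < V.2)]
    · refine Finset.sum_congr rfl fun V hV => ?_
      unfold gdeg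
      rw [lo_eq_nlt hP0 V.1 (hG V hV).rpos]
      rfl
    · intro z hz
      obtain ⟨V, hV, hlt⟩ := h3 z (by rw [hR, Multiset.mem_toFinset]; exact hz)
      refine ⟨V, hV, hlt, fun V' hV' hlt' => ?_⟩
      by_contra hne
      have h4 := h2 V' hV' V hV hne
      have e : V'.1 - V.1 = (V'.1 - z) + (z - V.1) := by ring
      have h5 : ‖V'.1 - V.1‖ < max V'.2 V.2 := by
        rw [e]
        refine (IsUltrametricDist.norm_add_le_max _ _).trans_lt (max_lt ?_ ?_)
        · rw [norm_sub_rev]; exact hlt'.trans_le (le_max_left _ _)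
        · exact hlt.trans_le (le_max_right _ _)
      linarith

/-! ### counting the bad discs -/

/-- two disjoint discs cannot hit the same interval. -/
theorem bd_interval (f : RatMap K) (hd : 1 ≤ f.deg) (p c c' : K) {s s' τ τ' : ℝ} {m : ℕ}
    (hs : s ≤ ‖c - c'‖) (hs' : s' ≤ ‖c - c'‖) (hτ : 0 < τ) (hττ : τ ≤ τ')
    (h1 : lo (co f.Q p) τ = m ∧ hi (co f.Q p) τ = m)
    (h2 : lo (co f.Q p) τ' = m ∧ hi (co f.Q p) τ' = m)
    (hb : gn (f.P - C c * f.Q) p τ < s * gn f.Q p τ)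
    (hb' : gn (f.P - C c' * f.Q) p τ' < s' * gn f.Q p τ') : False := by
  have hQ0 := f.Q_ne_zero hd
  have hP0 := f.sub_ne_zero hd c
  have hP0' := f.sub_ne_zero hd c'
  have hτ' : 0 < τ' := hτ.trans_le hττ
  have hB : ∀ t, 0 < t → 0 < gn f.Q p t := fun t ht => bd_gn_pos hQ0 p ht
  -- near τ', |f - c| = ‖c - c'‖
  have hcont : ∀ᶠ t in 𝓝[Set.Ici 0] τ',
      gn (f.P - C c' * f.Q) p t < s' * gn f.Q p t := by
    have c1 := (bd_continuousOn_gn hP0' p) τ' hτ'.le
    have c2 := ((bd_continuousOn_gn hQ0 p).const_smul s') τ' hτ'.le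
    exact c1.eventually_lt c2 hb'
  obtain ⟨ε, hε, hnear⟩ : ∃ ε, 0 < ε ∧ ∀ t, τ' ≤ t → t < τ' + ε →
      gn (f.P - C c' * f.Q) p t < s' * gn f.Q p t := by
    rw [eventually_nhdsWithin_iff, Metric.eventually_nhds_iff] at hcont
    obtain ⟨ε, hε, h⟩ := hcont
    refine ⟨ε, hε, fun t h3 h4 => h ?_ (hτ'.le.trans h3)⟩
    rw [Real.dist_eq, abs_lt]; constructor <;> linarith
  have heq : ∀ t, τ' ≤ t → t < τ' + ε →
      gn (f.P - C c * f.Q) p t = ‖c - c'‖ * gn f.Q p t := by
    intro t h3 h4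
    have ht := hτ'.trans_le h3
    refine bd_shift_eq f.P f.Q c c' p ht.le ((hnear t h3 h4).trans_le ?_)
    exact mul_le_mul_of_nonneg_right hs' (hB t ht).le
  have e0 := heq τ' le_rfl (by linarith)
  have hbδ : gn (f.P - C c * f.Q) p τ < ‖c - c'‖ * gn f.Q p τ :=
    hb.trans_le (mul_le_mul_of_nonneg_right hs (hB τ hτ).le)
  rcases hττ.eq_or_lt with h | hlt
  · rw [h] at hbδ; linarith
  -- growth from τ to τ'
  have hBm : gn f.Q p τ' = gn f.Q p τ * (τ' / τ) ^ m := by
    have := tv_eq_of_hi_eq_lo (TP_co hQ0 p) hτ hlt.le (by rw [h1.2, h2.1])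
    rw [h1.2] at this; exact this
  have hlo : m < lo (co (f.P - C c * f.Q) p) τ' := by
    refine lt_lo_of_growth (TP_co hP0 p) hτ hlt ?_
    change gn (f.P - C c * f.Q) p τ * (τ' / τ) ^ m < gn (f.P - C c * f.Q) p τ'
    rw [e0, hBm, ← mul_assoc]
    exact mul_lt_mul_of_pos_right hbδ (by positivity)
  obtain ⟨t₀, ht₀, habove⟩ := exists_above (TP_co hQ0 p) hτ'
  set t := (τ' + min t₀ (τ' + ε)) / 2 with ht
  have hmin : τ' < min t₀ (τ' + ε) := lt_min ht₀ (by linarith)
  have ht1 : τ' < t := by rw [ht]; linarith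
  have ht2 : t < t₀ := by
    have := min_le_left t₀ (τ' + ε); rw [ht]; linarith
  have ht3 : t < τ' + ε := by
    have := min_le_right t₀ (τ' + ε); rw [ht]; linarith
  have hQt := (habove t ht1 ht2)
  have hBt : gn f.Q p t = gn f.Q p τ' * (t / τ') ^ m := by
    have := tv_eq_of_hi_eq_lo (TP_co hQ0 p) hτ' ht1.le hQt.1.symm
    rw [h2.2] at this; exact this
  have hgr := tv_growth_hi (t' := t) (TP_co hP0 p) hτ'
  have hhi : m + 1 ≤ hi (co (f.P - C c * f.Q) p) τ' :=
    (Nat.succ_le_of_lt hlo).trans (lo_le_hi (TP_co hP0 p) hτ')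
  have hq : 1 < t / τ' := (one_lt_div hτ').2 ht1
  have hpow : (t / τ') ^ (m + 1) ≤ (t / τ') ^ (hi (co (f.P - C c * f.Q) p) τ') :=
    pow_le_pow_right₀ hq.le hhi
  have hA' : 0 < gn (f.P - C c * f.Q) p τ' := bd_gn_pos hP0 p hτ'
  have h5 : gn (f.P - C c * f.Q) p τ' * (t / τ') ^ (m + 1) ≤ gn (f.P - C c * f.Q) p t :=
    (mul_le_mul_of_nonneg_left hpow hA'.le).trans hgr
  have h6 : gn (f.P - C c * f.Q) p τ' * (t / τ') ^ m <
      gn (f.P - C c * f.Q) p τ' * (t / τ') ^ (m + 1) :=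
    mul_lt_mul_of_pos_left (pow_lt_pow_right₀ hq (Nat.lt_succ_self m)) hA'
  have h7 := heq t ht1.le ht3
  rw [hBt, ← mul_assoc, ← e0] at h7
  linarith

/-- a bad disc hits an open interval. -/
theorem bd_hits (f : RatMap K) (hd : 1 ≤ f.deg) {c p : K} {s t : ℝ} (hp : f.Q.eval p = 0)
    (ht : 0 < t) (hb : gn (f.P - C c * f.Q) p t < s * gn f.Q p t) :
    ∃ m : ℕ, 1 ≤ m ∧ m ≤ f.deg ∧ ∃ τ : ℝ, 0 < τ ∧ (lo (co f.Q p) τ = m ∧ hi (co f.Q p) τ = m) ∧
      gn (f.P - C c * f.Q) p τ < s * gn f.Q p τ := by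
  classical
  have hQ0 := f.Q_ne_zero hd
  have hP0 := f.sub_ne_zero hd c
  have hcont : ∀ᶠ u in 𝓝[Set.Ici 0] t, gn (f.P - C c * f.Q) p u < s * gn f.Q p u := by
    have c1 := (bd_continuousOn_gn hP0 p) t ht.le
    have c2 := ((bd_continuousOn_gn hQ0 p).const_smul s) t ht.le
    exact c1.eventually_lt c2 hb
  obtain ⟨ε, hε, hnear⟩ : ∃ ε, 0 < ε ∧ ∀ u, t ≤ u → u < t + ε →
      gn (f.P - C c * f.Q) p u < s * gn f.Q p u := by
    rw [eventually_nhdsWithin_iff, Metric.eventually_nhds_iff] at hcont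
    obtain ⟨ε, hε, h⟩ := hcont
    refine ⟨ε, hε, fun u h3 h4 => h ?_ (ht.le.trans h3)⟩
    rw [Real.dist_eq, abs_lt]; constructor <;> linarith
  obtain ⟨t₀, ht₀, habove⟩ := exists_above (TP_co hQ0 p) ht
  set u := (t + min t₀ (t + ε)) / 2 with hu
  have hmin : t < min t₀ (t + ε) := lt_min ht₀ (by linarith)
  have ht1 : t < u := by rw [hu]; linarith
  have ht2 : u < t₀ := by
    have := min_le_left t₀ (t + ε); rw [hu]; linarith
  have ht3 : u < t + ε := by
    have := min_le_right t₀ (t + ε); rw [hu]; linarith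
  have hu0 := ht.trans ht1
  refine ⟨hi (co f.Q p) t, ?_, ?_, u, hu0, habove u ht1 ht2, hnear u ht1.le ht3⟩
  · rw [← (habove u ht1 ht2).1, lo_eq_nlt hQ0 p hu0, nlt, Nat.one_le_iff_ne_zero,
      ← Nat.pos_iff_ne_zero, Multiset.card_pos_iff_exists_mem]
    refine ⟨p, ?_⟩
    rw [Multiset.mem_filter, mem_roots hQ0, sub_self, norm_zero]
    exact ⟨hp, hu0⟩
  · exact (hi_le_natDegree hQ0 p ht).trans f.natDegree_Q_le

/-- disjoint discs have distant centres. -/
theorem bd_dist {c c' : K} {s s' : ℝ} (hs : 0 < s) (hs' : 0 < s')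
    (h : Disjoint (oD c s : Set (P1 K)) (oD c' s')) : s ≤ ‖c - c'‖ ∧ s' ≤ ‖c - c'‖ := by
  constructor
  · by_contra hcon
    push Not at hcon
    have m1 : ((pt c' : Berk K) : P1 K) ∈ oD c s := by
      rw [coe_mem_oD, pt_lin, norm_sub_rev]; exact hcon
    have m2 : ((pt c' : Berk K) : P1 K) ∈ oD c' s' := by
      rw [coe_mem_oD, pt_lin, sub_self, norm_zero]; exact hs'
    exact Set.disjoint_left.1 h m1 m2
  · by_contra hcon
    push Not at hcon
    have m1 : ((pt c : Berk K) : P1 K) ∈ oD c s := by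
      rw [coe_mem_oD, pt_lin, sub_self, norm_zero]; exact hs
    have m2 : ((pt c : Berk K) : P1 K) ∈ oD c' s' := by
      rw [coe_mem_oD, pt_lin]; exact hcon
    exact Set.disjoint_left.1 h m1 m2

open Classical in
/-- **at most `d² + 1` bad discs** in a disjoint family. -/
theorem card_bad_le (f : RatMap K) (hd : 1 ≤ f.deg) (I : Finset (K × ℝ)) (hpos : ∀ V ∈ I, 0 < V.2)
    (hdisj : ∀ V ∈ I, ∀ V' ∈ I, V ≠ V' → Disjoint (oD V.1 V.2 : Set (P1 K)) (oD V'.1 V'.2)) :
    (I.filter (fun V => f.Bad V.1 V.2)).card ≤ f.deg ^ 2 + 1 := by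
  have hQ0 := f.Q_ne_zero hd
  set A := I.filter (fun V => f.act OnePoint.infty ∈ oD V.1 V.2) with hA
  set B := I.filter (fun V => ∃ p : K, f.Q.eval p = 0 ∧ ∃ t : ℝ, 0 < t ∧
    gn (f.P - C V.1 * f.Q) p t < V.2 * gn f.Q p t) with hB
  have hsub : I.filter (fun V => f.Bad V.1 V.2) ⊆ A ∪ B := by
    intro V hV
    rw [Finset.mem_filter] at hV
    rw [Finset.mem_union, hA, hB, Finset.mem_filter, Finset.mem_filter]
    rcases hV.2 with h | h
    · exact Or.inl ⟨hV.1, h⟩
    · exact Or.inr ⟨hV.1, h⟩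
  have hAc : A.card ≤ 1 := by
    rw [Finset.card_le_one]
    intro V hV V' hV'
    rw [hA, Finset.mem_filter] at hV hV'
    by_contra hne
    exact Set.disjoint_left.1 (hdisj V hV.1 V' hV'.1 hne) hV.2 hV'.2
  -- the label of a disc of B
  have hlab : ∀ V : K × ℝ, ∃ q : K × ℕ, V ∈ B → q.1 ∈ f.Q.roots.toFinset ∧
      q.2 ∈ Finset.Icc 1 f.deg ∧
      ∃ τ : ℝ, 0 < τ ∧ (lo (co f.Q q.1) τ = q.2 ∧ hi (co f.Q q.1) τ = q.2) ∧
        gn (f.P - C V.1 * f.Q) q.1 τ < V.2 * gn f.Q q.1 τ := by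
    intro V
    by_cases hV : V ∈ B
    · have hV' := hV
      rw [hB, Finset.mem_filter] at hV'
      obtain ⟨-, p, hp, t, ht, hb⟩ := hV'
      obtain ⟨m, hm1, hm2, h⟩ := f.bd_hits hd hp ht hb
      refine ⟨(p, m), fun _ => ⟨?_, Finset.mem_Icc.2 ⟨hm1, hm2⟩, h⟩⟩
      rw [Multiset.mem_toFinset, mem_roots hQ0]; exact hp
    · exact ⟨(0, 0), fun h => absurd h hV⟩
  choose q hq using hlab
  have hBc : B.card ≤ f.deg ^ 2 := by
    have hmaps : ∀ V ∈ B, q V ∈ f.Q.roots.toFinset ×ˢ Finset.Icc 1 f.deg := by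
      intro V hV
      rw [Finset.mem_product]
      exact ⟨(hq V hV).1, (hq V hV).2.1⟩
    have hinj : Set.InjOn q B := by
      intro V hV V' hV' heq
      by_contra hne
      have hVB := hV
      have hVB' := hV'
      rw [Finset.mem_coe] at hVB hVB'
      obtain ⟨-, -, τ, hτ, hm, hb⟩ := hq V hVB
      obtain ⟨-, -, τ', hτ', hm', hb'⟩ := hq V' hVB'
      rw [← heq] at hm' hb'
      have hI : V ∈ I := (Finset.mem_filter.1 (hB ▸ hVB)).1
      have hI' : V' ∈ I := (Finset.mem_filter.1 (hB ▸ hVB')).1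
      have hdist := bd_dist (hpos V hI) (hpos V' hI') (hdisj V hI V' hI' hne)
      rcases le_total τ τ' with h | h
      · exact f.bd_interval hd _ V.1 V'.1 hdist.1 hdist.2 hτ h hm hm' hb hb'
      · refine f.bd_interval hd _ V'.1 V.1 ?_ ?_ hτ' h hm' hm hb' hb
        · rw [norm_sub_rev]; exact hdist.2
        · rw [norm_sub_rev]; exact hdist.1
    have h1 := Finset.card_le_card_of_injOn q hmaps hinj
    rw [Finset.card_product, Nat.card_Icc, Nat.add_sub_cancel] at h1
    have h2 : f.Q.roots.toFinset.card ≤ f.deg :=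
      (Multiset.toFinset_card_le _).trans ((card_roots' _).trans f.natDegree_Q_le)
    calc B.card ≤ f.Q.roots.toFinset.card * f.deg := h1
      _ ≤ f.deg * f.deg := Nat.mul_le_mul_right _ h2
      _ = f.deg ^ 2 := by ring
  calc (I.filter (fun V => f.Bad V.1 V.2)).card ≤ (A ∪ B).card := Finset.card_le_card hsub
    _ ≤ A.card + B.card := Finset.card_union_le _ _
    _ ≤ f.deg ^ 2 + 1 := by omega

/-! ### associativity of the composition -/

omit [IsUltrametricDist K] [IsAlgClosed K] in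
theorem bd_homg_pow {m : ℕ} (F U V : K[X]) (hF : F.natDegree ≤ m) (i : ℕ) :
    homg (i * m) (F ^ i) U V = homg m F U V ^ i := by
  induction i with
  | zero =>
    have := homg_C 0 (1 : K) U V
    simpa using this
  | succ i ih =>
    have h1 : (F ^ i).natDegree ≤ i * m :=
      natDegree_pow_le.trans (Nat.mul_le_mul_left i hF)
    rw [pow_succ, Nat.succ_mul, homg_mul _ _ _ _ h1 hF, ih, pow_succ]

omit [IsUltrametricDist K] [IsAlgClosed K] in
theorem bd_homg_sum {ι : Type*} (S : Finset ι) (F : ι → K[X]) (n : ℕ) (U V : K[X]) :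
    homg n (∑ i ∈ S, F i) U V = ∑ i ∈ S, homg n (F i) U V := by
  classical
  induction S using Finset.induction_on with
  | empty => simp [homg]
  | insert a S ha ih => rw [Finset.sum_insert ha, Finset.sum_insert ha, homg_add, ih]

omit [IsUltrametricDist K] [IsAlgClosed K] in
theorem bd_homg_homg (n m : ℕ) (F U V A B : K[X]) (hU : U.natDegree ≤ m) (hV : V.natDegree ≤ m) :
    homg (n * m) (homg n F U V) A B = homg n F (homg m U A B) (homg m V A B) := by
  conv_lhs => rw [homg.eq_def n F U V, bd_homg_sum]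
  rw [homg.eq_def n F (homg m U A B) (homg m V A B)]
  refine Finset.sum_congr rfl fun i hi => ?_
  have hi' : i ≤ n := by simpa [Nat.lt_succ_iff] using hi
  have e : n * m = (0 + i * m) + (n - i) * m := by
    rw [zero_add, ← add_mul, Nat.add_sub_cancel' hi']
  have h1 : (U ^ i).natDegree ≤ i * m := natDegree_pow_le.trans (Nat.mul_le_mul_left i hU)
  have h2 : (V ^ (n - i)).natDegree ≤ (n - i) * m :=
    natDegree_pow_le.trans (Nat.mul_le_mul_left _ hV)
  have h3 : (C (F.coeff i) * U ^ i).natDegree ≤ 0 + i * m := by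
    refine natDegree_mul_le.trans ?_
    rw [natDegree_C]; omega
  rw [e, homg_mul _ _ _ _ h3 h2, homg_mul _ _ _ _ (by simp) h1, bd_homg_pow _ _ _ hU,
    bd_homg_pow _ _ _ hV, homg_C, pow_zero, mul_one]

omit [IsUltrametricDist K] [IsAlgClosed K] in
theorem bd_ext {f g : RatMap K} (hP : f.P = g.P) (hQ : f.Q = g.Q) : f = g := by
  cases f; cases g
  simp only at hP hQ
  subst hP; subst hQ; rfl

theorem bd_comp_assoc (f g h : RatMap K) : (f.comp g).comp h = f.comp (g.comp h) := by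
  refine bd_ext ?_ ?_
  · change homg (f.comp g).deg (homg f.deg f.P g.P g.Q) h.P h.Q = _
    rw [deg_comp, bd_homg_homg _ _ _ _ _ _ _ g.natDegree_P_le g.natDegree_Q_le]
    rfl
  · change homg (f.comp g).deg (homg f.deg f.Q g.P g.Q) h.P h.Q = _
    rw [deg_comp, bd_homg_homg _ _ _ _ _ _ _ g.natDegree_P_le g.natDegree_Q_le]
    rfl

theorem bd_comp_id (f : RatMap K) : f.comp (RatMap.id K) = f := by
  have key : ∀ F : K[X], F.natDegree ≤ f.deg → homg f.deg F X 1 = F := by
    intro F hF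
    rw [homg]
    conv_rhs => rw [F.as_sum_range_C_mul_X_pow' (Nat.lt_succ_of_le hF)]
    simp
  exact bd_ext (key _ f.natDegree_P_le) (key _ f.natDegree_Q_le)

theorem bd_id_comp (f : RatMap K) : (RatMap.id K).comp f = f := by
  have hd : (RatMap.id K).deg = 1 := by
    unfold RatMap.deg RatMap.id; simp
  refine bd_ext ?_ ?_
  · change homg (RatMap.id K).deg X f.P f.Q = f.P
    rw [hd, homg]
    simp [Finset.sum_range_succ]
  · change homg (RatMap.id K).deg 1 f.P f.Q = f.Q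
    rw [hd]
    have := homg_C 1 (1 : K) f.P f.Q
    simpa using this

theorem bd_iter_succ (f : RatMap K) (n : ℕ) : f.iter (n + 1) = (f.iter n).comp f := by
  induction n with
  | zero =>
    change f.comp (RatMap.id K) = (RatMap.id K).comp f
    rw [bd_comp_id, bd_id_comp]
  | succ n ih =>
    change f.comp (f.iter (n + 1)) = (f.comp (f.iter n)).comp f
    rw [ih, bd_comp_assoc]

theorem bd_goodPull_id (c : K) {s : ℝ} (hs : 0 < s) : (RatMap.id K).GoodPull c s c s := by
  refine ⟨hs, hs, ?_, ?_, ?_⟩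
  · intro z _
    change (1 : K[X]).eval z ≠ 0
    simp
  · change gn (X - C c * 1) c s = s * gn 1 c s
    rw [mul_one, gn_X_sub_C c c hs.le, ← C_1, gn_C _ _ hs.le]
    simp [hs.le]
  · change ‖(X - C c * 1 : K[X]).eval c‖ < s * ‖(1 : K[X]).eval c‖
    simpa using hs

open Classical in
/-- `T n` is a family of good pullbacks of `(c,s)` under `f^n`, not continued beyond bad discs. -/
structure IsTree (f : RatMap K) (c : K) (s : ℝ) (T : ℕ → Finset (K × ℝ)) : Prop where
  zero : T 0 = {(c, s)}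
  good : ∀ n, ∀ V ∈ T n, (f.iter n).GoodPull V.1 V.2 c s
  disj : ∀ n, ∀ V ∈ T n, ∀ V' ∈ T n, V ≠ V' →
    Disjoint (oD V.1 V.2 : Set (P1 K)) (oD V'.1 V'.2)
  parent : ∀ n, ∀ V' ∈ T (n + 1), ∃ V ∈ T n, ¬ f.Bad V.1 V.2 ∧ f.GoodPull V'.1 V'.2 V.1 V.2
  total : ∀ n, ∀ V ∈ T n, ¬ f.Bad V.1 V.2 →
    ∑ V' ∈ (T (n + 1)).filter (fun V' => f.GoodPull V'.1 V'.2 V.1 V.2),
      f.gdeg V'.1 V'.2 V.1 = f.deg

/-- the tree of good pullbacks exists. -/
theorem exists_tree (f : RatMap K) (hd : 1 ≤ f.deg) {c : K} {s : ℝ} (hs : 0 < s) :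
    ∃ T : ℕ → Finset (K × ℝ), f.IsTree c s T := by
  classical
  have hex : ∀ V : K × ℝ, ∃ T : Finset (K × ℝ), (0 < V.2 ∧ ¬ f.Bad V.1 V.2) →
      (∀ V' ∈ T, f.GoodPull V'.1 V'.2 V.1 V.2) ∧
      (∀ V' ∈ T, ∀ V'' ∈ T, V' ≠ V'' →
        Disjoint (oD V'.1 V'.2 : Set (P1 K)) (oD V''.1 V''.2)) ∧
      (∀ z : K, f.act (pt z : Berk K) ∈ oD V.1 V.2 → ∃ V' ∈ T, ‖z - V'.1‖ < V'.2) ∧
      ∑ V' ∈ T, f.gdeg V'.1 V'.2 V.1 = f.deg := by
    intro V
    by_cases h : 0 < V.2 ∧ ¬ f.Bad V.1 V.2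
    · obtain ⟨T, hT⟩ := f.exists_pulls hd h.1 h.2
      exact ⟨T, fun _ => hT⟩
    · exact ⟨∅, fun h' => absurd h' h⟩
  choose pulls hpulls using hex
  let step : Finset (K × ℝ) → Finset (K × ℝ) := fun S =>
    (S.filter (fun V => ¬ f.Bad V.1 V.2)).biUnion pulls
  let T : ℕ → Finset (K × ℝ) := fun n => step^[n] {(c, s)}
  have hT0 : T 0 = {(c, s)} := rfl
  have hTs : ∀ n, T (n + 1) = ((T n).filter (fun V => ¬ f.Bad V.1 V.2)).biUnion pulls := by
    intro n
    change step^[n + 1] {(c, s)} = _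
    rw [Function.iterate_succ_apply']
  have hmem : ∀ n V', V' ∈ T (n + 1) ↔ ∃ V, (V ∈ T n ∧ ¬ f.Bad V.1 V.2) ∧ V' ∈ pulls V := by
    intro n V'
    rw [hTs, Finset.mem_biUnion]
    simp only [Finset.mem_filter]
  have hdi : ∀ n, 1 ≤ (f.iter n).deg := by
    intro n; rw [deg_iter]; exact Nat.one_le_pow _ _ hd
  have hgood : ∀ n, ∀ V ∈ T n, (f.iter n).GoodPull V.1 V.2 c s := by
    intro n
    induction n with
    | zero =>
      intro V hV
      rw [hT0, Finset.mem_singleton] at hV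
      rw [hV]
      exact bd_goodPull_id c hs
    | succ n ih =>
      intro V' hV'
      obtain ⟨V, ⟨hV, hnb⟩, hV'⟩ := (hmem n V').1 hV'
      have h1 := ih V hV
      have h2 := (hpulls V ⟨h1.rpos, hnb⟩).1 V' hV'
      rw [bd_iter_succ]
      exact (h2.comp (hdi n) hd h1).1
  have hdisj : ∀ n, ∀ V ∈ T n, ∀ V' ∈ T n, V ≠ V' →
      Disjoint (oD V.1 V.2 : Set (P1 K)) (oD V'.1 V'.2) := by
    intro n
    induction n with
    | zero =>
      intro V hV V' hV' hne
      rw [hT0, Finset.mem_singleton] at hV hV'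
      exact absurd (hV.trans hV'.symm) hne
    | succ n ih =>
      intro V hV V' hV' hne
      obtain ⟨W, ⟨hW, hnb⟩, hV⟩ := (hmem n V).1 hV
      obtain ⟨W', ⟨hW', hnb'⟩, hV'⟩ := (hmem n V').1 hV'
      have p1 := hpulls W ⟨(hgood n W hW).rpos, hnb⟩
      have p2 := hpulls W' ⟨(hgood n W' hW').rpos, hnb'⟩
      by_cases hWW : W = W'
      · subst hWW
        exact p1.2.1 V hV V' hV' hne
      · rw [Set.disjoint_left]
        intro x hx hx'
        exact Set.disjoint_left.1 (ih W hW W' hW' hWW) ((p1.1 V hV).mapsTo hd hx)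
          ((p2.1 V' hV').mapsTo hd hx')
  refine ⟨T, hT0, hgood, hdisj, ?_, ?_⟩
  · intro n V' hV'
    obtain ⟨V, ⟨hV, hnb⟩, hV'⟩ := (hmem n V').1 hV'
    exact ⟨V, hV, hnb, (hpulls V ⟨(hgood n V hV).rpos, hnb⟩).1 V' hV'⟩
  · intro n V hV hnb
    have p1 := hpulls V ⟨(hgood n V hV).rpos, hnb⟩
    have e : (T (n + 1)).filter (fun V' => f.GoodPull V'.1 V'.2 V.1 V.2) = pulls V := by
      ext V'
      rw [Finset.mem_filter]
      constructor
      · rintro ⟨h1, h2⟩
        obtain ⟨W, ⟨hW, hnbW⟩, hV'⟩ := (hmem n V').1 h1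
        by_cases hWV : W = V
        · rw [← hWV]; exact hV'
        · exfalso
          have p2 := hpulls W ⟨(hgood n W hW).rpos, hnbW⟩
          have hx : ((pt V'.1 : Berk K) : P1 K) ∈ oD V'.1 V'.2 := by
            rw [coe_mem_oD, pt_lin, sub_self, norm_zero]; exact h2.rpos
          exact Set.disjoint_left.1 (hdisj n W hW V hV hWV) ((p2.1 V' hV').mapsTo hd hx)
            (h2.mapsTo hd hx)
      · intro h
        exact ⟨(hmem n V').2 ⟨V, ⟨hV, hnb⟩, h⟩, p1.1 V' h⟩
    rw [e]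
    exact p1.2.2.2

end RatMap

end Pool.Agent.Helper17.Berk
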