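import Mathlib
import Pool.Agent.Helper17.Berk.LocDeg
import Pool.Agent.Helper35.Berk.ConnAux
import Pool.Agent.Helper35.Berk.MoebAux

/-!
# Two consecutive totally ramified points (module B9, MP_160e9b_an)

Normalised case: `b₀ = ζ(0,r₀)`, `b₁ = f b₀ = ζ(0,r₁)`, `r₀ < r₁`, `b₂ = f b₁`, and `b₀`, `b₁` are the
only preimages of `b₁`, `b₂`.  The connected set `B₀ = {|T| > r₀} ∪ {∞}` does not contain `b₀`, so
`f(B₀)` is contained in a component `w₀` of `P1 ∖ {b₁}`; `B₁ = {|T| < r₁}` is mapped into a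
component `w₁` of `P1 ∖ {b₂}`; `B₀ ∪ B₁ = P1`, `f` is surjective, so `w₀ ∪ w₁ = P1`.
* Case A: `0 ∉ w₀`.  Then `w₀ ⊆ {|T| ≥ r₁} ∪ {∞} ⊆ B₀`, so `O := B₀` works (`b₂ = f b₁ ∈ f(B₀)`).
* Case B: `w₀ = {|T| < r₁}`.  All poles are in `{|T| ≤ r₀}` (so `∞` is not a pole) and
  `w₁ ⊇ P1 ∖ w₀ ∋ ∞`, `w₁ ≠ P1`, so `w₁ = (cD e r₂)ᶜ` with `cD e r₂ ⊆ {|T| < r₁}`, `b₂ = ζ(e,r₂)`,
  and `P - eQ` has no root in `{|T| < r₁}`.  Hence `|f - e|_x = κ |T|_x^(-d)` for
  `r₀ ≤ |T|_x ≤ r₁`, with `r₁ = κ r₀^(-d)` or rather `max(r₁, |e|) = r₁ = κ r₀^(-d)` and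
  `r₂ = κ r₁^(-d)`.  Put `r* = κ^(1/(d+1))`, so `r₀ < r* < r₁`.  If `|e| ≤ r*` then
  `f(ζ(0,r*)) = ζ(e,r*) = ζ(0,r*)` is fixed, and totally ramified: `CaseG`.  If `|e| > r*` then
  `O := oD e |e|` works: on it `|T| = |e|`, `|f - e| = κ |e|^(-d) < r* < |e|`.
General case: move `b₀ = ζ(a₀,ρ₀)`, `b₁ = ζ(a₁,ρ₁)` (if they are different) to normalised position by
a Moebius transformation `M` (`T - a`, `1/(T - a)` or `(T - a₀)/(T - a₁)`), and use
`M ∘ f ∘ M⁻¹`.
-/

open Polynomial Topology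

set_option linter.dupNamespace false

namespace Pool.Agent.Helper17.Berk

universe u

variable {K : Type u} [NontriviallyNormedField K] [IsUltrametricDist K] [IsAlgClosed K]

namespace RatMap

open Pool.Agent.Helper35.Berk

/-- potential good reduction: a totally invariant type II point. -/
def CaseG (f : RatMap K) : Prop :=
  ∃ a π : K, π ≠ 0 ∧ ∀ x : P1 K, f.act x = (zeta a ‖π‖ : Berk K) ↔ x = (zeta a ‖π‖ : Berk K)

/-- a forward invariant open set whose complement is connected and infinite. -/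
structure Absorbing (f : RatMap K) (O : Set (P1 K)) : Prop where
  isOpen : IsOpen O
  maps : ∀ x ∈ O, f.act x ∈ O
  infinite : Oᶜ.Infinite
  conn : IsPreconnected Oᶜ

/-- Moebius transformations: invertible rational maps. -/
structure IsMoebius (M M' : RatMap K) : Prop where
  left : ∀ x, M'.act (M.act x) = x
  right : ∀ x, M.act (M'.act x) = x

/-- normalisation of two type II points. -/
theorem exists_moebius (a₀ a₁ π₀ π₁ : K) (h₀ : π₀ ≠ 0) (h₁ : π₁ ≠ 0)
    (hne : zeta a₀ ‖π₀‖ ≠ zeta a₁ ‖π₁‖) :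
    ∃ M M' : RatMap K, IsMoebius M M' ∧ ∃ u₀ u₁ : K, u₀ ≠ 0 ∧ u₁ ≠ 0 ∧ ‖u₀‖ < ‖u₁‖ ∧
      M.act (zeta a₀ ‖π₀‖ : Berk K) = (zeta 0 ‖u₀‖ : Berk K) ∧
      M.act (zeta a₁ ‖π₁‖ : Berk K) = (zeta 0 ‖u₁‖ : Berk K) := by
  obtain ⟨M, M', hM, h⟩ := exists_moebius' a₀ a₁ π₀ π₁ h₀ h₁ hne
  exact ⟨M, M', ⟨hM.left, hM.right⟩, h⟩

/-- surjectivity on `P1`. -/
theorem act_surjective (f : RatMap K) (hd : 1 ≤ f.deg) : Function.Surjective f.act :=
  act_surjective_aux f hd

/-- the second case in the proof of `lemmaT_norm`: all poles are in the closed disc of radius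
`‖u₀‖`, and `f - e` has no zeros in the open disc of radius `‖u₁‖`. -/
theorem lemmaT_caseB (f : RatMap K) (hd : 2 ≤ f.deg) (u₀ u₁ e : K) {r₂ : ℝ} (h₀ : u₀ ≠ 0)
    (h₁ : u₁ ≠ 0) (hr₂ : 0 < r₂)
    (hlt : ‖u₀‖ < ‖u₁‖) (hf : f.act (zeta 0 ‖u₀‖ : Berk K) = (zeta 0 ‖u₁‖ : Berk K))
    (hf₂ : f.act (zeta 0 ‖u₁‖ : Berk K) = (zeta e r₂ : Berk K)) (he : ‖e‖ < ‖u₁‖)
    (hr₂' : r₂ < ‖u₁‖) (hdeg : f.Q.natDegree = f.deg)
    (hpole : ∀ z, f.Q.eval z = 0 → ‖z‖ ≤ ‖u₀‖)
    (hzero : ∀ z, (f.P - C e * f.Q).eval z = 0 → ‖u₁‖ ≤ ‖z‖) :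
    f.CaseG ∨ ∃ O, f.Absorbing O ∧ f.act (zeta 0 ‖u₁‖ : Berk K) ∈ O := by
  have hd1 : 1 ≤ f.deg := by omega
  have p₀ : 0 < ‖u₀‖ := norm_pos_iff.2 h₀
  have p₁ : 0 < ‖u₁‖ := norm_pos_iff.2 h₁
  have hQ0 : f.Q ≠ 0 := f.Q_ne_zero hd1
  have hF0 : f.P - C e * f.Q ≠ 0 := f.sub_ne_zero hd1 e
  set F : K[X] := f.P - C e * f.Q with hF
  set d := f.deg with hdd
  -- the constant `c₀`
  have hloF : lo (co F 0) ‖u₁‖ = 0 := by
    rw [lo_eq_nlt hF0 0 p₁, nlt, Multiset.card_eq_zero, Multiset.filter_eq_nil]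
    intro z hz
    rw [mem_roots hF0, IsRoot.def] at hz
    have := hzero z hz
    rw [sub_zero]
    push Not
    exact this
  set c₀ : ℝ := co F 0 0 with hc₀
  have hTF : TP (co F 0) := TP_co hF0 0
  have hc₁ : gn F 0 ‖u₁‖ = c₀ := by
    have h := lo_spec hTF p₁.le
    rw [hloF, pow_zero, mul_one] at h
    exact h.symm
  have hc₀pos : 0 < c₀ := by
    rw [← hc₁]
    exact tv_pos hTF p₁
  have hgF : ∀ t : ℝ, 0 ≤ t → t ≤ ‖u₁‖ → gn F 0 t = c₀ := by
    intro t ht ht'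
    apply le_antisymm
    · rw [← hc₁]
      exact tv_mono hTF ht ht'
    · have := le_tv hTF t 0
      rwa [pow_zero, mul_one] at this
  have hloFt : ∀ t : ℝ, 0 < t → t ≤ ‖u₁‖ → lo (co F 0) t = 0 := by
    intro t ht ht'
    rcases ht'.lt_or_eq with h | h
    · have h1 := hi_le_lo hTF ht h
      have h2 := lo_le_hi hTF ht
      omega
    · rw [h]; exact hloF
  -- the leading coefficient of `Q`
  set q : ℝ := ‖f.Q.leadingCoeff‖ with hq
  have hqpos : 0 < q := norm_pos_iff.2 (leadingCoeff_ne_zero.2 hQ0)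
  have hcard : f.Q.roots.card = d := by
    rw [← hdeg]
    exact ((IsAlgClosed.splits f.Q).natDegree_eq_card_roots).symm
  have hxQ : ∀ x : Berk K, ‖u₀‖ < x X → x f.Q = q * x X ^ d := by
    intro x hx
    rw [x.eq_prod f.Q]
    have : f.Q.roots.map (fun z => x (X - C z)) = f.Q.roots.map (fun _ => x X) := by
      apply Multiset.map_congr rfl
      intro z hz
      rw [mem_roots hQ0, IsRoot.def] at hz
      have h1 := hpole z hz
      have h2 := x.lin_eq_lin (a := z) (b := 0)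
        (by rw [sub_zero, C_0, sub_zero]; exact lt_of_le_of_lt h1 hx)
      rwa [C_0, sub_zero] at h2
    rw [this, Multiset.map_const', Multiset.prod_replicate, hcard]
  have hgQ : ∀ t : ℝ, ‖u₀‖ ≤ t → gn f.Q 0 t = q * t ^ d := by
    intro t ht
    rw [gn_eq_prod f.Q 0 (p₀.le.trans ht)]
    have : f.Q.roots.map (fun z => max t ‖z - 0‖) = f.Q.roots.map (fun _ => t) := by
      apply Multiset.map_congr rfl
      intro z hz
      rw [mem_roots hQ0, IsRoot.def] at hz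
      rw [sub_zero]
      exact max_eq_left ((hpole z hz).trans ht)
    rw [this, Multiset.map_const', Multiset.prod_replicate, hcard]
  have hhiQ : ∀ t : ℝ, ‖u₀‖ ≤ t → hi (co f.Q 0) t = d := by
    intro t ht
    rw [hi_eq_nle hQ0 0 (p₀.trans_le ht), nle, Multiset.filter_eq_self.2, hcard]
    intro z hz
    rw [mem_roots hQ0, IsRoot.def] at hz
    rw [sub_zero]
    exact (hpole z hz).trans ht
  have hloQ : ∀ t : ℝ, ‖u₀‖ < t → lo (co f.Q 0) t = d := by
    intro t ht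
    rw [lo_eq_nlt hQ0 0 (p₀.trans ht), nlt, Multiset.filter_eq_self.2, hcard]
    intro z hz
    rw [mem_roots hQ0, IsRoot.def] at hz
    rw [sub_zero]
    exact (hpole z hz).trans_lt ht
  -- the equations at `b₀` and `b₁`
  have e₀ : c₀ = ‖u₁‖ * (q * ‖u₀‖ ^ d) := by
    have h := (f.act_zeta_iff hd1 0 0 p₀ p₁.le).1 hf e
    rw [← hF, hgF _ p₀.le hlt.le, sub_zero, max_eq_left he.le, hgQ _ le_rfl] at h
    exact h
  have e₁ : c₀ = r₂ * (q * ‖u₁‖ ^ d) := by
    have h := (f.act_zeta_iff hd1 0 e p₁ hr₂.le).1 hf₂ e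
    rw [← hF, hgF _ p₁.le le_rfl, sub_self, norm_zero, max_eq_left hr₂.le, hgQ _ hlt.le] at h
    exact h
  -- the radius `r*`
  obtain ⟨w, hw⟩ := IsAlgClosed.exists_pow_nat_eq (F.eval 0 / f.Q.leadingCoeff)
    (show 0 < d + 1 by omega)
  have hw' : q * ‖w‖ ^ (d + 1) = c₀ := by
    rw [← norm_pow, hw, norm_div, ← hq, hc₀]
    have : co F 0 0 = ‖F.eval 0‖ := by
      simp only [co, taylor_coeff_zero]
    rw [this]
    field_simp
  have hw0 : 0 < ‖w‖ := by
    rw [norm_pos_iff]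
    rintro rfl
    rw [norm_zero, zero_pow (by omega), mul_zero] at hw'
    linarith
  have hw1 : ‖u₀‖ < ‖w‖ := by
    by_contra hle
    push Not at hle
    have h1 : q * ‖w‖ ^ (d + 1) < ‖u₁‖ * (q * ‖u₀‖ ^ d) := by
      calc q * ‖w‖ ^ (d + 1) = ‖w‖ * (q * ‖w‖ ^ d) := by ring
        _ ≤ ‖w‖ * (q * ‖u₀‖ ^ d) := by gcongr
        _ < ‖u₁‖ * (q * ‖u₀‖ ^ d) := by
            have : ‖w‖ < ‖u₁‖ := lt_of_le_of_lt hle hlt
            gcongr
    rw [hw', ← e₀] at h1
    exact lt_irrefl _ h1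
  have hw2 : ‖w‖ < ‖u₁‖ := by
    by_contra hle
    push Not at hle
    have h1 : r₂ * (q * ‖u₁‖ ^ d) < q * ‖w‖ ^ (d + 1) := by
      calc r₂ * (q * ‖u₁‖ ^ d) < ‖u₁‖ * (q * ‖u₁‖ ^ d) := by gcongr
        _ ≤ ‖w‖ * (q * ‖w‖ ^ d) := by gcongr
        _ = q * ‖w‖ ^ (d + 1) := by ring
    rw [hw', ← e₁] at h1
    exact lt_irrefl _ h1
  by_cases hew : ‖e‖ ≤ ‖w‖
  · -- a totally ramified fixed point
    left
    have hz : zeta e ‖w‖ = zeta (0 : K) ‖w‖ := by
      rw [zeta_eq_zeta_iff hw0.le hw0.le]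
      exact ⟨rfl, by rwa [sub_zero]⟩
    have hfix' : f.act (zeta 0 ‖w‖ : Berk K) = (zeta e ‖w‖ : Berk K) := by
      refine f.act_zeta_of_slopes hd1 0 e hw0 hw0 ?_ (Or.inl ?_)
      · rw [← hF, hgF _ hw0.le hw2.le, hgQ _ hw1.le, ← hw']
        ring
      · rw [← hF, hloFt _ hw0 hw2.le, hloQ _ hw1]
        omega
    have hfix : f.act (zeta 0 ‖w‖ : Berk K) = (zeta 0 ‖w‖ : Berk K) := by rw [hfix', hz]
    have hld : f.locDeg (zeta 0 ‖w‖ : Berk K) = f.deg := by
      apply le_antisymm (f.locDeg_le_deg _)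
      have h1 := f.le_locDeg_zeta_add hd1 0 hw0 ∅ (by simp) ?_
      · rw [Finset.sum_empty, add_zero] at h1
        refine le_trans ?_ h1
        rw [hfix', f.G_zeta 0 e hw0.le, hi_tmax_of_eq (TP_co hF0 0) (TP_co hQ0 0) hw0 hw0]
        · exact (hhiQ _ hw1.le) ▸ le_max_right _ _
        · change gn F 0 ‖w‖ = ‖w‖ * gn f.Q 0 ‖w‖
          rw [hgF _ hw0.le hw2.le, hgQ _ hw1.le, ← hw']
          ring
      · intro b hb _
        rw [hfix', f.G_zeta b e hw0.le, lo_tmax_of_eq (TP_co hF0 b) (TP_co hQ0 b) hw0 hw0]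
        · have h2 : lo (co (f.P - C e * f.Q) b) ‖w‖ = 0 := by
            rw [← hF, lo_eq_nlt hF0 b hw0, nlt, Multiset.card_eq_zero, Multiset.filter_eq_nil]
            intro z hz
            rw [mem_roots hF0, IsRoot.def] at hz
            have h3 := hzero z hz
            intro h4
            have h5 : ‖z‖ ≤ max ‖z - b‖ ‖b‖ := by
              have := IsUltrametricDist.norm_add_le_max (z - b) b
              rwa [sub_add_cancel] at this
            rw [sub_zero] at hb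
            have h6 := h5.trans (max_le h4.le hb)
            linarith
          rw [h2]
          simp
        · change gn F b ‖w‖ = ‖w‖ * gn f.Q b ‖w‖
          have hb' : ‖b - 0‖ ≤ ‖w‖ := hb
          rw [gn_center F hb', gn_center f.Q hb', hgF _ hw0.le hw2.le, hgQ _ hw1.le, ← hw']
          ring
    refine ⟨0, w, norm_pos_iff.1 hw0, fun x => ⟨fun hx => ?_, fun hx => ?_⟩⟩
    · exact f.eq_of_locDeg_eq_deg hd1 0 hw0 hld x (by rw [hfix]; exact hx)
    · rw [hx]; exact hfix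
  · -- an attracting disc
    right
    push Not at hew
    have he0 : 0 < ‖e‖ := hw0.trans hew
    refine ⟨oD e ‖e‖, ⟨isOpen_oD _ _, ?_, infinite_compl_oD e he0, ?_⟩, ?_⟩
    · rintro _ ⟨x, rfl, hx⟩
      have hxX : x X = ‖e‖ := by
        have := x.lin_eq_norm (a := 0) (b := e) (by rw [zero_sub, norm_neg]; exact hx)
        rwa [C_0, sub_zero, zero_sub, norm_neg] at this
      rw [f.act_mem_oD_iff x e he0]
      have h1 : x F = c₀ := by
        rw [x.eq_gn hF0 (a := 0) (t := ‖u₁‖) (by rw [C_0, sub_zero, hxX]; exact he) hloF, hc₁]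
      rw [← hF, h1, hxQ x (by rw [hxX]; exact hw1.trans hew), hxX, ← hw']
      calc q * ‖w‖ ^ (d + 1) < q * ‖e‖ ^ (d + 1) := by gcongr
        _ = ‖e‖ * (q * ‖e‖ ^ d) := by ring
    · exact isPreconnected_compl_oD e (norm_pos_iff.1 he0)
    · rw [hf₂, coe_mem_oD, zeta_lin _ _ hr₂.le, sub_self, norm_zero, max_eq_left hr₂.le]
      refine lt_trans ?_ hew
      by_contra hle
      push Not at hle
      have h1 : q * ‖w‖ ^ (d + 1) < r₂ * (q * ‖u₁‖ ^ d) := by
        calc q * ‖w‖ ^ (d + 1) = ‖w‖ * (q * ‖w‖ ^ d) := by ring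
          _ ≤ r₂ * (q * ‖w‖ ^ d) := by gcongr
          _ < r₂ * (q * ‖u₁‖ ^ d) := by
              have : d ≠ 0 := by omega
              gcongr
      rw [hw', ← e₁] at h1
      exact lt_irrefl _ h1

theorem lemmaT_norm (f : RatMap K) (hd : 2 ≤ f.deg) (u₀ u₁ : K) (h₀ : u₀ ≠ 0) (h₁ : u₁ ≠ 0)
    (hlt : ‖u₀‖ < ‖u₁‖) (hf : f.act (zeta 0 ‖u₀‖ : Berk K) = (zeta 0 ‖u₁‖ : Berk K))
    (ht₀ : ∀ x, f.act x = (zeta 0 ‖u₁‖ : Berk K) → x = (zeta 0 ‖u₀‖ : Berk K))
    (ht₁ : ∀ x, f.act x = f.act (zeta 0 ‖u₁‖ : Berk K) → x = (zeta 0 ‖u₁‖ : Berk K)) :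
    f.CaseG ∨ ∃ O, f.Absorbing O ∧ f.act (zeta 0 ‖u₁‖ : Berk K) ∈ O := by
  have hd1 : 1 ≤ f.deg := by omega
  have p₀ : 0 < ‖u₀‖ := norm_pos_iff.2 h₀
  have p₁ : 0 < ‖u₁‖ := norm_pos_iff.2 h₁
  set B₀ : Set (P1 K) := (cD 0 ‖u₀‖)ᶜ with hB₀
  have hfB₀ : IsPreconnected (f.act '' B₀) :=
    (isPreconnected_compl_cD 0 p₀.le).image _ f.continuous_act.continuousOn
  have hb₁ : ((zeta 0 ‖u₁‖ : Berk K) : P1 K) ∉ f.act '' B₀ := by
    rintro ⟨x, hx, hx'⟩
    have := ht₀ x hx'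
    subst this
    apply hx
    rw [coe_mem_cD, zeta_lin _ _ p₀.le, sub_zero, norm_zero, max_eq_left p₀.le]
  have hb₁B₀ : ((zeta 0 ‖u₁‖ : Berk K) : P1 K) ∈ B₀ := by
    rw [hB₀, Set.mem_compl_iff, coe_mem_cD, zeta_lin _ _ p₁.le, sub_zero, norm_zero,
      max_eq_left p₁.le]
    push Not
    exact hlt
  by_cases hA : (f.act '' B₀ ∩ oD 0 ‖u₁‖).Nonempty
  swap
  · -- Case A
    right
    refine ⟨B₀, ⟨(isClosed_cD 0 _).isOpen_compl, ?_, ?_, ?_⟩, ?_⟩
    · intro x hx h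
      apply hA
      refine ⟨f.act x, ⟨x, hx, rfl⟩, ?_⟩
      obtain ⟨y, hy, hy'⟩ := h
      rw [hy, coe_mem_oD]
      exact lt_of_le_of_lt hy' hlt
    · rw [hB₀, compl_compl]
      exact infinite_cD 0 p₀
    · rw [hB₀, compl_compl]
      exact isPreconnected_cD 0 p₀.le
    · intro h
      apply hA
      refine ⟨f.act (zeta 0 ‖u₁‖ : Berk K), ⟨_, hb₁B₀, rfl⟩, ?_⟩
      obtain ⟨y, hy, hy'⟩ := h
      rw [hy, coe_mem_oD]
      exact lt_of_le_of_lt hy' hlt
  · -- Case B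
    have hsub : f.act '' B₀ ⊆ oD 0 ‖u₁‖ := subset_oD_of_preconnected hfB₀ p₁ hb₁ hA
    obtain ⟨e, v₂, hv₂, hf₂⟩ := f.exists_act_zeta_two hd1 0 u₁ h₁
    have p₂ : 0 < ‖v₂‖ := norm_pos_iff.2 hv₂
    have hb₂ : ((zeta e ‖v₂‖ : Berk K) : P1 K) ∈ oD 0 ‖u₁‖ := by
      rw [← hf₂]
      exact hsub ⟨_, hb₁B₀, rfl⟩
    rw [coe_mem_oD, zeta_lin _ _ p₂.le, zero_sub, norm_neg, max_lt_iff] at hb₂
    have hfB₁ : IsPreconnected (f.act '' (oD 0 ‖u₁‖ : Set (P1 K))) :=
      (isPreconnected_oD 0 _).image _ f.continuous_act.continuousOn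
    have hb₂' : ((zeta e ‖v₂‖ : Berk K) : P1 K) ∉ f.act '' (oD 0 ‖u₁‖ : Set (P1 K)) := by
      rintro ⟨x, hx, hx'⟩
      have := ht₁ x (by rw [hx', hf₂])
      subst this
      rw [coe_mem_oD, zeta_lin _ _ p₁.le, sub_zero, norm_zero, max_eq_left p₁.le] at hx
      exact lt_irrefl _ hx
    have hinf : (OnePoint.infty : P1 K) ∈ f.act '' (oD 0 ‖u₁‖ : Set (P1 K)) := by
      obtain ⟨x, hx⟩ := act_surjective_aux f hd1 OnePoint.infty
      refine ⟨x, ?_, hx⟩
      by_contra hx'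
      have hxB : x ∈ B₀ := by
        intro h
        apply hx'
        obtain ⟨y, hy, hy'⟩ := h
        rw [hy, coe_mem_oD]
        exact lt_of_le_of_lt hy' hlt
      have := hsub ⟨x, hxB, rfl⟩
      rw [hx] at this
      exact infty_notMem_oD this
    have hsub₂ : f.act '' (oD 0 ‖u₁‖ : Set (P1 K)) ⊆ (cD e ‖v₂‖)ᶜ :=
      subset_compl_cD_of_preconnected hfB₁ p₂ hb₂' ⟨_, hinf, infty_notMem_cD⟩
    refine lemmaT_caseB f hd u₀ u₁ e h₀ h₁ p₂ hlt hf hf₂ hb₂.2 hb₂.1 ?_ ?_ ?_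
    · -- infinity is not a pole
      by_contra hne
      have hle := f.natDegree_Q_le
      have hlt' : f.Q.natDegree < f.deg := lt_of_le_of_ne hle hne
      have h1 : f.actK OnePoint.infty = OnePoint.infty :=
        actK_infty_of_eq f (coeff_eq_zero_of_natDegree_lt hlt')
      have h2 : (OnePoint.infty : P1 K) ∈ B₀ := infty_notMem_cD
      have h3 := hsub ⟨_, h2, rfl⟩
      have h4 := f.act_emb OnePoint.infty
      rw [h1, emb_infty] at h4
      rw [h4] at h3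
      exact infty_notMem_oD h3
    · intro z hz
      by_contra hlt'
      push Not at hlt'
      have h2 : ((pt z : Berk K) : P1 K) ∈ B₀ := by
        rw [hB₀, Set.mem_compl_iff, coe_mem_cD, pt_lin, sub_zero]
        push Not
        exact hlt'
      have h3 := hsub ⟨_, h2, rfl⟩
      have h4 := f.act_emb (z : OnePoint K)
      rw [actK_coe_of_eq f hz, emb_infty, emb_coe] at h4
      rw [h4] at h3
      exact infty_notMem_oD h3
    · intro z hz
      by_contra hlt'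
      push Not at hlt'
      have h2 : ((pt z : Berk K) : P1 K) ∈ (oD 0 ‖u₁‖ : Set (P1 K)) := by
        rw [coe_mem_oD, pt_lin, sub_zero]
        exact hlt'
      have h3 := hsub₂ ⟨_, h2, rfl⟩
      apply h3
      have hQz : f.Q.eval z ≠ 0 := by
        intro hQ
        rw [eval_sub, eval_mul, hQ, mul_zero, sub_zero] at hz
        exact isCoprime_iff_root.1 f.cop z ⟨hz, hQ⟩
      have h4 := f.act_emb (z : OnePoint K)
      rw [actK_coe_of_ne f hQz, emb_coe] at h4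
      rw [h4, emb_coe, coe_mem_cD, pt_lin]
      have : f.P.eval z / f.Q.eval z = e := by
        rw [eval_sub, eval_mul, eval_C, sub_eq_zero] at hz
        rw [hz]
        field_simp
      rw [this, sub_self, norm_zero]
      exact p₂.le

/-- **Lemma T.** -/
theorem lemmaT (f : RatMap K) (hd : 2 ≤ f.deg) (a π : K) (hπ : π ≠ 0)
    (ht₀ : ∀ x, f.act x = f.act (zeta a ‖π‖ : Berk K) → x = (zeta a ‖π‖ : Berk K))
    (ht₁ : ∀ x, f.act x = f.act (f.act (zeta a ‖π‖ : Berk K)) →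
      x = f.act (zeta a ‖π‖ : Berk K)) :
    f.CaseG ∨ ∃ O, f.Absorbing O ∧ f.act (f.act (zeta a ‖π‖ : Berk K)) ∈ O := by
  have hd1 : 1 ≤ f.deg := by omega
  obtain ⟨c, π', hπ', hb⟩ := f.exists_act_zeta_two hd1 a π hπ
  rw [hb] at ht₀ ht₁ ⊢
  by_cases hne : zeta a ‖π‖ = zeta c ‖π'‖
  · left
    refine ⟨a, π, hπ, fun x => ⟨fun hx => ht₀ x (by rw [hx, hne]), fun hx => ?_⟩⟩
    rw [hx, hb, hne]
  obtain ⟨M, M', hM, u₀, u₁, h₀, h₁, hlt, e₀, e₁⟩ := exists_moebius' a c π π' hπ hπ' hne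
  set g : RatMap K := M.comp (f.comp M') with hg
  have hgact : ∀ x, g.act x = M.act (f.act (M'.act x)) := by
    intro x
    rw [hg, act_comp, act_comp]
  have hgdeg : 2 ≤ g.deg := by
    rw [hg, deg_comp, deg_comp, hM.deg, hM.deg']
    omega
  have hM0 : M'.act (zeta 0 ‖u₀‖ : Berk K) = (zeta a ‖π‖ : Berk K) := by rw [← e₀, hM.left]
  have hM1 : M'.act (zeta 0 ‖u₁‖ : Berk K) = (zeta c ‖π'‖ : Berk K) := by rw [← e₁, hM.left]
  have key := lemmaT_norm g hgdeg u₀ u₁ h₀ h₁ hlt ?_ ?_ ?_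
  · rcases key with ⟨a', v, hv, hG⟩ | ⟨O, hO, hmem⟩
    · left
      obtain ⟨a'', v', hv', e⟩ := M'.exists_act_zeta_two (by rw [hM.deg']) a' v hv
      refine ⟨a'', v', hv', fun x => ?_⟩
      have h := hG (M.act x)
      rw [hgact, hM.left] at h
      constructor
      · intro hx
        have h2 : M.act (f.act x) = (zeta a' ‖v‖ : Berk K) := by rw [hx, ← e, hM.right]
        have h3 := h.1 h2
        rw [← e, ← h3, hM.left]
      · intro hx
        have h2 : M.act x = (zeta a' ‖v‖ : Berk K) := by rw [hx, ← e, hM.right]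
        have h3 := h.2 h2
        rw [← e, ← h3, hM.left]
    · right
      refine ⟨M.act ⁻¹' O, ⟨hO.isOpen.preimage M.continuous_act, ?_, ?_, ?_⟩, ?_⟩
      · intro x hx
        have h := hO.maps _ hx
        rw [hgact, hM.left] at h
        exact h
      · have h : (M.act ⁻¹' O)ᶜ = M'.act '' Oᶜ := by
          ext x
          constructor
          · intro hx
            exact ⟨M.act x, hx, hM.left x⟩
          · rintro ⟨y, hy, rfl⟩ hx
            apply hy
            rw [Set.mem_preimage, hM.right] at hx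
            exact hx
        rw [h]
        apply hO.infinite.image
        intro x _ y _ hxy
        have := congrArg M.act hxy
        rwa [hM.right, hM.right] at this
      · have h : (M.act ⁻¹' O)ᶜ = M'.act '' Oᶜ := by
          ext x
          constructor
          · intro hx
            exact ⟨M.act x, hx, hM.left x⟩
          · rintro ⟨y, hy, rfl⟩ hx
            apply hy
            rw [Set.mem_preimage, hM.right] at hx
            exact hx
        rw [h]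
        exact hO.conn.image _ M'.continuous_act.continuousOn
      · rw [hgact, hM1] at hmem
        exact hmem
  · rw [hgact, hM0, hb, e₁]
  · intro x hx
    rw [hgact] at hx
    have h1 : f.act (M'.act x) = (zeta c ‖π'‖ : Berk K) := by
      have := congrArg M'.act hx
      rwa [hM.left, hM1] at this
    have h2 := ht₀ _ h1
    rw [← e₀, ← h2, hM.right]
  · intro x hx
    rw [hgact, hgact, hM1] at hx
    have h1 : f.act (M'.act x) = f.act (zeta c ‖π'‖ : Berk K) := by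
      have := congrArg M'.act hx
      rwa [hM.left, hM.left] at this
    have h2 := ht₁ _ h1
    rw [← e₁, ← h2, hM.right]

/-- the numbers `β_n = ((d-1)/d)^⌊n/2⌋`. -/
noncomputable def bet (d n : ℕ) : ℝ := (((d : ℝ) - 1) / d) ^ (n / 2)

/-- local degrees of iterates: exponentially smaller than `d^n`, or absorbed. -/
theorem locDeg_iter_le (f : RatMap K) (hd : 2 ≤ f.deg) (hG : ¬ f.CaseG) (a π : K) (hπ : π ≠ 0)
    (n : ℕ) : ((f.iter n).locDeg (zeta a ‖π‖ : Berk K) : ℝ) ≤ bet f.deg n * (f.deg : ℝ) ^ n ∨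
      ∃ O, f.Absorbing O ∧ (f.iter n).act (zeta a ‖π‖ : Berk K) ∈ O := by
  have hd1 : 1 ≤ f.deg := by omega
  have hdR : (2 : ℝ) ≤ f.deg := by exact_mod_cast hd
  have hdR0 : (0 : ℝ) < f.deg := by linarith
  induction n using Nat.twoStepInduction with
  | zero =>
    left
    have h := (f.iter 0).locDeg_le_deg (zeta a ‖π‖ : Berk K)
    rw [f.deg_iter, pow_zero] at h
    have h2 : ((f.iter 0).locDeg (zeta a ‖π‖ : Berk K) : ℝ) ≤ 1 := by exact_mod_cast h
    simpa [bet] using h2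
  | one =>
    left
    have h := (f.iter 1).locDeg_le_deg (zeta a ‖π‖ : Berk K)
    rw [f.deg_iter, pow_one] at h
    have h2 : ((f.iter 1).locDeg (zeta a ‖π‖ : Berk K) : ℝ) ≤ f.deg := by exact_mod_cast h
    simpa [bet] using h2
  | more n ih _ =>
    have hbit : bet f.deg (n + 2) = ((f.deg : ℝ) - 1) / f.deg * bet f.deg n := by
      rw [bet, bet, show (n + 2) / 2 = n / 2 + 1 by omega, pow_succ']
    have hact : (f.iter (n + 2)).act (zeta a ‖π‖ : Berk K) =
        f.act (f.act ((f.iter n).act (zeta a ‖π‖ : Berk K))) := by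
      rw [act_iter, act_iter, Function.iterate_succ_apply', Function.iterate_succ_apply']
    have hdn : 1 ≤ (f.iter n).deg := by
      rw [f.deg_iter]
      exact Nat.one_le_pow _ _ (by omega)
    obtain ⟨c, v, hv, hb⟩ := (f.iter n).exists_act_zeta_two hdn a π hπ
    obtain ⟨c', v', hv', hb'⟩ := f.exists_act_zeta_two hd1 c v hv
    rcases ih with ih | ⟨O, hO, hmem⟩
    swap
    · right
      exact ⟨O, hO, by rw [hact]; exact hO.maps _ (hO.maps _ hmem)⟩
    by_cases hfull : f.locDeg (zeta c ‖v‖ : Berk K) = f.deg ∧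
        f.locDeg (zeta c' ‖v'‖ : Berk K) = f.deg
    · have t₀ : ∀ x, f.act x = f.act (zeta c ‖v‖ : Berk K) → x = (zeta c ‖v‖ : Berk K) :=
        fun x hx => f.eq_of_locDeg_eq_deg hd1 c (norm_pos_iff.2 hv) hfull.1 x hx
      have t₁ : ∀ x, f.act x = f.act (f.act (zeta c ‖v‖ : Berk K)) →
          x = f.act (zeta c ‖v‖ : Berk K) := by
        intro x hx
        rw [hb'] at hx ⊢
        exact f.eq_of_locDeg_eq_deg hd1 c' (norm_pos_iff.2 hv') hfull.2 x hx
      rcases f.lemmaT hd c v hv t₀ t₁ with h | ⟨O, hO, hmem⟩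
      · exact absurd h hG
      · right
        exact ⟨O, hO, by rw [hact, hb]; exact hmem⟩
    · left
      have h1 : (f.iter (n + 2)).locDeg (zeta a ‖π‖ : Berk K) ≤
          f.locDeg (zeta c' ‖v'‖ : Berk K) * (f.locDeg (zeta c ‖v‖ : Berk K) *
            (f.iter n).locDeg (zeta a ‖π‖ : Berk K)) := by
        have h2 := locDeg_comp_le f (f.iter (n + 1)) (zeta a ‖π‖ : Berk K)
        have h3 := locDeg_comp_le f (f.iter n) (zeta a ‖π‖ : Berk K)
        have h4 : (f.iter (n + 1)).act (zeta a ‖π‖ : Berk K) = (zeta c' ‖v'‖ : Berk K) := by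
          rw [act_iter, Function.iterate_succ_apply', ← act_iter, hb, hb']
        rw [hb] at h3
        rw [h4] at h2
        exact h2.trans (Nat.mul_le_mul le_rfl h3)
      have h2 : f.locDeg (zeta c' ‖v'‖ : Berk K) * f.locDeg (zeta c ‖v‖ : Berk K) ≤
          (f.deg - 1) * f.deg := by
        have h3 := f.locDeg_le_deg (zeta c ‖v‖ : Berk K)
        have h4 := f.locDeg_le_deg (zeta c' ‖v'‖ : Berk K)
        rw [not_and_or] at hfull
        rcases hfull with h5 | h5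
        · rw [mul_comm]
          exact Nat.mul_le_mul (by omega) h4
        · exact Nat.mul_le_mul (by omega) h3
      have h3 : (f.iter (n + 2)).locDeg (zeta a ‖π‖ : Berk K) ≤
          (f.deg - 1) * f.deg * (f.iter n).locDeg (zeta a ‖π‖ : Berk K) := by
        refine h1.trans ?_
        rw [← mul_assoc]
        exact Nat.mul_le_mul h2 le_rfl
      have h4 : ((f.iter (n + 2)).locDeg (zeta a ‖π‖ : Berk K) : ℝ) ≤
          ((f.deg : ℝ) - 1) * f.deg * ((f.iter n).locDeg (zeta a ‖π‖ : Berk K) : ℝ) := by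
        have h5 : ((f.iter (n + 2)).locDeg (zeta a ‖π‖ : Berk K) : ℝ) ≤
            (((f.deg - 1) * f.deg * (f.iter n).locDeg (zeta a ‖π‖ : Berk K) : ℕ) : ℝ) := by
          exact_mod_cast h3
        rwa [Nat.cast_mul, Nat.cast_mul, Nat.cast_sub hd1, Nat.cast_one] at h5
      refine h4.trans ?_
      calc ((f.deg : ℝ) - 1) * f.deg * ((f.iter n).locDeg (zeta a ‖π‖ : Berk K) : ℝ)
          ≤ ((f.deg : ℝ) - 1) * f.deg * (bet f.deg n * (f.deg : ℝ) ^ n) := by
            have : (0 : ℝ) ≤ (f.deg : ℝ) - 1 := by linarith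
            gcongr
        _ = bet f.deg (n + 2) * (f.deg : ℝ) ^ (n + 2) := by
            rw [hbit]
            field_simp
            ring

end RatMap

end Pool.Agent.Helper17.Berk
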