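import Mathlib
import Pool.Agent.Helper17.Berk.LemmaT
import Pool.Agent.Helper17.Berk.Bad
import Pool.Agent.Helper22.Berk.Reg

/-!
# Transfer, mixing (module B11) and absence of atoms (module B12), MP_160e9b_an

Mixing: with `F(y) = lo ((R^n).G a y) r`, `d^n ρ(B ∩ R^{-n} S) = ∫_S F`, in particular
`d^n ρ(B) = ∫ F`.  By `lo_G_image_le` and `lo_G_le_add_locDeg`, `F` takes its values in an interval
of length `locDeg (R^n) (ζ(a,r))`, so `|F(y) - d^n ρ(B)| ≤ locDeg ≤ β_n d^n` in the first case of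
`locDeg_iter_le`.  In the second case `F` is constant on `Oᶜ` (`lo_G_eq_of_preconnected`), which has
full measure.  Radii which are not of type II, and closed discs: monotone limits.

No atoms (`R` not of case G).  Suppose that `c = max_x ρ{x} > 0` is attained at `x`.  For every disc
`B ∋ x` and every `n`, `c ≤ ρ(B ∩ R^{-n}{R^n x}) ≤ (ρ(B) + β_n) c`, so `ρ(B) = 1`; for every disc
`B ∌ x`, the same for the complement, so `ρ(B) = 0`.  Hence `ρ = δ_x` (every `y ≠ x` has a null
neighbourhood; `ρ` is regular), `R x = x`, and `d 1_{x ∈ B} = lo (R.G a x) r` for all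
`B = oD a r`, and similarly for closed discs.  Type I: `P - xQ = κ (T - x)^d`, or `R` is a
polynomial if `x = ∞`: then `x` is superattracting, not in the Julia set.  Type II: `locDeg = d`,
case G.  Type III: `r^(d±1)` or `r^d` is in `|K^*|`.  Type IV: `exists_disc_of_typeFour`.
-/

open Polynomial Topology MeasureTheory Filter

set_option linter.dupNamespace false
set_option linter.unusedSectionVars false

namespace Pool.Agent.Helper17.Berk

universe u

variable {K : Type u} [NontriviallyNormedField K] [IsUltrametricDist K] [IsAlgClosed K]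

/-- the setting: `R` of degree at least two, `ρ` a regular probability measure with
`R^* ρ = d ρ`, supported on the Julia set. -/
structure Setup (R : RatMap K) (ρ : Measure (P1 K)) : Prop where
  hd : 2 ≤ R.deg
  prob : IsProbabilityMeasure ρ
  reg : ρ.Regular
  eq : R.IsEquilibrium ρ

variable {R : RatMap K} {ρ : Measure (P1 K)}

namespace Setup

/-- a union of null open sets is null. -/
theorem null_sUnion (h : Setup R ρ) (U : Set (Set (P1 K))) (hU : ∀ V ∈ U, IsOpen V ∧ ρ V = 0) :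
    ρ (⋃₀ U) = 0 := by
  have := h.reg
  have ho : IsOpen (⋃₀ U) := isOpen_sUnion fun V hV => (hU V hV).1
  rw [ho.measure_eq_iSup_isCompact ρ]
  simp only [ENNReal.iSup_eq_zero]
  intro C hC hCc
  obtain ⟨t, ht⟩ := hCc.elim_finite_subcover (fun V : U => (V : Set (P1 K)))
    (fun V => (hU V V.2).1) (by rwa [← Set.sUnion_eq_iUnion])
  refine measure_mono_null ht ?_
  exact (measure_biUnion_null_iff t.countable_toSet).2 fun V _ => (hU V V.2).2

theorem one_le_deg (h : Setup R ρ) : 1 ≤ R.deg := le_trans one_le_two h.hd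

theorem measurePreserving (h : Setup R ρ) (n : ℕ) : MeasurePreserving (R.iter n).act ρ ρ := by
  have := h.reg
  have := h.prob
  exact Helper22.Berk.measurePreserving_iter h.one_le_deg h.eq n

theorem measure_preimage (h : Setup R ρ) (n : ℕ) {S : Set (P1 K)} (hS : MeasurableSet S) :
    ρ ((R.iter n).act ⁻¹' S) = ρ S :=
  (h.measurePreserving n).measure_preimage hS.nullMeasurableSet

theorem absorbing_null (h : Setup R ρ) {O : Set (P1 K)} (hO : R.Absorbing O) : ρ O = 0 := by
  refine measure_mono_null ?_ h.eq.supp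
  intro x hx hxJ
  have h1 : ((⋃ n : ℕ, (R.act^[n]) '' O)ᶜ).Finite := hxJ O hO.isOpen hx
  refine hO.infinite (h1.subset (Set.compl_subset_compl.2 ?_))
  refine Set.iUnion_subset fun n => ?_
  rintro _ ⟨y, hy, rfl⟩
  induction n with
  | zero => exact hy
  | succ n ih => rw [Function.iterate_succ_apply']; exact hO.maps _ ih

theorem one_le_deg_iter (h : Setup R ρ) (n : ℕ) : 1 ≤ (R.iter n).deg := by
  rw [R.deg_iter]; exact Nat.one_le_pow _ _ h.one_le_deg

theorem transfer_oD (h : Setup R ρ) (n : ℕ) (a : K) {r : ℝ} (hr : 0 < r) {S : Set (P1 K)}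
    (hS : MeasurableSet S) :
    ∫ y in S, (lo ((R.iter n).G a y) r : ℝ) ∂ρ =
      (R.deg : ℝ) ^ n * ρ.real (oD a r ∩ (R.iter n).act ⁻¹' S) := by
  have := h.reg
  have := h.prob
  have hd := h.one_le_deg_iter n
  have e : (R.deg : ℝ) ^ n = ((R.iter n).deg : ℝ) := by rw [R.deg_iter]; push_cast; rfl
  rw [e]
  refine Helper22.Berk.transfer_borel ρ (h.measurePreserving n)
    (Helper22.Berk.measurable_lo (R.iter n) hd a hr) (fun y => Nat.cast_nonneg _)
    (Nat.cast_nonneg _) (M := (R.iter n).deg)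
    (fun y => by exact_mod_cast Helper22.Berk.lo_cP_le (R.iter n) hd a hr y)
    (isOpen_oD a r).measurableSet (fun S hS => ?_) hS
  exact Helper22.Berk.transfer_oD _ hd (Helper22.Berk.actOK _ hd)
    (Helper22.Berk.WPull.iter h.one_le_deg h.eq n) a hr hS

theorem transfer_cD (h : Setup R ρ) (n : ℕ) (a : K) {r : ℝ} (hr : 0 < r) {S : Set (P1 K)}
    (hS : MeasurableSet S) :
    ∫ y in S, (hi ((R.iter n).G a y) r : ℝ) ∂ρ =
      (R.deg : ℝ) ^ n * ρ.real (cD a r ∩ (R.iter n).act ⁻¹' S) := by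
  have := h.reg
  have := h.prob
  have hd := h.one_le_deg_iter n
  have e : (R.deg : ℝ) ^ n = ((R.iter n).deg : ℝ) := by rw [R.deg_iter]; push_cast; rfl
  rw [e]
  refine Helper22.Berk.transfer_borel ρ (h.measurePreserving n)
    (Helper22.Berk.measurable_hi (R.iter n) hd a hr) (fun y => Nat.cast_nonneg _)
    (Nat.cast_nonneg _) (M := (R.iter n).deg)
    (fun y => by exact_mod_cast Helper22.Berk.hi_cP_le (R.iter n) hd a hr y)
    (isClosed_cD a r).measurableSet (fun S hS => ?_) hS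
  exact Helper22.Berk.transfer_cD _ hd (Helper22.Berk.actOK _ hd)
    (Helper22.Berk.WPull.iter h.one_le_deg h.eq n) a hr hS

theorem integrable_lo (h : Setup R ρ) (n : ℕ) (a : K) {r : ℝ} (hr : 0 < r) :
    Integrable (fun y => (lo ((R.iter n).G a y) r : ℝ)) ρ := by
  have := h.prob
  have hd := h.one_le_deg_iter n
  refine Integrable.of_bound (Helper22.Berk.measurable_lo (R.iter n) hd a hr).aestronglyMeasurable
    (R.iter n).deg (ae_of_all _ fun y => ?_)
  rw [Real.norm_eq_abs, abs_of_nonneg (Nat.cast_nonneg _)]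
  exact_mod_cast Helper22.Berk.lo_cP_le (R.iter n) hd a hr y

theorem integral_lo (h : Setup R ρ) (n : ℕ) (a : K) {r : ℝ} (hr : 0 < r) :
    ∫ y, (lo ((R.iter n).G a y) r : ℝ) ∂ρ = (R.deg : ℝ) ^ n * ρ.real (oD a r) := by
  have := h.transfer_oD n a hr MeasurableSet.univ
  simpa using this

/-- values outside an absorbing set. -/
theorem lo_G_const_of_absorbing (h : Setup R ρ) (n : ℕ) (a : K) {r : ℝ} (hr : 0 < r)
    {O : Set (P1 K)} (hO : R.Absorbing O) (hb : (R.iter n).act (zeta a r : Berk K) ∈ O) :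
    ∃ k : ℕ, ∀ y ∉ O, lo ((R.iter n).G a y) r = k := by
  obtain ⟨y₀, hy₀⟩ := hO.infinite.nonempty
  exact ⟨lo ((R.iter n).G a y₀) r, fun y hy =>
    (R.iter n).lo_G_eq_of_preconnected (h.one_le_deg_iter n) a hr hO.conn
      (fun h => h hb) hy hy₀⟩

theorem mixing_two (h : Setup R ρ) (hG : ¬ R.CaseG) (n : ℕ) (a : K) {π : K} (hπ : π ≠ 0)
    {S : Set (P1 K)} (hS : MeasurableSet S) :
    |ρ.real (oD a ‖π‖ ∩ (R.iter n).act ⁻¹' S) - ρ.real (oD a ‖π‖) * ρ.real S| ≤
      RatMap.bet R.deg n * ρ.real S := by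
  have := h.prob
  have hr : 0 < ‖π‖ := norm_pos_iff.2 hπ
  have hd := h.one_le_deg_iter n
  set F : P1 K → ℝ := fun y => (lo ((R.iter n).G a y) ‖π‖ : ℝ) with hF
  have hFi : Integrable F ρ := h.integrable_lo n a hr
  have h1 : ∫ y, F y ∂ρ = (R.deg : ℝ) ^ n * ρ.real (oD a ‖π‖) := h.integral_lo n a hr
  have h2 : ∫ y in S, F y ∂ρ = (R.deg : ℝ) ^ n * ρ.real (oD a ‖π‖ ∩ (R.iter n).act ⁻¹' S) :=
    h.transfer_oD n a hr hS
  have hD : (0 : ℝ) < (R.deg : ℝ) ^ n := by
    have : 0 < R.deg := h.one_le_deg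
    positivity
  have hS0 : 0 ≤ ρ.real S := measureReal_nonneg
  have hβ : 0 ≤ RatMap.bet R.deg n := by
    unfold RatMap.bet
    have : (1 : ℝ) ≤ R.deg := by exact_mod_cast h.one_le_deg
    apply pow_nonneg
    exact div_nonneg (by linarith) (by linarith)
  obtain ⟨L, m, hL, hU, hm⟩ : ∃ L m : ℝ, (∀ᵐ y ∂ρ, L ≤ F y) ∧ (∀ᵐ y ∂ρ, F y ≤ L + m) ∧
      m ≤ RatMap.bet R.deg n * (R.deg : ℝ) ^ n := by
    rcases R.locDeg_iter_le h.hd hG a π hπ n with hle | ⟨O, hO, hb⟩
    · refine ⟨lo ((R.iter n).G a ((R.iter n).act (zeta a ‖π‖ : Berk K))) ‖π‖,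
        (R.iter n).locDeg (zeta a ‖π‖ : Berk K), ae_of_all _ fun y => ?_,
        ae_of_all _ fun y => ?_, hle⟩
      · exact Nat.cast_le.2 ((R.iter n).lo_G_image_le hd a hr y).1
      · have h6 : (lo ((R.iter n).G a y) ‖π‖ : ℝ) ≤
            ((lo ((R.iter n).G a ((R.iter n).act (zeta a ‖π‖ : Berk K))) ‖π‖ +
              (R.iter n).locDeg (zeta a ‖π‖ : Berk K) : ℕ) : ℝ) :=
          Nat.cast_le.2 ((R.iter n).lo_G_le_add_locDeg hd a hr y)
        rw [Nat.cast_add] at h6
        exact h6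
    · obtain ⟨k, hk⟩ := h.lo_G_const_of_absorbing n a hr hO hb
      have hae : ∀ᵐ y ∂ρ, y ∉ O := measure_eq_zero_iff_ae_notMem.1 (h.absorbing_null hO)
      refine ⟨k, 0, ?_, ?_, by positivity⟩
      · filter_upwards [hae] with y hy
        simp only [hF, hk y hy, le_refl]
      · filter_upwards [hae] with y hy
        simp only [hF, hk y hy, add_zero, le_refl]
  have h3 := Helper22.Berk.osc_bound hFi hL hU S
  rw [h1, h2] at h3
  have h4 : (R.deg : ℝ) ^ n * ρ.real (oD a ‖π‖ ∩ (R.iter n).act ⁻¹' S) -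
      (R.deg : ℝ) ^ n * ρ.real (oD a ‖π‖) * ρ.real S = (R.deg : ℝ) ^ n *
        (ρ.real (oD a ‖π‖ ∩ (R.iter n).act ⁻¹' S) - ρ.real (oD a ‖π‖) * ρ.real S) := by ring
  rw [h4, abs_mul, abs_of_pos hD] at h3
  have h5 : m * ρ.real S ≤ (R.deg : ℝ) ^ n * (RatMap.bet R.deg n * ρ.real S) := by
    nlinarith
  exact le_of_mul_le_mul_left (h3.trans h5) hD

/-- discs as limits of open discs of type II radius. -/
theorem tendsto_oD [IsFiniteMeasure ρ] (a : K) {r : ℝ} {u : ℕ → ℝ} (hu : ∀ k, u k < r)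
    (hlim : Tendsto u atTop (𝓝 r)) {T : Set (P1 K)} (hT : MeasurableSet T) :
    Tendsto (fun k => ρ.real (oD a (u k) ∩ T)) atTop (𝓝 (ρ.real (oD a r ∩ T))) := by
  have h1 := tendsto_measure_of_tendsto_indicator_of_isFiniteMeasure (μ := ρ) (L := atTop)
    (A := oD a r ∩ T) (As := fun k => oD a (u k) ∩ T)
    (fun k => (isOpen_oD a (u k)).measurableSet.inter hT) (fun x => ?_)
  · exact (ENNReal.tendsto_toReal (measure_ne_top _ _)).comp h1
  · induction x using OnePoint.rec with
    | infty =>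
      filter_upwards with k
      simp
    | coe x =>
      by_cases hx : x (X - C a) < r
      · filter_upwards [hlim.eventually (lt_mem_nhds hx)] with k hk
        simp [coe_mem_oD, hx, hk]
      · filter_upwards with k
        have : ¬ x (X - C a) < u k := fun h => hx (h.trans (hu k))
        simp [coe_mem_oD, hx, this]

theorem tendsto_cD [IsFiniteMeasure ρ] (a : K) {r : ℝ} {u : ℕ → ℝ} (hu : ∀ k, r < u k)
    (hlim : Tendsto u atTop (𝓝 r)) {T : Set (P1 K)} (hT : MeasurableSet T) :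
    Tendsto (fun k => ρ.real (oD a (u k) ∩ T)) atTop (𝓝 (ρ.real (cD a r ∩ T))) := by
  have h1 := tendsto_measure_of_tendsto_indicator_of_isFiniteMeasure (μ := ρ) (L := atTop)
    (A := cD a r ∩ T) (As := fun k => oD a (u k) ∩ T)
    (fun k => (isOpen_oD a (u k)).measurableSet.inter hT) (fun x => ?_)
  · exact (ENNReal.tendsto_toReal (measure_ne_top _ _)).comp h1
  · induction x using OnePoint.rec with
    | infty =>
      filter_upwards with k
      simp
    | coe x =>
      by_cases hx : x (X - C a) ≤ r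
      · filter_upwards with k
        have : x (X - C a) < u k := hx.trans_lt (hu k)
        simp [coe_mem_oD, coe_mem_cD, hx, this]
      · filter_upwards [hlim.eventually (gt_mem_nhds (not_le.1 hx))] with k hk
        have : ¬ x (X - C a) < u k := fun h => absurd (h.trans hk) (lt_irrefl _)
        simp [coe_mem_oD, coe_mem_cD, hx, this]

omit [IsUltrametricDist K] in
theorem exists_seq_below {r : ℝ} (hr : 0 < r) : ∃ π : ℕ → K, (∀ k, π k ≠ 0) ∧
    (∀ k, ‖π k‖ < r) ∧ Tendsto (fun k => ‖π k‖) atTop (𝓝 r) := by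
  choose π h0 h1 h2 using fun k : ℕ => Helper22.Berk.exists_norm_between (K := K) hr
    (Helper22.Berk.below_lt hr k)
  exact ⟨π, h0, h2, tendsto_of_tendsto_of_tendsto_of_le_of_le (Helper22.Berk.tendsto_below r)
    tendsto_const_nhds (fun k => (h1 k).le) (fun k => (h2 k).le)⟩

omit [IsUltrametricDist K] in
theorem exists_seq_above {r : ℝ} (hr : 0 < r) : ∃ π : ℕ → K, (∀ k, π k ≠ 0) ∧
    (∀ k, r < ‖π k‖) ∧ Tendsto (fun k => ‖π k‖) atTop (𝓝 r) := by
  choose π h0 h1 h2 using fun k : ℕ => Helper22.Berk.exists_norm_between (K := K)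
    (hr.trans (Helper22.Berk.lt_above hr k)) (Helper22.Berk.lt_above hr k)
  exact ⟨π, h0, h1, tendsto_of_tendsto_of_tendsto_of_le_of_le tendsto_const_nhds
    (Helper22.Berk.tendsto_above r) (fun k => (h1 k).le) (fun k => (h2 k).le)⟩

theorem mixing_oD (h : Setup R ρ) (hG : ¬ R.CaseG) (n : ℕ) (a : K) {r : ℝ} (hr : 0 < r)
    {S : Set (P1 K)} (hS : MeasurableSet S) :
    |ρ.real (oD a r ∩ (R.iter n).act ⁻¹' S) - ρ.real (oD a r) * ρ.real S| ≤
      RatMap.bet R.deg n * ρ.real S := by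
  have := h.prob
  obtain ⟨π, h0, h1, h2⟩ := exists_seq_below (K := K) hr
  have h3 := tendsto_oD (ρ := ρ) a h1 h2 ((h.measurePreserving n).measurable hS)
  have h4 := tendsto_oD (ρ := ρ) a h1 h2 MeasurableSet.univ
  simp only [Set.inter_univ] at h4
  refine le_of_tendsto ((h3.sub (h4.mul_const (ρ.real S))).abs) ?_
  exact Eventually.of_forall fun k => h.mixing_two hG n a (h0 k) hS

theorem mixing_cD (h : Setup R ρ) (hG : ¬ R.CaseG) (n : ℕ) (a : K) {r : ℝ} (hr : 0 < r)
    {S : Set (P1 K)} (hS : MeasurableSet S) :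
    |ρ.real (cD a r ∩ (R.iter n).act ⁻¹' S) - ρ.real (cD a r) * ρ.real S| ≤
      RatMap.bet R.deg n * ρ.real S := by
  have := h.prob
  obtain ⟨π, h0, h1, h2⟩ := exists_seq_above (K := K) hr
  have h3 := tendsto_cD (ρ := ρ) a h1 h2 ((h.measurePreserving n).measurable hS)
  have h4 := tendsto_cD (ρ := ρ) a h1 h2 MeasurableSet.univ
  simp only [Set.inter_univ] at h4
  refine le_of_tendsto ((h3.sub (h4.mul_const (ρ.real S))).abs) ?_
  exact Eventually.of_forall fun k => h.mixing_two hG n a (h0 k) hS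

/-- mass of a good pullback. -/
theorem goodPull_measure (h : Setup R ρ) (n : ℕ) {b c : K} {r s : ℝ}
    (hp : (R.iter n).GoodPull b r c s) :
    (R.deg : ℝ) ^ n * ρ.real (oD b r) = (R.iter n).gdeg b r c * ρ.real (oD c s) := by
  have := h.prob
  have hd := h.one_le_deg_iter n
  rw [← h.integral_lo n b hp.rpos]
  have e : (fun y => (lo ((R.iter n).G b y) r : ℝ)) =
      (oD c s : Set (P1 K)).indicator (fun _ => ((R.iter n).gdeg b r c : ℝ)) := by
    funext y
    by_cases hy : y ∈ (oD c s : Set (P1 K))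
    · rw [Set.indicator_of_mem hy, hp.lo_G_of_mem hd hy]
    · rw [Set.indicator_of_notMem hy, hp.lo_G_of_notMem hd hy]
      simp
  rw [e, integral_indicator (isOpen_oD c s).measurableSet]
  simp [mul_comm]

/-- degree of a good pullback of a disc of intermediate mass. -/
theorem gdeg_le (h : Setup R ρ) (hG : ¬ R.CaseG) (n : ℕ) {b c π : K} {r : ℝ} (hπ : π ≠ 0)
    (hp : (R.iter n).GoodPull b r c ‖π‖) (h0 : 0 < ρ.real (oD c ‖π‖))
    (h1 : ρ.real (oD c ‖π‖) < 1) :
    ((R.iter n).gdeg b r c : ℝ) ≤ RatMap.bet R.deg n * (R.deg : ℝ) ^ n := by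
  have := h.prob
  have hd := h.one_le_deg_iter n
  obtain ⟨π', hπ', hr⟩ := hp.exists_norm hd ⟨π, hπ, rfl⟩
  have hle : ((R.iter n).gdeg b r c : ℝ) ≤ (R.iter n).locDeg (zeta b r : Berk K) := by
    exact_mod_cast hp.gdeg_le_locDeg hd
  rcases R.locDeg_iter_le h.hd hG b π' hπ' n with hle' | ⟨O, hO, hb⟩
  · rw [← hr] at hle'
    exact hle.trans hle'
  · exfalso
    rw [← hr] at hb
    obtain ⟨k, hk⟩ := h.lo_G_const_of_absorbing n b hp.rpos hO hb
    have hO0 := h.absorbing_null hO
    have hex : ∃ y ∈ (oD c ‖π‖ : Set (P1 K)), y ∉ O := by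
      by_contra hcon
      push Not at hcon
      have : ρ (oD c ‖π‖) = 0 := measure_mono_null hcon hO0
      rw [Measure.real, this] at h0
      simp at h0
    have hex' : ∃ y ∉ (oD c ‖π‖ : Set (P1 K)), y ∉ O := by
      by_contra hcon
      push Not at hcon
      have h2 : ρ (oD c ‖π‖ : Set (P1 K))ᶜ = 0 := measure_mono_null hcon hO0
      have h3 : ρ.real (oD c ‖π‖ : Set (P1 K))ᶜ = 1 - ρ.real (oD c ‖π‖) :=
        probReal_compl_eq_one_sub (isOpen_oD c ‖π‖).measurableSet
      rw [Measure.real, h2] at h3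
      simp at h3
      linarith
    obtain ⟨y, hy, hyO⟩ := hex
    obtain ⟨y', hy', hyO'⟩ := hex'
    have e1 := hk y hyO
    have e2 := hk y' hyO'
    rw [hp.lo_G_of_mem hd hy] at e1
    rw [hp.lo_G_of_notMem hd hy'] at e2
    have := hp.one_le_gdeg hd
    omega

/-- the same for the local degree on the skeleton: used for annuli. -/
theorem locDeg_le_of_mass (h : Setup R ρ) (hG : ¬ R.CaseG) (n : ℕ) {a c π : K} {s : ℝ}
    (hπ : π ≠ 0) (hs : 0 < s)
    (hact : (R.iter n).act (zeta a ‖π‖ : Berk K) = (zeta c s : Berk K))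
    (h0 : 0 < ρ.real (oD c s)) (h1 : ρ.real (oD c s) < 1) :
    ((R.iter n).locDeg (zeta a ‖π‖ : Berk K) : ℝ) ≤ RatMap.bet R.deg n * (R.deg : ℝ) ^ n := by
  have := h.prob
  rcases R.locDeg_iter_le h.hd hG a π hπ n with hle' | ⟨O, hO, hb⟩
  · exact hle'
  · exfalso
    rw [hact] at hb
    have hO0 := h.absorbing_null hO
    have hex : ∃ y ∈ (oD c s : Set (P1 K)), y ∉ O := by
      by_contra hcon
      push Not at hcon
      have : ρ (oD c s) = 0 := measure_mono_null hcon hO0
      rw [Measure.real, this] at h0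
      simp at h0
    obtain ⟨y, hy, hyO⟩ := hex
    -- the rest is open
    set v : Set (P1 K) := (cD c s)ᶜ ∪ ⋃ e ∈ {e : K | s ≤ ‖e - c‖ ∧ ‖e - c‖ ≤ s}, oD e s with hv
    have hvo : IsOpen v := by
      refine (isClosed_cD c s).isOpen_compl.union ?_
      exact isOpen_biUnion fun e _ => isOpen_oD e s
    have hcov : Oᶜ ⊆ oD c s ∪ v := by
      intro z hz
      rcases RatMap.cases_dir c hs z with hz' | rfl | ⟨e, he, hz'⟩
      · exact Or.inr (Or.inl hz')
      · exact absurd hb hz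
      · by_cases hec : ‖e - c‖ < s
        · left
          rwa [oD_eq_oD hec] at hz'
        · right; right
          exact Set.mem_biUnion (show e ∈ {e : K | s ≤ ‖e - c‖ ∧ ‖e - c‖ ≤ s} from
            ⟨not_lt.1 hec, he⟩) hz'
    have hdis : Disjoint (oD c s) v := by
      rw [hv, Set.disjoint_union_right]
      refine ⟨?_, ?_⟩
      · exact (disjoint_compl_right (a := (cD c s : Set (P1 K)))).mono_left (oD_subset_cD c s)
      · rw [Set.disjoint_iUnion₂_right]
        intro e he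
        refine oD_disjoint ?_ ?_
        · rw [norm_sub_rev]; exact he.1
        · rw [norm_sub_rev]; exact he.1
    have hsub : Oᶜ ⊆ oD c s :=
      hO.conn.subset_left_of_subset_union (isOpen_oD c s) hvo hdis hcov ⟨y, hyO, hy⟩
    have h2 : ρ (oD c s : Set (P1 K))ᶜ = 0 :=
      measure_mono_null (by rw [← compl_compl O]; exact Set.compl_subset_compl.2 hsub) hO0
    have h3 : ρ.real (oD c s : Set (P1 K))ᶜ = 1 - ρ.real (oD c s) :=
      probReal_compl_eq_one_sub (isOpen_oD c s).measurableSet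
    rw [Measure.real, h2] at h3
    simp at h3
    linarith

/-! ### no atoms -/

theorem tendsto_bet (h : Setup R ρ) : Tendsto (RatMap.bet R.deg) atTop (𝓝 0) := by
  have hd : (2 : ℝ) ≤ R.deg := by exact_mod_cast h.hd
  have h0 : 0 ≤ ((R.deg : ℝ) - 1) / R.deg := div_nonneg (by linarith) (by linarith)
  have h1 : ((R.deg : ℝ) - 1) / R.deg < 1 := by
    rw [div_lt_one (by linarith)]; linarith
  have h2 : Tendsto (fun n : ℕ => n / 2) atTop atTop :=
    Filter.tendsto_atTop_atTop.2 fun b => ⟨2 * b, fun a ha => by omega⟩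
  exact (tendsto_pow_atTop_nhds_zero_of_lt_one h0 h1).comp h2

theorem exists_max_atom (h : Setup R ρ) {x₀ : P1 K} (hx₀ : ρ {x₀} ≠ 0) :
    ∃ x : P1 K, 0 < ρ.real {x} ∧ ∀ y : P1 K, ρ.real {y} ≤ ρ.real {x} := by
  have := h.prob
  have hfin : {y : P1 K | ρ {x₀} ≤ ρ {y}}.Finite := by
    refine Measure.finite_const_le_meas_of_disjoint_iUnion ρ (pos_iff_ne_zero.2 hx₀)
      (As := fun y : P1 K => {y}) (fun y => measurableSet_singleton y) ?_ (measure_ne_top _ _)
    intro y z hyz
    exact Set.disjoint_singleton.2 hyz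
  obtain ⟨x, hx, hmax⟩ := hfin.exists_maximalFor (fun y => ρ.real {y}) _
    ⟨x₀, (le_refl (ρ {x₀}) : ρ {x₀} ≤ ρ {x₀})⟩
  have hx' : ρ {x₀} ≤ ρ {x} := hx
  have hx0 : ρ.real {x₀} ≤ ρ.real {x} := ENNReal.toReal_mono (measure_ne_top _ _) hx'
  have h0 : 0 < ρ.real {x₀} := ENNReal.toReal_pos hx₀ (measure_ne_top _ _)
  refine ⟨x, h0.trans_le hx0, fun y => ?_⟩
  by_cases hy : ρ {x₀} ≤ ρ {y}
  · rcases le_total (ρ.real {y}) (ρ.real {x}) with h1 | h1
    · exact h1
    · exact hmax hy h1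
  · exact (ENNReal.toReal_mono (measure_ne_top _ _) (not_le.1 hy).le).trans hx0

/-- a disc containing the maximal atom has full measure. -/
theorem full_of_mem (h : Setup R ρ) {x : P1 K} (hx : 0 < ρ.real {x})
    (hmax : ∀ y : P1 K, ρ.real {y} ≤ ρ.real {x}) {B : Set (P1 K)}
    (hmix : ∀ (n : ℕ) (S : Set (P1 K)), MeasurableSet S →
      |ρ.real (B ∩ (R.iter n).act ⁻¹' S) - ρ.real B * ρ.real S| ≤
        RatMap.bet R.deg n * ρ.real S) (hxB : x ∈ B) : 1 ≤ ρ.real B := by
  have := h.prob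
  have key : ∀ n : ℕ, 1 ≤ ρ.real B + RatMap.bet R.deg n := by
    intro n
    have h1 := hmix n {(R.iter n).act x} (measurableSet_singleton _)
    have h2 : ρ.real {x} ≤ ρ.real (B ∩ (R.iter n).act ⁻¹' {(R.iter n).act x}) := by
      refine measureReal_mono ?_
      rintro _ rfl
      exact ⟨hxB, rfl⟩
    have h3 := (abs_le.1 h1).2
    have h4 : 0 < ρ.real {(R.iter n).act x} := by
      by_contra hcon
      have h5 : ρ.real {(R.iter n).act x} = 0 := le_antisymm (not_lt.1 hcon) measureReal_nonneg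
      rw [h5] at h3
      linarith
    have h5 := hmax ((R.iter n).act x)
    by_contra hcon
    push Not at hcon
    nlinarith
  have h1 := (h.tendsto_bet).const_add (ρ.real B)
  rw [add_zero] at h1
  exact ge_of_tendsto h1 (Eventually.of_forall key)

theorem null_of_notMem (h : Setup R ρ) {x : P1 K} (hx : 0 < ρ.real {x})
    (hmax : ∀ y : P1 K, ρ.real {y} ≤ ρ.real {x}) {B : Set (P1 K)} (hB : MeasurableSet B)
    (hmix : ∀ (n : ℕ) (S : Set (P1 K)), MeasurableSet S →
      |ρ.real (B ∩ (R.iter n).act ⁻¹' S) - ρ.real B * ρ.real S| ≤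
        RatMap.bet R.deg n * ρ.real S) (hxB : x ∉ B) : ρ B = 0 := by
  have := h.prob
  have h1 : 1 ≤ ρ.real Bᶜ := by
    refine h.full_of_mem hx hmax (fun n S hS => ?_) hxB
    have e1 : ρ.real (Bᶜ ∩ (R.iter n).act ⁻¹' S) =
        ρ.real S - ρ.real (B ∩ (R.iter n).act ⁻¹' S) := by
      have e2 : ρ.real ((R.iter n).act ⁻¹' S) = ρ.real S := by
        rw [Measure.real, Measure.real, h.measure_preimage n hS]
      have e3 := measureReal_inter_add_sdiff (μ := ρ) (s := (R.iter n).act ⁻¹' S) hB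
      rw [← e2, ← e3]
      have e4 : Bᶜ ∩ (R.iter n).act ⁻¹' S = (R.iter n).act ⁻¹' S \ B := by
        rw [Set.inter_comm]; rfl
      rw [e4, Set.inter_comm B]
      ring
    have e5 : ρ.real Bᶜ = 1 - ρ.real B := probReal_compl_eq_one_sub hB
    rw [e1, e5]
    have h2 := hmix n S hS
    have e6 : ρ.real S - ρ.real (B ∩ (R.iter n).act ⁻¹' S) - (1 - ρ.real B) * ρ.real S =
        -(ρ.real (B ∩ (R.iter n).act ⁻¹' S) - ρ.real B * ρ.real S) := by ring
    rw [e6, abs_neg]
    exact h2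
  have e5 : ρ.real Bᶜ = 1 - ρ.real B := probReal_compl_eq_one_sub hB
  have h2 : ρ.real B = 0 := by
    have : 0 ≤ ρ.real B := measureReal_nonneg
    linarith
  exact (measureReal_eq_zero_iff).1 h2

/-- a maximal atom is the whole measure. -/
theorem compl_null (h : Setup R ρ) (hG : ¬ R.CaseG) {x : P1 K} (hx : 0 < ρ.real {x})
    (hmax : ∀ y : P1 K, ρ.real {y} ≤ ρ.real {x}) : ρ ({x}ᶜ) = 0 := by
  have := h.prob
  have hoD1 : ∀ (a : K) {r : ℝ}, 0 < r → x ∉ (oD a r : Set (P1 K)) → ρ (oD a r) = 0 :=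
    fun a r hr => h.null_of_notMem hx hmax (isOpen_oD a r).measurableSet
      (fun n S hS => h.mixing_oD hG n a hr hS)
  have hcD1 : ∀ (a : K) {r : ℝ}, 0 < r → x ∈ (cD a r : Set (P1 K)) →
      ρ (cD a r : Set (P1 K))ᶜ = 0 := by
    intro a r hr hxB
    have h1 := h.full_of_mem hx hmax (fun n S hS => h.mixing_cD hG n a hr hS) hxB
    have e5 : ρ.real (cD a r : Set (P1 K))ᶜ = 1 - ρ.real (cD a r) :=
      probReal_compl_eq_one_sub (isClosed_cD a r).measurableSet
    have h2 : ρ.real (cD a r : Set (P1 K))ᶜ = 0 :=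
      le_antisymm (by linarith) measureReal_nonneg
    exact (measureReal_eq_zero_iff).1 h2
  refine measure_mono_null ?_ (h.null_sUnion {V | IsOpen V ∧ ρ V = 0} fun V hV => hV)
  intro y hy
  have hyx : y ≠ x := hy
  induction y using OnePoint.rec with
  | infty =>
    induction x using OnePoint.rec with
    | infty => exact absurd rfl hyx
    | coe x =>
      have h1 : 0 < max 1 (x (X - C 0)) := lt_of_lt_of_le one_pos (le_max_left _ _)
      refine Set.mem_sUnion.2 ⟨(cD 0 (max 1 (x (X - C 0))))ᶜ,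
        ⟨(isClosed_cD _ _).isOpen_compl, hcD1 0 h1 ?_⟩, infty_notMem_cD⟩
      exact coe_mem_cD.2 (le_max_right _ _)
  | coe y =>
    induction x using OnePoint.rec with
    | infty =>
      have h0 := y.nonneg (X - C 0)
      refine Set.mem_sUnion.2 ⟨oD 0 (y (X - C 0) + 1), ⟨isOpen_oD _ _, hoD1 0 ?_ ?_⟩, ?_⟩
      · linarith
      · exact infty_notMem_oD
      · rw [coe_mem_oD]; linarith
    | coe x =>
      obtain ⟨a, ha⟩ : ∃ a, x (X - C a) ≠ y (X - C a) := by
        by_contra hcon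
        push Not at hcon
        exact hyx (by rw [Berk.ext_lin hcon])
      rcases lt_or_gt_of_ne ha with hlt | hgt
      · set r := (x (X - C a) + y (X - C a)) / 2 with hr
        have h0 := x.nonneg (X - C a)
        refine Set.mem_sUnion.2 ⟨(cD a r)ᶜ, ⟨(isClosed_cD _ _).isOpen_compl, hcD1 a ?_ ?_⟩, ?_⟩
        · linarith
        · rw [coe_mem_cD]; linarith
        · intro hmem
          rw [coe_mem_cD] at hmem
          linarith
      · set r := (x (X - C a) + y (X - C a)) / 2 with hr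
        have h0 := y.nonneg (X - C a)
        refine Set.mem_sUnion.2 ⟨oD a r, ⟨isOpen_oD _ _, hoD1 a ?_ ?_⟩, ?_⟩
        · linarith
        · rw [coe_mem_oD]; linarith
        · rw [coe_mem_oD]; linarith

/-- the situation of a Dirac measure. -/
structure Dirac (R : RatMap K) (ρ : Measure (P1 K)) (x : P1 K) : Prop where
  one : ρ.real {x} = 1
  null : ρ ({x}ᶜ) = 0
  fix : R.act x = x
  mem_julia : x ∈ R.julia

theorem act_iter_one (R : RatMap K) : (R.iter 1).act = R.act := by
  rw [R.act_iter]; rfl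

theorem dirac_of_max (h : Setup R ρ) (hG : ¬ R.CaseG) {x : P1 K} (hx : 0 < ρ.real {x})
    (hmax : ∀ y : P1 K, ρ.real {y} ≤ ρ.real {x}) : Dirac R ρ x := by
  have := h.prob
  have h0 := h.compl_null hG hx hmax
  have h1 : ρ.real {x} = 1 := by
    have e5 : ρ.real ({x} : Set (P1 K))ᶜ = 1 - ρ.real {x} :=
      probReal_compl_eq_one_sub (measurableSet_singleton x)
    rw [Measure.real, h0] at e5
    simp at e5
    linarith
  refine ⟨h1, h0, ?_, ?_⟩
  · by_contra hne
    have h2 := h.measure_preimage 1 (measurableSet_singleton x)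
    rw [act_iter_one] at h2
    have h3 : ρ (R.act ⁻¹' {x}) = 0 := measure_mono_null (fun y hy => by
      intro hyx
      rw [Set.mem_singleton_iff] at hyx
      subst hyx
      exact hne hy) h0
    rw [h3] at h2
    rw [Measure.real, ← h2] at h1
    simp at h1
  · by_contra hne
    have h2 : ρ {x} = 0 := measure_mono_null (Set.singleton_subset_iff.2 hne) h.eq.supp
    rw [Measure.real, h2] at h1
    simp at h1

theorem Dirac.real_of_mem {x : P1 K} (hD : Dirac R ρ x) [IsProbabilityMeasure ρ]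
    {B : Set (P1 K)} (hx : x ∈ B) : ρ.real B = 1 := by
  refine le_antisymm measureReal_le_one ?_
  rw [← hD.one]
  exact measureReal_mono (Set.singleton_subset_iff.2 hx)

theorem Dirac.real_of_notMem {x : P1 K} (hD : Dirac R ρ x) [IsProbabilityMeasure ρ]
    {B : Set (P1 K)} (hx : x ∉ B) : ρ.real B = 0 := by
  have hsub : B ⊆ ({x} : Set (P1 K))ᶜ := fun y hy hyx => hx (by
    rw [Set.mem_singleton_iff] at hyx; rwa [← hyx])
  have : ρ B = 0 := measure_mono_null hsub hD.null
  rw [Measure.real, this]; rfl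

theorem Dirac.integral {x : P1 K} (hD : Dirac R ρ x) [IsProbabilityMeasure ρ] (F : P1 K → ℝ) :
    ∫ y, F y ∂ρ = F x := by
  have h1 : ∀ᵐ y ∂ρ, F y = F x := by
    have h2 : ∀ᵐ y ∂ρ, y ∉ ({x} : Set (P1 K))ᶜ := measure_eq_zero_iff_ae_notMem.1 hD.null
    filter_upwards [h2] with y hy
    have : y = x := by simpa using hy
    rw [this]
  rw [integral_congr_ae h1]
  simp

theorem Dirac.lo_eq (h : Setup R ρ) {x : P1 K} (hD : Dirac R ρ x) (a : K) {r : ℝ} (hr : 0 < r) :
    (x ∈ (oD a r : Set (P1 K)) → lo ((R.iter 1).G a x) r = (R.iter 1).deg) ∧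
      (x ∉ (oD a r : Set (P1 K)) → lo ((R.iter 1).G a x) r = 0) := by
  have := h.prob
  have h1 := h.integral_lo 1 a hr
  rw [hD.integral] at h1
  constructor
  · intro hx
    rw [hD.real_of_mem hx, mul_one] at h1
    rw [R.deg_iter]
    exact_mod_cast h1
  · intro hx
    rw [hD.real_of_notMem hx, mul_zero] at h1
    exact_mod_cast h1

theorem Dirac.hi_eq (h : Setup R ρ) {x : P1 K} (hD : Dirac R ρ x) (a : K) {r : ℝ} (hr : 0 < r) :
    (x ∈ (cD a r : Set (P1 K)) → hi ((R.iter 1).G a x) r = (R.iter 1).deg) ∧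
      (x ∉ (cD a r : Set (P1 K)) → hi ((R.iter 1).G a x) r = 0) := by
  have := h.prob
  have h1 := h.transfer_cD 1 a hr MeasurableSet.univ
  rw [Measure.restrict_univ, hD.integral, Set.preimage_univ, Set.inter_univ] at h1
  constructor
  · intro hx
    rw [hD.real_of_mem hx, mul_one] at h1
    rw [R.deg_iter]
    exact_mod_cast h1
  · intro hx
    rw [hD.real_of_notMem hx, mul_zero] at h1
    exact_mod_cast h1

/-- a forward invariant neighbourhood with infinite complement: not in the Julia set. -/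
theorem notMem_julia {x : P1 K} {U : Set (P1 K)} (hU : IsOpen U) (hx : x ∈ U)
    (hmaps : ∀ y ∈ U, R.act y ∈ U) (hinf : Uᶜ.Infinite) : x ∉ R.julia := by
  intro hxJ
  refine hinf ((hxJ U hU hx).subset (Set.compl_subset_compl.2 ?_))
  refine Set.iUnion_subset fun n => ?_
  rintro _ ⟨y, hy, rfl⟩
  induction n with
  | zero => exact hy
  | succ n ih => rw [Function.iterate_succ_apply']; exact hmaps _ ih

theorem infinite_compl_oD (b : K) {r : ℝ} (hr : 0 < r) : (oD b r : Set (P1 K))ᶜ.Infinite := by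
  refine Set.infinite_of_injective_forall_mem
    (f := fun n : ℕ => ((zeta b (r + n) : Berk K) : P1 K)) ?_ fun n => ?_
  · intro m n hmn
    have h1 := OnePoint.coe_injective hmn
    have hm : (0:ℝ) ≤ r + m := by positivity
    have hn : (0:ℝ) ≤ r + n := by positivity
    have h2 := ((zeta_eq_zeta_iff hm hn).1 h1).1
    exact_mod_cast (add_left_cancel h2 : (m : ℝ) = n)
  · have hn : (0:ℝ) ≤ r + n := by positivity
    have h0 : (0:ℝ) ≤ n := Nat.cast_nonneg n
    rw [Set.mem_compl_iff, coe_mem_oD, zeta_lin b b hn, sub_self, norm_zero, max_eq_left hn]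
    linarith

theorem infinite_cD (b : K) {r : ℝ} (hr : 0 < r) : (cD b r : Set (P1 K)).Infinite := by
  refine Set.infinite_of_injective_forall_mem
    (f := fun n : ℕ => ((zeta b (r / (n + 1)) : Berk K) : P1 K)) ?_ fun n => ?_
  · intro m n hmn
    have h1 := OnePoint.coe_injective hmn
    have hm : (0:ℝ) ≤ r / (m + 1) := by positivity
    have hn : (0:ℝ) ≤ r / (n + 1) := by positivity
    have h2 := ((zeta_eq_zeta_iff hm hn).1 h1).1
    have hm' : (0:ℝ) < m + 1 := by positivity
    have hn' : (0:ℝ) < n + 1 := by positivity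
    rw [div_eq_div_iff hm'.ne' hn'.ne'] at h2
    have h3 := mul_left_cancel₀ hr.ne' h2
    have h4 : (m : ℝ) = n := by linarith
    exact_mod_cast h4
  · have hn : (0:ℝ) ≤ r / (n + 1) := by positivity
    rw [coe_mem_cD, zeta_lin b b hn, sub_self, norm_zero, max_eq_left hn]
    exact div_le_self hr.le (by
      have : (0:ℝ) ≤ n := Nat.cast_nonneg n
      linarith)

theorem dirac_not_pt (h : Setup R ρ) {b : K} (hD : Dirac R ρ ((pt b : Berk K) : P1 K)) :
    False := by
  have hd := h.one_le_deg_iter 1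
  have hlo' := fun {r : ℝ} (hr : 0 < r) => (hD.lo_eq h b hr).1
    (coe_mem_oD.2 (by rw [pt_lin]; simpa using hr))
  have hact : (R.iter 1).act = R.act := act_iter_one R
  have hdeg : (R.iter 1).deg = R.deg := by rw [R.deg_iter, pow_one]
  generalize R.iter 1 = f at *
  have hd2 : 2 ≤ f.deg := by rw [hdeg]; exact h.hd
  have hlo : ∀ {r : ℝ}, 0 < r → lo (co (f.P - C b * f.Q) b) r = f.deg := by
    intro r hr
    have := hlo' hr
    rwa [f.G_pt] at this
  have hPT := TP_co (f.sub_ne_zero hd b) b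
  obtain ⟨t₁, ht₁, h1⟩ := exists_near_zero hPT
  have hlow : ∀ i < f.deg, co (f.P - C b * f.Q) b i = 0 := by
    have := (h1 (t₁ / 2) (by linarith) (by linarith)).1
    rwa [hlo (by linarith)] at this
  set κ := co (f.P - C b * f.Q) b f.deg with hκ
  have hκ0 : 0 ≤ κ := norm_nonneg _
  have hgn : ∀ {t : ℝ}, 0 ≤ t → gn (f.P - C b * f.Q) b t ≤ κ * t ^ f.deg := by
    intro t ht
    refine ciSup_le fun i => ?_
    rcases lt_trichotomy i f.deg with hlt | rfl | hgt
    · rw [hlow i hlt, zero_mul]; positivity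
    · exact le_rfl
    · have h0 : co (f.P - C b * f.Q) b i = 0 := by
        simp only [co, norm_eq_zero]
        apply coeff_eq_zero_of_natDegree_lt
        rw [natDegree_taylor]
        exact lt_of_le_of_lt (f.natDegree_sub_le b) hgt
      rw [h0, zero_mul]; positivity
  have hfix : f.act (pt b : Berk K) = (pt b : Berk K) := by rw [hact]; exact hD.fix
  have hQb : f.Q.eval b ≠ 0 := by
    intro h0
    have h2 := f.act_coe_pole (pt b) (by change ‖f.Q.eval b‖ = 0; rw [h0, norm_zero])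
    rw [hfix] at h2
    exact OnePoint.coe_ne_infty _ h2
  have hQ0 : co f.Q b 0 = ‖f.Q.eval b‖ := by simp [co, taylor_coeff_zero]
  have hQpos : 0 < ‖f.Q.eval b‖ := norm_pos_iff.2 hQb
  obtain ⟨t₂, ht₂, h2⟩ := exists_near_zero (TP_co (f.Q_ne_zero hd) b)
  have hloQ : ∀ {t : ℝ}, 0 < t → t < t₂ → lo (co f.Q b) t = 0 := by
    intro t ht ht'
    by_contra hne
    have := (h2 t ht ht').1 0 (Nat.pos_of_ne_zero hne)
    rw [hQ0] at this
    exact hQpos.ne' this
  obtain ⟨r, hr, hr1, hr2, hr3⟩ : ∃ r : ℝ, 0 < r ∧ r ≤ 1 ∧ r < t₂ ∧ κ * r ≤ ‖f.Q.eval b‖ := by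
    refine ⟨min (min 1 (t₂ / 2)) (‖f.Q.eval b‖ / (κ + 1)), ?_, ?_, ?_, ?_⟩
    · have : 0 < ‖f.Q.eval b‖ / (κ + 1) := by positivity
      exact lt_min (lt_min one_pos (by linarith)) this
    · exact (min_le_left _ _).trans (min_le_left _ _)
    · exact ((min_le_left _ _).trans (min_le_right _ _)).trans_lt (by linarith)
    · calc κ * min (min 1 (t₂ / 2)) (‖f.Q.eval b‖ / (κ + 1))
          ≤ κ * (‖f.Q.eval b‖ / (κ + 1)) := mul_le_mul_of_nonneg_left (min_le_right _ _) hκ0
        _ = ‖f.Q.eval b‖ * (κ / (κ + 1)) := by ring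
        _ ≤ ‖f.Q.eval b‖ * 1 := by
            refine mul_le_mul_of_nonneg_left ?_ hQpos.le
            rw [div_le_one (by linarith)]; linarith
        _ = ‖f.Q.eval b‖ := mul_one _
  refine notMem_julia (R := R) (isOpen_oD b r) (coe_mem_oD.2 (by rw [pt_lin]; simpa using hr))
    ?_ (infinite_compl_oD b hr) hD.mem_julia
  intro y hy
  rw [← hact]
  induction y using OnePoint.rec with
  | infty => exact absurd hy infty_notMem_oD
  | coe y =>
    rw [coe_mem_oD] at hy
    rw [f.act_mem_oD_iff y b hr]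
    have e1 : y f.Q = ‖f.Q.eval b‖ := by
      rw [y.eq_gn (f.Q_ne_zero hd) hy (hloQ hr hr2), gn, ← lo_spec (TP_co (f.Q_ne_zero hd) b) hr.le,
        hloQ hr hr2, pow_zero, mul_one, hQ0]
    have ht0 : 0 ≤ y (X - C b) := y.nonneg _
    have e2 : y (f.P - C b * f.Q) ≤ κ * y (X - C b) ^ f.deg :=
      (y.le_gn _ le_rfl).trans (hgn ht0)
    rw [e1]
    obtain ⟨m, hm⟩ : ∃ m, f.deg = m + 2 := ⟨f.deg - 2, by omega⟩
    have e3 : y (X - C b) ^ f.deg ≤ y (X - C b) * r := by
      rw [hm, pow_add, pow_two]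
      have h5 : y (X - C b) ^ m ≤ 1 := pow_le_one₀ ht0 (hy.le.trans hr1)
      calc y (X - C b) ^ m * (y (X - C b) * y (X - C b))
          ≤ 1 * (y (X - C b) * r) := mul_le_mul h5 (mul_le_mul_of_nonneg_left hy.le ht0)
            (mul_nonneg ht0 ht0) zero_le_one
        _ = y (X - C b) * r := one_mul _
    calc y (f.P - C b * f.Q) ≤ κ * y (X - C b) ^ f.deg := e2
      _ ≤ κ * (y (X - C b) * r) := mul_le_mul_of_nonneg_left e3 hκ0
      _ = y (X - C b) * (κ * r) := by ring
      _ ≤ y (X - C b) * ‖f.Q.eval b‖ := mul_le_mul_of_nonneg_left hr3 ht0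
      _ < r * ‖f.Q.eval b‖ := mul_lt_mul_of_pos_right hy hQpos

theorem dirac_not_infty (h : Setup R ρ) (hD : Dirac R ρ (OnePoint.infty : P1 K)) :
    False := by
  have hd := h.one_le_deg_iter 1
  have hlo : ∀ {r : ℝ}, 0 < r → lo (co (R.iter 1).Q 0) r = 0 := fun {r} hr =>
    (hD.lo_eq h 0 hr).2 infty_notMem_oD
  have hact : (R.iter 1).act = R.act := act_iter_one R
  have hdeg : (R.iter 1).deg = R.deg := by rw [R.deg_iter, pow_one]
  generalize R.iter 1 = f at *
  have hd2 : 2 ≤ f.deg := by rw [hdeg]; exact h.hd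
  obtain ⟨t₀, ht₀, h1⟩ := exists_lo_eq_natDegree (f.Q_ne_zero hd) 0
  have hnd : f.Q.natDegree = 0 := by
    have := (h1 (t₀ + 1) (by linarith)).1
    rw [hlo (by linarith)] at this
    exact this.symm
  obtain ⟨q, hq⟩ : ∃ q, C q = f.Q := natDegree_eq_zero.1 hnd
  have hq0 : q ≠ 0 := by
    intro h0
    exact f.Q_ne_zero hd (by rw [← hq, h0, C_0])
  have hPd : f.P.natDegree = f.deg := by
    have : f.deg = max f.P.natDegree f.Q.natDegree := rfl
    rw [hnd] at this
    omega
  have hP0 : f.P ≠ 0 := by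
    intro h0
    rw [h0, natDegree_zero] at hPd
    omega
  obtain ⟨t₁, ht₁, h2⟩ := exists_lo_eq_natDegree hP0 0
  have hp : 0 < co f.P 0 f.deg := by
    have h3 := (h2 (t₁ + 1) (by linarith)).1
    have h4 := lo_spec (TP_co hP0 0) (t := t₁ + 1) (by linarith)
    rw [h3, hPd] at h4
    have h5 := tv_pos (TP_co hP0 0) (t := t₁ + 1) (by linarith)
    rw [← h4] at h5
    exact pos_of_mul_pos_left h5 (by positivity)
  set p := co f.P 0 f.deg with hp'
  have hqn : 0 < ‖q‖ := norm_pos_iff.2 hq0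
  set M := max (max 1 t₁) (‖q‖ / p) with hM
  have hM1 : 1 ≤ M := (le_max_left _ _).trans (le_max_left _ _)
  have hM2 : t₁ ≤ M := (le_max_right _ _).trans (le_max_left _ _)
  have hM3 : ‖q‖ / p ≤ M := le_max_right _ _
  have hM0 : 0 < M := by linarith
  refine notMem_julia (R := R) (isClosed_cD 0 M).isOpen_compl infty_notMem_cD
    ?_ (by rw [compl_compl]; exact infinite_cD 0 hM0) hD.mem_julia
  intro y hy
  induction y using OnePoint.rec with
  | infty => rw [hD.fix]; exact infty_notMem_cD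
  | coe y =>
    rw [← hact]
    intro hcon
    rw [f.act_mem_cD_iff y 0 hM0.le] at hcon
    have hy' : M < y (X - C 0) := by
      by_contra hle
      exact hy (coe_mem_cD.2 (not_lt.1 hle))
    set t := y (X - C 0) with ht
    have ht0 : 0 < t := hM0.trans hy'
    have e1 : y f.Q = ‖q‖ := by rw [← hq, Berk.map_C]
    have e2 : y (f.P - C 0 * f.Q) = gn f.P 0 t := by
      rw [C_0, zero_mul, sub_zero]
      refine y.eq_gn_of_lo_eq_hi hP0 ht0 rfl ?_
      rw [(h2 t (hM2.trans_lt hy')).1, (h2 t (hM2.trans_lt hy')).2]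
    have e3 : p * t ^ f.deg ≤ gn f.P 0 t := le_tv (TP_co hP0 0) t f.deg
    have h3 := hcon.2
    rw [e1, e2] at h3
    have h4 : ‖q‖ < p * t := by
      have := hM3.trans_lt hy'
      rw [div_lt_iff₀ hp] at this
      linarith
    obtain ⟨m, hm⟩ : ∃ m, f.deg = m + 2 := ⟨f.deg - 2, by omega⟩
    have h5 : t ^ 2 ≤ t ^ f.deg := by
      exact pow_le_pow_right₀ (hM1.trans hy'.le) hd2
    have h6 : M * ‖q‖ < p * t ^ 2 := by
      calc M * ‖q‖ < t * (p * t) := mul_lt_mul'' hy' h4 hM0.le hqn.le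
        _ = p * t ^ 2 := by ring
    have h7 : p * t ^ 2 ≤ p * t ^ f.deg := mul_le_mul_of_nonneg_left h5 hp.le
    linarith

theorem dirac_not_zeta (h : Setup R ρ) (hG : ¬ R.CaseG) {b : K} {r : ℝ} (hr : 0 < r)
    (hD : Dirac R ρ ((zeta b r : Berk K) : P1 K)) : False := by
  have hd := h.one_le_deg_iter 1
  have hzc : ∀ b' : K, zeta b r (X - C b') = max r ‖b' - b‖ := fun b' => zeta_lin b b' hr.le
  have hhi := (hD.hi_eq h b hr).1 (coe_mem_cD.2 (by rw [hzc, sub_self, norm_zero,
    max_eq_left hr.le]))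
  have hlo : ∀ b' : K, lo ((R.iter 1).G b' ((zeta b r : Berk K) : P1 K)) r = 0 := fun b' =>
    (hD.lo_eq h b' hr).2 (by
      rw [coe_mem_oD, hzc]
      exact not_lt.2 (le_max_left _ _))
  have hact : (R.iter 1).act = R.act := act_iter_one R
  have hdeg : (R.iter 1).deg = R.deg := by rw [R.deg_iter, pow_one]
  generalize R.iter 1 = f at *
  have hd2 : 2 ≤ f.deg := by rw [hdeg]; exact h.hd
  have hfix : f.act (zeta b r : Berk K) = (zeta b r : Berk K) := by rw [hact]; exact hD.fix
  have hloc : f.locDeg (zeta b r : Berk K) = f.deg := by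
    refine le_antisymm (f.locDeg_le_deg _) ?_
    have := f.le_locDeg_zeta_add hd b hr ∅ (by simp) (fun b' _ _ => by rw [hfix]; exact hlo b')
    rw [hfix, hhi] at this
    simpa using this
  have huniq := f.eq_of_locDeg_eq_deg hd b hr hloc
  -- the radius is in the value group
  have hA := TP_co (f.sub_ne_zero hd b) b
  have hC := TP_co (f.Q_ne_zero hd) b
  have himg := f.lo_G_image hd b b hr hr hfix
  rw [hlo b, hhi] at himg
  have hAC : tv (co (f.P - C b * f.Q) b) r = r * tv (co f.Q b) r := by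
    have := f.gn_of_act_zeta hd b b hr hr hfix b
    rw [sub_self, norm_zero, max_eq_left hr.le] at this
    exact this
  have hne : ∀ {F : K[X]} (hF : F ≠ 0) {i : ℕ}, co F b i * r ^ i = tv (co F b) r →
      (taylor b F).coeff i ≠ 0 := by
    intro F hF i hi h0
    rw [co, h0, norm_zero, zero_mul] at hi
    exact (tv_pos (TP_co hF b) hr).ne hi
  obtain ⟨π, hπ, hrπ⟩ : ∃ π : K, π ≠ 0 ∧ r = ‖π‖ := by
    have h0 : lo (co (f.P - C b * f.Q) b) r = 0 ∨ lo (co f.Q b) r = 0 := by
      have := himg.1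
      omega
    have h1 : hi (co (f.P - C b * f.Q) b) r = f.deg ∨ hi (co f.Q b) r = f.deg := by
      have := himg.2
      omega
    have sA := lo_spec hA hr.le
    have sC := lo_spec hC hr.le
    have tA := hi_spec hA hr
    have tC := hi_spec hC hr
    rcases h0 with h0 | h0 <;> rcases h1 with h1 | h1
    · rw [h0] at sA; rw [h1] at tA
      refine RatMap.exists_norm_eq (hne (f.sub_ne_zero hd b) sA) (hne (f.sub_ne_zero hd b) tA) hr
        (m := 0) (k := f.deg) (by omega) ?_
      exact sA.trans tA.symm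
    · rw [h0] at sA; rw [h1] at tC
      refine RatMap.exists_norm_eq (hne (f.sub_ne_zero hd b) sA) (hne (f.Q_ne_zero hd) tC) hr
        (m := 0) (k := f.deg + 1) (by omega) ?_
      refine sA.trans ?_
      rw [hAC, ← tC, pow_succ, co]
      ring
    · rw [h0] at sC; rw [h1] at tA
      refine RatMap.exists_norm_eq (hne (f.Q_ne_zero hd) sC) (hne (f.sub_ne_zero hd b) tA) hr
        (m := 1) (k := f.deg) (by omega) ?_
      refine Eq.trans ?_ tA.symm
      rw [hAC, ← sC, co]
      ring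
    · rw [h0] at sC; rw [h1] at tC
      refine RatMap.exists_norm_eq (hne (f.Q_ne_zero hd) sC) (hne (f.Q_ne_zero hd) tC) hr
        (m := 0) (k := f.deg) (by omega) ?_
      exact sC.trans tC.symm
  refine hG ⟨b, π, hπ, fun x => ⟨fun hx => ?_, fun hx => ?_⟩⟩
  · rw [← hrπ] at hx ⊢
    refine huniq x ?_
    rw [hfix, hact, hx]
  · rw [hx, ← hrπ, ← hact]
    exact hfix

/-- **no atoms.** -/
theorem no_atom (h : Setup R ρ) (hG : ¬ R.CaseG) (x : P1 K) : ρ {x} = 0 := by
  by_contra hne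
  obtain ⟨x, hx, hmax⟩ := h.exists_max_atom hne
  have hD := h.dirac_of_max hG hx hmax
  induction x using OnePoint.rec with
  | infty => exact h.dirac_not_infty hD
  | coe x =>
    rcases x.classify with ⟨a, r, hr, rfl⟩ | h4
    · rcases hr.eq_or_lt with rfl | hr
      · rw [zeta_zero] at hD
        exact h.dirac_not_pt hD
      · exact h.dirac_not_zeta hG hr hD
    · have hdeg : (R.iter 1).deg = R.deg := by rw [R.deg_iter, pow_one]
      have hfix : (R.iter 1).act (x : P1 K) = (x : P1 K) := by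
        rw [act_iter_one]; exact hD.fix
      obtain ⟨a, t, ht, hmem, hlo, -⟩ := (R.iter 1).exists_disc_of_typeFour
        (by rw [hdeg]; exact h.hd) x h4 hfix
      have h5 := (hD.lo_eq h a ht).1 hmem
      rw [hlo, hdeg] at h5
      have := h.hd
      omega

end Setup

end Pool.Agent.Helper17.Berk
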