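import Mathlib
import Pool.Agent.Helper17.Berk.Mix
import Pool.Agent.Helper17.Berk.GoodFix

/-!
# Tiles (modules B13, B14: many disjoint discs), MP_160e9b_an

`hasFix_disc`.  `W = oD c s`, `s` of type II, `0 < ρ W < 1`, `T` its tree.  For `l < n`, up to null
sets `R^{-n} W ⊆ ⋃_{V ∈ T n} V ∪ ⋃_{l<n} ⋃_{V ∈ T l bad} R^{-(n-l)} V` (induction on `n`: by
`goodPull_measure` for `R` itself and `IsTree.total`, `∑ ρ(V') = ρ(V) = ρ(R^{-1} V)` over the children
`V'` of a non-bad `V`).  All `V ∈ T l` satisfy `d^l ρ(V) = gdeg · ρ(W) ≤ β_l d^l ρ(W)`, and at most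
`d² + 1` of them are bad, so the loss is summable.  By mixing
`ρ(W ∩ R^{-n} W) → ρ(W)²` and `ρ(W ∩ R^{-(n-l)} V) → ρ(W) ρ(V)`, and (tail estimate)
`liminf_n ρ(W ∩ ⋃ T n) ≥ ρ(W)² - ∑_l ∑_{V bad} ρ(W) ρ(V)`.  For `n ≥ 2` a `V ∈ T n` meeting `W` is
strictly inside `W` (otherwise `W ⊆ V`, `ρ(V) ≥ ρ(W)`), so `∑_{V ⊂ W} gdeg(V) = d^n ∑ ρ(V) / ρ(W)`;
`GoodPull.exists_fixed` for each such `V`.
-/

open Polynomial Topology MeasureTheory Filter

set_option linter.dupNamespace false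

namespace Pool.Agent.Helper17.Berk

universe u

variable {K : Type u} [NontriviallyNormedField K] [IsUltrametricDist K] [IsAlgClosed K]

/-- `W` contains, for large `n`, full repelling fixed points of `R^n` of total degree about at
least `lam * d^n`. -/
def HasFix (R : RatMap K) (W : Set (P1 K)) (lam : ℝ) : Prop :=
  ∀ ε : ℝ, 0 < ε → ∀ᶠ n : ℕ in atTop, ∃ F : Finset (P1 K),
    (∀ x ∈ F, x ∈ (R.iter n).RFix ∧ ¬ (R.iter n).NonFull x ∧ x ∈ W) ∧
      (lam - ε) * (R.deg : ℝ) ^ n ≤ ((∑ x ∈ F, (R.iter n).locDeg x : ℕ) : ℝ)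

/-- a set which is inside or outside every disc whose boundary point it does not contain. -/
def DiscLike (W : Set (P1 K)) : Prop :=
  ∀ (e : K) (s : ℝ), 0 < s → ((zeta e s : Berk K) : P1 K) ∉ W →
    (W ⊆ oD e s ∨ Disjoint W (oD e s)) ∧ (W ⊆ cD e s ∨ Disjoint W (cD e s))

theorem discLike_oD (c : K) {t : ℝ} (ht : 0 < t) : DiscLike (oD c t : Set (P1 K)) := by
  intro e s hs hz
  rw [coe_mem_oD, zeta_lin e c hs.le, not_lt] at hz
  rcases le_or_gt t s with hts | hts
  · refine ⟨oD_subset_or_disjoint hts, ?_⟩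
    rcases le_or_gt ‖c - e‖ s with hce | hce
    · left
      rw [← cD_eq_cD hce]
      rintro _ ⟨x, rfl, hx⟩
      exact ⟨x, rfl, hx.le.trans hts⟩
    · right
      rw [Set.disjoint_left]
      rintro _ ⟨x, rfl, hx⟩ hx'
      rw [coe_mem_cD] at hx'
      have h1 := x.norm_sub_le c e
      rcases le_max_iff.1 h1 with h2 | h2 <;> linarith
  · have hce : t ≤ ‖c - e‖ := by
      rcases le_max_iff.1 hz with h2 | h2
      · linarith
      · exact h2
    have key : ∀ x : Berk K, x (X - C c) < t → s < x (X - C e) := by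
      intro x hx
      have h1 := x.norm_sub_le c e
      rcases le_max_iff.1 h1 with h2 | h2 <;> linarith
    refine ⟨Or.inr ?_, Or.inr ?_⟩
    · rw [Set.disjoint_left]
      rintro _ ⟨x, rfl, hx⟩ hx'
      rw [coe_mem_oD] at hx'
      exact absurd (key x hx) (not_lt.2 hx'.le)
    · rw [Set.disjoint_left]
      rintro _ ⟨x, rfl, hx⟩ hx'
      rw [coe_mem_cD] at hx'
      exact absurd (key x hx) (not_lt.2 hx')

theorem discLike_annulus (a : K) {r₁ r₂ : ℝ} (h1 : 0 < r₁) (h2 : r₁ < r₂) :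
    DiscLike (oD a r₂ \ cD a r₁ : Set (P1 K)) := by
  intro e s hs hz
  by_cases hzo : ((zeta e s : Berk K) : P1 K) ∈ oD a r₂
  · have hzc : ((zeta e s : Berk K) : P1 K) ∈ cD a r₁ := by
      by_contra hcon
      exact hz ⟨hzo, hcon⟩
    rw [coe_mem_cD, zeta_lin e a hs.le, max_le_iff] at hzc
    have hsub : (cD e s : Set (P1 K)) ⊆ cD a r₁ := by
      rintro _ ⟨x, rfl, hx⟩
      refine ⟨x, rfl, ?_⟩
      refine (x.lin_le a e).trans (max_le (hx.trans hzc.1) hzc.2)
    have hd : Disjoint (oD a r₂ \ cD a r₁ : Set (P1 K)) (cD e s) :=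
      Set.disjoint_left.2 fun x hx hx' => hx.2 (hsub hx')
    exact ⟨Or.inr (hd.mono_right (oD_subset_cD e s)), Or.inr hd⟩
  · obtain ⟨h3, h4⟩ := discLike_oD a (h1.trans h2) e s hs hzo
    constructor
    · rcases h3 with h3 | h3
      · exact Or.inl (Set.sdiff_subset.trans h3)
      · exact Or.inr (h3.mono_left Set.sdiff_subset)
    · rcases h4 with h4 | h4
      · exact Or.inl (Set.sdiff_subset.trans h4)
      · exact Or.inr (h4.mono_left Set.sdiff_subset)

/-- a family of tiles covering everything up to `ε`. -/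
def TileFam (R : RatMap K) (ρ : Measure (P1 K)) (ε : ℝ) : Prop :=
  ∃ (m : ℕ) (W : Fin m → Set (P1 K)) (lam : Fin m → ℝ),
    (∀ i j, i ≠ j → Disjoint (W i) (W j)) ∧
    (∀ i, MeasurableSet (W i) ∧ DiscLike (W i) ∧ ρ.real (W i) ≤ ε ∧ HasFix R (W i) (lam i) ∧
      lam i ≤ ρ.real (W i)) ∧
    1 - ε ≤ ∑ i, lam i

variable {R : RatMap K} {ρ : Measure (P1 K)}

open Classical in
/-- the loss at level `l` of a tree. -/
noncomputable def loss (R : RatMap K) (ρ : Measure (P1 K)) (T : ℕ → Finset (K × ℝ)) (l : ℕ) : ℝ :=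
  ∑ V ∈ (T l).filter (fun V => R.Bad V.1 V.2), ρ.real (oD V.1 V.2)

theorem loss_nonneg_t (R : RatMap K) (ρ : Measure (P1 K)) (T : ℕ → Finset (K × ℝ)) (l : ℕ) :
    0 ≤ loss R ρ T l := Finset.sum_nonneg fun _ _ => measureReal_nonneg

omit [IsUltrametricDist K] [IsAlgClosed K] in
theorem homg_X_one_t {n : ℕ} (F : K[X]) (hn : F.natDegree ≤ n) : homg n F X 1 = F := by
  rw [homg]
  conv_rhs => rw [F.as_sum_range_C_mul_X_pow' (Nat.lt_succ_of_le hn)]
  simp

theorem RatMap.iter_one_t (f : RatMap K) : f.iter 1 = f := by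
  obtain ⟨P, Q, cop⟩ := f
  have h1 := homg_X_one_t P (RatMap.natDegree_P_le ⟨P, Q, cop⟩)
  have h2 := homg_X_one_t Q (RatMap.natDegree_Q_le ⟨P, Q, cop⟩)
  simp only [RatMap.iter, RatMap.comp, RatMap.id, RatMap.mk.injEq]
  exact ⟨h1, h2⟩

theorem measurable_act_t (f : RatMap K) : Measurable f.act := f.continuous_act.measurable

theorem measurableSet_oD_t (a : K) (r : ℝ) : MeasurableSet (oD a r : Set (P1 K)) :=
  (isOpen_oD a r).measurableSet

theorem measurableSet_cD_t (a : K) (r : ℝ) : MeasurableSet (cD a r : Set (P1 K)) :=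
  (isClosed_cD a r).measurableSet

theorem RatMap.bet_nonneg_t {d : ℕ} (hd : 1 ≤ d) (n : ℕ) : 0 ≤ RatMap.bet d n := by
  have h1 : (1 : ℝ) ≤ d := by exact_mod_cast hd
  exact pow_nonneg (div_nonneg (by linarith) (by linarith)) _

theorem RatMap.bet_lt_one_t {d : ℕ} (hd : 1 ≤ d) {n : ℕ} (hn : 2 ≤ n) : RatMap.bet d n < 1 := by
  have h1 : (1 : ℝ) ≤ d := by exact_mod_cast hd
  refine pow_lt_one₀ (div_nonneg (by linarith) (by linarith)) ?_ (by omega)
  rw [div_lt_one (by linarith)]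
  linarith

namespace Setup

theorem deg_pos_t (h : Setup R ρ) : 1 ≤ R.deg := le_trans (by norm_num) h.hd

theorem deg_iter_pos_t (h : Setup R ρ) (n : ℕ) : 1 ≤ (R.iter n).deg := by
  rw [RatMap.deg_iter]
  exact Nat.one_le_pow _ _ h.deg_pos_t

/-- mass of the discs of a tree. -/
theorem tree_mass_le (h : Setup R ρ) (hG : ¬ R.CaseG) {c π : K} (hπ : π ≠ 0)
    (h0 : 0 < ρ.real (oD c ‖π‖)) (h1 : ρ.real (oD c ‖π‖) < 1) {T : ℕ → Finset (K × ℝ)}
    (hT : R.IsTree c ‖π‖ T) (l : ℕ) {V : K × ℝ} (hV : V ∈ T l) :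
    ρ.real (oD V.1 V.2) ≤ RatMap.bet R.deg l * ρ.real (oD c ‖π‖) := by
  have hp := hT.good l V hV
  have e1 := h.goodPull_measure l hp
  have e2 := h.gdeg_le hG l hπ hp h0 h1
  have hd : 0 < (R.deg : ℝ) ^ l := by
    have := h.deg_pos_t
    positivity
  rw [← mul_le_mul_iff_right₀ hd, e1]
  calc ((R.iter l).gdeg V.1 V.2 c : ℝ) * ρ.real (oD c ‖π‖)
      ≤ (RatMap.bet R.deg l * (R.deg : ℝ) ^ l) * ρ.real (oD c ‖π‖) :=
        mul_le_mul_of_nonneg_right e2 h0.le
    _ = _ := by ring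

/-- size of the loss. -/
theorem loss_le (h : Setup R ρ) (hG : ¬ R.CaseG) {c π : K} (hπ : π ≠ 0)
    (h0 : 0 < ρ.real (oD c ‖π‖)) (h1 : ρ.real (oD c ‖π‖) < 1) {T : ℕ → Finset (K × ℝ)}
    (hT : R.IsTree c ‖π‖ T) (l : ℕ) :
    loss R ρ T l ≤ ((R.deg : ℝ) ^ 2 + 1) * RatMap.bet R.deg l * ρ.real (oD c ‖π‖) := by
  classical
  have hcard := R.card_bad_le h.deg_pos_t (T l) (fun V hV => (hT.good l V hV).rpos)
    (hT.disj l)
  have e1 : loss R ρ T l ≤ ((T l).filter (fun V => R.Bad V.1 V.2)).card •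
      (RatMap.bet R.deg l * ρ.real (oD c ‖π‖)) := by
    rw [loss]
    exact Finset.sum_le_card_nsmul _ _ _
      (fun V hV => h.tree_mass_le hG hπ h0 h1 hT l (Finset.mem_filter.1 hV).1)
  refine e1.trans ?_
  rw [nsmul_eq_mul, mul_assoc]
  refine mul_le_mul_of_nonneg_right ?_ (mul_nonneg (RatMap.bet_nonneg_t h.deg_pos_t l) h0.le)
  have : ((((T l).filter (fun V => R.Bad V.1 V.2)).card : ℕ) : ℝ) ≤ ((R.deg ^ 2 + 1 : ℕ) : ℝ) := by
    exact_mod_cast hcard
  simpa using this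

theorem summable_bet (h : Setup R ρ) : Summable (RatMap.bet R.deg) := by
  have h2 := h.hd
  have h1 : (2 : ℝ) ≤ R.deg := by exact_mod_cast h2
  set q : ℝ := ((R.deg : ℝ) - 1) / R.deg with hq
  have hq0 : 0 ≤ q := div_nonneg (by linarith) (by linarith)
  have hq1 : q < 1 := by
    rw [hq, div_lt_one (by linarith)]
    linarith
  have hg := (summable_geometric_of_lt_one hq0 hq1).hasSum
  refine (HasSum.even_add_odd (f := RatMap.bet R.deg) (m := ∑' n, q ^ n) (m' := ∑' n, q ^ n)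
    ?_ ?_).summable
  · convert hg using 2 with k
    rw [RatMap.bet]
    congr 1
    omega
  · convert hg using 2 with k
    rw [RatMap.bet]
    congr 1
    omega


/-- up to null sets, the preimage of a disc of the tree which is not bad is covered by the next
level. -/
theorem tree_null_step (h : Setup R ρ) {c : K} {s : ℝ} {T : ℕ → Finset (K × ℝ)}
    (hT : R.IsTree c s T) (l : ℕ) {V : K × ℝ} (hV : V ∈ T l) (hb : ¬ R.Bad V.1 V.2) :
    ρ ((R.act ⁻¹' (oD V.1 V.2)) \ ⋃ V' ∈ T (l + 1), oD V'.1 V'.2) = 0 := by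
  classical
  have := h.prob
  set A : Finset (K × ℝ) := (T (l + 1)).filter (fun V' => R.GoodPull V'.1 V'.2 V.1 V.2) with hA
  have hd : (0 : ℝ) < R.deg := by exact_mod_cast h.deg_pos_t
  -- mass of a child
  have hmass : ∀ V' ∈ A, (R.deg : ℝ) * ρ.real (oD V'.1 V'.2) =
      R.gdeg V'.1 V'.2 V.1 * ρ.real (oD V.1 V.2) := by
    intro V' hV'
    have h1 := (Finset.mem_filter.1 hV').2
    have h2 := h.goodPull_measure 1 (b := V'.1) (c := V.1) (r := V'.2) (s := V.2)
      (by rw [RatMap.iter_one_t]; exact h1)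
    rwa [RatMap.iter_one_t, pow_one] at h2
  have hdisj : (A : Set (K × ℝ)).PairwiseDisjoint (fun V' => (oD V'.1 V'.2 : Set (P1 K))) := by
    intro V' hV' V'' hV'' hne
    exact hT.disj (l + 1) V' (Finset.mem_filter.1 hV').1 V'' (Finset.mem_filter.1 hV'').1 hne
  have hU : ρ.real (⋃ V' ∈ A, oD V'.1 V'.2) = ρ.real (oD V.1 V.2) := by
    rw [measureReal_biUnion_finset hdisj (fun V' _ => measurableSet_oD_t _ _)]
    have e1 : (R.deg : ℝ) * ∑ V' ∈ A, ρ.real (oD V'.1 V'.2) = R.deg * ρ.real (oD V.1 V.2) := by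
      rw [Finset.mul_sum, Finset.sum_congr rfl hmass, ← Finset.sum_mul]
      have e2 := hT.total l V hV hb
      rw [← hA] at e2
      rw [← e2]
      push_cast
      rfl
    exact mul_left_cancel₀ hd.ne' e1
  have hsub : (⋃ V' ∈ A, oD V'.1 V'.2 : Set (P1 K)) ⊆ R.act ⁻¹' (oD V.1 V.2) := by
    intro x hx
    simp only [Set.mem_iUnion] at hx
    obtain ⟨V', hV', hx⟩ := hx
    exact (Finset.mem_filter.1 hV').2.mapsTo h.deg_pos_t hx
  have hpre : ρ (R.act ⁻¹' (oD V.1 V.2)) = ρ (oD V.1 V.2) := by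
    have := h.measure_preimage 1 (measurableSet_oD_t V.1 V.2)
    rwa [RatMap.iter_one_t] at this
  have hUm : MeasurableSet (⋃ V' ∈ A, oD V'.1 V'.2 : Set (P1 K)) :=
    Finset.measurableSet_biUnion _ (fun V' _ => measurableSet_oD_t _ _)
  have hz : ρ ((R.act ⁻¹' (oD V.1 V.2)) \ ⋃ V' ∈ A, oD V'.1 V'.2) = 0 := by
    rw [measure_sdiff hsub hUm.nullMeasurableSet (measure_ne_top _ _), hpre]
    have e3 : ρ (⋃ V' ∈ A, oD V'.1 V'.2) = ρ (oD V.1 V.2) :=
      (measureReal_eq_measureReal_iff (measure_ne_top _ _) (measure_ne_top _ _)).1 hU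
    rw [e3, tsub_self]
  refine measure_mono_null ?_ hz
  intro x hx
  refine ⟨hx.1, fun hx' => hx.2 ?_⟩
  simp only [Set.mem_iUnion] at hx' ⊢
  obtain ⟨V', hV', hx'⟩ := hx'
  exact ⟨V', (Finset.mem_filter.1 hV').1, hx'⟩

open Classical in
theorem measure_uncovered_step (h : Setup R ρ) {c : K} {s : ℝ} {T : ℕ → Finset (K × ℝ)}
    (hT : R.IsTree c s T) {n : ℕ} {S : Set (P1 K)} (k : ℕ) (hk : k ≤ n) :
    ρ.real (S ∩ (R.iter n).act ⁻¹' (oD c s)) ≤
      ρ.real (S ∩ (R.iter (n - k)).act ⁻¹' (⋃ V ∈ T k, oD V.1 V.2)) +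
        ∑ l ∈ Finset.range k, ∑ V ∈ (T l).filter (fun V => R.Bad V.1 V.2),
          ρ.real (S ∩ (R.iter (n - l)).act ⁻¹' (oD V.1 V.2)) := by
  have := h.prob
  induction k with
  | zero =>
    rw [hT.zero]
    simp
  | succ k ih =>
    refine (ih (by omega)).trans ?_
    rw [Finset.sum_range_succ]
    have key : ρ.real (S ∩ (R.iter (n - k)).act ⁻¹' (⋃ V ∈ T k, oD V.1 V.2)) ≤
        ρ.real (S ∩ (R.iter (n - (k + 1))).act ⁻¹' (⋃ V ∈ T (k + 1), oD V.1 V.2)) +
          ∑ V ∈ (T k).filter (fun V => R.Bad V.1 V.2),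
            ρ.real (S ∩ (R.iter (n - k)).act ⁻¹' (oD V.1 V.2)) := by
      set Z : Set (P1 K) := ⋃ V ∈ (T k).filter (fun V => ¬ R.Bad V.1 V.2),
        ((R.act ⁻¹' (oD V.1 V.2)) \ ⋃ V' ∈ T (k + 1), oD V'.1 V'.2) with hZ
      have hZm : MeasurableSet Z := by
        refine Finset.measurableSet_biUnion _ (fun V _ => ?_)
        exact ((measurable_act_t R) (measurableSet_oD_t _ _)).diff
          (Finset.measurableSet_biUnion _ (fun V' _ => measurableSet_oD_t _ _))
      have hZ0 : ρ Z = 0 := by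
        refine le_antisymm ((measure_biUnion_finset_le _ _).trans_eq ?_) zero_le
        refine Finset.sum_eq_zero fun V hV => ?_
        have hV' := Finset.mem_filter.1 hV
        exact h.tree_null_step hT k hV'.1 hV'.2
      have hZ1 : ρ ((R.iter (n - (k + 1))).act ⁻¹' Z) = 0 := by
        rw [h.measure_preimage _ hZm, hZ0]
      have hsub : S ∩ (R.iter (n - k)).act ⁻¹' (⋃ V ∈ T k, oD V.1 V.2) ⊆
          (S ∩ (R.iter (n - (k + 1))).act ⁻¹' (⋃ V ∈ T (k + 1), oD V.1 V.2)) ∪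
          ((⋃ V ∈ (T k).filter (fun V => R.Bad V.1 V.2),
            (S ∩ (R.iter (n - k)).act ⁻¹' (oD V.1 V.2))) ∪
            (R.iter (n - (k + 1))).act ⁻¹' Z) := by
        rintro x ⟨hxS, hx⟩
        simp only [Set.mem_preimage, Set.mem_iUnion] at hx
        obtain ⟨V, hV, hx⟩ := hx
        by_cases hb : R.Bad V.1 V.2
        · refine Or.inr (Or.inl ?_)
          simp only [Set.mem_iUnion]
          exact ⟨V, Finset.mem_filter.2 ⟨hV, hb⟩, hxS, hx⟩
        · have e1 : (R.iter (n - k)).act x = R.act ((R.iter (n - (k + 1))).act x) := by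
            have e2 : n - k = 1 + (n - (k + 1)) := by omega
            rw [e2, RatMap.act_iter_add, RatMap.iter_one_t]
          rw [e1] at hx
          by_cases hU : (R.iter (n - (k + 1))).act x ∈ (⋃ V ∈ T (k + 1), oD V.1 V.2 : Set (P1 K))
          · exact Or.inl ⟨hxS, hU⟩
          · refine Or.inr (Or.inr ?_)
            simp only [hZ, Set.mem_preimage, Set.mem_iUnion]
            exact ⟨V, Finset.mem_filter.2 ⟨hV, hb⟩, hx, hU⟩
      refine (measureReal_mono hsub).trans ?_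
      refine (measureReal_union_le _ _).trans (add_le_add le_rfl ?_)
      refine (measureReal_union_le _ _).trans ?_
      have e3 : ρ.real ((R.iter (n - (k + 1))).act ⁻¹' Z) = 0 := by
        rw [measureReal_def, hZ1, ENNReal.toReal_zero]
      rw [e3, add_zero]
      exact measureReal_biUnion_finset_le _ _
    linarith

open Classical in
/-- the part of `R^{-n} W` not covered by the tree. -/
theorem measure_uncovered_le (h : Setup R ρ) (hG : ¬ R.CaseG) {c π : K} (hπ : π ≠ 0)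
    (h0 : 0 < ρ.real (oD c ‖π‖)) (h1 : ρ.real (oD c ‖π‖) < 1) {T : ℕ → Finset (K × ℝ)}
    (hT : R.IsTree c ‖π‖ T) (n : ℕ) {S : Set (P1 K)} (hS : MeasurableSet S) :
    ρ.real (S ∩ (R.iter n).act ⁻¹' (oD c ‖π‖)) ≤
      ρ.real (S ∩ ⋃ V ∈ T n, oD V.1 V.2) +
        ∑ l ∈ Finset.range n, ∑ V ∈ (T l).filter (fun V => R.Bad V.1 V.2),
          ρ.real (S ∩ (R.iter (n - l)).act ⁻¹' (oD V.1 V.2)) := by
  have := h.measure_uncovered_step hT (S := S) n le_rfl
  have e : (R.iter (n - n)).act ⁻¹' (⋃ V ∈ T n, oD V.1 V.2) = (⋃ V ∈ T n, oD V.1 V.2) := by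
    ext x
    rw [Set.mem_preimage, Nat.sub_self, RatMap.act_iter]
    rfl
  rwa [e] at this

/-- the convolution of `β` with itself tends to zero. -/
theorem tendsto_conv_t (h : Setup R ρ) :
    Tendsto (fun n => ∑ l ∈ Finset.range n, RatMap.bet R.deg (n - l) * RatMap.bet R.deg l)
      atTop (𝓝 0) := by
  have hn : Summable (fun n => ‖RatMap.bet R.deg n‖) := h.summable_bet.norm
  have h1 := (summable_norm_sum_mul_antidiagonal_of_summable_norm hn hn).tendsto_atTop_zero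
  have hb := fun n => RatMap.bet_nonneg_t h.deg_pos_t n
  refine squeeze_zero
    (fun n => Finset.sum_nonneg fun l _ => mul_nonneg (hb _) (hb _)) (fun n => ?_) h1
  rw [Finset.Nat.sum_antidiagonal_eq_sum_range_succ
    (fun i j => RatMap.bet R.deg i * RatMap.bet R.deg j), Finset.sum_range_succ]
  refine le_trans ?_ (le_abs_self _)
  have e : ∑ l ∈ Finset.range n, RatMap.bet R.deg (n - l) * RatMap.bet R.deg l =
      ∑ l ∈ Finset.range n, RatMap.bet R.deg l * RatMap.bet R.deg (n - l) :=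
    Finset.sum_congr rfl fun l _ => mul_comm _ _
  rw [e]
  exact le_add_of_nonneg_right (mul_nonneg (hb _) (hb _))

/-- a disc of a late level of the tree which meets the root is strictly inside it. -/
theorem tree_inside (h : Setup R ρ) (hG : ¬ R.CaseG) {c π : K} (hπ : π ≠ 0)
    (h0 : 0 < ρ.real (oD c ‖π‖)) (h1 : ρ.real (oD c ‖π‖) < 1) {T : ℕ → Finset (K × ℝ)}
    (hT : R.IsTree c ‖π‖ T) {n : ℕ} (hn : 2 ≤ n) {V : K × ℝ} (hV : V ∈ T n)
    (hm : ¬ Disjoint (oD V.1 V.2 : Set (P1 K)) (oD c ‖π‖)) :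
    V.2 < ‖π‖ ∧ ‖V.1 - c‖ < ‖π‖ := by
  have := h.prob
  have hlt : ρ.real (oD V.1 V.2) < ρ.real (oD c ‖π‖) := by
    refine (h.tree_mass_le hG hπ h0 h1 hT n hV).trans_lt ?_
    have h2 := RatMap.bet_lt_one_t h.deg_pos_t hn
    nlinarith
  have h2 : V.2 < ‖π‖ := by
    by_contra hcon
    rw [not_lt] at hcon
    rcases oD_subset_or_disjoint (a := c) (b := V.1) hcon with h3 | h3
    · exact absurd (measureReal_mono (μ := ρ) h3) (not_le.2 hlt)
    · exact hm h3.symm
  refine ⟨h2, ?_⟩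
  by_contra hcon
  rw [not_lt] at hcon
  exact hm (oD_disjoint (h2.le.trans hcon) hcon)

/-- **tile lemma for discs.** -/
theorem hasFix_disc (h : Setup R ρ) (hG : ¬ R.CaseG) {c π : K} (hπ : π ≠ 0)
    (h0 : 0 < ρ.real (oD c ‖π‖)) (h1 : ρ.real (oD c ‖π‖) < 1) {T : ℕ → Finset (K × ℝ)}
    (hT : R.IsTree c ‖π‖ T) :
    HasFix R (oD c ‖π‖) (ρ.real (oD c ‖π‖) - ∑' l, loss R ρ T l) := by
  classical
  have := h.prob
  intro ε hε
  set w : ℝ := ρ.real (oD c ‖π‖) with hw
  set D : ℝ := (R.deg : ℝ) ^ 2 + 1 with hD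
  have hDpos : 0 < D := by positivity
  have hb := fun n => RatMap.bet_nonneg_t h.deg_pos_t n
  have hloss := fun l => loss_nonneg_t R ρ T l
  have hlossle : ∀ l, loss R ρ T l ≤ D * RatMap.bet R.deg l * w :=
    fun l => h.loss_le hG hπ h0 h1 hT l
  have hsum : Summable (loss R ρ T) :=
    Summable.of_nonneg_of_le hloss hlossle ((h.summable_bet.mul_left D).mul_right w)
  have t1 : ∀ᶠ n in atTop, RatMap.bet R.deg n < ε / 2 :=
    h.summable_bet.tendsto_atTop_zero.eventually (gt_mem_nhds (by linarith))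
  have t2 : ∀ᶠ n in atTop,
      ∑ l ∈ Finset.range n, RatMap.bet R.deg (n - l) * RatMap.bet R.deg l < ε / 2 / D :=
    h.tendsto_conv_t.eventually (gt_mem_nhds (by positivity))
  filter_upwards [t1, t2, eventually_ge_atTop 2] with n ht1 ht2 hn
  have hd2 : 2 ≤ (R.iter n).deg := by
    rw [RatMap.deg_iter]
    calc 2 ≤ R.deg := h.hd
      _ = R.deg ^ 1 := (pow_one _).symm
      _ ≤ R.deg ^ n := Nat.pow_le_pow_right h.deg_pos_t (by omega)
  set A : Finset (K × ℝ) :=
    (T n).filter (fun V => ¬ Disjoint (oD V.1 V.2 : Set (P1 K)) (oD c ‖π‖)) with hA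
  have hex : ∀ V ∈ A, ∃ F : Finset (P1 K),
      (∀ x ∈ F, x ∈ (R.iter n).RFix ∧ ¬ (R.iter n).NonFull x ∧ x ∈ oD V.1 V.2) ∧
        ∑ x ∈ F, (R.iter n).locDeg x = (R.iter n).gdeg V.1 V.2 c := by
    intro V hV
    obtain ⟨hV1, hV2⟩ := Finset.mem_filter.1 hV
    obtain ⟨h3, h4⟩ := h.tree_inside hG hπ h0 h1 hT hn hV1 hV2
    exact (hT.good n V hV1).exists_fixed hd2 h4 h3
  choose! F hF1 hF2 using hex
  have hVW : ∀ V ∈ A, (oD V.1 V.2 : Set (P1 K)) ⊆ oD c ‖π‖ := by
    intro V hV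
    obtain ⟨hV1, hV2⟩ := Finset.mem_filter.1 hV
    obtain ⟨h3, h4⟩ := h.tree_inside hG hπ h0 h1 hT hn hV1 hV2
    exact (oD_subset_or_disjoint h3.le).resolve_right hV2
  refine ⟨A.biUnion F, ?_, ?_⟩
  · intro x hx
    obtain ⟨V, hV, hx⟩ := Finset.mem_biUnion.1 hx
    obtain ⟨h3, h4, h5⟩ := hF1 V hV x hx
    exact ⟨h3, h4, hVW V hV h5⟩
  · have hdisj : (A : Set (K × ℝ)).PairwiseDisjoint F := by
      intro V hV V' hV' hne
      rw [Function.onFun, Finset.disjoint_left]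
      intro x hx hx'
      have h3 := (hF1 V hV x hx).2.2
      have h4 := (hF1 V' hV' x hx').2.2
      exact Set.disjoint_left.1 (hT.disj n V (Finset.mem_filter.1 hV).1 V'
        (Finset.mem_filter.1 hV').1 hne) h3 h4
    rw [Finset.sum_biUnion hdisj, Finset.sum_congr rfl hF2]
    push_cast
    set dn : ℝ := (R.deg : ℝ) ^ n with hdn
    have hdn0 : 0 < dn := by
      have h2 : (0 : ℝ) < R.deg := by exact_mod_cast h.deg_pos_t
      positivity
    have e1 : (∑ V ∈ A, ((R.iter n).gdeg V.1 V.2 c : ℝ)) * w =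
        dn * ∑ V ∈ A, ρ.real (oD V.1 V.2) := by
      rw [Finset.sum_mul, Finset.mul_sum]
      refine Finset.sum_congr rfl fun V hV => ?_
      exact (h.goodPull_measure n (hT.good n V (Finset.mem_filter.1 hV).1)).symm
    have e2 : ρ.real (oD c ‖π‖ ∩ ⋃ V ∈ T n, oD V.1 V.2) ≤ ∑ V ∈ A, ρ.real (oD V.1 V.2) := by
      refine (measureReal_mono ?_ (measure_ne_top _ _)).trans (measureReal_biUnion_finset_le A _)
      rintro x ⟨hx, hx'⟩
      simp only [Set.mem_iUnion] at hx' ⊢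
      obtain ⟨V, hV, hxV⟩ := hx'
      exact ⟨V, Finset.mem_filter.2 ⟨hV, fun hdis => Set.disjoint_left.1 hdis hxV hx⟩, hxV⟩
    have e3 := h.measure_uncovered_le hG hπ h0 h1 hT n (measurableSet_oD_t c ‖π‖)
    have e4 : w * w - RatMap.bet R.deg n * w ≤
        ρ.real (oD c ‖π‖ ∩ (R.iter n).act ⁻¹' (oD c ‖π‖)) := by
      have h3 := h.mixing_oD hG n c (norm_pos_iff.2 hπ) (measurableSet_oD_t c ‖π‖)
      have h4 := (abs_le.1 h3).1
      rw [← hw] at h4
      linarith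
    have e5 : ∀ l, ∑ V ∈ (T l).filter (fun V => R.Bad V.1 V.2),
          ρ.real (oD c ‖π‖ ∩ (R.iter (n - l)).act ⁻¹' (oD V.1 V.2)) ≤
        (w + RatMap.bet R.deg (n - l)) * loss R ρ T l := by
      intro l
      rw [loss, Finset.mul_sum]
      refine Finset.sum_le_sum fun V _ => ?_
      have h3 := h.mixing_oD hG (n - l) c (norm_pos_iff.2 hπ) (measurableSet_oD_t V.1 V.2)
      have h4 := (abs_le.1 h3).2
      rw [← hw] at h4
      linarith
    have e6 : ∑ l ∈ Finset.range n, ∑ V ∈ (T l).filter (fun V => R.Bad V.1 V.2),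
          ρ.real (oD c ‖π‖ ∩ (R.iter (n - l)).act ⁻¹' (oD V.1 V.2)) ≤
        w * ∑' l, loss R ρ T l + w * (ε / 2) := by
      have h3 : ∑ l ∈ Finset.range n, loss R ρ T l ≤ ∑' l, loss R ρ T l :=
        hsum.sum_le_tsum _ (fun l _ => hloss l)
      have h4 : ∑ l ∈ Finset.range n, RatMap.bet R.deg (n - l) * loss R ρ T l ≤ w * (ε / 2) := by
        calc ∑ l ∈ Finset.range n, RatMap.bet R.deg (n - l) * loss R ρ T l
            ≤ ∑ l ∈ Finset.range n,
                (w * D) * (RatMap.bet R.deg (n - l) * RatMap.bet R.deg l) := by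
              refine Finset.sum_le_sum fun l _ => ?_
              calc RatMap.bet R.deg (n - l) * loss R ρ T l
                  ≤ RatMap.bet R.deg (n - l) * (D * RatMap.bet R.deg l * w) :=
                    mul_le_mul_of_nonneg_left (hlossle l) (hb _)
                _ = _ := by ring
          _ = (w * D) * ∑ l ∈ Finset.range n,
                RatMap.bet R.deg (n - l) * RatMap.bet R.deg l := by
              rw [Finset.mul_sum]
          _ ≤ (w * D) * (ε / 2 / D) :=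
              mul_le_mul_of_nonneg_left ht2.le (mul_nonneg h0.le hDpos.le)
          _ = w * (ε / 2) := by field_simp
      calc ∑ l ∈ Finset.range n, ∑ V ∈ (T l).filter (fun V => R.Bad V.1 V.2),
              ρ.real (oD c ‖π‖ ∩ (R.iter (n - l)).act ⁻¹' (oD V.1 V.2))
          ≤ ∑ l ∈ Finset.range n, (w + RatMap.bet R.deg (n - l)) * loss R ρ T l :=
            Finset.sum_le_sum fun l _ => e5 l
        _ = w * ∑ l ∈ Finset.range n, loss R ρ T l +
              ∑ l ∈ Finset.range n, RatMap.bet R.deg (n - l) * loss R ρ T l := by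
            rw [Finset.mul_sum, ← Finset.sum_add_distrib]
            refine Finset.sum_congr rfl fun l _ => ?_
            ring
        _ ≤ _ := add_le_add (mul_le_mul_of_nonneg_left h3 h0.le) h4
    have e7 : w * (w - ∑' l, loss R ρ T l - ε) ≤ ∑ V ∈ A, ρ.real (oD V.1 V.2) := by
      have h3 : RatMap.bet R.deg n * w ≤ w * (ε / 2) := by
        rw [mul_comm]
        exact mul_le_mul_of_nonneg_left ht1.le h0.le
      have h4 : w * (w - ∑' l, loss R ρ T l - ε) =
          w * w - w * ∑' l, loss R ρ T l - w * (ε / 2) - w * (ε / 2) := by ring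
      rw [h4]
      linarith
    have e8 : ((w - ∑' l, loss R ρ T l - ε) * dn) * w ≤
        (∑ V ∈ A, ((R.iter n).gdeg V.1 V.2 c : ℝ)) * w := by
      rw [e1]
      calc ((w - ∑' l, loss R ρ T l - ε) * dn) * w
          = dn * (w * (w - ∑' l, loss R ρ T l - ε)) := by ring
        _ ≤ _ := mul_le_mul_of_nonneg_left e7 hdn0.le
    exact le_of_mul_le_mul_right e8 h0

end Setup

end Pool.Agent.Helper17.Berk
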