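import Mathlib
import Pool.Agent.Helper17.Berk.Tile
import Pool.Agent.Helper12.Berk.AnnTrop

/-!
# The tile lemma for annuli (module B15, MP_160e9b_an, helper12)
-/

open Polynomial Topology MeasureTheory Filter

set_option linter.dupNamespace false

namespace Pool.Agent.Helper17.Berk

universe u

variable {K : Type u} [NontriviallyNormedField K] [IsUltrametricDist K] [IsAlgClosed K]

omit [IsUltrametricDist K] in
/-- the value group is dense. -/
theorem exists_norm_mem_Ioo_an {u₁ u₂ : ℝ} (h0 : 0 < u₁) (h : u₁ < u₂) :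
    ∃ π : K, π ≠ 0 ∧ u₁ < ‖π‖ ∧ ‖π‖ < u₂ := by
  obtain ⟨x, hx⟩ := NormedField.exists_one_lt_norm K
  have hq : 1 < u₂ / u₁ := (one_lt_div h0).2 h
  obtain ⟨m, hm⟩ := pow_unbounded_of_one_lt ‖x‖ hq
  have hm0 : 0 < m := by
    rcases Nat.eq_zero_or_pos m with rfl | h'
    · rw [pow_zero] at hm
      linarith
    · exact h'
  obtain ⟨y, hy⟩ := IsAlgClosed.exists_pow_nat_eq x hm0
  have hy1 : 1 < ‖y‖ := by
    by_contra hcon
    push Not at hcon
    have : ‖x‖ ≤ 1 := by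
      rw [← hy, norm_pow]
      exact pow_le_one₀ (norm_nonneg _) hcon
    linarith
  have hyq : ‖y‖ < u₂ / u₁ := by
    by_contra hcon
    push Not at hcon
    have : (u₂ / u₁) ^ m ≤ ‖x‖ := by
      rw [← hy, norm_pow]
      exact pow_le_pow_left₀ (by linarith) hcon m
    linarith
  have hy0 : 0 < ‖y‖ := by linarith
  obtain ⟨k, hk1, hk2⟩ := exists_mem_Ico_zpow h0 hy1
  refine ⟨y ^ (k + 1), zpow_ne_zero _ (norm_pos_iff.1 hy0), ?_, ?_⟩
  · rw [norm_zpow]
    exact hk2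
  · rw [norm_zpow, zpow_add_one₀ hy0.ne']
    calc ‖y‖ ^ k * ‖y‖ ≤ u₁ * ‖y‖ := mul_le_mul_of_nonneg_right hk1 hy0.le
      _ < u₁ * (u₂ / u₁) := mul_lt_mul_of_pos_left hyq h0
      _ = u₂ := by field_simp

theorem lo_eq_hi_of_no_root_an {F : K[X]} (hF : F ≠ 0) (a : K) {t : ℝ} (ht : 0 < t)
    (h : ∀ z, F.eval z = 0 → ‖z - a‖ ≠ t) : lo (co F a) t = hi (co F a) t := by
  rw [lo_eq_nlt hF a ht, hi_eq_nle hF a ht, nlt, nle]
  congr 1
  refine Multiset.filter_congr fun z hz => ?_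
  have h0 : F.eval z = 0 := (mem_roots hF).1 hz
  exact ⟨le_of_lt, fun h' => lt_of_le_of_ne h' (h z h0)⟩

theorem lo_ne_zero_of_root_an {F : K[X]} (hF : F ≠ 0) {z : K} (hz : F.eval z = 0) {t : ℝ}
    (ht : 0 < t) : lo (co F z) t ≠ 0 := by
  rw [lo_eq_nlt hF z ht, nlt]
  intro h
  rw [Multiset.card_eq_zero, Multiset.filter_eq_nil] at h
  exact h z ((mem_roots hF).2 hz) (by simpa using ht)

omit [IsUltrametricDist K] [IsAlgClosed K] in
theorem oD_subset_oD_an {a : K} {r s : ℝ} (h : r ≤ s) : (oD a r : Set (P1 K)) ⊆ oD a s := by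
  rintro _ ⟨x, rfl, hx⟩
  exact ⟨x, rfl, hx.trans_le h⟩

omit [IsUltrametricDist K] [IsAlgClosed K] in
theorem cD_subset_oD_an {a : K} {r s : ℝ} (h : r < s) : (cD a r : Set (P1 K)) ⊆ oD a s := by
  rintro _ ⟨x, rfl, hx⟩
  exact ⟨x, rfl, hx.trans_lt h⟩

/-- the union of the side discs of an annulus. -/
def sideD (a : K) (r₁ r₂ : ℝ) : Set (P1 K) :=
  ⋃₀ {V | ∃ c : K, r₁ < ‖c - a‖ ∧ ‖c - a‖ < r₂ ∧ V = oD c ‖c - a‖}

omit [IsAlgClosed K] in
theorem isOpen_sideD_an (a : K) (r₁ r₂ : ℝ) : IsOpen (sideD a r₁ r₂) := by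
  apply isOpen_sUnion
  rintro V ⟨c, -, -, rfl⟩
  exact isOpen_oD _ _

theorem mem_skeleton_or_an {a : K} {r₁ r₂ : ℝ} (hp : 0 < r₁) {x : P1 K}
    (hx : x ∈ oD a r₂ \ cD a r₁) (hx' : x ∉ sideD a r₁ r₂) :
    ∃ t, r₁ < t ∧ t < r₂ ∧ x = (zeta a t : Berk K) := by
  obtain ⟨⟨y, rfl, hy⟩, hy'⟩ := hx
  rw [coe_mem_cD, not_le] at hy'
  refine ⟨y (X - C a), hy', hy, ?_⟩
  by_contra hne
  have hne' : y ≠ zeta a (y (X - C a)) := fun h => hne (by rw [← h])
  obtain ⟨e, he, hye⟩ := y.exists_dir (hp.trans hy') le_rfl hne'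
  have h1 := y.lin_le a e
  have h2 : y (X - C a) ≤ ‖a - e‖ := by
    rcases le_max_iff.1 h1 with h | h
    · exact absurd h (not_le.2 hye)
    · exact h
  have h3 : ‖e - a‖ = y (X - C a) := le_antisymm he (by rw [norm_sub_rev]; exact h2)
  apply hx'
  refine Set.mem_sUnion.2 ⟨oD e ‖e - a‖, ⟨e, by rw [h3]; exact hy', by rw [h3]; exact hy, rfl⟩, ?_⟩
  rw [h3]
  exact coe_mem_oD.2 hye

/-- the exponents at a point of the skeleton which is mapped into the skeleton are different. -/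
theorem ann_ne (f : RatMap K) (hd : 1 ≤ f.deg) {a : K} {t s : ℝ} (ht : 0 < t) (hs : 0 < s)
    (hact : f.act (zeta a t : Berk K) = (zeta a s : Berk K))
    (hA : lo (co (f.P - C a * f.Q) a) t = hi (co (f.P - C a * f.Q) a) t)
    (hB : lo (co f.Q a) t = hi (co f.Q a) t) :
    lo (co (f.P - C a * f.Q) a) t ≠ lo (co f.Q a) t := by
  intro heq
  have TA : TP (co (f.P - C a * f.Q) a) := TP_co (f.sub_ne_zero hd a) a
  have TB : TP (co f.Q a) := TP_co (f.Q_ne_zero hd) a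
  have H := (f.act_zeta_iff hd a a ht hs.le).1 hact
  have hBpos := tv_pos TB ht
  have hA' : tv (co (f.P - C a * f.Q) a) t = s * tv (co f.Q a) t := by
    have h1 := H a
    rw [sub_self, norm_zero, max_eq_left hs.le] at h1
    exact h1
  set l := lo (co f.Q a) t with hl
  set p := (taylor a (f.P - C a * f.Q)).coeff l with hp
  set q := (taylor a f.Q).coeff l with hq
  have hq1 : ‖q‖ * t ^ l = tv (co f.Q a) t := lo_spec TB ht.le
  have hp1 : ‖p‖ * t ^ l = tv (co (f.P - C a * f.Q) a) t := by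
    have := lo_spec TA ht.le
    rw [heq] at this
    exact this
  have htl : 0 < t ^ l := by positivity
  have hq0 : q ≠ 0 := by
    intro h
    rw [h, norm_zero, zero_mul] at hq1
    exact hBpos.ne hq1
  have hqn : 0 < ‖q‖ := norm_pos_iff.2 hq0
  have he : ‖p / q‖ = s := by
    rw [norm_div, div_eq_iff hqn.ne']
    have : ‖p‖ * t ^ l = (s * ‖q‖) * t ^ l := by rw [hp1, hA', ← hq1]; ring
    exact mul_right_cancel₀ htl.ne' this
  have H2 := H (a + p / q)
  rw [add_sub_cancel_left, he, max_self] at H2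
  have TE : TP (co (f.P - C (a + p / q) * f.Q) a) := TP_co (f.sub_ne_zero hd _) a
  obtain ⟨i, hi'⟩ := exists_eq_tv TE t ht.le
  have hval : co (f.P - C (a + p / q) * f.Q) a i =
      ‖(taylor a (f.P - C a * f.Q)).coeff i - p / q * (taylor a f.Q).coeff i‖ := by
    simp only [co]
    congr 1
    have : f.P - C (a + p / q) * f.Q = (f.P - C a * f.Q) - C (p / q) * f.Q := by
      rw [C_add]; ring
    rw [this, map_sub, coeff_sub, taylor_mul, taylor_C, coeff_C_mul]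
  rw [hval] at hi'
  change _ = gn (f.P - C (a + p / q) * f.Q) a t at hi'
  rw [H2] at hi'
  change _ = s * tv (co f.Q a) t at hi'
  by_cases hil : i = l
  · rw [hil, ← hp, ← hq, div_mul_cancel₀ _ hq0, sub_self, norm_zero, zero_mul] at hi'
    have : 0 < s * tv (co f.Q a) t := by positivity
    linarith
  · have h1 : ‖(taylor a (f.P - C a * f.Q)).coeff i‖ * t ^ i < s * tv (co f.Q a) t := by
      rw [← hA']
      rcases lt_or_gt_of_ne hil with h | h
      · exact lt_tv_of_lt_lo TA (by omega)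
      · exact lt_tv_of_hi_lt TA ht (by omega)
    have h2 : ‖(taylor a f.Q).coeff i‖ * t ^ i < tv (co f.Q a) t := by
      rcases lt_or_gt_of_ne hil with h | h
      · exact lt_tv_of_lt_lo TB h
      · exact lt_tv_of_hi_lt TB ht (by omega)
    have h3 : ‖p / q * (taylor a f.Q).coeff i‖ * t ^ i < s * tv (co f.Q a) t := by
      rw [norm_mul, he, mul_assoc]
      exact mul_lt_mul_of_pos_left h2 hs
    have h4 := norm_sub_le_max' ((taylor a (f.P - C a * f.Q)).coeff i)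
      (p / q * (taylor a f.Q).coeff i)
    have h5 : ‖(taylor a (f.P - C a * f.Q)).coeff i - p / q * (taylor a f.Q).coeff i‖ * t ^ i <
        s * tv (co f.Q a) t := by
      refine (mul_le_mul_of_nonneg_right h4 (by positivity)).trans_lt ?_
      rw [max_mul_of_nonneg _ _ (by positivity)]
      exact max_lt h1 h3
    linarith

/-- the local degree at a point of the skeleton. -/
theorem ann_locDeg (f : RatMap K) (hd : 1 ≤ f.deg) {a : K} {t s : ℝ} (ht : 0 < t) (hs : 0 < s)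
    (hact : f.act (zeta a t : Berk K) = (zeta a s : Berk K)) :
    max (lo (co (f.P - C a * f.Q) a) t) (lo (co f.Q a) t) ≤
      min (lo (co (f.P - C a * f.Q) a) t) (lo (co f.Q a) t) +
        f.locDeg (zeta a t : Berk K) := by
  have TA : TP (co (f.P - C a * f.Q) a) := TP_co (f.sub_ne_zero hd a) a
  have TB : TP (co f.Q a) := TP_co (f.Q_ne_zero hd) a
  have H := (f.act_zeta_iff hd a a ht hs.le).1 hact a
  rw [sub_self, norm_zero, max_eq_left hs.le] at H
  have hlo : lo (f.G a (f.act (zeta a t : Berk K))) t =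
      min (lo (co (f.P - C a * f.Q) a) t) (lo (co f.Q a) t) := by
    rw [hact, f.G_zeta a a hs.le]
    exact lo_tmax_of_eq TA TB hs ht H
  have h1 := f.lo_G_le_add_locDeg hd a ht (pt a : Berk K)
  have h2 := f.lo_G_le_add_locDeg hd a ht OnePoint.infty
  rw [hlo] at h1 h2
  rw [f.G_pt] at h1
  rw [f.G_infty] at h2
  exact max_le h1 h2

/-- a fixed point of the skeleton with exponents differing by at least two is a full repelling fixed
point. -/
theorem ann_full (f : RatMap K) (hd : 1 ≤ f.deg) {a : K} {t : ℝ} (ht : 0 < t) {i j : ℕ}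
    (hij : i + 2 ≤ j ∨ j + 2 ≤ i) (e1 : lo (co (f.P - C a * f.Q) a) t = i)
    (e2 : hi (co (f.P - C a * f.Q) a) t = i) (e3 : lo (co f.Q a) t = j)
    (e4 : hi (co f.Q a) t = j)
    (hfix : tv (co (f.P - C a * f.Q) a) t = t * tv (co f.Q a) t) :
    ((zeta a t : Berk K) : P1 K) ∈ f.RFix ∧ ¬ f.NonFull (zeta a t : Berk K) := by
  have TA : TP (co (f.P - C a * f.Q) a) := TP_co (f.sub_ne_zero hd a) a
  have TB : TP (co f.Q a) := TP_co (f.Q_ne_zero hd) a
  have hact : f.act (zeta a t : Berk K) = (zeta a t : Berk K) :=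
    f.act_zeta_of_slopes hd a a ht ht hfix (Or.inl (by rw [e1, e3]; omega))
  have hloc := ann_locDeg f hd ht ht hact
  rw [e1, e3] at hloc
  refine ⟨⟨hact, Or.inl ⟨?_, ?_⟩⟩, ?_⟩
  · rintro ⟨z, hz⟩
    induction z using OnePoint.rec with
    | infty => exact OnePoint.infty_ne_coe _ hz
    | coe b =>
      rw [emb_coe] at hz
      have h1 := OnePoint.coe_injective hz
      rw [← zeta_zero b] at h1
      exact ht.ne ((zeta_eq_zeta_iff le_rfl ht.le).1 h1).1
  · omega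
  · rintro ⟨a', r', hr', hx, hnf⟩
    obtain ⟨rfl, hdist⟩ := (zeta_eq_zeta_iff ht.le hr'.le).1 (OnePoint.coe_injective hx)
    rw [← hi_center (f.sub_ne_zero hd a') ht hdist, ← hi_center (f.Q_ne_zero hd) ht hdist, e4]
      at hnf
    have himg := (f.lo_G_image_le hd a ht (pt a' : Berk K)).2
    rw [hact, f.G_pt, f.G_zeta a a ht.le, hi_tmax_of_eq TA TB ht ht hfix, e2, e4, hnf] at himg
    rcases hij with h | h
    · omega
    · -- the index `i` is dominating
      have hq : ‖(taylor a f.Q).coeff i‖ * t ^ i < tv (co f.Q a) t :=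
        lt_tv_of_hi_lt TB ht (by omega)
      have hp : ‖(taylor a (f.P - C a * f.Q)).coeff i‖ * t ^ i =
          tv (co (f.P - C a * f.Q) a) t := by
        have := lo_spec TA ht.le
        rw [e1] at this
        exact this
      have H := (f.act_zeta_iff hd a a ht ht.le).1 hact a'
      have hdist' : ‖a' - a‖ ≤ t := by rwa [norm_sub_rev]
      rw [max_eq_left hdist'] at H
      change tv (co (f.P - C a' * f.Q) a) t = t * tv (co f.Q a) t at H
      have hval : co (f.P - C a' * f.Q) a i =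
          ‖(taylor a (f.P - C a * f.Q)).coeff i - (a' - a) * (taylor a f.Q).coeff i‖ := by
        simp only [co]
        congr 1
        have : f.P - C a' * f.Q = (f.P - C a * f.Q) - C (a' - a) * f.Q := by
          rw [C_sub]; ring
        rw [this, map_sub, coeff_sub, taylor_mul, taylor_C, coeff_C_mul]
      have hlt : ‖(a' - a) * (taylor a f.Q).coeff i‖ < ‖(taylor a (f.P - C a * f.Q)).coeff i‖ := by
        have hti : 0 < t ^ i := by positivity
        refine lt_of_mul_lt_mul_right ?_ hti.le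
        rw [hp, hfix, norm_mul, mul_assoc]
        calc ‖a' - a‖ * (‖(taylor a f.Q).coeff i‖ * t ^ i)
            ≤ t * (‖(taylor a f.Q).coeff i‖ * t ^ i) :=
              mul_le_mul_of_nonneg_right hdist' (by positivity)
          _ < t * tv (co f.Q a) t := mul_lt_mul_of_pos_left hq ht
      have hdom : i ≤ hi (co (f.P - C a' * f.Q) a) t := by
        apply le_hi (TP_co (f.sub_ne_zero hd a') a) ht
        rw [hval, norm_sub_of_lt hlt, hp, hfix, H]
      omega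

variable {R : RatMap K} {ρ : Measure (P1 K)}

omit [IsUltrametricDist K] [IsAlgClosed K] in
theorem real_pos_of_subset_an [IsFiniteMeasure ρ] {S T : Set (P1 K)} (hST : S ⊆ T) (h : 0 < ρ S) :
    0 < ρ.real T :=
  ENNReal.toReal_pos (h.trans_le (measure_mono hST)).ne' (measure_ne_top _ _)

/-- measurability of `hi`. -/
theorem measurable_hi_G_an (f : RatMap K) (hd : 1 ≤ f.deg) (a : K) {t : ℝ} (ht : 0 < t) :
    Measurable (fun y : P1 K => (hi (f.G a y) t : ℝ)) := by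
  have h1 : Measurable (fun y : P1 K => hi (f.G a y) t) := by
    apply measurable_of_Iio
    intro k
    apply IsOpen.measurableSet
    rw [isOpen_iff_mem_nhds]
    intro y hy
    filter_upwards [f.eventually_lo_hi hd a ht y] with y' hy'
    exact lt_of_le_of_lt hy'.2 hy
  exact (measurable_from_top (f := fun k : ℕ => (k : ℝ))).comp h1

namespace Setup

theorem one_le_deg_iter_an (h : Setup R ρ) (n : ℕ) : 1 ≤ (R.iter n).deg := by
  rw [RatMap.deg_iter]
  exact Nat.one_le_pow _ _ (by have := h.hd; omega)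

theorem side_null_an (h : Setup R ρ) {a : K} {r₁ r₂ : ℝ}
    (hnull : ∀ c : K, r₁ < ‖c - a‖ → ‖c - a‖ < r₂ → ρ (oD c ‖c - a‖) = 0) :
    ρ (sideD a r₁ r₂) = 0 := by
  apply h.null_sUnion
  rintro V ⟨c, h1, h2, rfl⟩
  exact ⟨isOpen_oD _ _, hnull c h1 h2⟩

/-- no zeros or poles of `R^n` on the side of a point of the skeleton mapped into the skeleton. -/
theorem ann_exps (h : Setup R ρ) (n : ℕ) {a : K} {r₁ r₂ : ℝ} (hp : 0 < r₁)
    (hnull : ∀ c : K, r₁ < ‖c - a‖ → ‖c - a‖ < r₂ → ρ (oD c ‖c - a‖) = 0)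
    (h1 : 0 < ρ (cD a r₁)) (h2 : 0 < ρ (oD a r₂)ᶜ) {t s : ℝ} (ht : r₁ < t) (ht' : t < r₂)
    (hs : r₁ < s) (hs' : s < r₂)
    (hact : (R.iter n).act (zeta a t : Berk K) = (zeta a s : Berk K)) :
    lo (co ((R.iter n).P - C a * (R.iter n).Q) a) t =
        hi (co ((R.iter n).P - C a * (R.iter n).Q) a) t ∧
      lo (co (R.iter n).Q a) t = hi (co (R.iter n).Q a) t := by
  have := h.prob
  have hd := h.one_le_deg_iter_an n
  have ht0 := hp.trans ht
  have hs0 := hp.trans hs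
  have key : ∀ z : K, ‖z - a‖ = t → ρ (oD z t) = 0 ∧
      (R.iter n).act (zeta z t : Berk K) = (zeta a s : Berk K) := by
    intro z hza
    constructor
    · have := hnull z (by rw [hza]; exact ht) (by rw [hza]; exact ht')
      rwa [hza] at this
    · have hct : (zeta z t : Berk K) = zeta a t :=
        (zeta_eq_zeta_iff ht0.le ht0.le).2 ⟨rfl, hza.le⟩
      rw [hct]
      exact hact
  have fin : ∀ (z : K) (N : ℕ) {S : Set (P1 K)}, MeasurableSet S → ρ (oD z t) = 0 →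
      0 < ρ.real S → (∀ y ∈ S, lo ((R.iter n).G z y) t = N) → N = 0 := by
    intro z N S hS hz hpos hN
    have htr := h.transfer_oD n z ht0 hS
    have hcongr : ∫ y in S, (lo ((R.iter n).G z y) t : ℝ) ∂ρ = ∫ _y in S, (N : ℝ) ∂ρ :=
      setIntegral_congr_fun hS fun y hy => by rw [hN y hy]
    have hzero : ρ.real (oD z t ∩ (R.iter n).act ⁻¹' S) = 0 := by
      rw [measureReal_def, measure_mono_null Set.inter_subset_left hz]
      simp
    rw [hcongr, setIntegral_const, hzero, mul_zero, smul_eq_mul] at htr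
    rcases mul_eq_zero.1 htr with h3 | h3
    · exact absurd h3 hpos.ne'
    · exact_mod_cast h3
  constructor
  · apply lo_eq_hi_of_no_root_an ((R.iter n).sub_ne_zero hd a) a ht0
    intro z hz hza
    obtain ⟨hz0, hact'⟩ := key z hza
    refine lo_ne_zero_of_root_an ((R.iter n).sub_ne_zero hd a) hz ht0
      (fin z _ (isOpen_oD a s).measurableSet hz0
        (real_pos_of_subset_an (cD_subset_oD_an hs) h1) fun y hy => ?_)
    exact ((R.iter n).lo_G_inward hd z a a ht0 hs0 hact' (by simpa using hs0.le) hy).1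
  · apply lo_eq_hi_of_no_root_an ((R.iter n).Q_ne_zero hd) a ht0
    intro z hz hza
    obtain ⟨hz0, hact'⟩ := key z hza
    refine lo_ne_zero_of_root_an ((R.iter n).Q_ne_zero hd) hz ht0
      (fin z _ (isClosed_cD a s).measurableSet.compl hz0
        (real_pos_of_subset_an (Set.compl_subset_compl.2 (cD_subset_oD_an hs')) h2) fun y hy => ?_)
    exact ((R.iter n).lo_G_outward hd z a ht0 hs0 hact' hy).1

/-- the mass of the part of `R^{-n} U` in a component. -/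
theorem ann_mass_le (h : Setup R ρ) (n : ℕ) {a : K} {r₁ r₂ : ℝ} (hp : 0 < r₁)
    (hnull : ∀ c : K, r₁ < ‖c - a‖ → ‖c - a‖ < r₂ → ρ (oD c ‖c - a‖) = 0) {i j : ℕ} {u₁ u₂ : ℝ}
    (hu : u₁ < u₂) (hu1 : r₁ ≤ u₁)
    (hI : EE (co ((R.iter n).P - C a * (R.iter n).Q) a) (co (R.iter n).Q a) r₁ r₂ i j =
      Set.Ioo u₁ u₂) :
    (R.deg : ℝ) ^ n * ρ.real ((oD a u₂ \ cD a u₁) ∩ (R.iter n).act ⁻¹' (oD a r₂ \ cD a r₁)) ≤
      ((max i j : ℕ) - (min i j : ℕ) : ℝ) * ρ.real (oD a r₂ \ cD a r₁) := by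
  have := h.prob
  have hd := h.one_le_deg_iter_an n
  set f := R.iter n with hf
  set U : Set (P1 K) := oD a r₂ \ cD a r₁ with hU
  have TA : TP (co (f.P - C a * f.Q) a) := TP_co (f.sub_ne_zero hd a) a
  have TB : TP (co f.Q a) := TP_co (f.Q_ne_zero hd) a
  have p1 : 0 < u₁ := hp.trans_le hu1
  have p2 : 0 < u₂ := p1.trans hu
  have hUm : MeasurableSet U := (isOpen_oD a r₂).measurableSet.diff (isClosed_cD a r₁).measurableSet
  have hZ : ∀ᵐ y ∂ρ, y ∉ sideD a r₁ r₂ := measure_eq_zero_iff_ae_notMem.1 (h.side_null_an hnull)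
  have hae : ∀ᵐ y ∂(ρ.restrict U), lo (f.G a y) u₂ ≤ max i j ∧ min i j ≤ hi (f.G a y) u₁ := by
    rw [ae_restrict_iff' hUm]
    filter_upwards [hZ] with y hy hyU
    obtain ⟨s, hs1, hs2, rfl⟩ := mem_skeleton_or_an hp hyU hy
    have hs0 : 0 < s := hp.trans hs1
    rw [f.G_zeta a a hs0.le]
    exact EE_tmax TA TB hp hu hu1 hI hs0
  have e1 := h.transfer_oD n a p2 hUm
  have e2 := h.transfer_cD n a p1 hUm
  have b1 : ∫ y in U, (lo (f.G a y) u₂ : ℝ) ∂ρ ≤ (max i j : ℕ) * ρ.real U := by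
    calc ∫ y in U, (lo (f.G a y) u₂ : ℝ) ∂ρ ≤ ∫ _y in U, ((max i j : ℕ) : ℝ) ∂ρ := by
          apply integral_mono_of_nonneg
          · exact Eventually.of_forall fun y => Nat.cast_nonneg _
          · exact integrable_const _
          · filter_upwards [hae] with y hy
            exact_mod_cast hy.1
      _ = (max i j : ℕ) * ρ.real U := by rw [setIntegral_const, smul_eq_mul, mul_comm]
  have b2 : (min i j : ℕ) * ρ.real U ≤ ∫ y in U, (hi (f.G a y) u₁ : ℝ) ∂ρ := by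
    calc ((min i j : ℕ) : ℝ) * ρ.real U = ∫ _y in U, ((min i j : ℕ) : ℝ) ∂ρ := by
          rw [setIntegral_const, smul_eq_mul, mul_comm]
      _ ≤ ∫ y in U, (hi (f.G a y) u₁ : ℝ) ∂ρ := by
          apply integral_mono_of_nonneg
          · exact Eventually.of_forall fun y => Nat.cast_nonneg _
          · refine Integrable.of_bound
              (measurable_hi_G_an f hd a p1).aestronglyMeasurable (f.deg : ℝ) ?_
            refine Eventually.of_forall fun y => ?_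
            rw [Real.norm_of_nonneg (Nat.cast_nonneg _)]
            exact_mod_cast f.lo_G_le_deg hd a p1 y
          · filter_upwards [hae] with y hy
            exact_mod_cast hy.2
  rw [← hf] at e1 e2
  have hset : (oD a u₂ \ cD a u₁) ∩ f.act ⁻¹' U =
      (oD a u₂ ∩ f.act ⁻¹' U) \ (cD a u₁ ∩ f.act ⁻¹' U) := by
    ext x
    simp only [Set.mem_inter_iff, Set.mem_sdiff, Set.mem_preimage]
    tauto
  have hpre : MeasurableSet (f.act ⁻¹' U) := f.continuous_act.measurable hUm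
  have hdiff : ρ.real ((oD a u₂ \ cD a u₁) ∩ f.act ⁻¹' U) =
      ρ.real (oD a u₂ ∩ f.act ⁻¹' U) - ρ.real (cD a u₁ ∩ f.act ⁻¹' U) := by
    rw [hset]
    exact measureReal_sdiff (Set.inter_subset_inter_left _ (cD_subset_oD_an hu))
      ((isClosed_cD a u₁).measurableSet.inter hpre)
  rw [hdiff, mul_sub, ← e1, ← e2, sub_mul]
  linarith

theorem hasFix_annulus' (h : Setup R ρ) (hG : ¬ R.CaseG) {a : K} {r₁ r₂ : ℝ} (hp : 0 < r₁)
    (h12 : r₁ < r₂)
    (hnull : ∀ c : K, r₁ < ‖c - a‖ → ‖c - a‖ < r₂ → ρ (oD c ‖c - a‖) = 0)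
    (h1 : 0 < ρ (cD a r₁)) (h2 : 0 < ρ (oD a r₂)ᶜ) :
    HasFix R (oD a r₂ \ cD a r₁) (ρ.real (oD a r₂ \ cD a r₁)) := by
  classical
  have := h.prob
  intro ε hε
  have hbet : ∀ᶠ n : ℕ in atTop, RatMap.bet R.deg n < ε / 4 :=
    h.summable_bet.tendsto_atTop_zero.eventually_lt tendsto_const_nhds (by positivity)
  filter_upwards [hbet] with n hn
  have hd := h.one_le_deg_iter_an n
  set f := R.iter n with hf
  set A := co (f.P - C a * f.Q) a with hAdef
  set B := co f.Q a with hBdef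
  set U : Set (P1 K) := oD a r₂ \ cD a r₁ with hU
  set D : ℝ := (R.deg : ℝ) ^ n with hD
  have hDpos : 0 < D := by
    have : (0 : ℝ) < R.deg := by
      have := h.hd
      exact_mod_cast (by omega : 0 < R.deg)
    positivity
  have TA : TP A := TP_co (f.sub_ne_zero hd a) a
  have TB : TP B := TP_co (f.Q_ne_zero hd) a
  have hr2 : 0 < r₂ := hp.trans h12
  have hUm : MeasurableSet U := (isOpen_oD a r₂).measurableSet.diff (isClosed_cD a r₁).measurableSet
  -- the action on the skeleton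
  have act_of : ∀ t, r₁ < t → t < r₂ → r₁ * tv B t < tv A t → tv A t < r₂ * tv B t →
      (lo A t ≠ lo B t ∨ hi A t ≠ hi B t) →
      f.act (zeta a t : Berk K) = (zeta a (tv A t / tv B t) : Berk K) ∧
        r₁ < tv A t / tv B t ∧ tv A t / tv B t < r₂ := by
    intro t ht1 ht2 h3 h4 h5
    have ht0 := hp.trans ht1
    have hBt := tv_pos TB ht0
    have hAt := tv_pos TA ht0
    refine ⟨f.act_zeta_of_slopes hd a a ht0 (by positivity) ?_ h5, ?_, ?_⟩
    · change tv A t = tv A t / tv B t * tv B t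
      rw [div_mul_cancel₀ _ hBt.ne']
    · rwa [lt_div_iff₀ hBt]
    · rwa [div_lt_iff₀ hBt]
  have HH : ∀ t, r₁ < t → t < r₂ → r₁ * tv B t < tv A t → tv A t < r₂ * tv B t →
      (lo A t ≠ lo B t ∨ hi A t ≠ hi B t) → lo A t = hi A t ∧ lo B t = hi B t := by
    intro t ht1 ht2 h3 h4 h5
    obtain ⟨g1, g2, g3⟩ := act_of t ht1 ht2 h3 h4 h5
    exact h.ann_exps n hp hnull h1 h2 ht1 ht2 g2 g3 g1
  -- the index set
  set T : Finset (ℕ × ℕ) := ((Finset.range (f.deg + 1)) ×ˢ (Finset.range (f.deg + 1))).filter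
    (fun p => p.1 ≠ p.2 ∧ (EE A B r₁ r₂ p.1 p.2).Nonempty) with hT
  have hTint : ∀ p ∈ T, ∃ u : ℝ × ℝ, u.1 < u.2 ∧ r₁ ≤ u.1 ∧ u.2 ≤ r₂ ∧
      EE A B r₁ r₂ p.1 p.2 = Set.Ioo u.1 u.2 ∧ hi A u.1 = p.1 ∧ hi B u.1 = p.2 ∧
        lo A u.2 = p.1 ∧ lo B u.2 = p.2 := by
    intro p hpT
    obtain ⟨u₁, u₂, hu⟩ := EE_interval TA TB hp h12 (Finset.mem_filter.1 hpT).2.2
    exact ⟨(u₁, u₂), hu⟩
  choose! u hu using hTint
  -- fixed points in the full intervals
  have hfull : ∀ p ∈ T, r₁ < (u p).1 ∧ (u p).2 < r₂ → (p.1 + 2 ≤ p.2 ∨ p.2 + 2 ≤ p.1) ∧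
      ∃ t ∈ Set.Ioo (u p).1 (u p).2, tv A t = t * tv B t := by
    intro p hpT ⟨hf1, hf2⟩
    obtain ⟨g1, g2, g3, g4, g5, g6, g7, g8⟩ := hu p hpT
    exact EE_full TA TB hp (Finset.mem_filter.1 hpT).2.1 HH g1 hf1 hf2 g4 g5 g6 g7 g8
  set TF := T.filter (fun p => r₁ < (u p).1 ∧ (u p).2 < r₂) with hTF
  have hτ : ∀ p ∈ TF, ∃ t, t ∈ EE A B r₁ r₂ p.1 p.2 ∧ tv A t = t * tv B t := by
    intro p hpTF
    obtain ⟨hpT, hpf⟩ := Finset.mem_filter.1 hpTF
    obtain ⟨-, t, ht, ht'⟩ := hfull p hpT hpf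
    rw [← (hu p hpT).2.2.2.1] at ht
    exact ⟨t, ht, ht'⟩
  choose! τ hτ1 hτ2 using hτ
  -- local degrees
  have hloc : ∀ p ∈ T, ∀ t ∈ EE A B r₁ r₂ p.1 p.2,
      max p.1 p.2 ≤ min p.1 p.2 + f.locDeg (zeta a t : Berk K) := by
    intro p hpT t ht
    obtain ⟨g1, g2, g3, g4, g5, g6, g7, g8⟩ := ht
    have hne := (Finset.mem_filter.1 hpT).2.1
    obtain ⟨k1, k2, k3⟩ := act_of t g1 g2 g3 g4 (Or.inl (by rw [g5, g7]; exact hne))
    have := ann_locDeg f hd (hp.trans g1) (hp.trans k2) k1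
    rw [← hAdef, ← hBdef, g5, g7] at this
    exact this
  have hinj : ∀ p ∈ TF, ∀ q ∈ TF, ((zeta a (τ p) : Berk K) : P1 K) = (zeta a (τ q) : Berk K) →
      p = q := by
    intro p hpT q hqT hpq
    have g := hτ1 p hpT
    have g' := hτ1 q hqT
    have e := ((zeta_eq_zeta_iff (hp.trans g.1).le (hp.trans g'.1).le).1
      (OnePoint.coe_injective hpq)).1
    rw [e] at g
    exact Prod.ext (g.2.2.2.2.1.symm.trans g'.2.2.2.2.1)
      (g.2.2.2.2.2.2.1.symm.trans g'.2.2.2.2.2.2.1)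
  refine ⟨TF.image (fun p => ((zeta a (τ p) : Berk K) : P1 K)), ?_, ?_⟩
  · intro x hx
    obtain ⟨p, hpTF, rfl⟩ := Finset.mem_image.1 hx
    obtain ⟨hpT, hpf⟩ := Finset.mem_filter.1 hpTF
    obtain ⟨g1, g2, g3, g4, g5, g6, g7, g8⟩ := hτ1 p hpTF
    have ht0 := hp.trans g1
    obtain ⟨k1, k2⟩ := ann_full f hd ht0 (hfull p hpT hpf).1 g5 g6 g7 g8 (hτ2 p hpTF)
    refine ⟨k1, k2, ?_, ?_⟩
    · rw [coe_mem_oD, zeta_lin a a ht0.le, sub_self, norm_zero, max_eq_left ht0.le]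
      exact g2
    · rw [coe_mem_cD, zeta_lin a a ht0.le, sub_self, norm_zero, max_eq_left ht0.le, not_le]
      exact g1
  -- the inequality
  rw [Finset.sum_image (fun p hp' q hq => hinj p hp' q hq)]
  set m := ρ.real U with hm
  have hm0 : 0 ≤ m := measureReal_nonneg
  rcases hm0.eq_or_lt with hm0 | hmpos
  · rw [← hm0]
    have h3 : (0 - ε) * D ≤ 0 := by
      have : 0 < ε * D := by positivity
      linarith
    exact h3.trans (Nat.cast_nonneg _)
  set bt := RatMap.bet R.deg n with hbt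
  -- mixing
  have mix : D * (m * m - 2 * bt * m) ≤ D * ρ.real (U ∩ f.act ⁻¹' U) := by
    have m1 := h.mixing_oD hG n a hr2 hUm
    have m2 := h.mixing_cD hG n a hp hUm
    rw [← hf] at m1 m2
    have hset : U ∩ f.act ⁻¹' U = (oD a r₂ ∩ f.act ⁻¹' U) \ (cD a r₁ ∩ f.act ⁻¹' U) := by
      ext x
      simp only [hU, Set.mem_inter_iff, Set.mem_sdiff, Set.mem_preimage]
      tauto
    have hpre : MeasurableSet (f.act ⁻¹' U) := f.continuous_act.measurable hUm
    have hdiff : ρ.real (U ∩ f.act ⁻¹' U) =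
        ρ.real (oD a r₂ ∩ f.act ⁻¹' U) - ρ.real (cD a r₁ ∩ f.act ⁻¹' U) := by
      rw [hset]
      exact measureReal_sdiff (Set.inter_subset_inter_left _ (cD_subset_oD_an h12))
        ((isClosed_cD a r₁).measurableSet.inter hpre)
    have hdU : m = ρ.real (oD a r₂) - ρ.real (cD a r₁) :=
      measureReal_sdiff (cD_subset_oD_an h12) (isClosed_cD a r₁).measurableSet
    apply mul_le_mul_of_nonneg_left _ hDpos.le
    rw [hdiff]
    have a1 := (abs_le.1 m1).1
    have a2 := (abs_le.1 m2).2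
    have : m * m = ρ.real (oD a r₂) * m - ρ.real (cD a r₁) * m := by
      nth_rewrite 1 [hdU]
      ring
    linarith
  -- covering
  have hcov : U ∩ f.act ⁻¹' U ⊆ (⋃ p ∈ T, (oD a (u p).2 \ cD a (u p).1) ∩ f.act ⁻¹' U) ∪
      (sideD a r₁ r₂ ∪ f.act ⁻¹' (sideD a r₁ r₂)) := by
    rintro x ⟨hxU, hxU'⟩
    by_cases hx1 : x ∈ sideD a r₁ r₂
    · exact Or.inr (Or.inl hx1)
    by_cases hx2 : f.act x ∈ sideD a r₁ r₂
    · exact Or.inr (Or.inr hx2)
    left
    obtain ⟨t, ht1, ht2, rfl⟩ := mem_skeleton_or_an hp hxU hx1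
    obtain ⟨s, hs1, hs2, hs⟩ := mem_skeleton_or_an hp hxU' hx2
    have ht0 := hp.trans ht1
    have hs0 := hp.trans hs1
    obtain ⟨g1, g2⟩ := h.ann_exps n hp hnull h1 h2 ht1 ht2 hs1 hs2 hs
    have g3 := ann_ne f hd ht0 hs0 hs g1 g2
    rw [← hf, ← hAdef] at g1
    rw [← hf, ← hBdef] at g2
    rw [← hAdef, ← hBdef] at g3
    have g4 : tv A t = s * tv B t := by
      have := (f.act_zeta_iff hd a a ht0 hs0.le).1 hs a
      rw [sub_self, norm_zero, max_eq_left hs0.le] at this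
      exact this
    have hBt := tv_pos TB ht0
    have hmem : t ∈ EE A B r₁ r₂ (lo A t) (lo B t) :=
      ⟨ht1, ht2, by rw [g4]; exact mul_lt_mul_of_pos_right hs1 hBt,
        by rw [g4]; exact mul_lt_mul_of_pos_right hs2 hBt, rfl, g1.symm, rfl, g2.symm⟩
    have hpT : (lo A t, lo B t) ∈ T := by
      refine Finset.mem_filter.2 ⟨Finset.mem_product.2 ⟨?_, ?_⟩, g3, ⟨t, hmem⟩⟩
      · rw [Finset.mem_range, Nat.lt_succ_iff, hAdef, ← f.G_pt]
        exact (lo_le_hi (f.TP_G hd a _) ht0).trans (f.lo_G_le_deg hd a ht0 _)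
      · rw [Finset.mem_range, Nat.lt_succ_iff, hBdef, ← f.G_infty]
        exact (lo_le_hi (f.TP_G hd a _) ht0).trans (f.lo_G_le_deg hd a ht0 _)
    have hIoo := (hu _ hpT).2.2.2.1
    rw [hIoo] at hmem
    simp only [Set.mem_iUnion]
    refine ⟨(lo A t, lo B t), hpT, ⟨?_, ?_⟩, hxU'⟩
    · rw [coe_mem_oD, zeta_lin a a ht0.le, sub_self, norm_zero, max_eq_left ht0.le]
      exact hmem.2
    · rw [coe_mem_cD, zeta_lin a a ht0.le, sub_self, norm_zero, max_eq_left ht0.le, not_le]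
      exact hmem.1
  have hZ0 : ρ.real (sideD a r₁ r₂ ∪ f.act ⁻¹' (sideD a r₁ r₂)) = 0 := by
    have z1 : ρ (sideD a r₁ r₂) = 0 := h.side_null_an hnull
    have z2 : ρ (f.act ⁻¹' (sideD a r₁ r₂)) = 0 := by
      rw [hf, h.measure_preimage n (isOpen_sideD_an a r₁ r₂).measurableSet]
      exact z1
    rw [measureReal_def, measure_union_null z1 z2]
    simp
  have hcov2 : ρ.real (U ∩ f.act ⁻¹' U) ≤
      ∑ p ∈ T, ρ.real ((oD a (u p).2 \ cD a (u p).1) ∩ f.act ⁻¹' U) := by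
    calc ρ.real (U ∩ f.act ⁻¹' U) ≤ ρ.real ((⋃ p ∈ T, (oD a (u p).2 \ cD a (u p).1) ∩
            f.act ⁻¹' U) ∪ (sideD a r₁ r₂ ∪ f.act ⁻¹' (sideD a r₁ r₂))) :=
          measureReal_mono hcov (measure_ne_top _ _)
      _ ≤ ρ.real (⋃ p ∈ T, (oD a (u p).2 \ cD a (u p).1) ∩ f.act ⁻¹' U) +
            ρ.real (sideD a r₁ r₂ ∪ f.act ⁻¹' (sideD a r₁ r₂)) := measureReal_union_le _ _
      _ = ρ.real (⋃ p ∈ T, (oD a (u p).2 \ cD a (u p).1) ∩ f.act ⁻¹' U) := by
          rw [hZ0, add_zero]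
      _ ≤ _ := measureReal_biUnion_finset_le _ _
  have hmass : D * ρ.real (U ∩ f.act ⁻¹' U) ≤
      (∑ p ∈ T, ((max p.1 p.2 : ℕ) - (min p.1 p.2 : ℕ) : ℝ)) * m := by
    calc D * ρ.real (U ∩ f.act ⁻¹' U)
        ≤ D * ∑ p ∈ T, ρ.real ((oD a (u p).2 \ cD a (u p).1) ∩ f.act ⁻¹' U) :=
          mul_le_mul_of_nonneg_left hcov2 hDpos.le
      _ = ∑ p ∈ T, D * ρ.real ((oD a (u p).2 \ cD a (u p).1) ∩ f.act ⁻¹' U) :=
          Finset.mul_sum _ _ _
      _ ≤ ∑ p ∈ T, ((max p.1 p.2 : ℕ) - (min p.1 p.2 : ℕ) : ℝ) * m := by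
          refine Finset.sum_le_sum fun p hpT => ?_
          obtain ⟨g1, g2, g3, g4, -⟩ := hu p hpT
          exact h.ann_mass_le n hp hnull g1 g2 g4
      _ = _ := (Finset.sum_mul _ _ _).symm
  -- the intervals which are not full
  set TN := T.filter (fun p => ¬ (r₁ < (u p).1 ∧ (u p).2 < r₂)) with hTN
  have hbd : ∀ p ∈ TN, ((max p.1 p.2 : ℕ) - (min p.1 p.2 : ℕ) : ℝ) ≤ bt * D := by
    intro p hpTN
    have hpT := (Finset.mem_filter.1 hpTN).1
    obtain ⟨g1, g2, g3, g4, -⟩ := hu p hpT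
    obtain ⟨π, hπ0, hπ1, hπ2⟩ := exists_norm_mem_Ioo_an (K := K) (hp.trans_le g2) g1
    have hmem : ‖π‖ ∈ EE A B r₁ r₂ p.1 p.2 := by rw [g4]; exact ⟨hπ1, hπ2⟩
    have hl := hloc p hpT _ hmem
    obtain ⟨q1, q2, q3, q4, q5, q6, q7, q8⟩ := hmem
    obtain ⟨k1, k2, k3⟩ := act_of _ q1 q2 q3 q4
      (Or.inl (by rw [q5, q7]; exact (Finset.mem_filter.1 hpT).2.1))
    have hpos : 0 < ρ.real (oD a (tv A ‖π‖ / tv B ‖π‖)) :=
      real_pos_of_subset_an (cD_subset_oD_an k2) h1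
    have hpos' : 0 < ρ.real (oD a (tv A ‖π‖ / tv B ‖π‖))ᶜ :=
      real_pos_of_subset_an (Set.compl_subset_compl.2 (oD_subset_oD_an k3.le)) h2
    have hlt : ρ.real (oD a (tv A ‖π‖ / tv B ‖π‖)) < 1 := by
      have h5 := probReal_compl_eq_one_sub (μ := ρ)
        (isOpen_oD a (tv A ‖π‖ / tv B ‖π‖)).measurableSet
      linarith
    have h6 := h.locDeg_le_of_mass hG n hπ0 (hp.trans k2) k1 hpos hlt
    have h7 : ((max p.1 p.2 : ℕ) : ℝ) ≤ (min p.1 p.2 : ℕ) + (f.locDeg (zeta a ‖π‖ : Berk K) : ℝ) := by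
      exact_mod_cast hl
    have h8 : (f.locDeg (zeta a ‖π‖ : Berk K) : ℝ) ≤ bt * D := h6
    linarith
  have hcard : TN.card ≤ 2 := by
    have hsub : TN ⊆ (T.filter fun p => (u p).1 = r₁) ∪ (T.filter fun p => (u p).2 = r₂) := by
      intro p hpTN
      obtain ⟨hpT, hpn⟩ := Finset.mem_filter.1 hpTN
      obtain ⟨g1, g2, g3, -⟩ := hu p hpT
      by_cases hc : r₁ < (u p).1
      · refine Finset.mem_union_right _ (Finset.mem_filter.2 ⟨hpT, le_antisymm g3 ?_⟩)
        by_contra hcon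
        exact hpn ⟨hc, not_le.1 hcon⟩
      · exact Finset.mem_union_left _ (Finset.mem_filter.2 ⟨hpT, le_antisymm (not_lt.1 hc) g2⟩)
    have huniq : ∀ p ∈ T, ∀ q ∈ T, ∀ t, t ∈ Set.Ioo (u p).1 (u p).2 → t ∈ Set.Ioo (u q).1 (u q).2 →
        p = q := by
      intro p hpT q hqT t h3 h4
      rw [← (hu p hpT).2.2.2.1] at h3
      rw [← (hu q hqT).2.2.2.1] at h4
      exact Prod.ext (h3.2.2.2.2.1.symm.trans h4.2.2.2.2.1)
        (h3.2.2.2.2.2.2.1.symm.trans h4.2.2.2.2.2.2.1)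
    have c1 : (T.filter fun p => (u p).1 = r₁).card ≤ 1 := by
      rw [Finset.card_le_one]
      intro p hp' q hq'
      obtain ⟨hpT, e1⟩ := Finset.mem_filter.1 hp'
      obtain ⟨hqT, e2⟩ := Finset.mem_filter.1 hq'
      have g1 := (hu p hpT).1
      have g2 := (hu q hqT).1
      rw [e1] at g1
      rw [e2] at g2
      obtain ⟨t, ht1, ht2⟩ := exists_between (lt_min g1 g2)
      exact huniq p hpT q hqT t ⟨by rw [e1]; exact ht1, ht2.trans_le (min_le_left _ _)⟩
        ⟨by rw [e2]; exact ht1, ht2.trans_le (min_le_right _ _)⟩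
    have c2 : (T.filter fun p => (u p).2 = r₂).card ≤ 1 := by
      rw [Finset.card_le_one]
      intro p hp' q hq'
      obtain ⟨hpT, e1⟩ := Finset.mem_filter.1 hp'
      obtain ⟨hqT, e2⟩ := Finset.mem_filter.1 hq'
      have g1 := (hu p hpT).1
      have g2 := (hu q hqT).1
      rw [e1] at g1
      rw [e2] at g2
      obtain ⟨t, ht1, ht2⟩ := exists_between (max_lt g1 g2)
      exact huniq p hpT q hqT t ⟨(le_max_left _ _).trans_lt ht1, by rw [e1]; exact ht2⟩
        ⟨(le_max_right _ _).trans_lt ht1, by rw [e2]; exact ht2⟩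
    calc TN.card ≤ _ := Finset.card_le_card hsub
      _ ≤ _ := Finset.card_union_le _ _
      _ ≤ 2 := by omega
  have hbt0 : 0 ≤ bt := by
    rw [hbt, RatMap.bet]
    have : (1 : ℝ) ≤ R.deg := by
      have := h.hd
      exact_mod_cast (by omega : 1 ≤ R.deg)
    have h3 : 0 ≤ ((R.deg : ℝ) - 1) / R.deg := div_nonneg (by linarith) (by linarith)
    positivity
  have hNsum : ∑ p ∈ TN, ((max p.1 p.2 : ℕ) - (min p.1 p.2 : ℕ) : ℝ) ≤ 2 * (bt * D) := by
    calc ∑ p ∈ TN, ((max p.1 p.2 : ℕ) - (min p.1 p.2 : ℕ) : ℝ) ≤ ∑ _p ∈ TN, bt * D :=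
          Finset.sum_le_sum hbd
      _ = TN.card * (bt * D) := by rw [Finset.sum_const, nsmul_eq_mul]
      _ ≤ 2 * (bt * D) := by
          apply mul_le_mul_of_nonneg_right _ (by positivity)
          exact_mod_cast hcard
  have hFsum : ∑ p ∈ TF, ((max p.1 p.2 : ℕ) - (min p.1 p.2 : ℕ) : ℝ) ≤
      ((∑ p ∈ TF, f.locDeg ((zeta a (τ p) : Berk K) : P1 K) : ℕ) : ℝ) := by
    rw [Nat.cast_sum]
    refine Finset.sum_le_sum fun p hpTF => ?_
    have hl := hloc p (Finset.mem_filter.1 hpTF).1 _ (hτ1 p hpTF)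
    have h7 : ((max p.1 p.2 : ℕ) : ℝ) ≤
        (min p.1 p.2 : ℕ) + (f.locDeg (zeta a (τ p) : Berk K) : ℝ) := by
      exact_mod_cast hl
    linarith
  have hsplit := Finset.sum_filter_add_sum_filter_not T
    (fun p => r₁ < (u p).1 ∧ (u p).2 < r₂)
    (fun p => ((max p.1 p.2 : ℕ) - (min p.1 p.2 : ℕ) : ℝ))
  rw [← hTF, ← hTN] at hsplit
  have hfinal := mix.trans hmass
  rw [← hsplit] at hfinal
  have h9 : D * (m - 2 * bt) ≤ ∑ p ∈ TF, ((max p.1 p.2 : ℕ) - (min p.1 p.2 : ℕ) : ℝ) +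
      ∑ p ∈ TN, ((max p.1 p.2 : ℕ) - (min p.1 p.2 : ℕ) : ℝ) := by
    refine le_of_mul_le_mul_right ?_ hmpos
    calc D * (m - 2 * bt) * m = D * (m * m - 2 * bt * m) := by ring
      _ ≤ _ := hfinal
  have h10 : bt * D ≤ ε / 4 * D := mul_le_mul_of_nonneg_right hn.le hDpos.le
  have h11 : (m - ε) * D = D * (m - 2 * bt) + 2 * (bt * D) - ε * D := by ring
  linarith

end Setup

end Pool.Agent.Helper17.Berk
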