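import Mathlib
import Pool.Agent.Helper17.Berk.AnnFix

/-!
# Annular tiles (modules B15, B16: few disjoint discs), MP_160e9b_an

Annulus `U = {r₁ < |T - a| < r₂}` with null side discs, i.e. `ρ (oD c ‖c-a‖) = 0` for all `c` with
`r₁ < ‖c - a‖ < r₂`, and positive mass on both sides.  `f = R^n`, `D = d^n`,
`A(t) = gn (P - aQ) a t`, `C(t) = gn Q a t`, `Φ = A/C`.
`E = {t ∈ (r₁,r₂) : f(ζ(a,t)) = ζ(a,s) for some s ∈ (r₁,r₂)}` (then `s = Φ(t)`).
* For `t ∈ E` neither `P - aQ` nor `Q` has a root at distance exactly `t` from `a`, and the exponents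
  `l_A`, `l_C` at `t` are different: in a side disc `B` at `t`, `∫ lo (f.G · y) dρ = D ρ(B) = 0`, and
  the number of preimages in `B` is constant on `oD a s` and on the complement of `cD a s`, which
  have positive mass.  If `l_A = l_C = l` choose `y - a = a_l/q_l`.
* So `E` is open and `Φ` is `s₀ (t/t₀)^k` with constant `k ≠ 0` on each component `(u₁,u₂)` of `E`; at
  an endpoint `u` inside `(r₁,r₂)`, `Φ(u) ∈ {r₁,r₂}`.  A component with both endpoints inside is
  *full*: `Φ` maps it onto `(r₁,r₂)`, `|k| ≥ 2`, there is `t*` with `Φ(t*) = t*`, and `ζ(a,t*)` is a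
  full repelling fixed point of degree `|k|` (only `≥` is needed... equality is fine too).
* mass: `ρ(V ∩ f^{-1}U) ≤ |k| ρ(U)/D` for `V = {u₁ < |T-a| < u₂}` a component, and
  `ρ(U ∩ f^{-1} U) ≤ ∑_V ρ(V ∩ f^{-1} U)` because `ρ` is carried on `U` by the skeleton
  `{ζ(a,t)}`.  Each of the at most two components which are not full has `|k| ≤ locDeg ≤ β_n D`
  (`locDeg_le_of_mass`).  Mixing: `ρ(U ∩ f^{-1}U) ≥ ρ(U)² - 2 β_n ρ(U)`.
  Hence `∑_{full} |k| ≥ D (ρ(U) - 4 β_n)`.
-/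

open Polynomial Topology MeasureTheory Filter

set_option linter.dupNamespace false

namespace Pool.Agent.Helper17.Berk

universe u

variable {K : Type u} [NontriviallyNormedField K] [IsUltrametricDist K] [IsAlgClosed K]

variable {R : RatMap K} {ρ : Measure (P1 K)}

/-- annulus with null side discs. -/
structure NullSides (ρ : Measure (P1 K)) (a : K) (r₁ r₂ : ℝ) : Prop where
  pos : 0 < r₁
  lt : r₁ < r₂
  null : ∀ c : K, r₁ < ‖c - a‖ → ‖c - a‖ < r₂ → ρ (oD c ‖c - a‖) = 0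

namespace Setup

/-- **tile lemma for annuli.** -/
theorem hasFix_annulus (h : Setup R ρ) (hG : ¬ R.CaseG) {a : K} {r₁ r₂ : ℝ}
    (hU : NullSides ρ a r₁ r₂) (h1 : 0 < ρ (cD a r₁)) (h2 : 0 < ρ (oD a r₂)ᶜ) :
    HasFix R (oD a r₂ \ cD a r₁) (ρ.real (oD a r₂ \ cD a r₁)) :=
  h.hasFix_annulus' hG hU.pos hU.lt hU.null h1 h2

end Setup

end Pool.Agent.Helper17.Berk
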