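import Mathlib
import Pool.Agent.Helper17.Berk.BTop

/-!
# The boundary of a disc (helper17, MP_160e9b_an)
-/

open Polynomial Topology

set_option linter.dupNamespace false

namespace Pool.Agent.Helper17.Berk

universe u

variable {K : Type u} [NontriviallyNormedField K] [IsUltrametricDist K] [IsAlgClosed K]

/-- the closure of an open disc adds only its boundary point. -/
theorem closure_oD_subset (a : K) {r : ℝ} (hr : 0 < r) :
    closure (oD a r : Set (P1 K)) ⊆ insert ((zeta a r : Berk K) : P1 K) (oD a r) := by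
  intro p hp
  have hc : p ∈ (cD a r : Set (P1 K)) :=
    closure_minimal (oD_subset_cD a r) (isClosed_cD a r) hp
  obtain ⟨x, rfl, hx⟩ := hc
  by_cases hne : x = zeta a r
  · left; rw [hne]
  right
  obtain ⟨e, he, hxe⟩ := Berk.exists_dir x hr hx hne
  rcases he.lt_or_eq with he | he
  · rw [oD_eq_oD (show ‖a - e‖ < r by rwa [norm_sub_rev])]
    exact ⟨x, rfl, hxe⟩
  · exfalso
    have hd : Disjoint (oD e r : Set (P1 K)) (oD a r) := oD_disjoint he.ge he.ge
    have hn : (oD e r : Set (P1 K)) ∈ 𝓝 (x : P1 K) :=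
      (isOpen_oD e r).mem_nhds ⟨x, rfl, hxe⟩
    obtain ⟨q, hq1, hq2⟩ := mem_closure_iff_nhds.1 hp _ hn
    exact Set.disjoint_left.1 hd hq1 hq2

/-- a connected set avoiding the boundary point of a disc is inside or outside. -/
theorem preconnected_subset_or_disjoint (a : K) {r : ℝ} (hr : 0 < r) {S : Set (P1 K)}
    (hS : IsPreconnected S) (hb : ((zeta a r : Berk K) : P1 K) ∉ S) :
    S ⊆ oD a r ∨ Disjoint S (oD a r) := by
  by_cases hd : Disjoint S (oD a r)
  · exact Or.inr hd
  left
  rw [Set.not_disjoint_iff] at hd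
  obtain ⟨p, hpS, hp⟩ := hd
  by_contra hns
  rw [Set.not_subset] at hns
  obtain ⟨q, hqS, hq⟩ := hns
  have hopen : IsOpen (closure (oD a r : Set (P1 K)))ᶜ := isClosed_closure.isOpen_compl
  have hcov : S ⊆ (oD a r : Set (P1 K)) ∪ (closure (oD a r : Set (P1 K)))ᶜ := by
    intro x hx
    by_cases hxo : x ∈ (oD a r : Set (P1 K))
    · exact Or.inl hxo
    right
    intro hxc
    rcases closure_oD_subset a hr hxc with h | h
    · rw [h] at hx; exact hb hx
    · exact hxo h
  have hq' : q ∈ (closure (oD a r : Set (P1 K)))ᶜ := by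
    rcases hcov hqS with h | h
    · exact absurd h hq
    · exact h
  obtain ⟨z, hz, hz1, hz2⟩ := hS _ _ (isOpen_oD a r) hopen hcov ⟨p, hpS, hp⟩ ⟨q, hqS, hq'⟩
  exact hz2 (subset_closure hz1)

/-- hence, if `O` is a null set with connected complement containing the boundary point of a disc,
the mass of the disc is `0` or full. -/
theorem oD_subset_or_compl_subset (a : K) {r : ℝ} (hr : 0 < r) {O : Set (P1 K)}
    (hO : IsPreconnected Oᶜ) (hb : ((zeta a r : Berk K) : P1 K) ∈ O) :
    Oᶜ ⊆ oD a r ∨ (oD a r : Set (P1 K)) ⊆ O := by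
  rcases preconnected_subset_or_disjoint a hr hO (fun h => h hb) with h | h
  · exact Or.inl h
  · right
    intro x hx
    by_contra hxO
    exact Set.disjoint_left.1 h hxO hx

end Pool.Agent.Helper17.Berk
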