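import Mathlib
import Pool.Agent.Helper17.Berk.Tile

/-!
# The averaged counting functional (helper17, MP_160e9b_an)
-/

namespace Pool.Agent.Helper17.Berk

universe u

variable {K : Type u} [NontriviallyNormedField K] [IsUltrametricDist K] [IsAlgClosed K]

/-- `d^{-n} ∑_{x ∈ RFix(R^n)} deg_{R^n}(x) φ(x)` -/
noncomputable def mu (R : RatMap K) (n : ℕ) (φ : P1 K → ℝ) : ℝ :=
  ((R.deg : ℝ) ^ n)⁻¹ * ∑ᶠ x ∈ (R.iter n).RFix, ((R.iter n).locDeg x : ℝ) * φ x

end Pool.Agent.Helper17.Berk
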