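import Mathlib
import Pool.Agent.Helper17.Berk.MuDef
import Pool.Agent.Helper17.Berk.Bdry

/-!
# Case G: potential good reduction (module B17, MP_160e9b_an)
-/

open Polynomial Topology MeasureTheory Filter

set_option linter.dupNamespace false
set_option linter.unusedSectionVars false

namespace Pool.Agent.Helper17.Berk

universe u

variable {K : Type u} [NontriviallyNormedField K] [IsUltrametricDist K] [IsAlgClosed K]

theorem exists_norm_btw {α β : ℝ} (hα : 0 ≤ α) (h : α < β) :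
    ∃ π : K, π ≠ 0 ∧ α < ‖π‖ ∧ ‖π‖ < β := by
  have hβ : 0 < β := hα.trans_lt h
  set α' := max α (β / 2) with hα'
  have h1 : 0 < α' := lt_max_of_lt_right (by linarith)
  have h2 : α' < β := max_lt h (by linarith)
  obtain ⟨x, hx⟩ := NormedField.exists_one_lt_norm K
  obtain ⟨n, hn⟩ := pow_unbounded_of_one_lt ‖x‖ ((one_lt_div h1).2 h2)
  have hn0 : n ≠ 0 := by
    rintro rfl
    simp only [pow_zero] at hn
    linarith
  obtain ⟨z, hz⟩ := IsAlgClosed.exists_pow_nat_eq x (Nat.pos_of_ne_zero hn0)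
  have hzn : ‖z‖ ^ n = ‖x‖ := by rw [← norm_pow, hz]
  have hz1 : 1 < ‖z‖ := by
    by_contra hcon
    push Not at hcon
    have := pow_le_one₀ (norm_nonneg z) hcon (n := n)
    linarith
  have hz2 : ‖z‖ < β / α' := by
    by_contra hcon
    push Not at hcon
    have : (β / α') ^ n ≤ ‖z‖ ^ n := pow_le_pow_left₀ (by positivity) hcon n
    linarith
  obtain ⟨k, hk1, hk2⟩ := exists_mem_Ico_zpow h1 hz1
  refine ⟨z ^ (k + 1), zpow_ne_zero _ (fun h0 => by simp [h0] at hz1; linarith), ?_, ?_⟩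
  · rw [norm_zpow]
    exact lt_of_le_of_lt (le_max_left _ _) hk2
  · rw [norm_zpow, zpow_add_one₀ (by positivity)]
    calc ‖z‖ ^ k * ‖z‖ ≤ α' * ‖z‖ := by gcongr
      _ < α' * (β / α') := by gcongr
      _ = β := by field_simp

theorem isPreconnected_oD (a : K) (r : ℝ) : IsPreconnected (oD a r : Set (P1 K)) := by
  have h : (oD a r : Set (P1 K)) = ⋃₀ {S | ∃ s : ℝ, 0 ≤ s ∧ s < r ∧ S = cD a s} := by
    ext p
    constructor
    · rintro ⟨x, rfl, hx⟩
      exact ⟨cD a (x (X - C a)), ⟨_, x.nonneg _, hx, rfl⟩, ⟨x, rfl, le_rfl⟩⟩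
    · rintro ⟨_, ⟨s, -, hs, rfl⟩, ⟨x, rfl, hx⟩⟩
      exact ⟨x, rfl, hx.trans_lt hs⟩
  rw [h]
  refine isPreconnected_sUnion ((pt a : Berk K) : P1 K) _ ?_ ?_
  · rintro _ ⟨s, hs, -, rfl⟩
    rw [coe_mem_cD, pt_lin]
    simpa using hs
  · rintro _ ⟨s, hs, -, rfl⟩
    exact isPreconnected_cD a hs

theorem isPreconnected_compl_cD (a : K) {r : ℝ} (hr : 0 ≤ r) :
    IsPreconnected (cD a r : Set (P1 K))ᶜ := by
  have h : (cD a r : Set (P1 K))ᶜ =
      ⋃₀ {S | ∃ π : K, π ≠ 0 ∧ r < ‖π‖ ∧ S = (oD a ‖π‖ : Set (P1 K))ᶜ} := by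
    ext p
    constructor
    · intro hp
      induction p using OnePoint.rec with
      | infty =>
        obtain ⟨π, h0, h1, -⟩ := exists_norm_btw (K := K) hr (lt_add_one r)
        exact ⟨_, ⟨π, h0, h1, rfl⟩, by simp⟩
      | coe x =>
        rw [Set.mem_compl_iff, coe_mem_cD, not_le] at hp
        obtain ⟨π, h0, h1, h2⟩ := exists_norm_btw (K := K) hr hp
        refine ⟨_, ⟨π, h0, h1, rfl⟩, ?_⟩
        rw [Set.mem_compl_iff, coe_mem_oD, not_lt]
        exact h2.le
    · rintro ⟨_, ⟨π, -, h1, rfl⟩, hp⟩ hc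
      obtain ⟨x, rfl, hx⟩ := hc
      rw [Set.mem_compl_iff, coe_mem_oD, not_lt] at hp
      linarith
  rw [h]
  refine isPreconnected_sUnion (OnePoint.infty : P1 K) _ ?_ ?_
  · rintro _ ⟨π, -, -, rfl⟩
    simp
  · rintro _ ⟨π, h0, -, rfl⟩
    exact isPreconnected_compl_oD a h0

/-- a set is a *direction* at `ζ(a, r)`. -/
def IsDir (a : K) (r : ℝ) (V : Set (P1 K)) : Prop :=
  (∃ e : K, ‖e - a‖ ≤ r ∧ V = oD e r) ∨ V = (cD a r)ᶜ

theorem IsDir.isOpen {a : K} {r : ℝ} {V : Set (P1 K)} (h : IsDir a r V) : IsOpen V := by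
  rcases h with ⟨e, -, rfl⟩ | rfl
  · exact isOpen_oD e r
  · exact (isClosed_cD a r).isOpen_compl

theorem IsDir.isPreconnected {a : K} {r : ℝ} (hr : 0 < r) {V : Set (P1 K)} (h : IsDir a r V) :
    IsPreconnected V := by
  rcases h with ⟨e, -, rfl⟩ | rfl
  · exact isPreconnected_oD e r
  · exact isPreconnected_compl_cD a hr.le

theorem zeta_lin_le {a e : K} {r : ℝ} (hr : 0 < r) (he : ‖e - a‖ ≤ r) :
    (zeta a r : Berk K) = zeta e r := by
  rw [zeta_eq_zeta_iff hr.le hr.le]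
  exact ⟨rfl, by rwa [norm_sub_rev]⟩

theorem IsDir.notMem {a : K} {r : ℝ} (hr : 0 < r) {V : Set (P1 K)} (h : IsDir a r V) :
    ((zeta a r : Berk K) : P1 K) ∉ V := by
  rcases h with ⟨e, he, rfl⟩ | rfl
  · rw [zeta_lin_le hr he, coe_mem_oD, zeta_lin e e hr.le]
    simp
  · rw [Set.mem_compl_iff, coe_mem_cD, zeta_lin a a hr.le]
    simp [hr.le]

theorem exists_isDir {a : K} {r : ℝ} (hr : 0 < r) {p : P1 K}
    (hp : p ≠ ((zeta a r : Berk K) : P1 K)) : ∃ V, IsDir a r V ∧ p ∈ V := by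
  by_cases hc : p ∈ (cD a r : Set (P1 K))
  · obtain ⟨x, rfl, hx⟩ := hc
    obtain ⟨e, he, hxe⟩ := Berk.exists_dir x hr hx (fun h => hp (by rw [h]))
    exact ⟨oD e r, Or.inl ⟨e, he, rfl⟩, ⟨x, rfl, hxe⟩⟩
  · exact ⟨_, Or.inr rfl, hc⟩

/-- a connected set avoiding `ζ(a,r)` which meets a direction is contained in it. -/
theorem IsDir.subset {a : K} {r : ℝ} (hr : 0 < r) {V : Set (P1 K)} (h : IsDir a r V)
    {S : Set (P1 K)} (hS : IsPreconnected S) (hb : ((zeta a r : Berk K) : P1 K) ∉ S) {p : P1 K}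
    (hpS : p ∈ S) (hpV : p ∈ V) : S ⊆ V := by
  rcases h with ⟨e, he, rfl⟩ | rfl
  · rcases preconnected_subset_or_disjoint e hr hS (by rwa [← zeta_lin_le hr he]) with h | h
    · exact h
    · exact absurd hpV (Set.disjoint_left.1 h hpS)
  · intro q hq hqc
    obtain ⟨x, rfl, hx⟩ := hqc
    obtain ⟨e, he, hxe⟩ := Berk.exists_dir x hr hx (fun h => hb (by rw [← h]; exact hq))
    rcases preconnected_subset_or_disjoint e hr hS (by rwa [← zeta_lin_le hr he]) with h | h
    · have hp2 := h hpS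
      obtain ⟨y, rfl, hy⟩ := hp2
      apply hpV
      rw [coe_mem_cD]
      refine (y.lin_le a e).trans (max_le hy.le ?_)
      rwa [norm_sub_rev]
    · exact absurd (show (x : P1 K) ∈ oD e r from ⟨x, rfl, hxe⟩) (Set.disjoint_left.1 h hq)

theorem IsDir.eq_of_mem {a : K} {r : ℝ} (hr : 0 < r) {V W : Set (P1 K)} (hV : IsDir a r V)
    (hW : IsDir a r W) {p : P1 K} (hpV : p ∈ V) (hpW : p ∈ W) : V = W :=
  Set.Subset.antisymm (hW.subset hr (hV.isPreconnected hr) (hV.notMem hr) hpV hpW)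
    (hV.subset hr (hW.isPreconnected hr) (hW.notMem hr) hpW hpV)

theorem IsDir.infinite {a : K} {r : ℝ} (hr : 0 < r) {V : Set (P1 K)} (h : IsDir a r V) :
    V.Infinite := by
  have hinj : Function.Injective (fun e : K => ((pt e : Berk K) : P1 K)) := by
    intro e e' h
    have h1 : (pt e : Berk K) = pt e' := OnePoint.coe_injective h
    have h2 := congrArg (fun x : Berk K => x (X - C e')) h1
    simp only [pt_lin, sub_self, norm_zero, norm_eq_zero] at h2
    exact sub_eq_zero.1 h2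
  have key : ∀ S : Set K, S.Infinite → (∀ e ∈ S, ((pt e : Berk K) : P1 K) ∈ V) → V.Infinite := by
    intro S hS hSV
    refine (hS.image hinj.injOn).mono ?_
    rintro _ ⟨e, he, rfl⟩
    exact hSV e he
  rcases h with ⟨e, -, rfl⟩ | rfl
  · refine key (Metric.ball e r) ?_ ?_
    · exact infinite_of_mem_nhds e (Metric.ball_mem_nhds e hr)
    · intro z hz
      rw [coe_mem_oD, pt_lin]
      rwa [mem_ball_iff_norm] at hz
  · obtain ⟨π, h0, h1, -⟩ := exists_norm_btw (K := K) hr.le (lt_add_one r)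
    refine key (Metric.ball (a + π) r) ?_ ?_
    · exact infinite_of_mem_nhds _ (Metric.ball_mem_nhds _ hr)
    · intro z hz
      rw [mem_ball_iff_norm] at hz
      rw [Set.mem_compl_iff, coe_mem_cD, pt_lin, not_le]
      have h2 : z - a = (z - (a + π)) + π := by ring
      have h3 : ‖z - a‖ = ‖π‖ := by
        rw [h2, IsUltrametricDist.norm_add_eq_max_of_norm_ne_norm (by linarith [hz.trans h1] |> ne_of_lt)]
        exact max_eq_right (by linarith)
      linarith

/-- there is a direction outside any finite family. -/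
theorem exists_isDir_disjoint (a π : K) (hπ : π ≠ 0) (F : Set (Set (P1 K))) (hF : F.Finite)
    (hFd : ∀ V ∈ F, IsDir a ‖π‖ V) : ∃ W, IsDir a ‖π‖ W ∧ ∀ V ∈ F, Disjoint W V := by
  classical
  have hr : 0 < ‖π‖ := norm_pos_iff.2 hπ
  have hc : ∀ V : Set (P1 K), ∃ e : K, IsDir a ‖π‖ V → V ≠ (cD a ‖π‖)ᶜ →
      ‖e - a‖ ≤ ‖π‖ ∧ V = oD e ‖π‖ := by
    intro V
    by_cases h : ∃ e : K, ‖e - a‖ ≤ ‖π‖ ∧ V = oD e ‖π‖
    · obtain ⟨e, he⟩ := h
      exact ⟨e, fun _ _ => he⟩
    · exact ⟨0, fun h1 h2 => absurd (h1.resolve_right h2) h⟩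
  choose c hc using hc
  obtain ⟨e, he, heb⟩ := exists_dirs a π hπ (hF.toFinset.image c)
  refine ⟨oD e ‖π‖, Or.inl ⟨e, he.le, rfl⟩, fun V hV => ?_⟩
  by_cases hVo : V = (cD a ‖π‖)ᶜ
  · rw [hVo]
    refine Set.disjoint_left.2 fun p hp hp' => hp' ?_
    obtain ⟨x, rfl, hx⟩ := hp
    rw [coe_mem_cD]
    refine (x.lin_le a e).trans (max_le hx.le ?_)
    rw [norm_sub_rev]; exact he.le
  · obtain ⟨h1, h2⟩ := hc V (hFd V hV) hVo
    rw [h2]
    have := heb (c V) (Finset.mem_image_of_mem c (hF.mem_toFinset.2 hV)) h1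
    exact oD_disjoint this.ge this.ge


namespace RatMap

/-- every nonconstant rational function has a classical fixed point. -/
theorem exists_classical_fixed (f : RatMap K) (hd : 2 ≤ f.deg) :
    ∃ z : OnePoint K, f.actK z = z := by
  by_cases h0 : (f.P - X * f.Q).degree = 0
  · refine ⟨OnePoint.infty, ?_⟩
    have hQ : f.Q ≠ 0 := f.Q_ne_zero (by omega)
    have h1 : f.P = X * f.Q + C ((f.P - X * f.Q).coeff 0) := by
      have := eq_C_of_degree_eq_zero h0
      rw [← this]; ring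
    have h2 : (X * f.Q).natDegree = f.Q.natDegree + 1 := by
      rw [natDegree_mul X_ne_zero hQ, natDegree_X]; ring
    have h3 : f.P.natDegree = f.Q.natDegree + 1 := by
      rw [h1, natDegree_add_C, h2]
    have h4 : f.deg = f.Q.natDegree + 1 := by
      rw [RatMap.deg, h3]; omega
    have h5 : f.Q.coeff f.deg = 0 := coeff_eq_zero_of_natDegree_lt (by omega)
    simp [RatMap.actK, h5]
  · obtain ⟨z, hz⟩ := IsAlgClosed.exists_root (f.P - X * f.Q) h0
    refine ⟨(z : OnePoint K), ?_⟩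
    have hz' : f.P.eval z = z * f.Q.eval z := by
      have : (f.P - X * f.Q).eval z = 0 := hz
      simpa [sub_eq_zero] using this
    have hQ : f.Q.eval z ≠ 0 := by
      intro hQ
      exact isCoprime_iff_root.1 f.cop z ⟨by rw [hz', hQ, mul_zero], hQ⟩
    simp only [RatMap.actK]
    rw [if_neg hQ, hz', mul_div_cancel_right₀ _ hQ]

end RatMap

/-- In case G, the Julia set is contained in `{b}`. -/
theorem julia_subset_of_caseG {R : RatMap K} (hd : 2 ≤ R.deg) {a π : K} (hπ : π ≠ 0)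
    (hb : ∀ x : P1 K, R.act x = (zeta a ‖π‖ : Berk K) ↔ x = (zeta a ‖π‖ : Berk K)) {p : P1 K}
    (hp : p ≠ ((zeta a ‖π‖ : Berk K) : P1 K)) : p ∉ R.julia := by
  have hr : 0 < ‖π‖ := norm_pos_iff.2 hπ
  set b : P1 K := ((zeta a ‖π‖ : Berk K) : P1 K) with hbdef
  have hd1 : 1 ≤ R.deg := by omega
  -- images of directions
  have himg : ∀ V, IsDir a ‖π‖ V → ∃ W, IsDir a ‖π‖ W ∧ R.act '' V ⊆ W := by
    intro V hV
    obtain ⟨x, hx⟩ := (hV.infinite hr).nonempty
    have hx1 : R.act x ≠ b := fun h => hV.notMem hr (by rw [← hbdef, ← (hb x).1 h]; exact hx)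
    obtain ⟨W, hW, hxW⟩ := exists_isDir hr hx1
    refine ⟨W, hW, hW.subset hr ((hV.isPreconnected hr).image _ R.continuous_act.continuousOn) ?_
      (Set.mem_image_of_mem _ hx) hxW⟩
    rintro ⟨y, hy, hyb⟩
    exact hV.notMem hr (by rw [← hbdef, ← (hb y).1 hyb]; exact hy)
  obtain ⟨V₀, hV₀, hpV₀⟩ := exists_isDir hr hp
  -- iterated directions
  have hseq : ∀ n : ℕ, ∃ W, IsDir a ‖π‖ W ∧ R.act^[n] '' V₀ ⊆ W := by
    intro n
    induction n with
    | zero => exact ⟨V₀, hV₀, by simp⟩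
    | succ n ih =>
      obtain ⟨W, hW, hsub⟩ := ih
      obtain ⟨W', hW', hsub'⟩ := himg W hW
      refine ⟨W', hW', ?_⟩
      rw [Function.iterate_succ', Set.image_comp]
      exact (Set.image_mono hsub).trans hsub'
  choose W hW hWsub using hseq
  -- the invariant direction
  obtain ⟨z, hz⟩ := R.exists_classical_fixed hd
  have hzb : emb z ≠ b := by
    intro h
    induction z using OnePoint.rec with
    | infty => exact OnePoint.infty_ne_coe _ h
    | coe z =>
      have h1 : (pt z : Berk K) = zeta a ‖π‖ := OnePoint.coe_injective h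
      have h2 := congrArg (fun x : Berk K => x (X - C z)) h1
      simp only [pt_lin, sub_self, norm_zero, zeta_lin a z hr.le] at h2
      have := le_max_left ‖π‖ ‖z - a‖
      linarith
  obtain ⟨Z, hZ, hzZ⟩ := exists_isDir hr hzb
  have hZinv : R.act '' Z ⊆ Z := by
    obtain ⟨Z', hZ', hsub⟩ := himg Z hZ
    have h1 : R.act (emb z) = emb z := by rw [R.act_emb, hz]
    have h2 : emb z ∈ Z' := by
      have := hsub (Set.mem_image_of_mem R.act hzZ)
      rwa [h1] at this
    rw [← hZ'.eq_of_mem hr hZ h2 hzZ]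
    rw [hZ'.eq_of_mem hr hZ h2 hzZ] at hsub ⊢
    exact hsub
  intro hJ
  have hfin := hJ V₀ hV₀.isOpen hpV₀
  by_cases hcase : ∃ n, W n = Z
  · obtain ⟨n₀, hn₀⟩ := hcase
    have hlater : ∀ n, n₀ ≤ n → R.act^[n] '' V₀ ⊆ Z := by
      intro n hn
      induction n, hn using Nat.le_induction with
      | base => rw [← hn₀]; exact hWsub n₀
      | succ n hn ih =>
        rw [Function.iterate_succ', Set.image_comp]
        exact (Set.image_mono ih).trans hZinv
    obtain ⟨D, hD, hDdisj⟩ := exists_isDir_disjoint a π hπ (W '' {n | n ≤ n₀})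
      ((Set.finite_le_nat n₀).image W) (by rintro _ ⟨n, -, rfl⟩; exact hW n)
    refine (hD.infinite hr) (hfin.subset ?_)
    intro x hx hxU
    obtain ⟨n, hn⟩ := Set.mem_iUnion.1 hxU
    by_cases hnn : n ≤ n₀
    · exact Set.disjoint_left.1 (hDdisj (W n) ⟨n, hnn, rfl⟩) hx (hWsub n hn)
    · have := hlater n (by omega) hn
      rw [← hn₀] at this
      exact Set.disjoint_left.1 (hDdisj (W n₀) ⟨n₀, le_refl n₀, rfl⟩) hx this
  · push Not at hcase
    refine (hZ.infinite hr) (hfin.subset ?_)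
    intro x hx hxU
    obtain ⟨n, hn⟩ := Set.mem_iUnion.1 hxU
    exact hcase n ((hW n).eq_of_mem hr hZ (hWsub n hn) hx)


variable {R : RatMap K} {ρ : Measure (P1 K)}

theorem mu_eq_sum (R : RatMap K) (hd : 2 ≤ R.deg) {n : ℕ} (hn : 1 ≤ n)
    (hfin : ((R.iter n).RFix).Finite) (φ : P1 K → ℝ) :
    mu R n φ = ((R.deg : ℝ) ^ n)⁻¹ * ∑ x ∈ hfin.toFinset, ((R.iter n).locDeg x : ℝ) * φ x := by
  rw [mu, finsum_mem_eq_finite_toFinset_sum _ hfin]

namespace Setup

/-- **Case G** (potential good reduction). -/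
theorem tendsto_of_caseG' (h : Setup R ρ) (hG : R.CaseG) (φ : C(P1 K, ℝ)) :
    Tendsto (fun n => mu R n φ) atTop (𝓝 (∫ x, φ x ∂ρ)) := by
  classical
  haveI := h.prob
  haveI := h.reg
  have hd := h.hd
  obtain ⟨a, π, hπ, hb⟩ := hG
  have hr : 0 < ‖π‖ := norm_pos_iff.2 hπ
  set b : P1 K := ((zeta a ‖π‖ : Berk K) : P1 K) with hbdef
  -- the measure
  have hρb : ρ ({b}ᶜ) = 0 := by
    refine measure_mono_null ?_ h.eq.supp
    intro x hx hxJ
    exact julia_subset_of_caseG hd hπ hb hx hxJ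
  have hint : ∫ x, φ x ∂ρ = φ b := by
    have h1 : (fun x => φ x) =ᵐ[ρ] fun _ => φ b := by
      rw [Filter.EventuallyEq, ae_iff]
      refine measure_mono_null ?_ hρb
      intro x hx hxb
      exact hx (by rw [Set.mem_singleton_iff.1 hxb])
    rw [integral_congr_ae h1]
    simp
  rw [hint]
  -- iterates
  have hbn : ∀ n : ℕ, ∀ x, (R.iter n).act x = b ↔ x = b := by
    intro n
    rw [R.act_iter]
    induction n with
    | zero => simp
    | succ n ih =>
      intro x
      rw [Function.iterate_succ', Function.comp, hb, ih]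
  have hdn : ∀ n, (R.iter n).deg = R.deg ^ n := R.deg_iter
  have hdn1 : ∀ n, 1 ≤ (R.iter n).deg := fun n => by
    rw [hdn]; exact Nat.one_le_pow _ _ (by omega)
  have hdn2 : ∀ n, 1 ≤ n → 2 ≤ (R.iter n).deg := fun n hn => by
    rw [hdn]
    calc 2 ≤ R.deg := hd
      _ = R.deg ^ 1 := (pow_one _).symm
      _ ≤ R.deg ^ n := Nat.pow_le_pow_right (by omega) hn
  have hloc : ∀ n, (R.iter n).locDeg b = R.deg ^ n := by
    intro n
    rw [← hdn]
    refine (R.iter n).locDeg_eq_deg_of_unique (hdn1 n) b fun y hy => ?_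
    rw [(hbn n b).2 rfl] at hy
    exact (hbn n y).1 hy
  have hbR : ∀ n, 1 ≤ n → b ∈ (R.iter n).RFix := by
    intro n hn
    refine ⟨(hbn n b).2 rfl, Or.inl ⟨?_, ?_⟩⟩
    · rintro ⟨z, hz⟩
      induction z using OnePoint.rec with
      | infty => exact OnePoint.infty_ne_coe _ hz
      | coe z =>
        have h1 : (pt z : Berk K) = zeta a ‖π‖ := OnePoint.coe_injective hz
        have h2 := congrArg (fun x : Berk K => x (X - C z)) h1
        simp only [pt_lin, sub_self, norm_zero, zeta_lin a z hr.le] at h2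
        have := le_max_left ‖π‖ ‖z - a‖
        linarith
    · rw [hloc, ← hdn]
      exact hdn2 n hn
  -- estimate
  obtain ⟨M, hM⟩ : ∃ M : ℝ, ∀ x, |φ x| ≤ M := by
    obtain ⟨M, hM⟩ := (isCompact_univ (X := P1 K)).exists_bound_of_continuousOn
      φ.continuous.continuousOn
    exact ⟨M, fun x => by simpa using hM x (Set.mem_univ _)⟩
  have hM0 : 0 ≤ M := (abs_nonneg _).trans (hM b)
  have hest : ∀ n, 1 ≤ n → |mu R n φ - φ b| ≤ 2 * M * ((R.deg : ℝ) ^ n)⁻¹ := by
    intro n hn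
    have hfin := (R.iter n).RFix_finite (hdn2 n hn)
    have hbF : b ∈ hfin.toFinset := hfin.mem_toFinset.2 (hbR n hn)
    have hpos : (0:ℝ) < (R.deg : ℝ) ^ n := by
      have : (0:ℝ) < R.deg := by exact_mod_cast (show 0 < R.deg by omega)
      positivity
    rw [mu_eq_sum R hd hn hfin, ← Finset.add_sum_erase _ _ hbF, hloc]
    have h1 : ((R.deg : ℝ) ^ n)⁻¹ * (((R.deg ^ n : ℕ) : ℝ) * φ b +
        ∑ x ∈ hfin.toFinset.erase b, ((R.iter n).locDeg x : ℝ) * φ x) - φ b =
        ((R.deg : ℝ) ^ n)⁻¹ * ∑ x ∈ hfin.toFinset.erase b, ((R.iter n).locDeg x : ℝ) * φ x := by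
      push_cast
      field_simp
      ring
    rw [h1, abs_mul, abs_of_pos (inv_pos.2 hpos), mul_comm]
    refine mul_le_mul_of_nonneg_right ?_ (inv_pos.2 hpos).le
    -- sum of the weights
    have hw : ∑ x ∈ hfin.toFinset.erase b, (R.iter n).wt x ≤ 1 := by
      have h2 := (R.iter n).sum_wt_le (hdn2 n hn) hfin.toFinset
        (fun x hx => hfin.mem_toFinset.1 hx)
      rw [← Finset.add_sum_erase _ _ hbF] at h2
      have h3 : (R.iter n).deg ≤ (R.iter n).wt b + 1 := by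
        rw [RatMap.wt, hloc, hdn]
        split_ifs <;> omega
      omega
    have hw2 : ∑ x ∈ hfin.toFinset.erase b, (R.iter n).locDeg x ≤ 2 := by
      calc ∑ x ∈ hfin.toFinset.erase b, (R.iter n).locDeg x
          ≤ ∑ x ∈ hfin.toFinset.erase b, 2 * (R.iter n).wt x := by
            refine Finset.sum_le_sum fun x hx => ?_
            exact ((R.iter n).one_le_wt (hdn2 n hn)
              (hfin.mem_toFinset.1 (Finset.mem_of_mem_erase hx))).2
        _ = 2 * ∑ x ∈ hfin.toFinset.erase b, (R.iter n).wt x := by rw [Finset.mul_sum]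
        _ ≤ 2 := by omega
    calc |∑ x ∈ hfin.toFinset.erase b, ((R.iter n).locDeg x : ℝ) * φ x|
        ≤ ∑ x ∈ hfin.toFinset.erase b, |((R.iter n).locDeg x : ℝ) * φ x| :=
          Finset.abs_sum_le_sum_abs _ _
      _ ≤ ∑ x ∈ hfin.toFinset.erase b, ((R.iter n).locDeg x : ℝ) * M := by
          refine Finset.sum_le_sum fun x _ => ?_
          rw [abs_mul, abs_of_nonneg (Nat.cast_nonneg _)]
          exact mul_le_mul_of_nonneg_left (hM x) (Nat.cast_nonneg _)
      _ = ((∑ x ∈ hfin.toFinset.erase b, (R.iter n).locDeg x : ℕ) : ℝ) * M := by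
          push_cast
          rw [Finset.sum_mul]
      _ ≤ 2 * M := by
          refine mul_le_mul_of_nonneg_right ?_ hM0
          exact_mod_cast hw2
  -- limit
  have hlim : Tendsto (fun n : ℕ => 2 * M * ((R.deg : ℝ) ^ n)⁻¹) atTop (𝓝 0) := by
    have h1 : (1:ℝ) < R.deg := by exact_mod_cast (show 1 < R.deg by omega)
    have h2 := (tendsto_pow_atTop_atTop_of_one_lt h1).inv_tendsto_atTop
    simpa using h2.const_mul (2 * M)
  rw [tendsto_iff_dist_tendsto_zero]
  refine squeeze_zero' (Eventually.of_forall fun n => dist_nonneg) ?_ hlim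
  filter_upwards [eventually_ge_atTop 1] with n hn
  rw [Real.dist_eq]
  exact hest n hn

end Setup

end Pool.Agent.Helper17.Berk
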