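import Mathlib
import Pool.Agent.Helper17.Berk.Ann
import Pool.Agent.Helper17.Berk.MuDef
import Pool.Agent.Helper17.Berk.CaseG
import Pool.Agent.Helper59.Berk.Squeeze
import Pool.Agent.Helper32.CaseE
import Pool.Agent.Helper43.Berk.CaseS
import Pool.Agent.Helper44.Berk.Step

/-!
# Equidistribution (modules B17 case G, B18 approximation, B19 final assembly), MP_160e9b_an

Final assembly.  Let `B = oD e s` or `cD e s`, `ε > 0` and a tile family for `ε`.  At most one tile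
contains `ζ(e,s)`.  For large `n` let `F` be the union of the finite sets of fixed points in the
tiles (`HasFix` with `ε/m`), so `∑_F wt = ∑_F locDeg ≥ (1 - 2ε) d^n`; by `sum_wt_le`,
`∑_{RFix ∖ F} wt ≤ 2 ε d^n`, so `∑_{RFix ∖ F} locDeg ≤ 4 ε d^n` and the total mass of `μ_n` is at
most `1 + 4ε`.  The tiles inside `B` give `μ_n(B) ≥ ρ(B) - 3ε`, those disjoint from `B` give
`μ_n(Bᶜ) ≥ ρ(Bᶜ) - 3ε`.
-/

open Polynomial Topology MeasureTheory Filter

set_option linter.dupNamespace false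

namespace Pool.Agent.Helper17.Berk

universe u

variable {K : Type u} [NontriviallyNormedField K] [IsUltrametricDist K] [IsAlgClosed K]

variable {R : RatMap K} {ρ : Measure (P1 K)}

namespace Setup

open Classical in
/-- convergence on discs. -/
theorem tendsto_disc (h : Setup R ρ) (hT : ∀ ε : ℝ, 0 < ε → TileFam R ρ ε) :
    (Tendsto (fun n => mu R n (fun _ => 1)) atTop (𝓝 1)) ∧
    ∀ (e : K) (s : ℝ), 0 < s →
      Tendsto (fun n => mu R n (fun x => if x ∈ oD e s then 1 else 0)) atTop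
          (𝓝 (ρ.real (oD e s))) ∧
        Tendsto (fun n => mu R n (fun x => if x ∈ cD e s then 1 else 0)) atTop
          (𝓝 (ρ.real (cD e s))) :=
  Pool.Agent.Helper59.Berk.tendsto_disc h hT

theorem tendsto_of_tileFam (h : Setup R ρ) (hT : ∀ ε : ℝ, 0 < ε → TileFam R ρ ε)
    (φ : C(P1 K, ℝ)) : Tendsto (fun n => mu R n φ) atTop (𝓝 (∫ x, φ x ∂ρ)) :=
  Pool.Agent.Helper59.Berk.tendsto_of_step h hT φ
    (fun _ hε => Pool.Agent.Helper44.Berk.exists_step φ hε)

/-- **Main theorem.** -/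
theorem equidistribution (h : Setup R ρ) (φ : C(P1 K, ℝ)) :
    Tendsto (fun n => mu R n φ) atTop (𝓝 (∫ x, φ x ∂ρ)) := by
  by_cases hG : R.CaseG
  · exact h.tendsto_of_caseG' hG φ
  refine h.tendsto_of_tileFam (fun ε hε => ?_) φ
  by_cases hE : ∀ N : ℕ, ∃ I : Finset (K × K), N ≤ I.card ∧
      (∀ p ∈ I, p.2 ≠ 0 ∧ 0 < ρ (oD p.1 ‖p.2‖)) ∧
      ∀ p ∈ I, ∀ q ∈ I, p ≠ q → Disjoint (oD p.1 ‖p.2‖ : Set (P1 K)) (oD q.1 ‖q.2‖)
  · exact Helper32.CaseE.tileFam_of_many h hG hE hε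
  · push Not at hE
    obtain ⟨N, hN⟩ := hE
    refine Helper43.Berk.tileFam_of_few h hG (N := N) (fun I h1 h2 => ?_) hε
    by_contra hcon
    push Not at hcon
    obtain ⟨p, hp, q, hq, hne, hnd⟩ := hN I hcon.le h1
    exact hnd (h2 p hp q hq hne)

end Setup

end Pool.Agent.Helper17.Berk
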